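import Pool.Agent.Lib.MP_8d6f76_pr.Kri5

open MeasureTheory Matrix
open scoped ENNReal

namespace Pool.Agent.Lib.MP_8d6f76_pr

/-- The joint density of the eigenvalues, up to a constant, for a general exponent. -/
noncomputable def dens {n : ℕ} (e : ℕ) (z : Fin n → ℂ) : ℝ≥0∞ :=
  ENNReal.ofReal (‖(Matrix.vandermonde z).det‖ ^ 2 * ∏ i, ((1 + ‖z i‖ ^ 2) ^ e)⁻¹)

theorem measurable_dens {n : ℕ} (e : ℕ) : Measurable (dens e : (Fin n → ℂ) → ℝ≥0∞) := by
  unfold dens
  refine ENNReal.measurable_ofReal.comp (Measurable.mul ?_ ?_)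
  · refine (Measurable.norm (measurable_det_of fun i j => ?_)).pow_const 2
    simp only [Matrix.vandermonde_apply]
    fun_prop
  · refine Finset.measurable_prod _ fun i _ => ?_
    fun_prop

theorem dens_cons {n : ℕ} (e : ℕ) (z : ℂ) (w : Fin n → ℂ) :
    dens e (Fin.cons z w : Fin (n + 1) → ℂ) =
      ENNReal.ofReal (((1 + ‖z‖ ^ 2) ^ e)⁻¹) *
        (ENNReal.ofReal (‖∏ j, (z - w j)‖ ^ 2) * dens e w) := by
  have h1 : ‖(Matrix.vandermonde (Fin.cons z w : Fin (n + 1) → ℂ)).det‖ =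
      ‖∏ j, (z - w j)‖ * ‖(Matrix.vandermonde w).det‖ := by
    rw [Matrix.det_vandermonde, Matrix.det_vandermonde, Fin.prod_univ_succ, norm_mul]
    simp only [Fin.prod_Ioi_zero, Fin.prod_Ioi_succ, Fin.cons_zero, Fin.cons_succ]
    congr 1
    rw [norm_prod, norm_prod]
    exact Finset.prod_congr rfl fun j _ => norm_sub_rev _ _
  rw [dens, dens, h1, Fin.prod_univ_succ, ← ENNReal.ofReal_mul (by positivity),
    ← ENNReal.ofReal_mul (by positivity)]
  simp only [Fin.cons_zero, Fin.cons_succ]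
  congr 1
  ring

theorem krishnapur_aux (n : ℕ) : ∀ m : ℕ, ∃ c : ℝ≥0∞, ∀ Φ : Multiset ℂ → ℝ≥0∞,
    Measurable (fun z : Fin n → ℂ => Φ (Finset.univ.val.map z)) →
    ∫⁻ B : Fin n → Fin n → ℂ, ∫⁻ A, hw m Φ (A, B) =
      c * ∫⁻ z : Fin n → ℂ, Φ (Finset.univ.val.map z) * dens (n + 1 + m) z := by
  induction n with
  | zero =>
    intro m
    refine ⟨1, fun Φ _ => ?_⟩
    have h1 : ∀ A B : Fin 0 → Fin 0 → ℂ, hw m Φ (A, B) = Φ 0 := by
      intro A B
      have h2 : eigs A B = 0 := Multiset.card_eq_zero.1 (card_eigs A B)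
      simp [hw, h2, gw, fro]
    have h3 : ∀ z : Fin 0 → ℂ, Φ (Finset.univ.val.map z) * dens (0 + 1 + m) z = Φ 0 := by
      intro z
      simp [dens]
    simp only [h1, h3, lintegral_const, one_mul, volume_pi, Measure.pi_empty_univ, mul_one]
  | succ n ih =>
    intro m
    obtain ⟨c₁, h₁⟩ := deflate_left n
    obtain ⟨c₂, h₂⟩ := ih (m + 1)
    refine ⟨c₁ * ((∫⁻ b : Fin (n + 1) → ℂ, ENNReal.ofReal (sqn b ^ (m + 1) * Real.exp (-sqn b))) *
      (((∫⁻ a : Fin n → ℂ, gv a) * ∫⁻ a : Fin n → ℂ, gv a) * c₂)), fun Φ hΦ => ?_⟩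
    have hH := measurable_hw m hΦ
    have hF : Measurable fun z : Fin (n + 1) → ℂ =>
        Φ (Finset.univ.val.map z) * dens (n + 1 + 1 + m) z := hΦ.mul (measurable_dens _)
    have hF1 : Measurable fun z : ℂ => ∫⁻ w : Fin n → ℂ,
        Φ (Finset.univ.val.map (Fin.cons z w : Fin (n + 1) → ℂ)) *
          dens (n + 1 + 1 + m) (Fin.cons z w : Fin (n + 1) → ℂ) := by
      refine measurable_lint ?_
      have := hF.comp (measurable_cons (measurable_fst (α := ℂ) (β := Fin n → ℂ)) measurable_snd)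
      simpa only [Function.comp_def] using this
    rw [h₁ _ hH (fun V hV A B => hw_lm m Φ V hV A B), mul_assoc, lintegral_cons _ hF,
      ← lintegral_const_mul _ hF1]
    congr 1
    refine lintegral_congr fun z => ?_
    have hG : Measurable fun B : Fin (n + 1) → Fin (n + 1) → ℂ => ∫⁻ A, kz (hw m Φ) z B A :=
      measurable_lint (measurable_kz hH measurable_const measurable_fst measurable_snd)
    have hW : Measurable fun b : Fin (n + 1) → ℂ =>
        ENNReal.ofReal (sqn b ^ (m + 1) * Real.exp (-((1 + ‖z‖ ^ 2) * sqn b))) :=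
      ENNReal.measurable_ofReal.comp ((continuous_sqn.pow _).mul
        (Real.continuous_exp.comp (continuous_const.mul continuous_sqn).neg)).measurable
    have hae : ∀ᵐ b : Fin (n + 1) → ℂ, b ≠ 0 := by
      rw [ae_iff]
      simp
    rw [lintegral_cons _ hG, lintegral_congr_ae (hae.mono fun b hb => deflate_right m hΦ z hb),
      lintegral_mul_const _ hW, lintegral_radial, h₂ _ (measurable_phiz hΦ z)]
    have h4 : n + 1 + (m + 1) = n + 1 + 1 + m := by ring
    have h5 : ∀ w : Fin n → ℂ, Φ (Finset.univ.val.map (Fin.cons z w : Fin (n + 1) → ℂ)) *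
        dens (n + 1 + 1 + m) (Fin.cons z w : Fin (n + 1) → ℂ) =
        ENNReal.ofReal (((1 + ‖z‖ ^ 2) ^ (n + 1 + 1 + m))⁻¹) *
          (phiz Φ z (Finset.univ.val.map w) * dens (n + 1 + 1 + m) w) := by
      intro w
      rw [phiz_map, dens_cons]
      ring
    simp only [h5]
    rw [lintegral_const_mul' _ _ ENNReal.ofReal_ne_top, h4]
    ring

theorem ginibre_eq (n : ℕ) : ginibre n = (volume : Measure (Fin n → Fin n → ℂ)).withDensity
    fun A => ENNReal.ofReal (((Real.pi⁻¹) ^ n) ^ n) * gw A := by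
  have hf : Measurable fun z : ℂ => ENNReal.ofReal (Real.exp (-‖z‖ ^ 2) / Real.pi) :=
    ENNReal.measurable_ofReal.comp (by fun_prop)
  have i1 : SigmaFinite cgauss := by unfold cgauss; infer_instance
  have i1' : SigmaFinite ((volume : Measure ℂ).withDensity
      fun z : ℂ => ENNReal.ofReal (Real.exp (-‖z‖ ^ 2) / Real.pi)) := i1
  have h1 : (Measure.pi fun _ : Fin n => cgauss) = (volume : Measure (Fin n → ℂ)).withDensity
      fun x => ∏ i, ENNReal.ofReal (Real.exp (-‖x i‖ ^ 2) / Real.pi) :=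
    pi_withDensity volume _ hf
  have hg : Measurable fun x : Fin n → ℂ =>
      ∏ i, ENNReal.ofReal (Real.exp (-‖x i‖ ^ 2) / Real.pi) :=
    Finset.measurable_prod _ fun i _ => hf.comp (measurable_pi_apply i)
  have i2 : SigmaFinite ((volume : Measure (Fin n → ℂ)).withDensity
      fun x => ∏ i, ENNReal.ofReal (Real.exp (-‖x i‖ ^ 2) / Real.pi)) := by
    rw [← h1]; infer_instance
  rw [ginibre, h1, pi_withDensity volume _ hg]
  congr 1
  funext A
  have h2 : ∀ i, ∏ j, ENNReal.ofReal (Real.exp (-‖A i j‖ ^ 2) / Real.pi) =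
      ENNReal.ofReal ((Real.pi⁻¹) ^ n * Real.exp (-sqn (A i))) := by
    intro i
    rw [← ENNReal.ofReal_prod_of_nonneg (fun j _ => by positivity)]
    congr 1
    simp only [div_eq_inv_mul, Finset.prod_mul_distrib, Finset.prod_const, Finset.card_univ,
      Fintype.card_fin, sqn, ← Real.exp_sum, Finset.sum_neg_distrib]
  simp only [h2]
  rw [← ENNReal.ofReal_prod_of_nonneg (fun j _ => by positivity), gw,
    ← ENNReal.ofReal_mul (by positivity)]
  congr 1
  simp only [Finset.prod_mul_distrib, Finset.prod_const, Finset.card_univ,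
    Fintype.card_fin, fro, ← Real.exp_sum, Finset.sum_neg_distrib]

theorem exists_measurable_eigs (n : ℕ) :
    ∃ s : (Fin n → Fin n → ℂ) × (Fin n → Fin n → ℂ) → (Fin n → ℂ), Measurable s ∧
      ∀ ω, eigs ω.1 ω.2 = Finset.univ.val.map (s ω) :=
  exists_measurable_eigs' n

theorem krishnapur (n : ℕ) : ∃ c : ℝ≥0∞, ∀ Φ : Multiset ℂ → ℝ≥0∞,
    Measurable (fun z : Fin n → ℂ => Φ (Finset.univ.val.map z)) →
    ∫⁻ ω, Φ (eigs ω.1 ω.2) ∂((ginibre n).prod (ginibre n)) =
      c * ∫⁻ z : Fin n → ℂ, Φ (Finset.univ.val.map z) *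
        ENNReal.ofReal (‖(Matrix.vandermonde z).det‖ ^ 2 * ∏ i, ((1 + ‖z i‖ ^ 2) ^ (n + 1))⁻¹) := by
  obtain ⟨c, hc⟩ := krishnapur_aux n 0
  let k : ℝ≥0∞ := ENNReal.ofReal (((Real.pi⁻¹) ^ n) ^ n)
  refine ⟨k * k * c, fun Φ hΦ => ?_⟩
  have hd : Measurable fun A : Fin n → Fin n → ℂ => k * gw A := measurable_gw.const_mul k
  have hE := measurable_comp_eigs hΦ
  have hH := measurable_hw 0 hΦ
  have hd2 : Measurable fun ω : (Fin n → Fin n → ℂ) × (Fin n → Fin n → ℂ) =>
      k * gw ω.1 * (k * gw ω.2) := (hd.comp measurable_fst).mul (hd.comp measurable_snd)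
  rw [ginibre_eq, prod_withDensity hd hd, lintegral_withDensity_eq_lintegral_mul _ hd2 hE]
  have h1 : ∀ ω : (Fin n → Fin n → ℂ) × (Fin n → Fin n → ℂ),
      ((fun ω : (Fin n → Fin n → ℂ) × (Fin n → Fin n → ℂ) => k * gw ω.1 * (k * gw ω.2)) *
        fun ω : (Fin n → Fin n → ℂ) × (Fin n → Fin n → ℂ) => Φ (eigs ω.1 ω.2)) ω =
        k * k * hw 0 Φ ω := by
    intro ω
    simp only [Pi.mul_apply, hw, pow_zero, ENNReal.ofReal_one]
    ring
  rw [lintegral_congr h1, lintegral_const_mul _ hH, lintegral_prod_symm _ hH.aemeasurable,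
    hc Φ hΦ, mul_assoc (k * k)]
  rfl

end Pool.Agent.Lib.MP_8d6f76_pr
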