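import Pool.Agent.Lib.MP_8d6f76_pr.Gram
import Pool.Agent.Lib.MP_8d6f76_pr.Krishnapur

open MeasureTheory Set Complex Filter Topology
open scoped ENNReal ComplexConjugate Real Matrix

namespace Pool.Agent.Lib.MP_8d6f76_pr

/-- The Slater determinant of the orthonormal basis. -/
noncomputable def slater (m : ℕ) (z : Fin (m + 1) → ℂ) : ℂ :=
  (Matrix.of fun j i => bas m j (z i)).det

lemma measurable_slater (m : ℕ) : Measurable (slater m) :=
  measurable_det_of fun j i => (continuous_bas m j).measurable.comp (measurable_pi_apply i)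

lemma slater_expand (m : ℕ) (F : ℂ → ℂ) (z : Fin (m + 1) → ℂ) :
    ‖slater m z‖ ^ 2 • ∏ i, F (z i) =
      ∑ τ : Equiv.Perm (Fin (m + 1)), ∑ σ : Equiv.Perm (Fin (m + 1)),
        (((Equiv.Perm.sign τ : ℤ) : ℂ) * ((Equiv.Perm.sign σ : ℤ) : ℂ)) *
          ∏ i, (bas m (σ i) (z i) * conj (bas m (τ i) (z i)) * F (z i)) := by
  rw [Complex.real_smul, ← Complex.normSq_eq_norm_sq, ← Complex.mul_conj, slater,
    Matrix.det_apply']
  simp only [Matrix.of_apply, map_sum, map_mul, map_intCast, map_prod, Finset.sum_mul,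
    Finset.mul_sum, Finset.prod_mul_distrib]
  refine Finset.sum_congr rfl fun τ _ => Finset.sum_congr rfl fun σ _ => ?_
  ring

theorem andreief (m : ℕ) {F : ℂ → ℂ} (hF : Integrable F sig) :
    Integrable (fun z : Fin (m + 1) → ℂ => ‖slater m z‖ ^ 2 • ∏ i, F (z i))
      (Measure.pi fun _ => sig) ∧
    ∫ z : Fin (m + 1) → ℂ, ‖slater m z‖ ^ 2 • ∏ i, F (z i) ∂(Measure.pi fun _ => sig) =
      ((m + 1).factorial : ℂ) * (gram m F).det := by
  simp only [slater_expand]
  have hi : ∀ τ σ : Equiv.Perm (Fin (m + 1)), Integrable (fun z : Fin (m + 1) → ℂ =>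
      (((Equiv.Perm.sign τ : ℤ) : ℂ) * ((Equiv.Perm.sign σ : ℤ) : ℂ)) *
        ∏ i, (bas m (σ i) (z i) * conj (bas m (τ i) (z i)) * F (z i)))
      (Measure.pi fun _ => sig) := fun τ σ =>
    (Integrable.fintype_prod (f := fun i w => bas m (σ i) w * conj (bas m (τ i) w) * F w)
      fun i => integrable_bas_mul hF _ _).const_mul _
  refine ⟨integrable_finsetSum _ fun τ _ => integrable_finsetSum _ fun σ _ => hi τ σ, ?_⟩
  rw [integral_finsetSum _ fun τ _ => integrable_finsetSum _ fun σ _ => hi τ σ]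
  have h1 : ∀ τ : Equiv.Perm (Fin (m + 1)), ∫ z : Fin (m + 1) → ℂ,
      ∑ σ : Equiv.Perm (Fin (m + 1)),
        (((Equiv.Perm.sign τ : ℤ) : ℂ) * ((Equiv.Perm.sign σ : ℤ) : ℂ)) *
          ∏ i, (bas m (σ i) (z i) * conj (bas m (τ i) (z i)) * F (z i))
        ∂(Measure.pi fun _ => sig) = (gram m F).det := by
    intro τ
    rw [integral_finsetSum _ fun σ _ => hi τ σ]
    have h2 : ∀ σ : Equiv.Perm (Fin (m + 1)), ∫ z : Fin (m + 1) → ℂ,
        (((Equiv.Perm.sign τ : ℤ) : ℂ) * ((Equiv.Perm.sign σ : ℤ) : ℂ)) *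
          ∏ i, (bas m (σ i) (z i) * conj (bas m (τ i) (z i)) * F (z i))
        ∂(Measure.pi fun _ => sig) = ((Equiv.Perm.sign τ : ℤ) : ℂ) *
          (((Equiv.Perm.sign σ : ℤ) : ℂ) * ∏ i, (gram m F).submatrix id τ (σ i) i) := by
      intro σ
      rw [integral_const_mul, integral_fintype_prod_eq_prod
        (fun i w => bas m (σ i) w * conj (bas m (τ i) w) * F w), mul_assoc]
      rfl
    simp only [h2]
    rw [← Finset.mul_sum, ← Matrix.det_apply', Matrix.det_permute', ← mul_assoc]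
    have h3 : ((Equiv.Perm.sign τ : ℤ) : ℂ) * ((Equiv.Perm.sign τ : ℤ) : ℂ) = 1 := by
      rw [← Int.cast_mul, ← Units.val_mul, Int.units_mul_self]; simp
    rw [h3, one_mul]
  simp only [h1, Finset.sum_const, Finset.card_univ, Fintype.card_perm, Fintype.card_fin,
    nsmul_eq_mul]

lemma norm_slater_sq (m : ℕ) (z : Fin (m + 1) → ℂ) :
    ‖slater m z‖ ^ 2 = (∏ j : Fin (m + 1), (((m : ℝ) + 1) * m.choose j)) *
      (‖(Matrix.vandermonde z).det‖ ^ 2 * ∏ i, ((1 + ‖z i‖ ^ 2) ^ m)⁻¹) := by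
  have h1 : (Matrix.of fun (j : Fin (m + 1)) i => bas m j (z i)) =
      Matrix.of fun (j : Fin (m + 1)) i => ((√(((m : ℝ) + 1) * m.choose j) : ℝ) : ℂ) *
        (Matrix.of fun (j : Fin (m + 1)) i =>
          (((sw (z i) : ℝ) : ℂ) ^ m)⁻¹ * (Matrix.vandermonde z)ᵀ j i) j i := by
    ext j i
    simp only [Matrix.of_apply, bas, Matrix.transpose_apply, Matrix.vandermonde_apply]
    ring
  rw [slater, h1, Matrix.det_mul_column, Matrix.det_mul_row, Matrix.det_transpose, norm_mul,
    norm_mul, norm_prod, norm_prod, mul_pow, mul_pow, ← Finset.prod_pow, ← Finset.prod_pow,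
    mul_comm (‖(Matrix.vandermonde z).det‖ ^ 2)]
  congr 2
  · funext j
    rw [Complex.norm_real, Real.norm_of_nonneg (Real.sqrt_nonneg _), Real.sq_sqrt (by positivity)]
  · refine Finset.prod_congr rfl fun i _ => ?_
    rw [norm_inv, norm_pow, Complex.norm_real, Real.norm_of_nonneg (sw_pos _).le, ← sw_sq, inv_pow,
      ← pow_mul, ← pow_mul, mul_comm]

instance : IsProbabilityMeasure cgauss := by
  have h1 : ∫ z : ℂ, Real.exp (-‖z‖ ^ 2) / π = 1 := by
    have h2 := GaussianFourier.integral_rexp_neg_mul_sq_norm (V := ℂ) one_pos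
    simp only [neg_mul, one_mul, div_one, finrank_real_complex, Nat.cast_ofNat, ne_eq,
      OfNat.ofNat_ne_zero, not_false_eq_true, div_self, Real.rpow_one] at h2
    rw [integral_div, h2, div_self Real.pi_pos.ne']
  have h3 : Integrable fun z : ℂ => Real.exp (-‖z‖ ^ 2) / π :=
    Integrable.of_integral_ne_zero (by rw [h1]; exact one_ne_zero)
  refine ⟨?_⟩
  rw [cgauss, withDensity_apply _ MeasurableSet.univ, Measure.restrict_univ,
    ← ofReal_integral_eq_lintegral_ofReal h3 (Eventually.of_forall fun z => by positivity), h1,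
    ENNReal.ofReal_one]

instance (n : ℕ) : IsProbabilityMeasure (ginibre n) := by unfold ginibre; infer_instance

/-- The unnormalised law of the points. -/
noncomputable def nu (m : ℕ) : Measure (Fin (m + 1) → ℂ) :=
  (Measure.pi fun _ => sig).withDensity fun z => ENNReal.ofReal (‖slater m z‖ ^ 2)

lemma measurable_nuDens (m : ℕ) :
    Measurable fun z : Fin (m + 1) → ℂ => ENNReal.ofReal (‖slater m z‖ ^ 2) :=
  ((measurable_slater m).norm.pow_const 2).ennreal_ofReal

lemma nu_univ (m : ℕ) : nu m univ = (m + 1).factorial := by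
  obtain ⟨h1, h2⟩ := andreief m (integrable_const (1 : ℂ))
  simp only [Finset.prod_const_one, gram_one, Matrix.det_one, mul_one, Complex.real_smul] at h1 h2
  rw [integral_complex_ofReal] at h2
  have h3 : ∫ z : Fin (m + 1) → ℂ, ‖slater m z‖ ^ 2 ∂(Measure.pi fun _ => sig) =
      (m + 1).factorial := by exact_mod_cast h2
  have h4 : Integrable (fun z : Fin (m + 1) → ℂ => ‖slater m z‖ ^ 2) (Measure.pi fun _ => sig) :=
    Integrable.of_integral_ne_zero (by rw [h3]; exact_mod_cast (Nat.factorial_pos _).ne')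
  rw [nu, withDensity_apply _ MeasurableSet.univ, Measure.restrict_univ,
    ← ofReal_integral_eq_lintegral_ofReal h4 (Eventually.of_forall fun z => by positivity), h3,
    ENNReal.ofReal_natCast]

theorem krishnapur_nu (m : ℕ) (Φ : Multiset ℂ → ℝ≥0∞)
    (hΦ : Measurable fun z : Fin (m + 1) → ℂ => Φ (Finset.univ.val.map z)) :
    ∫⁻ ω, Φ (eigs ω.1 ω.2) ∂((ginibre (m + 1)).prod (ginibre (m + 1))) =
      ((m + 1).factorial : ℝ≥0∞)⁻¹ * ∫⁻ z, Φ (Finset.univ.val.map z) ∂(nu m) := by
  obtain ⟨c, hc⟩ := krishnapur (m + 1)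
  set K : ℝ := ∏ j : Fin (m + 1), (((m : ℝ) + 1) * m.choose j) with hK
  have hK0 : 0 < K := Finset.prod_pos fun j _ => by
    have h1 : (0 : ℝ) < m.choose j := by exact_mod_cast Nat.choose_pos (Nat.lt_succ_iff.mp j.2)
    positivity
  have i1 : SigmaFinite ((volume : Measure ℂ).withDensity
      fun z : ℂ => ENNReal.ofReal (1 / (π * (1 + ‖z‖ ^ 2) ^ 2))) :=
    (inferInstance : SigmaFinite sig)
  have h1 : (Measure.pi fun _ : Fin (m + 1) => sig) =
      (volume : Measure (Fin (m + 1) → ℂ)).withDensity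
        fun x => ∏ i, ENNReal.ofReal (1 / (π * (1 + ‖x i‖ ^ 2) ^ 2)) :=
    pi_withDensity volume _ measurable_sigDens
  have hg : Measurable fun x : Fin (m + 1) → ℂ =>
      ∏ i, ENNReal.ofReal (1 / (π * (1 + ‖x i‖ ^ 2) ^ 2)) :=
    Finset.measurable_prod _ fun i _ => measurable_sigDens.comp (measurable_pi_apply i)
  have key : ∀ Φ : Multiset ℂ → ℝ≥0∞,
      (Measurable fun z : Fin (m + 1) → ℂ => Φ (Finset.univ.val.map z)) →
      ∫⁻ ω, Φ (eigs ω.1 ω.2) ∂((ginibre (m + 1)).prod (ginibre (m + 1))) =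
        c * ENNReal.ofReal (π ^ (m + 1) / K) * ∫⁻ z, Φ (Finset.univ.val.map z) ∂(nu m) := by
    intro Φ hΦ
    rw [hc Φ hΦ, nu, h1, lintegral_withDensity_eq_lintegral_mul _ (measurable_nuDens m) hΦ,
      lintegral_withDensity_eq_lintegral_mul _ hg ((measurable_nuDens m).mul hΦ), mul_assoc,
      ← lintegral_const_mul' _ _ ENNReal.ofReal_ne_top]
    congr 1
    refine lintegral_congr fun z => ?_
    simp only [Pi.mul_apply]
    rw [← ENNReal.ofReal_prod_of_nonneg (fun i _ => by positivity), ← mul_assoc, ← mul_assoc,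
      ← ENNReal.ofReal_mul (by positivity), ← ENNReal.ofReal_mul (by positivity), mul_comm,
      norm_slater_sq, ← hK]
    congr 2
    have h2 : ∀ i, ((1 + ‖z i‖ ^ 2) ^ (m + 1 + 1))⁻¹ =
        π * ((1 / (π * (1 + ‖z i‖ ^ 2) ^ 2)) * ((1 + ‖z i‖ ^ 2) ^ m)⁻¹) := by
      intro i
      have := Real.pi_pos
      field_simp
      ring
    simp only [h2, Finset.prod_mul_distrib, Finset.prod_const, Finset.card_univ, Fintype.card_fin]
    field_simp
  have h3 := key (fun _ => 1) measurable_const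
  simp only [lintegral_const, measure_univ, one_mul, nu_univ] at h3
  rw [key Φ hΦ, ENNReal.eq_inv_of_mul_eq_one_left h3.symm]

theorem expect_eq (m : ℕ) {F : ℂ → ℂ} (hFm : Measurable F) (hF : Integrable F sig) :
    Integrable (fun ω : (Fin (m + 1) → Fin (m + 1) → ℂ) × (Fin (m + 1) → Fin (m + 1) → ℂ) =>
      ((eigs ω.1 ω.2).map F).prod) ((ginibre (m + 1)).prod (ginibre (m + 1))) ∧
    ∫ ω, ((eigs ω.1 ω.2).map F).prod ∂((ginibre (m + 1)).prod (ginibre (m + 1))) =
      (gram m F).det := by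
  obtain ⟨s, hs, hse⟩ := exists_measurable_eigs (m + 1)
  have hY : ∀ z : Fin (m + 1) → ℂ, ((Finset.univ.val.map z).map F).prod = ∏ i, F (z i) := by
    intro z
    rw [Multiset.map_map]; rfl
  have hYm : Measurable fun z : Fin (m + 1) → ℂ => ∏ i, F (z i) :=
    Finset.measurable_prod _ fun i _ => hFm.comp (measurable_pi_apply i)
  have hXm : Measurable fun ω : (Fin (m + 1) → Fin (m + 1) → ℂ) × (Fin (m + 1) → Fin (m + 1) → ℂ) =>
      ((eigs ω.1 ω.2).map F).prod := by
    simp only [hse, hY]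
    exact hYm.comp hs
  have hmap : ((ginibre (m + 1)).prod (ginibre (m + 1))).map
      (fun ω => ((eigs ω.1 ω.2).map F).prod) =
      ((((m + 1).factorial : ℝ≥0∞)⁻¹) • nu m).map fun z => ∏ i, F (z i) := by
    ext S hS
    have h1 := krishnapur_nu m (fun M => S.indicator 1 (M.map F).prod) (by
      simp only [hY]
      exact (measurable_one.indicator hS).comp hYm)
    simp only [hY] at h1
    rw [Measure.map_apply hXm hS, Measure.map_apply hYm hS, Measure.smul_apply, smul_eq_mul,
      ← lintegral_indicator_one (hXm hS), ← lintegral_indicator_one (hYm hS)]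
    exact h1
  obtain ⟨h1, h2⟩ := andreief m hF
  have h3 : ∀ z : Fin (m + 1) → ℂ, (ENNReal.ofReal (‖slater m z‖ ^ 2)).toReal = ‖slater m z‖ ^ 2 :=
    fun z => ENNReal.toReal_ofReal (by positivity)
  have h4 : Integrable (fun z : Fin (m + 1) → ℂ => ∏ i, F (z i)) (nu m) := by
    rw [nu, integrable_withDensity_iff_integrable_smul' (measurable_nuDens m) (by simp)]
    simpa only [h3] using h1
  have h5 : (((m + 1).factorial : ℝ≥0∞)⁻¹) ≠ ∞ :=
    ENNReal.inv_ne_top.mpr (by exact_mod_cast (Nat.factorial_pos _).ne')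
  constructor
  · have h6 := (integrable_map_measure (g := id) aestronglyMeasurable_id hYm.aemeasurable).mpr
      (h4.smul_measure h5)
    rw [← hmap] at h6
    exact (integrable_map_measure (g := id) aestronglyMeasurable_id hXm.aemeasurable).mp h6
  · have h6 := integral_map (μ := (ginibre (m + 1)).prod (ginibre (m + 1))) hXm.aemeasurable
      (f := id) aestronglyMeasurable_id
    have h7 := integral_map (μ := (((m + 1).factorial : ℝ≥0∞)⁻¹) • nu m) hYm.aemeasurable
      (f := id) aestronglyMeasurable_id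
    simp only [id] at h6 h7
    rw [← h6, hmap, h7, integral_smul_measure, nu,
      integral_withDensity_eq_integral_toReal_smul (measurable_nuDens m) (by simp)]
    simp only [h3]
    rw [h2, ENNReal.toReal_inv, ENNReal.toReal_natCast, Complex.real_smul]
    have h8 : (((m + 1).factorial : ℕ) : ℂ) ≠ 0 := by exact_mod_cast (Nat.factorial_pos _).ne'
    push_cast
    field_simp

end Pool.Agent.Lib.MP_8d6f76_pr
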