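import Pool.Agent.Lib.MP_8d6f76_pr.Dens

open MeasureTheory Set Complex Filter Topology
open scoped ENNReal ComplexConjugate Real Matrix

namespace Pool.Agent.Lib.MP_8d6f76_pr

variable {ι : Type*} [Fintype ι] [DecidableEq ι]

/-- The logarithmic derivative of the determinant along the interpolation. -/
noncomputable def LL (α β γ : ι → ℂ) (m : ℕ) (t : ℝ) : ℂ :=
  ∫ z, rho m (fun z => Complex.exp (GG α β (fun i => t * γ i) z)) z * GG α β γ z ∂sig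

/-- Its explicit main part. -/
noncomputable def mainT (α β γ : ι → ℂ) (m : ℕ) (t : ℝ) : ℂ :=
  ((m : ℂ) + 1 + ∑ i, t * γ i / 2) * (-(∑ i, γ i) / 2) -
    ∑ i, t * γ i / 2 * ((∑ j ∈ {i}ᶜ, γ j * (Real.log ‖α j * β i - β j * α i‖ : ℝ)) - γ i / 2 -
      γ i / 2 * (Real.log (m + 1) : ℝ))

omit [DecidableEq ι] in
lemma exists_sigma {γ : ι → ℂ} (hγ : ∀ i, -2 < (γ i).re) :
    ∃ σ : ℝ, 0 ≤ σ ∧ σ < 2 ∧ ∀ i, -σ < (γ i).re := by
  have h1 : ∀ᶠ σ in 𝓝[<] (2 : ℝ), σ ∈ Ioo (0 : ℝ) 2 := Ioo_mem_nhdsLT two_pos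
  have h2 : ∀ᶠ σ in 𝓝[<] (2 : ℝ), ∀ i, σ ∈ Ioo (-(γ i).re) 2 :=
    eventually_all.mpr fun i => Ioo_mem_nhdsLT (by linarith [hγ i])
  obtain ⟨σ, h3, h4⟩ := (h1.and h2).exists
  exact ⟨σ, h3.1.le, h3.2, fun i => by linarith [(h4 i).1]⟩

lemma etaF_nonneg (m J A' : ℕ) {R r0 E F0 Kc CR : ℝ} (hR : 0 < R) (hr0 : 0 ≤ r0) (hF0 : 0 ≤ F0)
    (hKc : 0 ≤ Kc) (hCR : 0 ≤ CR) : 0 ≤ etaF m J A' R r0 E F0 Kc CR := by
  unfold etaF; positivity

omit [DecidableEq ι] in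
lemma measurable_exp_GG (α β c : ι → ℂ) : Measurable fun z => Complex.exp (GG α β c z) :=
  (measurable_GG α β c).cexp

theorem main_asymp {κ : Type*} {l : Filter κ} [l.IsCountablyGenerated] {mm : κ → ℕ} {t : κ → ℝ}
    {t0 : ℝ} (hm : Tendsto mm l atTop) (ht : Tendsto t l (𝓝 t0))
    (ht01 : ∀ᶠ x in l, t x ∈ Icc (0 : ℝ) 1) (ht0 : t0 ∈ Icc (0 : ℝ) 1) {α β γ : ι → ℂ}
    (hu : ∀ i, ‖α i‖ ^ 2 + ‖β i‖ ^ 2 = 1) {d : ℝ} (hd : 0 < d) (hd1 : d ≤ 1)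
    (hsep : ∀ i j, i ≠ j → d ≤ ‖α i * β j - β i * α j‖) (hγ : ∀ i, -2 < (γ i).re) :
    (∀ᶠ x in l, (gram (mm x) fun z => Complex.exp (GG α β (fun i => t x * γ i) z)).det ≠ 0) ∧
    Tendsto (fun x => LL α β γ (mm x) (t x) - mainT α β γ (mm x) (t x)) l
      (𝓝 (-∑ i, t0 * γ i / 2 * (γ i / 2 * Xi (t0 * γ i / 2)))) := by
  obtain ⟨σ, hσ0, hσ2, hσ⟩ := exists_sigma hγ
  set Γ : ℝ := ∑ i, ‖γ i‖ with hΓ
  have hΓ0 : 0 ≤ Γ := Finset.sum_nonneg fun i _ => norm_nonneg _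
  obtain ⟨A', hA'⟩ := exists_nat_ge Γ
  set ε : ℝ := (2 - σ) / 2 with hε
  have hε0 : 0 < ε := by rw [hε]; linarith
  have hD0 := integrable_Dom hu hd hd1 hsep hσ0 hσ2
  have hD1 := integrable_Dom hu hd hd1 hsep (σ := σ + ε) (by linarith) (by rw [hε]; linarith)
  set F0 : ℝ := ∫ z, Dom α β σ z ∂sig with hF0
  have hF00 : 0 ≤ F0 := integral_nonneg fun z => (Real.exp_pos _).le
  set F1 : ℝ := ∫ z, Γ / ε * Dom α β (σ + ε) z ∂sig with hF1
  -- facts for each `s ∈ [0, 1]`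
  have hre : ∀ s ∈ Icc (0 : ℝ) 1, ∀ i, -σ ≤ ((s : ℂ) * γ i).re := by
    intro s hs i
    rw [re_ofReal_mul]
    nlinarith [hσ i, hs.1, hs.2]
  have hre2 : ∀ s ∈ Icc (0 : ℝ) 1, ∀ i, -σ / 2 ≤ ((s : ℂ) * γ i / 2).re := by
    intro s hs i
    rw [div_ofNat_re]
    linarith [hre s hs i]
  have hsum : ∀ s ∈ Icc (0 : ℝ) 1, ∑ i, ‖(s : ℂ) * γ i‖ ≤ Γ := by
    intro s hs
    refine Finset.sum_le_sum fun i _ => ?_
    rw [norm_mul, Complex.norm_real, Real.norm_of_nonneg hs.1]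
    exact mul_le_of_le_one_left (norm_nonneg _) hs.2
  have hf : ∀ s ∈ Icc (0 : ℝ) 1,
      Integrable (fun z => Complex.exp (GG α β (fun i => s * γ i) z)) sig := fun s hs =>
    hD0.mono' (measurable_exp_GG _ _ _).aestronglyMeasurable
      (Eventually.of_forall (norm_exp_GG_le hu (hre s hs)))
  have hfF : ∀ s ∈ Icc (0 : ℝ) 1, ∫ z, ‖Complex.exp (GG α β (fun i => s * γ i) z)‖ ∂sig ≤ F0 :=
    fun s hs => integral_mono (hf s hs).norm hD0 (norm_exp_GG_le hu (hre s hs))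
  have hfGb : ∀ s ∈ Icc (0 : ℝ) 1, ∀ z, ‖Complex.exp (GG α β (fun i => s * γ i) z)‖ *
      ‖GG α β γ z‖ ≤ Γ / ε * Dom α β (σ + ε) z := by
    intro s hs z
    rw [← Dom_mul, mul_left_comm]
    exact mul_le_mul (norm_exp_GG_le hu (hre s hs) z) (norm_GG_le hu hε0 le_rfl z) (norm_nonneg _)
      (Real.exp_pos _).le
  have hfG : ∀ s ∈ Icc (0 : ℝ) 1, Integrable
      (fun z => ‖Complex.exp (GG α β (fun i => s * γ i) z)‖ * ‖GG α β γ z‖) sig := fun s hs =>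
    (hD1.const_mul _).mono'
      ((measurable_exp_GG _ _ _).norm.mul (measurable_GG _ _ _).norm).aestronglyMeasurable
      (Eventually.of_forall fun z => by
        rw [Real.norm_of_nonneg (by positivity)]; exact hfGb s hs z)
  have hfGF : ∀ s ∈ Icc (0 : ℝ) 1,
      ∫ z, ‖Complex.exp (GG α β (fun i => s * γ i) z)‖ * ‖GG α β γ z‖ ∂sig ≤ F1 :=
    fun s hs => integral_mono (hfG s hs) (hD1.const_mul _) (hfGb s hs)
  -- parameters
  obtain ⟨L1, r, hL1, hr, hrR, S5, hP1⟩ := exists_params (R := d / 2) (by positivity) (by linarith) A'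
  set u0 : ℝ := r ^ 2 / (1 + r ^ 2) with hu0
  have hu0pos : 0 < u0 := by positivity
  have hu0r : u0 ≤ r ^ 2 := by
    rw [hu0, div_le_iff₀ (by positivity)]; nlinarith [sq_nonneg (r ^ 2)]
  have hu0h : u0 ≤ 1 / 2 := by nlinarith
  have hd2 : 0 < √u0 := Real.sqrt_pos.mpr hu0pos
  have hd21 : √u0 ≤ 1 := Real.sqrt_le_one.mpr (by linarith)
  obtain ⟨L2, r2, hL2, hr2, hr2R, -, hP2⟩ :=
    exists_params (R := √u0 / 2) (by positivity) (by linarith) A'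
  -- the exponents along the filter
  have htc : Tendsto (fun x => ((t x : ℝ) : ℂ)) l (𝓝 (t0 : ℂ)) :=
    (continuous_ofReal.tendsto _).comp ht
  have ha : ∀ i, Tendsto (fun x => (t x : ℂ) * γ i / 2) l (𝓝 (t0 * γ i / 2)) := fun i =>
    (htc.mul_const _).div_const _
  have hb : ∀ T : Finset ι, Tendsto (fun x => ∑ j ∈ T, (t x : ℂ) * γ j / 2) l
      (𝓝 (∑ j ∈ T, t0 * γ j / 2)) := fun T => tendsto_finsetSum _ fun j _ => ha j
  have ha0 : ∀ i, -1 < ((t0 : ℂ) * γ i / 2).re := fun i => by linarith [hre2 t0 ht0 i]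
  choose Cc Pc hCc hKc using fun i => eventually_norm_kap_zero_le hm (ha i) (hb {i}ᶜ) (ha0 i)
  obtain ⟨Cr, Pr, hCr, hKr⟩ := eventually_norm_kap_zero_le hm
    (tendsto_const_nhds (x := (0 : ℂ))) (hb Finset.univ) (by simp)
  set C0 : ℝ := ∑ i, Cc i + Cr with hC0
  set P0 : ℕ := ∑ i, Pc i + Pr with hP0
  have hCs : 0 ≤ ∑ i, Cc i := Finset.sum_nonneg fun i _ => hCc i
  have hC00 : 0 ≤ C0 := by positivity
  set δ : ℝ := 1 - σ / 2 with hδ
  have hδ0 : 0 < δ := by rw [hδ]; linarith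
  have hδ1 : δ ≤ 1 := by rw [hδ]; linarith
  set C : ℝ := C0 * (Real.exp (2 * Γ) / δ) with hC
  have hCpos : 0 ≤ C := by positivity
  have hone : ∀ m : ℕ, (1 : ℝ) ≤ m + 1 := fun m => by simp
  have hkc : ∀ᶠ x in l, ∀ i, ‖kap (mm x) (t x * γ i / 2) (∑ j ∈ {i}ᶜ, t x * γ j / 2) 0‖ ≤
      C0 * ((mm x : ℝ) + 1) ^ P0 := by
    refine eventually_all.mpr fun i => (hKc i).mono fun x hx => hx.trans ?_
    have h1 : Cc i ≤ C0 :=
      (Finset.single_le_sum (fun i _ => hCc i) (Finset.mem_univ i)).trans (by linarith)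
    have h2 : Pc i ≤ P0 :=
      (Finset.single_le_sum (fun i _ => Nat.zero_le _) (Finset.mem_univ i)).trans (by omega)
    exact mul_le_mul h1 (pow_le_pow_right₀ (hone _) h2) (by positivity) hC00
  have hkr : ∀ᶠ x in l, ‖kap (mm x) 0 (∑ j, t x * γ j / 2) 0‖ ≤ C0 * ((mm x : ℝ) + 1) ^ P0 :=
    hKr.mono fun x hx => hx.trans
      (mul_le_mul (by linarith) (pow_le_pow_right₀ (hone _) (by omega)) (by positivity) hC00)
  have hkap : ∀ (m : ℕ) (a b : ℂ), -σ / 2 ≤ a.re → ‖b‖ ≤ Γ → 2 * Γ < m →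
      ‖kap m a b 0‖ ≤ C0 * ((m : ℝ) + 1) ^ P0 → ∀ j, 2 * j ≤ m →
      ‖kap m a b j‖ ≤ C * ((m : ℝ) + 1) ^ (P0 + 1) * m.choose j := by
    intro m a b h1 h2 h3 h4 j hj
    refine (norm_kap_le hδ0 hδ1 (by rw [hδ]; linarith) h2 h3 hj).trans ?_
    gcongr ?_ * _
    calc ‖kap m a b 0‖ * (Real.exp (2 * Γ) * (m + 1) / δ)
        ≤ C0 * ((m : ℝ) + 1) ^ P0 * (Real.exp (2 * Γ) * (m + 1) / δ) := by gcongr
      _ = _ := by rw [hC]; ring
  set E1 : ℝ := Real.exp (Γ * (1 - Real.log d)) with hE1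
  set E2 : ℝ := Real.exp (Γ * (1 - Real.log √u0)) with hE2
  obtain ⟨Sη1, hM1⟩ := hP1 E1 F0 C ((1 + (d / 2 / 2) ^ 2) / (d / 2 / 2) ^ 2) (P0 + 1) hCpos
  obtain ⟨Sη2, hM2⟩ := hP2 E2 F0 C ((1 + (√u0 / 2 / 2) ^ 2) / (√u0 / 2 / 2) ^ 2) (P0 + 1) hCpos
  set η1 : ℕ → ℝ := fun m => etaF m (m / L1) A' (d / 2) r E1 F0 (C * ((m : ℝ) + 1) ^ (P0 + 1))
    ((1 + (d / 2 / 2) ^ 2) / (d / 2 / 2) ^ 2) with hη1
  set η2 : ℕ → ℝ := fun m => etaF m (m / L2) A' (√u0 / 2) r2 E2 F0 (C * ((m : ℝ) + 1) ^ (P0 + 1))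
    ((1 + (√u0 / 2 / 2) ^ 2) / (√u0 / 2 / 2) ^ 2) with hη2
  have hη10 : ∀ m, 0 ≤ η1 m := fun m =>
    etaF_nonneg _ _ _ (by positivity) hr.le hF00 (by positivity) (by positivity)
  have hη20 : ∀ m, 0 ≤ η2 m := fun m =>
    etaF_nonneg _ _ _ (by positivity) hr2.le hF00 (by positivity) (by positivity)
  have Sη : Small fun m => η1 m + η2 m := Sη1.add Sη2
  set M : ℕ → ℝ := fun m => 3 * (E1 ^ 2 + E2 ^ 2) * C * ((m : ℝ) + 1) ^ (P0 + 1) with hMdef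
  set η' : ℕ → ℝ := fun m => (η1 m + η2 m) + 2 * ((m : ℝ) + 1) * (η1 m + η2 m) * M m with hη'
  have Sη' : Tendsto η' atTop (𝓝 0) := by
    have h := (Sη.add ((Sη.poly_mul (P0 + 2)).const_mul (6 * (E1 ^ 2 + E2 ^ 2) * C))).tendsto
    refine h.congr fun m => ?_
    simp only [hη', hMdef]
    ring
  have hev : ∀ᶠ m : ℕ in atTop, (2 * (m / L1) + 2 * A' ≤ m ∧ 1 ≤ m / L1) ∧
      (2 * (m / L2) + 2 * A' ≤ m ∧ 1 ≤ m / L2) ∧ 2 * Γ < m ∧
      √((m : ℝ) + 1) * (η1 m + η2 m) ≤ 1 / 2 := by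
    have h1 : ∀ L, 8 ≤ L → ∀ᶠ m : ℕ in atTop, 2 * (m / L) + 2 * A' ≤ m ∧ 1 ≤ m / L := by
      intro L hL
      filter_upwards [eventually_ge_atTop (3 * A'), eventually_ge_atTop L] with m h1 h2
      have h3 : 8 * (m / L) ≤ m := (Nat.mul_le_mul_right _ hL).trans (Nat.mul_div_le m L)
      exact ⟨by omega, (Nat.le_div_iff_mul_le (by omega)).mpr (by omega)⟩
    filter_upwards [h1 L1 hL1, h1 L2 hL2,
      tendsto_natCast_atTop_atTop.eventually (eventually_gt_atTop (2 * Γ)),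
      (Sη 1).eventually (gt_mem_nhds (show (0 : ℝ) < 1 / 2 by norm_num))] with m h2 h3 h4 h5
    refine ⟨h2, h3, h4, le_trans ?_ h5.le⟩
    have := hη10 m
    have := hη20 m
    gcongr
    rw [pow_one]
    exact Real.sqrt_le_iff.mpr ⟨by positivity, by nlinarith [hone m]⟩
  have hσ' : -1 < -σ / 2 := by linarith
  have hbre : ∀ s ∈ Icc (0 : ℝ) 1, ∀ T : Finset ι, -(A' : ℝ) ≤ (∑ j ∈ T, (s : ℂ) * γ j / 2).re := by
    intro s hs T
    have := (abs_le.mp ((abs_re_le_norm _).trans (norm_half_sum_le (hsum s hs) T))).1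
    linarith
  have hbig : ∀ᶠ x in l,
      (gram (mm x) fun z => Complex.exp (GG α β (fun i => t x * γ i) z)).det ≠ 0 ∧
      ‖LL α β γ (mm x) (t x) - (((mm x : ℂ) + 1 + ∑ j, t x * γ j / 2) * (-(∑ i, γ i) / 2) -
        ∑ i, ∫ u in Ioo 0 u0, (((mm x : ℂ) + 1 + ∑ j, t x * γ j / 2) -
          PP (mm x) (mm x / L1) (t x * γ i / 2) (∑ j ∈ {i}ᶜ, t x * γ j / 2) u) *
          ell (γ i / 2) (∑ j ∈ {i}ᶜ, γ j / 2)
            (∑ j ∈ {i}ᶜ, γ j * (Real.log ‖α j * β i - β j * α i‖ : ℝ)) u)‖ ≤ η' (mm x) * F1 ∧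
      ∀ i, ‖((mm x : ℂ) + 1 + ∑ j, t x * γ j / 2) -
        PP (mm x) (mm x / L1) (t x * γ i / 2) (∑ j ∈ {i}ᶜ, t x * γ j / 2) u0‖ ≤
        2 * η' (mm x) * Real.exp (Γ * -Real.log √u0) := by
    filter_upwards [ht01, hkc, hkr, hm.eventually hev, hm.eventually hM1, hm.eventually hM2]
      with x hx h1 h2 h3 h4 h5
    obtain ⟨⟨hJ1, hJ1'⟩, ⟨hJ2, hJ2'⟩, hΓm, hsq⟩ := h3
    have := hη10 (mm x)
    have := hη20 (mm x)
    have h := density_estimate (γ := γ) (η := η1 (mm x) + η2 (mm x)) (M := M (mm x))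
      (N := (mm x : ℂ) + 1 + ∑ j, t x * γ j / 2)
      (P := fun i => PP (mm x) (mm x / L1) (t x * γ i / 2) (∑ j ∈ {i}ᶜ, t x * γ j / 2))
      hu hd hd1 hsep hr (by linarith) (hsum _ hx) (hf _ hx) (hfG _ hx) (by positivity)
      (by simp only [hMdef]; positivity) hsq
      (fun w hw => (approx_regular hu hd2 hd21 (hsum _ hx) hA' (hf _ hx) (hfF _ hx) hJ2 hJ2'
        (by positivity) (fun j hj => hkap _ _ _ (by simp; linarith)
          (norm_half_sum_le (hsum _ hx) _) hΓm h2 j (by omega)) hr2.le hr2R hw).mono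
        (by simp only [hη2]; linarith) (h5.trans (by
          simp only [hMdef]; gcongr; exact le_add_of_nonneg_left (by positivity))))
      (fun i ζ hζ hden => (approx_cap hu hd hd1 hsep (hsum _ hx) hA' (hf _ hx) (hfF _ hx) i
        (by linarith [hre2 _ hx i]) hJ1 hJ1' (by positivity)
        (fun j hj => hkap _ _ _ (hre2 _ hx i) (norm_half_sum_le (hsum _ hx) _) hΓm (h1 i) j
          (by omega)) hrR hζ hden).mono
        (by simp only [hη1]; linarith) (h4.trans (by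
          simp only [hMdef]; gcongr; exact le_add_of_nonneg_right (by positivity))))
      (fun i => measurable_PP _ _ _ _)
      (fun i => by
        simpa [ell] using integrableOn_cap (N := (mm x : ℂ) + 1 + ∑ j, t x * γ j / 2) 0 0 1 hσ'
          (by linarith) (hre2 _ hx i) (hbre _ hx {i}ᶜ) (by omega : mm x / L1 + A' ≤ mm x) hu0h)
      (fun i => integrableOn_cap _ _ _ hσ' (by linarith) (hre2 _ hx i) (hbre _ hx {i}ᶜ)
        (by omega : mm x / L1 + A' ≤ mm x) hu0h)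
    refine ⟨h.1, h.2.1.trans ?_, h.2.2⟩
    have hM0 : 0 ≤ M (mm x) := by simp only [hMdef]; positivity
    exact mul_le_mul_of_nonneg_left (hfGF _ hx) (by positivity)
  refine ⟨hbig.mono fun x hx => hx.1, ?_⟩
  have T1 : Tendsto (fun x => LL α β γ (mm x) (t x) -
      (((mm x : ℂ) + 1 + ∑ j, t x * γ j / 2) * (-(∑ i, γ i) / 2) -
        ∑ i, ∫ u in Ioo 0 u0, (((mm x : ℂ) + 1 + ∑ j, t x * γ j / 2) -
          PP (mm x) (mm x / L1) (t x * γ i / 2) (∑ j ∈ {i}ᶜ, t x * γ j / 2) u) *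
          ell (γ i / 2) (∑ j ∈ {i}ᶜ, γ j / 2)
            (∑ j ∈ {i}ᶜ, γ j * (Real.log ‖α j * β i - β j * α i‖ : ℝ)) u)) l (𝓝 0) := by
    refine squeeze_zero_norm' (hbig.mono fun x hx => hx.2.1) ?_
    simpa using (Sη'.comp hm).mul_const F1
  have S6 : Tendsto (fun m : ℕ => (C * ((m : ℝ) + 1) ^ (P0 + 1) * 2 ^ m) * ((1 + Γ) * (m + 1)) *
      (r ^ 2) ^ (m / L1) + Γ * (C0 * ((m : ℝ) + 1) ^ P0) * (1 - u0) ^ (m - A')) atTop (𝓝 0) := by
    have hy : 1 < (1 - u0)⁻¹ := by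
      rw [lt_inv_comm₀ one_pos (by linarith)]; linarith
    have h1u : 0 < 1 - u0 := by linarith
    have S7 : Small fun m => (1 - u0) ^ (m - A') := by
      refine ((small_inv_pow hy).const_mul ((1 - u0)⁻¹ ^ A')).of_le (fun m => by positivity)
        fun m => ?_
      rw [inv_pow, inv_pow, one_div, inv_inv, inv_mul_eq_div, le_div_iff₀ (by positivity),
        ← pow_add]
      exact pow_le_pow_of_le_one h1u.le (by linarith) (by omega)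
    have h := (((S5.poly_mul (P0 + 2)).const_mul (C * (1 + Γ))).add
      ((S7.poly_mul P0).const_mul (Γ * C0))).tendsto
    refine h.congr fun m => ?_
    ring
  have T2 : ∀ i, Tendsto (fun x => (∫ u in Ioo 0 u0, (((mm x : ℂ) + 1 + ∑ j, t x * γ j / 2) -
        PP (mm x) (mm x / L1) (t x * γ i / 2) (∑ j ∈ {i}ᶜ, t x * γ j / 2) u) *
        ell (γ i / 2) (∑ j ∈ {i}ᶜ, γ j / 2)
          (∑ j ∈ {i}ᶜ, γ j * (Real.log ‖α j * β i - β j * α i‖ : ℝ)) u) -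
      t x * γ i / 2 * ((∑ j ∈ {i}ᶜ, γ j * (Real.log ‖α j * β i - β j * α i‖ : ℝ)) - γ i / 2 +
        γ i / 2 * (kap (mm x) (t x * γ i / 2) (∑ j ∈ {i}ᶜ, t x * γ j / 2) 0 *
          (∫ u in Ioo (0 : ℝ) 1, (1 - (u : ℂ)) ^ mm x *
            phi (t x * γ i / 2) (∑ j ∈ {i}ᶜ, t x * γ j / 2) u *
            ((Real.log ((mm x + 1) * u) : ℝ) : ℂ)) - (Real.log (mm x + 1) : ℝ)))) l (𝓝 0) := by
    intro i
    set Cl : ℝ := ‖γ i / 2‖ + ‖∑ j ∈ {i}ᶜ, γ j / 2‖ +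
      ‖∑ j ∈ {i}ᶜ, γ j * (Real.log ‖α j * β i - β j * α i‖ : ℝ)‖ with hCl
    have hW : 0 ≤ ∫ u in Ioo (0 : ℝ) 1, wgt (-σ / 2) u :=
      setIntegral_nonneg measurableSet_Ioo fun u hu => wgt_nonneg _ hu
    have h0 := ((((Sη'.comp hm).const_mul 2).mul_const (Real.exp (Γ * -Real.log √u0))).mul_const
      Cl).add ((tendsto_firstMoment hm (ha i) (hb {i}ᶜ) (ha0 i)).const_mul
        (Γ * ‖∑ j ∈ {i}ᶜ, γ j / 2‖))
    have h00 := h0.add (((S6.comp hm).mul_const Cl).mul_const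
      (∫ u in Ioo (0 : ℝ) 1, wgt (-σ / 2) u))
    simp only [mul_zero, zero_mul, add_zero] at h00
    refine squeeze_zero_norm' ?_ h00
    filter_upwards [ht01, hkc, hm.eventually hev, hbig] with x hx h1 h3 h4
    obtain ⟨⟨hJ1, hJ1'⟩, -, hΓm, -⟩ := h3
    have han : ‖(t x : ℂ) * γ i / 2‖ ≤ Γ := by
      simpa using norm_half_sum_le (hsum _ hx) {i}
    refine (cap_estimate _ _ _ hσ' (by linarith) (hre2 _ hx i) (hbre _ hx {i}ᶜ)
      (by omega : mm x / L1 + A' ≤ mm x) hu0pos hu0h).trans ?_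
    have h5 : 0 ≤ ∫ u in Ioo (0 : ℝ) 1, (1 - u) ^ mm x *
        ‖phi (t x * γ i / 2) (∑ j ∈ {i}ᶜ, t x * γ j / 2) u‖ * u :=
      setIntegral_nonneg measurableSet_Ioo fun u hu => by
        have := hu.1.le
        have : 0 ≤ 1 - u := by linarith [hu.2]
        positivity
    have h6 : ‖kap (mm x) (t x * γ i / 2) (∑ j ∈ {i}ᶜ, t x * γ j / 2) (mm x / L1)‖ ≤
        C * ((mm x : ℝ) + 1) ^ (P0 + 1) * 2 ^ mm x := by
      refine (hkap _ _ _ (hre2 _ hx i) (norm_half_sum_le (hsum _ hx) _) hΓm (h1 i) _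
        (by omega)).trans ?_
      gcongr
      exact_mod_cast Nat.choose_le_two_pow _ _
    have h7 : ‖((mm x / L1 : ℕ) : ℂ) + t x * γ i / 2‖ ≤ (1 + Γ) * (mm x + 1) := by
      refine (norm_add_le _ _).trans ?_
      rw [Complex.norm_natCast]
      have : ((mm x / L1 : ℕ) : ℝ) ≤ mm x := by exact_mod_cast Nat.div_le_self _ _
      nlinarith [hone (mm x)]
    have h1u : 0 ≤ 1 - u0 := by linarith
    simp only [Function.comp, ← hCl]
    gcongr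
    · exact h4.2.2 i
    · exact h1 i
  have T3 : ∀ i, Tendsto (fun x => t x * γ i / 2 * (γ i / 2 *
      (kap (mm x) (t x * γ i / 2) (∑ j ∈ {i}ᶜ, t x * γ j / 2) 0 *
        (∫ u in Ioo (0 : ℝ) 1, (1 - (u : ℂ)) ^ mm x *
          phi (t x * γ i / 2) (∑ j ∈ {i}ᶜ, t x * γ j / 2) u *
          ((Real.log ((mm x + 1) * u) : ℝ) : ℂ))))) l
      (𝓝 (t0 * γ i / 2 * (γ i / 2 * Xi (t0 * γ i / 2)))) := fun i =>
    (ha i).mul ((tendsto_logMoment hm (ha i) (hb {i}ᶜ) (ha0 i)).const_mul _)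
  have T := (T1.sub (tendsto_finsetSum Finset.univ fun i _ => T2 i)).sub
    (tendsto_finsetSum Finset.univ fun i _ => T3 i)
  simp only [Finset.sum_const_zero, sub_zero, zero_sub] at T
  refine T.congr fun x => ?_
  rw [mainT, Finset.sum_sub_distrib]
  have e : ∀ (a1 a2 a3 a4 a5 a6 : ℂ), a5 - a4 + a6 = 0 →
      a1 - (a2 - a3) - (a3 - a5) - a4 = a1 - (a2 - -a6) := by
    intro a1 a2 a3 a4 a5 a6 h; linear_combination h
  rw [e _ _ _ _ _ (-_) ?_, neg_neg]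
  rw [← Finset.sum_neg_distrib, ← Finset.sum_sub_distrib, ← Finset.sum_add_distrib]
  refine Finset.sum_eq_zero fun i _ => ?_
  ring

end Pool.Agent.Lib.MP_8d6f76_pr
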