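import Pool.Agent.Lib.MP_8d6f76_pr.Kap

open MeasureTheory Set Complex Filter Topology
open scoped ENNReal ComplexConjugate Real

namespace Pool.Agent.Lib.MP_8d6f76_pr

/-- One term of the model density. -/
noncomputable def tt (m : ℕ) (a b : ℂ) (j : ℕ) (u : ℝ) : ℂ :=
  (u : ℂ) ^ j * (1 - (u : ℂ)) ^ (m - j) * phi a b u

/-- The model density. -/
noncomputable def PP (m J : ℕ) (a b : ℂ) (u : ℝ) : ℂ :=
  ∑ j ∈ Finset.range J, kap m a b j * tt m a b j u

/-- The radial test function. -/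
noncomputable def ell (c1 c2 c3 : ℂ) (u : ℝ) : ℂ :=
  c1 * (Real.log u : ℝ) + c2 * (Real.log (1 - u) : ℝ) + c3

/-- Its primitive. -/
noncomputable def Lam (c1 c2 c3 : ℂ) (u : ℝ) : ℂ :=
  c1 * ((u * Real.log u - u : ℝ) : ℂ) + c2 * ((-((1 - u) * Real.log (1 - u)) - u : ℝ) : ℂ) + c3 * u

lemma measurable_tt (m : ℕ) (a b : ℂ) (j : ℕ) : Measurable (tt m a b j) :=
  Measurable.mul (by fun_prop) (measurable_phi a b)

lemma measurable_PP (m J : ℕ) (a b : ℂ) : Measurable (PP m J a b) :=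
  Finset.measurable_sum _ fun j _ => (measurable_tt m a b j).const_mul _

lemma measurable_ell (c1 c2 c3 : ℂ) : Measurable (ell c1 c2 c3) := by unfold ell; fun_prop

lemma measurable_Lam (c1 c2 c3 : ℂ) : Measurable (Lam c1 c2 c3) := by unfold Lam; fun_prop

lemma hasDerivAt_log_one_sub {u : ℝ} (hu : u ∈ Ioo (0 : ℝ) 1) :
    HasDerivAt (fun u : ℝ => Real.log (1 - u)) (-(1 - u)⁻¹) u := by
  have h1 : (1 - u) ≠ 0 := by linarith [hu.2]
  have h := ((hasDerivAt_id u).const_sub 1).log h1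
  simp only [id] at h
  convert h using 1
  ring

lemma hasDerivAt_phi (a b : ℂ) {u : ℝ} (hu : u ∈ Ioo (0 : ℝ) 1) :
    HasDerivAt (phi a b) (phi a b u * (a / u - b / (1 - u))) u := by
  have h1 := (Real.hasDerivAt_log hu.1.ne').ofReal_comp.const_mul a
  have h2 := (hasDerivAt_log_one_sub hu).ofReal_comp.const_mul b
  have h3 := (h1.add h2).cexp
  have e : a * ((u⁻¹ : ℝ) : ℂ) + b * ((-(1 - u)⁻¹ : ℝ) : ℂ) = a / u - b / (1 - u) := by
    push_cast; ring
  rw [e] at h3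
  exact h3

lemma tt_eq_phi (m : ℕ) (a b : ℂ) (j : ℕ) {u : ℝ} (hu : u ∈ Ioo (0 : ℝ) 1) :
    tt m a b j u = phi (j + a) ((m - j : ℕ) + b) u := by
  have h1 : (0 : ℝ) < 1 - u := by linarith [hu.2]
  have e1 : (u : ℂ) ^ j = Complex.exp (j * (Real.log u : ℝ)) := by
    rw [Complex.exp_nat_mul, ← Complex.ofReal_exp, Real.exp_log hu.1]
  have e2 : (1 - (u : ℂ)) ^ (m - j) = Complex.exp ((m - j : ℕ) * (Real.log (1 - u) : ℝ)) := by
    rw [Complex.exp_nat_mul, ← Complex.ofReal_exp, Real.exp_log h1]; push_cast; rfl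
  rw [tt, e1, e2, phi, phi, ← Complex.exp_add, ← Complex.exp_add]
  congr 1; ring

lemma hasDerivAt_tt (m : ℕ) (a b : ℂ) (j : ℕ) {u : ℝ} (hu : u ∈ Ioo (0 : ℝ) 1) :
    HasDerivAt (tt m a b j)
      (tt m a b j u * ((j + a) / u - ((m - j : ℕ) + b) / (1 - u))) u := by
  rw [tt_eq_phi m a b j hu]
  refine (hasDerivAt_phi _ _ hu).congr_of_eventuallyEq ?_
  filter_upwards [Ioo_mem_nhds hu.1 hu.2] with v hv using tt_eq_phi m a b j hv

lemma hasDerivAt_PP {m J A' : ℕ} {a b : ℂ} (ha : -1 < a.re) (hb : -(A' : ℝ) ≤ b.re)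
    (hJ : J + A' ≤ m) {u : ℝ} (hu : u ∈ Ioo (0 : ℝ) 1) :
    HasDerivAt (PP m J a b) (kap m a b 0 * a * tt m a b 0 u / u -
      kap m a b J * (J + a) * tt m a b J u / u) u := by
  have h0 : (u : ℂ) ≠ 0 := by exact_mod_cast hu.1.ne'
  have h1 : (1 - (u : ℂ)) ≠ 0 := by
    have : (1 - u : ℝ) ≠ 0 := by linarith [hu.2]
    exact_mod_cast this
  have h := HasDerivAt.fun_sum (u := Finset.range J)
    fun j _ => (hasDerivAt_tt m a b j hu).const_mul (kap m a b j)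
  have e := Finset.sum_range_sub' (fun j : ℕ => kap m a b j * (j + a) * tt m a b j u / u) J
  simp only [Nat.cast_zero, zero_add] at e
  rw [← e]
  refine h.congr_deriv (Finset.sum_congr rfl fun j hj => ?_)
  have hj' := Finset.mem_range.mp hj
  have hjm : j < m := by omega
  have hre : 0 < (((m - j : ℕ) : ℂ) + b).re := by
    have : (A' : ℝ) + 1 ≤ ((m - j : ℕ) : ℝ) := by exact_mod_cast (by omega : A' + 1 ≤ m - j)
    rw [add_re, natCast_re]; linarith
  have h2 := kap_succ hjm ha hre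
  have h3 : tt m a b (j + 1) u = tt m a b j u * u / (1 - u) := by
    have : m - j = m - (j + 1) + 1 := by omega
    rw [tt, tt, this, pow_succ, pow_succ]
    field_simp
  have h4 : ((j + 1 : ℕ) : ℂ) + a = (j : ℂ) + 1 + a := by push_cast; ring
  rw [h4, h2, h3]
  field_simp

lemma hasDerivAt_Lam (c1 c2 c3 : ℂ) {u : ℝ} (hu : u ∈ Ioo (0 : ℝ) 1) :
    HasDerivAt (Lam c1 c2 c3) (ell c1 c2 c3 u) u := by
  have h0 : (1 - u) ≠ 0 := by linarith [hu.2]
  have h1 : HasDerivAt (fun u : ℝ => u * Real.log u - u) (Real.log u) u := by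
    have := ((hasDerivAt_id u).mul (Real.hasDerivAt_log hu.1.ne')).sub (hasDerivAt_id u)
    refine this.congr_deriv ?_
    simp only [id]
    field_simp [hu.1.ne']
    ring
  have h2 : HasDerivAt (fun u : ℝ => -((1 - u) * Real.log (1 - u)) - u) (Real.log (1 - u)) u := by
    have := ((((hasDerivAt_id u).const_sub 1).mul (hasDerivAt_log_one_sub hu)).neg).sub
      (hasDerivAt_id u)
    refine this.congr_deriv ?_
    simp only [id]
    field_simp
    ring
  have h3 := ((h1.ofReal_comp.const_mul c1).add (h2.ofReal_comp.const_mul c2)).add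
    ((hasDerivAt_id u).ofReal_comp.const_mul c3)
  simp only [ofReal_one, mul_one] at h3
  exact h3

lemma norm_tt_le {m j A' : ℕ} {a b : ℂ} {σ : ℝ} (ha : σ ≤ a.re) (hb : -(A' : ℝ) ≤ b.re)
    (hj : j + A' ≤ m) {u : ℝ} (hu : u ∈ Ioo (0 : ℝ) 1) :
    ‖tt m a b j u‖ ≤ u ^ j * (1 - u) ^ (m - j - A') * u ^ σ := by
  have h1 : (0 : ℝ) < 1 - u := by linarith [hu.2]
  have h0 := hu.1
  have e1 : ‖1 - (u : ℂ)‖ = 1 - u := by
    rw [← Complex.ofReal_one, ← Complex.ofReal_sub, Complex.norm_real, Real.norm_of_nonneg h1.le]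
  have e2 : m - j = m - j - A' + A' := by omega
  rw [tt, norm_mul, norm_mul, norm_pow, norm_pow, Complex.norm_real, Real.norm_of_nonneg h0.le, e1,
    phi, Complex.norm_exp]
  conv_lhs => rw [e2, pow_add]
  simp only [add_re, mul_re, ofReal_re, ofReal_im, mul_zero, sub_zero]
  rw [Real.exp_add, mul_comm a.re, mul_comm b.re, ← Real.rpow_def_of_pos h0,
    ← Real.rpow_def_of_pos h1]
  have h2 : u ^ a.re ≤ u ^ σ := Real.rpow_le_rpow_of_exponent_ge h0 hu.2.le ha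
  have h3 : (1 - u) ^ A' * (1 - u) ^ b.re ≤ 1 := by
    rw [← Real.rpow_natCast, ← Real.rpow_add h1]
    exact Real.rpow_le_one h1.le (by linarith) (by linarith)
  calc u ^ j * ((1 - u) ^ (m - j - A') * (1 - u) ^ A') * (u ^ a.re * (1 - u) ^ b.re)
      = u ^ j * (1 - u) ^ (m - j - A') * u ^ a.re * ((1 - u) ^ A' * (1 - u) ^ b.re) := by ring
    _ ≤ u ^ j * (1 - u) ^ (m - j - A') * u ^ σ * 1 := by gcongr
    _ = _ := mul_one _

/-- The integrable weight. -/
noncomputable def wgt (σ u : ℝ) : ℝ := u ^ σ * (1 - Real.log u)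

lemma wgt_nonneg (σ : ℝ) {u : ℝ} (hu : u ∈ Ioo (0 : ℝ) 1) : 0 ≤ wgt σ u := by
  have := Real.log_nonpos hu.1.le hu.2.le
  have := hu.1
  unfold wgt
  exact mul_nonneg (by positivity) (by linarith)

lemma integrableOn_rpow_Ioo {σ : ℝ} (hσ : -1 < σ) :
    IntegrableOn (fun u : ℝ => u ^ σ) (Ioo 0 1) :=
  (intervalIntegral.intervalIntegrable_rpow' hσ (a := 0) (b := 1)).1.mono_set Ioo_subset_Ioc_self

lemma integrableOn_wgt {σ : ℝ} (hσ : -1 < σ) : IntegrableOn (wgt σ) (Ioo 0 1) := by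
  set ε := (σ + 1) / 2 with hε
  have hε0 : 0 < ε := by rw [hε]; linarith
  have h := (integrableOn_rpow_Ioo hσ).add
    (((integrableOn_rpow_Ioo (σ := σ + ε) (by linarith)).add
      (integrableOn_rpow_Ioo (σ := σ + -ε) (by rw [hε]; linarith))).div_const ε)
  refine h.mono' (by
    refine Measurable.aestronglyMeasurable ?_
    unfold wgt
    fun_prop) ?_
  filter_upwards [ae_restrict_mem measurableSet_Ioo] with u hu
  have h0 := hu.1
  rw [Real.norm_of_nonneg (wgt_nonneg σ hu), wgt]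
  have h1 := abs_log_le h0 hε0
  have h2 := neg_abs_le (Real.log u)
  calc u ^ σ * (1 - Real.log u) ≤ u ^ σ * (1 + (u ^ ε + u ^ (-ε)) / ε) := by
        gcongr; linarith
    _ = _ := by simp only [Pi.add_apply, Real.rpow_add h0]; ring

lemma integrableOn_of_le_wgt {σ C u0 : ℝ} (hσ : -1 < σ) (hu0 : u0 ≤ 1) {G : ℝ → ℂ}
    (hG : Measurable G) (h : ∀ u ∈ Ioo (0 : ℝ) u0, ‖G u‖ ≤ C * wgt σ u) :
    IntegrableOn G (Ioo 0 u0) := by
  have h1 : IntegrableOn (wgt σ) (Ioo 0 u0) :=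
    (integrableOn_wgt hσ).mono_set (Ioo_subset_Ioo_right hu0)
  refine (h1.const_mul C).mono' hG.aestronglyMeasurable ?_
  filter_upwards [ae_restrict_mem measurableSet_Ioo] with u hu using h u hu

lemma norm_integral_le_wgt {σ C : ℝ} (hσ : -1 < σ) (hC : 0 ≤ C) {S : Set ℝ}
    (hS : MeasurableSet S) (hS1 : S ⊆ Ioo 0 1) {G : ℝ → ℂ}
    (h : ∀ u ∈ S, ‖G u‖ ≤ C * wgt σ u) :
    ‖∫ u in S, G u‖ ≤ C * ∫ u in Ioo (0 : ℝ) 1, wgt σ u := by
  have h1 : IntegrableOn (wgt σ) S := (integrableOn_wgt hσ).mono_set hS1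
  calc ‖∫ u in S, G u‖ ≤ ∫ u in S, C * wgt σ u := by
        refine norm_integral_le_of_norm_le (h1.const_mul C) ?_
        filter_upwards [ae_restrict_mem hS] with u hu using h u hu
    _ ≤ _ := by
        rw [integral_const_mul]
        refine mul_le_mul_of_nonneg_left ?_ hC
        refine setIntegral_mono_set (integrableOn_wgt hσ) ?_ hS1.eventuallyLE
        filter_upwards [ae_restrict_mem measurableSet_Ioo] with u hu using wgt_nonneg σ hu

lemma abs_lam2_le {u : ℝ} (hu : u ∈ Ioo (0 : ℝ) 1) :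
    |(-((1 - u) * Real.log (1 - u)) - u)| ≤ u * u := by
  have h1 : (0 : ℝ) < 1 - u := by linarith [hu.2]
  have h2 := Real.log_le_sub_one_of_pos h1
  have h3 := Real.one_sub_inv_le_log_of_pos h1
  have h4 : (1 - u) * (1 - (1 - u)⁻¹) = -u := by field_simp; ring
  have h5 := mul_le_mul_of_nonneg_left h3 h1.le
  have h6 := mul_le_mul_of_nonneg_left h2 h1.le
  have := hu.1
  rw [abs_le]
  constructor <;> nlinarith

lemma norm_Lam_le (c1 c2 c3 : ℂ) {u : ℝ} (hu : u ∈ Ioo (0 : ℝ) 1) :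
    ‖Lam c1 c2 c3 u‖ ≤ (‖c1‖ + ‖c2‖ + ‖c3‖) * (u * (1 - Real.log u)) := by
  have h0 := hu.1
  have hl := Real.log_nonpos hu.1.le hu.2.le
  have h1 : |u * Real.log u - u| ≤ u * (1 - Real.log u) := by
    rw [abs_le]; constructor <;> nlinarith
  have h2 : |(-((1 - u) * Real.log (1 - u)) - u)| ≤ u * (1 - Real.log u) :=
    (abs_lam2_le hu).trans (by nlinarith [hu.2])
  have h3 : |u| ≤ u * (1 - Real.log u) := by rw [abs_of_pos h0]; nlinarith
  rw [Lam, add_mul, add_mul]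
  refine norm_add₃_le.trans ?_
  simp only [norm_mul, Complex.norm_real, Real.norm_eq_abs]
  gcongr

lemma norm_ell_le (c1 c2 c3 : ℂ) {u : ℝ} (h0 : 0 < u) (hu : u ≤ 1 / 2) :
    ‖ell c1 c2 c3 u‖ ≤ (‖c1‖ + ‖c2‖ + ‖c3‖) * (1 - Real.log u) := by
  have hl := Real.log_nonpos h0.le (by linarith)
  have h1 : |Real.log u| ≤ 1 - Real.log u := by rw [abs_le]; constructor <;> linarith
  have h2 : |Real.log (1 - u)| ≤ 1 - Real.log u := by
    have h3 := Real.one_sub_inv_le_log_of_pos (show 0 < 1 - u by linarith)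
    have h4 : (1 - u)⁻¹ ≤ 2 := by rw [inv_le_comm₀ (by linarith) (by norm_num)]; linarith
    have h5 := Real.log_nonpos (show 0 ≤ 1 - u by linarith) (by linarith)
    rw [abs_le]; constructor <;> linarith
  rw [ell, add_mul, add_mul]
  refine norm_add₃_le.trans ?_
  simp only [norm_mul, Complex.norm_real, Real.norm_eq_abs]
  gcongr
  exact le_mul_of_one_le_right (norm_nonneg _) (by linarith)

lemma norm_PP_le {m J A' : ℕ} {a b : ℂ} {σ : ℝ} (ha : σ ≤ a.re) (hb : -(A' : ℝ) ≤ b.re)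
    (hJ : J + A' ≤ m) {u : ℝ} (hu : u ∈ Ioo (0 : ℝ) 1) :
    ‖PP m J a b u‖ ≤ (∑ j ∈ Finset.range J, ‖kap m a b j‖) * u ^ σ := by
  rw [PP, Finset.sum_mul]
  refine norm_sum_le_of_le _ fun j hj => ?_
  have hj' := Finset.mem_range.mp hj
  have h0 := hu.1
  have h1 : (0 : ℝ) < 1 - u := by linarith [hu.2]
  rw [norm_mul]
  gcongr
  refine (norm_tt_le ha hb (by omega) hu).trans ?_
  calc u ^ j * (1 - u) ^ (m - j - A') * u ^ σ ≤ 1 * 1 * u ^ σ := by
        gcongr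
        · exact pow_le_one₀ h0.le hu.2.le
        · exact pow_le_one₀ h1.le (by linarith)
    _ = _ := by ring

lemma norm_sub_PP_le {m J A' : ℕ} {a b N : ℂ} {σ : ℝ} (hσ0 : σ ≤ 0) (ha : σ ≤ a.re)
    (hb : -(A' : ℝ) ≤ b.re) (hJ : J + A' ≤ m) {u : ℝ} (hu : u ∈ Ioo (0 : ℝ) 1) :
    ‖N - PP m J a b u‖ ≤ (‖N‖ + ∑ j ∈ Finset.range J, ‖kap m a b j‖) * u ^ σ := by
  rw [add_mul]
  refine (norm_sub_le _ _).trans (add_le_add ?_ (norm_PP_le ha hb hJ hu))
  exact le_mul_of_one_le_right (norm_nonneg _)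
    (Real.one_le_rpow_of_pos_of_le_one_of_nonpos hu.1 hu.2.le hσ0)

lemma integrableOn_cap {m J A' : ℕ} {a b N : ℂ} (c1 c2 c3 : ℂ) {σ u0 : ℝ} (hσ : -1 < σ)
    (hσ0 : σ ≤ 0) (ha : σ ≤ a.re) (hb : -(A' : ℝ) ≤ b.re) (hJ : J + A' ≤ m) (hu1 : u0 ≤ 1 / 2) :
    IntegrableOn (fun u => (N - PP m J a b u) * ell c1 c2 c3 u) (Ioo 0 u0) := by
  refine integrableOn_of_le_wgt hσ (by linarith)
    (((measurable_PP m J a b).const_sub N).mul (measurable_ell c1 c2 c3))
    (C := (‖N‖ + ∑ j ∈ Finset.range J, ‖kap m a b j‖) * (‖c1‖ + ‖c2‖ + ‖c3‖)) fun u hu => ?_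
  have hu' : u ∈ Ioo (0 : ℝ) 1 := ⟨hu.1, by linarith [hu.2]⟩
  have := hu.1
  rw [norm_mul, wgt]
  calc _ ≤ ((‖N‖ + ∑ j ∈ Finset.range J, ‖kap m a b j‖) * u ^ σ) *
        ((‖c1‖ + ‖c2‖ + ‖c3‖) * (1 - Real.log u)) := by
        gcongr
        · exact norm_sub_PP_le hσ0 ha hb hJ hu'
        · exact norm_ell_le c1 c2 c3 hu.1 (by linarith [hu.2])
    _ = _ := by ring

theorem cap_estimate {m J A' : ℕ} {a b N : ℂ} (c1 c2 c3 : ℂ) {σ u0 : ℝ} (hσ : -1 < σ)
    (hσ0 : σ ≤ 0) (ha : σ ≤ a.re) (hb : -(A' : ℝ) ≤ b.re) (hJ : J + A' ≤ m) (hu0 : 0 < u0)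
    (hu1 : u0 ≤ 1 / 2) :
    ‖(∫ u in Ioo (0 : ℝ) u0, (N - PP m J a b u) * ell c1 c2 c3 u) -
      a * (c3 - c1 + c1 * (kap m a b 0 *
        (∫ u in Ioo (0 : ℝ) 1, (1 - (u : ℂ)) ^ m * phi a b u *
          ((Real.log ((m + 1) * u) : ℝ) : ℂ)) - (Real.log (m + 1) : ℝ)))‖ ≤
      ‖N - PP m J a b u0‖ * (‖c1‖ + ‖c2‖ + ‖c3‖) +
      ‖a‖ * ‖c2‖ * (‖kap m a b 0‖ * ∫ u in Ioo (0 : ℝ) 1, (1 - u) ^ m * ‖phi a b u‖ * u) +
      (‖kap m a b J‖ * ‖(J : ℂ) + a‖ * u0 ^ J + ‖a‖ * ‖kap m a b 0‖ * (1 - u0) ^ (m - A')) *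
        (‖c1‖ + ‖c2‖ + ‖c3‖) * ∫ u in Ioo (0 : ℝ) 1, wgt σ u := by
  set Cl := ‖c1‖ + ‖c2‖ + ‖c3‖ with hCl
  have hCl0 : 0 ≤ Cl := by positivity
  have ha' : -1 < a.re := by linarith
  have hsub : Ioo 0 u0 ⊆ Ioo (0 : ℝ) 1 := Ioo_subset_Ioo_right (by linarith)
  have hu01 : u0 ∈ Ioo (0 : ℝ) 1 := ⟨hu0, by linarith⟩
  set D : ℕ → ℝ → ℂ := fun j u => kap m a b j * (j + a) * tt m a b j u / u * Lam c1 c2 c3 u with hD
  have hDm : ∀ j, Measurable (D j) := fun j =>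
    (((measurable_tt m a b j).const_mul _).div (by fun_prop)).mul (measurable_Lam c1 c2 c3)
  have hDb : ∀ j, j + A' ≤ m → ∀ u ∈ Ioo (0 : ℝ) u0,
      ‖D j u‖ ≤ ‖kap m a b j‖ * ‖(j : ℂ) + a‖ * u0 ^ j * Cl * wgt σ u := by
    intro j hj u hu
    have hu' := hsub hu
    have h0 := hu.1
    have h1 : (0 : ℝ) < 1 - u := by linarith [hu'.2]
    have hl : 0 ≤ 1 - Real.log u := by linarith [Real.log_nonpos h0.le hu'.2.le]
    have h2 : ‖tt m a b j u‖ ≤ u0 ^ j * 1 * u ^ σ := by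
      refine (norm_tt_le ha hb hj hu').trans ?_
      gcongr
      · exact hu.2.le
      · exact pow_le_one₀ h1.le (by linarith)
    simp only [hD, norm_mul, norm_div, Complex.norm_real, Real.norm_of_nonneg h0.le, wgt]
    calc ‖kap m a b j‖ * ‖(j : ℂ) + a‖ * ‖tt m a b j u‖ / u * ‖Lam c1 c2 c3 u‖
        ≤ ‖kap m a b j‖ * ‖(j : ℂ) + a‖ * (u0 ^ j * 1 * u ^ σ) / u *
          (Cl * (u * (1 - Real.log u))) := by
          gcongr
          exact norm_Lam_le c1 c2 c3 hu'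
      _ = _ := by field_simp
  have hDi : ∀ j, j + A' ≤ m → IntegrableOn (D j) (Ioo 0 u0) := fun j hj =>
    integrableOn_of_le_wgt hσ (by linarith) (hDm j) (hDb j hj)
  have hI := integrableOn_cap (N := N) c1 c2 c3 hσ hσ0 ha hb hJ hu1
  have hder : ∀ u ∈ Ioo (0 : ℝ) 1, HasDerivAt (fun u => (N - PP m J a b u) * Lam c1 c2 c3 u)
      ((N - PP m J a b u) * ell c1 c2 c3 u - D 0 u + D J u) u := by
    intro u hu
    refine (((hasDerivAt_PP ha' hb hJ hu).const_sub N).mul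
      (hasDerivAt_Lam c1 c2 c3 hu)).congr_deriv ?_
    simp only [hD, Nat.cast_zero, zero_add]
    ring
  have hlim : Tendsto (fun u => (N - PP m J a b u) * Lam c1 c2 c3 u) (𝓝[>] 0) (𝓝 0) := by
    have h1 : Tendsto (fun u : ℝ => u ^ (σ + 1)) (𝓝[>] 0) (𝓝 0) := by
      have := (Real.continuousAt_rpow_const 0 (σ + 1) (Or.inr (by linarith))).tendsto
      rw [Real.zero_rpow (by linarith)] at this
      exact this.mono_left nhdsWithin_le_nhds
    have h2 := (h1.sub (tendsto_log_mul_rpow_nhdsGT_zero (r := σ + 1) (by linarith))).const_mul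
      ((‖N‖ + ∑ j ∈ Finset.range J, ‖kap m a b j‖) * Cl)
    rw [sub_zero, mul_zero] at h2
    refine squeeze_zero_norm' ?_ h2
    filter_upwards [Ioo_mem_nhdsGT (zero_lt_one' ℝ)] with u hu
    have h0 := hu.1
    have hl : 0 ≤ 1 - Real.log u := by linarith [Real.log_nonpos h0.le hu.2.le]
    rw [norm_mul]
    calc _ ≤ ((‖N‖ + ∑ j ∈ Finset.range J, ‖kap m a b j‖) * u ^ σ) *
          (Cl * (u * (1 - Real.log u))) := by
          gcongr
          · exact norm_sub_PP_le hσ0 ha hb hJ hu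
          · exact norm_Lam_le c1 c2 c3 hu
      _ = _ := by rw [Real.rpow_add h0, Real.rpow_one]; ring
  have hftc := intervalIntegral.integral_eq_sub_of_hasDerivAt_of_tendsto hu0
    (fun u hu => hder u (hsub hu))
    ((intervalIntegrable_iff_integrableOn_Ioo_of_le hu0.le).mpr
      ((hI.sub (hDi 0 (by omega))).add (hDi J hJ))) hlim
    ((hder u0 hu01).continuousAt.tendsto.mono_left nhdsWithin_le_nhds)
  have hI' : IntegrableOn (fun u => (N - PP m J a b u) * ell c1 c2 c3 u - D 0 u) (Ioo 0 u0) :=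
    hI.sub (hDi 0 (by omega))
  rw [intervalIntegral.integral_of_le hu0.le, integral_Ioc_eq_integral_Ioo,
    integral_add hI' (hDi J hJ), integral_sub hI (hDi 0 (by omega)), sub_zero] at hftc
  -- the lowest term
  set g1 : ℝ → ℂ := fun u => kap m a b 0 * a * (tt m a b 0 u * (c3 - c1 + c1 * (Real.log u : ℝ)))
    with hg1
  set g2 : ℝ → ℂ := fun u => kap m a b 0 * a * (tt m a b 0 u *
    (c2 * (((-((1 - u) * Real.log (1 - u)) - u) / u : ℝ) : ℂ))) with hg2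
  have hg1m : Measurable g1 := ((measurable_tt m a b 0).mul (by fun_prop)).const_mul _
  have hg1b : ∀ v ∈ Icc (0 : ℝ) 1, ∀ u ∈ Ioo (0 : ℝ) 1, v ≤ u →
      ‖g1 u‖ ≤ ‖a‖ * ‖kap m a b 0‖ * (1 - v) ^ (m - A') * Cl * wgt σ u := by
    intro v hv u hu hvu
    have h0 := hu.1
    have h1 : (0 : ℝ) < 1 - u := by linarith [hu.2]
    have hl := Real.log_nonpos h0.le hu.2.le
    have h2 : ‖tt m a b 0 u‖ ≤ (1 - v) ^ (m - A') * u ^ σ := by
      refine (norm_tt_le ha hb (by omega) hu).trans ?_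
      rw [pow_zero, one_mul, Nat.sub_zero]
      gcongr
    have h3 : ‖c3 - c1 + c1 * (Real.log u : ℝ)‖ ≤ Cl * (1 - Real.log u) := by
      refine (norm_add_le _ _).trans ((add_le_add (norm_sub_le _ _) le_rfl).trans ?_)
      rw [norm_mul, Complex.norm_real, Real.norm_eq_abs, abs_of_nonpos hl, hCl]
      nlinarith [norm_nonneg c1, norm_nonneg c2, norm_nonneg c3]
    have h4 : 0 ≤ 1 - v := by linarith [hv.2]
    simp only [hg1, norm_mul, wgt]
    calc ‖kap m a b 0‖ * ‖a‖ * (‖tt m a b 0 u‖ * ‖c3 - c1 + c1 * (Real.log u : ℝ)‖)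
        ≤ ‖kap m a b 0‖ * ‖a‖ * (((1 - v) ^ (m - A') * u ^ σ) * (Cl * (1 - Real.log u))) := by
          gcongr
      _ = _ := by ring
  have hg1i : IntegrableOn g1 (Ioo 0 1) :=
    integrableOn_of_le_wgt hσ le_rfl hg1m fun u hu => hg1b 0 ⟨le_rfl, zero_le_one⟩ u hu hu.1.le
  have htt : IntegrableOn (tt m a b 0) (Ioo 0 1) := by
    refine integrableOn_of_le_wgt hσ le_rfl (measurable_tt m a b 0) (C := 1) fun u hu => ?_
    have h0 := hu.1
    have h1 : (0 : ℝ) < 1 - u := by linarith [hu.2]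
    have hl := Real.log_nonpos h0.le hu.2.le
    refine (norm_tt_le ha hb (by omega) hu).trans ?_
    rw [wgt, pow_zero, one_mul, one_mul, mul_comm]
    gcongr
    exact (pow_le_one₀ h1.le (by linarith)).trans (by linarith)
  have hntt : ∀ u ∈ Ioo (0 : ℝ) 1, ‖tt m a b 0 u‖ = (1 - u) ^ m * ‖phi a b u‖ := by
    intro u hu
    have h1 : (0 : ℝ) < 1 - u := by linarith [hu.2]
    have e1 : ‖1 - (u : ℂ)‖ = 1 - u := by
      rw [← Complex.ofReal_one, ← Complex.ofReal_sub, Complex.norm_real, Real.norm_of_nonneg h1.le]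
    rw [tt, pow_zero, one_mul, Nat.sub_zero, norm_mul, norm_pow, e1]
  have hq : IntegrableOn (fun u : ℝ => (1 - u) ^ m * ‖phi a b u‖ * u) (Ioo 0 1) := by
    refine htt.norm.mono' (by
      refine Measurable.aestronglyMeasurable ?_
      exact (Measurable.mul (by fun_prop) (measurable_phi a b).norm).mul measurable_id) ?_
    filter_upwards [ae_restrict_mem measurableSet_Ioo] with u hu
    have h0 := hu.1
    have h1 : (0 : ℝ) < 1 - u := by linarith [hu.2]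
    rw [Real.norm_of_nonneg (by positivity), hntt u hu]
    exact mul_le_of_le_one_right (by positivity) hu.2.le
  have hg2b : ∀ u ∈ Ioo (0 : ℝ) 1,
      ‖g2 u‖ ≤ ‖a‖ * ‖c2‖ * ‖kap m a b 0‖ * ((1 - u) ^ m * ‖phi a b u‖ * u) := by
    intro u hu
    have h0 := hu.1
    have h1 : (0 : ℝ) < 1 - u := by linarith [hu.2]
    have h2 : |(-((1 - u) * Real.log (1 - u)) - u) / u| ≤ u := by
      rw [abs_div, abs_of_pos h0, div_le_iff₀ h0]; exact abs_lam2_le hu
    simp only [hg2, norm_mul, Complex.norm_real, Real.norm_eq_abs, hntt u hu]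
    calc ‖kap m a b 0‖ * ‖a‖ * ((1 - u) ^ m * ‖phi a b u‖ *
          (‖c2‖ * |(-((1 - u) * Real.log (1 - u)) - u) / u|))
        ≤ ‖kap m a b 0‖ * ‖a‖ * ((1 - u) ^ m * ‖phi a b u‖ * (‖c2‖ * u)) := by gcongr
      _ = _ := by ring
  have hg2m : Measurable g2 := ((measurable_tt m a b 0).mul (by fun_prop)).const_mul _
  have hg2i : IntegrableOn g2 (Ioo 0 u0) := by
    refine ((hq.mono_set hsub).const_mul (‖a‖ * ‖c2‖ * ‖kap m a b 0‖)).mono'
      hg2m.aestronglyMeasurable ?_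
    filter_upwards [ae_restrict_mem measurableSet_Ioo] with u hu using hg2b u (hsub hu)
  have hD0 : ∫ u in Ioo (0 : ℝ) u0, D 0 u =
      (∫ u in Ioo (0 : ℝ) u0, g1 u) + ∫ u in Ioo (0 : ℝ) u0, g2 u := by
    rw [← integral_add (hg1i.mono_set hsub) hg2i]
    refine setIntegral_congr_fun measurableSet_Ioo fun u hu => ?_
    have h0 : (u : ℂ) ≠ 0 := by exact_mod_cast hu.1.ne'
    simp only [hD, hg1, hg2, Lam, Nat.cast_zero, zero_add]
    push_cast
    field_simp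
    ring
  have hsplit : ∫ u in Ioo (0 : ℝ) 1, g1 u =
      (∫ u in Ioo (0 : ℝ) u0, g1 u) + ∫ u in Ico u0 1, g1 u := by
    rw [← setIntegral_union (by
        rw [Set.disjoint_left]; intro x hx hx'; linarith [hx.2, hx'.1]) measurableSet_Ico
      (hg1i.mono_set hsub) (hg1i.mono_set fun x hx => ⟨hu0.trans_le hx.1, hx.2⟩),
      Ioo_union_Ico_eq_Ioo hu0 hu01.2.le]
  have hmain : ∫ u in Ioo (0 : ℝ) 1, g1 u = a * (c3 - c1 + c1 * (kap m a b 0 *
        (∫ u in Ioo (0 : ℝ) 1, (1 - (u : ℂ)) ^ m * phi a b u *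
          ((Real.log ((m + 1) * u) : ℝ) : ℂ)) - (Real.log (m + 1) : ℝ))) := by
    have hn : (0 : ℝ) < m + 1 := by positivity
    have hk : kap m a b 0 * ∫ u in Ioo (0 : ℝ) 1, tt m a b 0 u = 1 := by
      have hre : 0 < (((m - 0 : ℕ) : ℂ) + 1 + b).re := by
        have : (A' : ℝ) ≤ ((m - 0 : ℕ) : ℝ) := by exact_mod_cast (by omega : A' ≤ m - 0)
        rw [add_re, add_re, natCast_re, one_re]; linarith
      have := kap_mul (j := 0) ha' hre
      rwa [betaIntegral_eq] at this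
    have hlog : IntegrableOn (fun u : ℝ => tt m a b 0 u * (Real.log u : ℝ)) (Ioo 0 1) := by
      refine integrableOn_of_le_wgt hσ le_rfl ((measurable_tt m a b 0).mul (by fun_prop)) (C := 1)
        fun u hu => ?_
      have h0 := hu.1
      have h1 : (0 : ℝ) < 1 - u := by linarith [hu.2]
      have hl := Real.log_nonpos h0.le hu.2.le
      have h2 : ‖tt m a b 0 u‖ ≤ u ^ σ := by
        refine (norm_tt_le ha hb (by omega) hu).trans ?_
        rw [pow_zero, one_mul]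
        exact mul_le_of_le_one_left (by positivity) (pow_le_one₀ h1.le (by linarith))
      rw [norm_mul, Complex.norm_real, Real.norm_eq_abs, abs_of_nonpos hl, wgt, one_mul]
      exact mul_le_mul h2 (by linarith) (by linarith) (by positivity)
    have e1 : ∫ u in Ioo (0 : ℝ) 1, (1 - (u : ℂ)) ^ m * phi a b u *
        ((Real.log ((m + 1) * u) : ℝ) : ℂ) = (∫ u in Ioo (0 : ℝ) 1, tt m a b 0 u * (Real.log u : ℝ)) +
        (Real.log (m + 1) : ℝ) * ∫ u in Ioo (0 : ℝ) 1, tt m a b 0 u := by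
      rw [← integral_const_mul, ← integral_add hlog (htt.const_mul _)]
      refine setIntegral_congr_fun measurableSet_Ioo fun u hu => ?_
      simp only [tt, pow_zero, one_mul, Nat.sub_zero, Real.log_mul hn.ne' hu.1.ne']
      push_cast
      ring
    have e2 : ∫ u in Ioo (0 : ℝ) 1, g1 u = kap m a b 0 * a *
        ((c3 - c1) * (∫ u in Ioo (0 : ℝ) 1, tt m a b 0 u) +
          c1 * ∫ u in Ioo (0 : ℝ) 1, tt m a b 0 u * (Real.log u : ℝ)) := by
      rw [← integral_const_mul, ← integral_const_mul,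
        ← integral_add (htt.const_mul _) (hlog.const_mul _), ← integral_const_mul]
      refine setIntegral_congr_fun measurableSet_Ioo fun u _ => ?_
      simp only [hg1]
      ring
    rw [e1, e2]
    linear_combination (a * (c3 - c1) - a * c1 * (Real.log (m + 1) : ℝ)) * hk
  have b1 : ‖(N - PP m J a b u0) * Lam c1 c2 c3 u0‖ ≤ ‖N - PP m J a b u0‖ * Cl := by
    rw [norm_mul]
    gcongr
    refine (norm_Lam_le c1 c2 c3 hu01).trans (mul_le_of_le_one_right hCl0 ?_)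
    have h3 := Real.one_sub_inv_le_log_of_pos hu0
    have h4 := mul_le_mul_of_nonneg_left h3 hu0.le
    have h5 : u0 * (1 - u0⁻¹) = u0 - 1 := by field_simp
    nlinarith
  have b2 : ‖∫ u in Ioo (0 : ℝ) u0, g2 u‖ ≤
      ‖a‖ * ‖c2‖ * (‖kap m a b 0‖ * ∫ u in Ioo (0 : ℝ) 1, (1 - u) ^ m * ‖phi a b u‖ * u) := by
    calc _ ≤ ∫ u in Ioo (0 : ℝ) u0,
          ‖a‖ * ‖c2‖ * ‖kap m a b 0‖ * ((1 - u) ^ m * ‖phi a b u‖ * u) := by
          refine norm_integral_le_of_norm_le ((hq.mono_set hsub).const_mul _) ?_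
          filter_upwards [ae_restrict_mem measurableSet_Ioo] with u hu using hg2b u (hsub hu)
      _ ≤ _ := by
          rw [integral_const_mul, ← mul_assoc]
          refine mul_le_mul_of_nonneg_left ?_ (by positivity)
          refine setIntegral_mono_set hq ?_ hsub.eventuallyLE
          filter_upwards [ae_restrict_mem measurableSet_Ioo] with u hu
          have h0 := hu.1
          have h1 : (0 : ℝ) < 1 - u := by linarith [hu.2]
          positivity
  have b3 := norm_integral_le_wgt hσ (by positivity) measurableSet_Ioo hsub (hDb J hJ)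
  have h1u : 0 ≤ 1 - u0 := by linarith
  have b4 := norm_integral_le_wgt hσ (by positivity) measurableSet_Ico
    (fun x hx => ⟨hu0.trans_le hx.1, hx.2⟩)
    fun u hu => hg1b u0 ⟨hu0.le, hu01.2.le⟩ u ⟨hu0.trans_le hu.1, hu.2⟩ hu.1
  rw [← hmain]
  have e : (∫ u in Ioo (0 : ℝ) u0, (N - PP m J a b u) * ell c1 c2 c3 u) -
      ∫ u in Ioo (0 : ℝ) 1, g1 u = (N - PP m J a b u0) * Lam c1 c2 c3 u0 +
      (∫ u in Ioo (0 : ℝ) u0, g2 u) - (∫ u in Ioo (0 : ℝ) u0, D J u) - ∫ u in Ico u0 1, g1 u := by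
    rw [hsplit, ← hftc, hD0]; ring
  rw [e]
  refine (norm_sub_le _ _).trans ((add_le_add ((norm_sub_le _ _).trans
    (add_le_add ((norm_add_le _ _).trans (add_le_add b1 b2)) b3)) b4).trans (le_of_eq ?_))
  ring

end Pool.Agent.Lib.MP_8d6f76_pr
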