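import Pool.Agent.Lib.MP_8d6f76_pr.Sections

open MeasureTheory Set Complex Polynomial
open scoped ENNReal ComplexConjugate Real

namespace Pool.Agent.Lib.MP_8d6f76_pr

lemma sum_choose_le {x : ℝ} (hx : 0 ≤ x) {m J : ℕ} (hJ : J ≤ m + 1) :
    ∑ j ∈ Finset.range J, (m.choose j : ℝ) * x ^ j ≤ (1 + x) ^ m := by
  rw [add_comm 1 x, add_pow]
  simp only [one_pow, mul_one]
  calc ∑ j ∈ Finset.range J, (m.choose j : ℝ) * x ^ j
      ≤ ∑ j ∈ Finset.range (m + 1), (m.choose j : ℝ) * x ^ j :=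
        Finset.sum_le_sum_of_subset_of_nonneg (Finset.range_subset_range.mpr hJ)
          fun j _ _ => by positivity
    _ = _ := Finset.sum_congr rfl fun j _ => mul_comm _ _

lemma pow_div_pow_anti {a b : ℝ} (ha : 0 < a) (hab : a ≤ b) {p q : ℕ} (hpq : p ≤ q) :
    b ^ p / b ^ q ≤ a ^ p / a ^ q := by
  obtain ⟨d, rfl⟩ := Nat.exists_eq_add_of_le hpq
  have hb : 0 < b := ha.trans_le hab
  have e1 : b ^ p / b ^ (p + d) = 1 / b ^ d := by rw [pow_add]; field_simp
  have e2 : a ^ p / a ^ (p + d) = 1 / a ^ d := by rw [pow_add]; field_simp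
  rw [e1, e2]
  gcongr

/-- The truncated model kernel. -/
noncomputable def ker (κ : ℕ → ℂ) (J : ℕ) (w z : ℂ) : ℂ :=
  ∑ j ∈ Finset.range J, κ j * (w * conj z) ^ j

lemma norm_ker_le {κ : ℕ → ℂ} {m J : ℕ} {Kc : ℝ} (hK : 0 ≤ Kc) (hJ : J ≤ m + 1)
    (hκ : ∀ j < J, ‖κ j‖ ≤ Kc * m.choose j) (w z : ℂ) :
    ‖ker κ J w z‖ ≤ Kc * (sw w ^ m * sw z ^ m) := by
  calc ‖ker κ J w z‖ ≤ ∑ j ∈ Finset.range J, Kc * ((m.choose j : ℝ) * (‖w‖ * ‖z‖) ^ j) := by
        refine norm_sum_le_of_le _ fun j hj => ?_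
        rw [norm_mul, norm_pow, norm_mul, Complex.norm_conj, ← mul_assoc]
        gcongr
        exact hκ j (Finset.mem_range.mp hj)
    _ ≤ Kc * (1 + ‖w‖ * ‖z‖) ^ m := by
        rw [← Finset.mul_sum]
        exact mul_le_mul_of_nonneg_left (sum_choose_le (by positivity) hJ) hK
    _ ≤ _ := by
        rw [← mul_pow]
        gcongr
        exact one_add_mul_le_sw w z

lemma norm_ker_le' {κ : ℕ → ℂ} {m J : ℕ} {Kc r0 : ℝ} (hK : 0 ≤ Kc) (hJ : J ≤ m + 1)
    (hκ : ∀ j < J, ‖κ j‖ ≤ Kc * m.choose j) {w : ℂ} (hw : ‖w‖ ≤ r0) (z : ℂ) :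
    ‖ker κ J w z‖ ≤ Kc * (1 + r0) ^ m * sw z ^ J := by
  have hr0 : 0 ≤ r0 := (norm_nonneg _).trans hw
  have hs := sw_pos z
  calc ‖ker κ J w z‖ ≤ ∑ j ∈ Finset.range J, Kc * ((m.choose j : ℝ) * r0 ^ j) * sw z ^ J := by
        refine norm_sum_le_of_le _ fun j hj => ?_
        have hj' := Finset.mem_range.mp hj
        rw [norm_mul, norm_pow, norm_mul, Complex.norm_conj, mul_pow]
        calc ‖κ j‖ * (‖w‖ ^ j * ‖z‖ ^ j) ≤ (Kc * m.choose j) * (r0 ^ j * sw z ^ j) := by
              gcongr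
              · exact hκ j hj'
              · exact norm_le_sw z
          _ ≤ (Kc * m.choose j) * (r0 ^ j * sw z ^ J) := by
              gcongr
              · exact one_le_sw z
          _ = _ := by ring
    _ ≤ _ := by
        rw [← Finset.sum_mul, ← Finset.mul_sum]
        gcongr
        exact sum_choose_le hr0 hJ

lemma norm_taylor_le {k : ℂ → ℂ} {R E : ℝ} (hR : 0 < R) (hR1 : R ≤ 1)
    (hk : DifferentiableOn ℂ k (Metric.closedBall 0 R)) (hkE : ∀ z : ℂ, ‖z‖ ≤ R → ‖k z‖ ≤ E)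
    (J : ℕ) (z : ℂ) :
    ‖∑ l ∈ Finset.range J, tc k l * z ^ l‖ ≤ J * (E * sw z ^ J / R ^ J) := by
  have hE : 0 ≤ E := (norm_nonneg _).trans (hkE 0 (by simp [hR.le]))
  have hs := sw_pos z
  calc _ ≤ ∑ _l ∈ Finset.range J, E * sw z ^ J / R ^ J := by
        refine norm_sum_le_of_le _ fun l hl => ?_
        have hl' := (Finset.mem_range.mp hl).le
        rw [norm_mul, norm_pow]
        calc ‖tc k l‖ * ‖z‖ ^ l ≤ E / R ^ l * sw z ^ l := by
              gcongr
              · exact norm_tc_le hk hR le_rfl (fun z hz => hkE z hz.le) l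
              · exact norm_le_sw z
          _ ≤ E / R ^ J * sw z ^ J :=
              mul_le_mul (div_le_div_of_nonneg_left hE (by positivity)
                (pow_le_pow_of_le_one hR.le hR1 hl')) (pow_le_pow_right₀ (one_le_sw z) hl')
                (by positivity) (by positivity)
          _ = _ := by ring
    _ = _ := by simp

/-- The approximate reproducing polynomial. -/
noncomputable def vpoly (c : ℂ) (κ : ℕ → ℂ) (k : ℂ → ℂ) (J : ℕ) (w : ℂ) : ℂ[X] :=
  C (conj c) * (∑ j ∈ Finset.range J, C (conj (κ j * w ^ j)) * X ^ j) *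
    ∑ l ∈ Finset.range J, C (tc k l) * X ^ l

lemma natDegree_vpoly (c : ℂ) (κ : ℕ → ℂ) (k : ℂ → ℂ) (J : ℕ) (w : ℂ) :
    (vpoly c κ k J w).natDegree ≤ 2 * J := by
  have h : ∀ a : ℕ → ℂ, (∑ j ∈ Finset.range J, C (a j) * X ^ j : ℂ[X]).natDegree ≤ J := by
    intro a
    refine natDegree_sum_le_of_forall_le _ _ fun j hj => ?_
    exact (natDegree_C_mul_X_pow_le _ _).trans (Finset.mem_range.mp hj).le
  unfold vpoly
  refine natDegree_mul_le.trans ?_
  have h1 := (natDegree_C_mul_le (conj c) _).trans (h fun j => conj (κ j * w ^ j))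
  have h2 := h (tc k)
  omega

lemma conj_sec_vpoly (m : ℕ) (c : ℂ) (κ : ℕ → ℂ) (k : ℂ → ℂ) (J : ℕ) (w z : ℂ) :
    conj (sec m (vpoly c κ k J w) z) =
      c * ker κ J w z * conj (∑ l ∈ Finset.range J, tc k l * z ^ l) / ((sw z : ℝ) : ℂ) ^ m := by
  simp only [sec, vpoly, ker, eval_mul, eval_C, eval_finsetSum, eval_pow, eval_X, map_div₀, map_mul,
    conj_conj, map_pow, conj_ofReal, map_sum, mul_pow, mul_assoc]

theorem local_approx {m J A' : ℕ} {R r0 E F0 Kc CR : ℝ} {f h k Rw : ℂ → ℂ} {κ : ℕ → ℂ} {w : ℂ}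
    (hR : 0 < R) (hR1 : R ≤ 1) (hr0R : r0 ≤ R / 4) (hw : ‖w‖ ≤ r0)
    (hJ : 2 * J + 2 * A' ≤ m) (hJ1 : 1 ≤ J) (hKc : 0 ≤ Kc) (hCR : 0 ≤ CR)
    (hh : DifferentiableOn ℂ h (Metric.closedBall 0 R))
    (hk : DifferentiableOn ℂ k (Metric.closedBall 0 R))
    (hhE : ∀ z : ℂ, ‖z‖ ≤ R → ‖h z‖ ≤ E) (hkE : ∀ z : ℂ, ‖z‖ ≤ R → ‖k z‖ ≤ E)
    (hh0 : h w ≠ 0) (hhw : ‖(h w)⁻¹‖ ≤ E)
    (hf : Integrable f sig) (hF0 : ∫ z, ‖f z‖ ∂sig ≤ F0)
    (hRm : AEStronglyMeasurable Rw sig) (hRi : IntegrableOn Rw (Metric.ball 0 (R / 2)) sig)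
    (hRr : ∀ θ : ℝ, ∀ z, Rw (Complex.exp (θ * I) * z) = Rw z)
    (hRb : ∀ z : ℂ, R / 2 ≤ ‖z‖ → ‖Rw z‖ ≤ CR * sw z ^ (2 * A'))
    (hfac : ∀ z : ℂ, ‖z‖ < R / 2 → z ≠ 0 → f z * conj (k z) = h z * Rw z)
    (hfw : f w * conj (k w) = h w * Rw w)
    (hκ : ∀ j < J, κ j * ∫ z, z ^ j * conj z ^ j * (Rw z / ((sw z : ℝ) : ℂ) ^ (2 * m)) ∂sig = 1)
    (hκb : ∀ j < J, ‖κ j‖ ≤ Kc * m.choose j) :
    Approx m f w (ker κ J w w * (Rw w / ((sw w : ℝ) : ℂ) ^ (2 * m)))
      (E ^ 2 * Kc * (2 * (1 / 2) ^ J * (F0 + 1) +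
          J * ((1 + r0) ^ m * (√(1 + (R / 2) ^ 2) ^ (2 * J) / √(1 + (R / 2) ^ 2) ^ m) / R ^ J) * F0 +
          CR * (1 + r0 / (R / 2)) ^ m *
            (√(1 + (R / 2) ^ 2) ^ (2 * J + 2 * A') / √(1 + (R / 2) ^ 2) ^ m)) +
        2 * E ^ 2 * √(1 + (R / 2) ^ 2) ^ m * (r0 / (R / 2)) ^ J)
      (E ^ 2 * Kc * (2 +
        J * ((1 + r0) ^ m * (√(1 + (R / 2) ^ 2) ^ (2 * J) / √(1 + (R / 2) ^ 2) ^ m) / R ^ J))) := by
  set s1 : ℝ := √(1 + (R / 2) ^ 2) with hs1
  have hs1pos : 0 < s1 := Real.sqrt_pos.mpr (by positivity)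
  set εc : ℝ := (1 + r0) ^ m * (s1 ^ (2 * J) / s1 ^ m) / R ^ J with hεc
  have hr0 : 0 ≤ r0 := (norm_nonneg _).trans hw
  have hE : 0 ≤ E := (norm_nonneg _).trans hhw
  have hF0' : 0 ≤ F0 := (integral_nonneg fun z => norm_nonneg _).trans hF0
  have hεc0 : 0 ≤ εc := by positivity
  have hJm : J ≤ m + 1 := by omega
  set c : ℂ := (h w)⁻¹ / ((sw w : ℝ) : ℂ) ^ m with hc
  have hcn : ‖c‖ * sw w ^ m ≤ E := by
    have := sw_pos w
    rw [hc, norm_div, norm_pow, Complex.norm_real, Real.norm_of_nonneg this.le,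
      div_mul_cancel₀ _ (by positivity)]
    exact hhw
  have hcE : ‖c‖ ≤ E :=
    (le_mul_of_one_le_right (norm_nonneg _) (one_le_pow₀ (one_le_sw w))).trans hcn
  set q : ℂ → ℂ := fun z => ∑ l ∈ Finset.range J, tc k l * z ^ l with hq
  -- the kernel factor
  set T : ℂ → ℂ := fun z => c * ker κ J w z / ((sw z : ℝ) : ℂ) ^ m with hT
  have hTc : Continuous T := by
    refine Continuous.div ?_ ((continuous_ofReal.comp continuous_sw).pow m)
      fun z => pow_ne_zero _ (sw_ne_zero z)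
    unfold ker
    fun_prop
  have hTn : ∀ z, ‖T z‖ = ‖c‖ * ‖ker κ J w z‖ / sw z ^ m := fun z => by
    simp only [hT, norm_div, norm_mul, norm_pow, Complex.norm_real,
      Real.norm_of_nonneg (sw_pos z).le]
  have hTb : ∀ z, ‖T z‖ ≤ E * Kc := fun z => by
    have := sw_pos z
    rw [hTn, div_le_iff₀ (by positivity)]
    calc ‖c‖ * ‖ker κ J w z‖ ≤ ‖c‖ * (Kc * (sw w ^ m * sw z ^ m)) := by
          gcongr; exact norm_ker_le hKc hJm hκb w z
      _ = ‖c‖ * sw w ^ m * Kc * sw z ^ m := by ring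
      _ ≤ _ := by gcongr
  have hv : ∀ z, conj (sec m (vpoly c κ k J w) z) = T z * conj (q z) := fun z => by
    rw [conj_sec_vpoly]; simp only [hT, hq]; ring
  have hqk : ∀ z : ℂ, ‖z‖ ≤ R / 2 → ‖k z - q z‖ ≤ 2 * E * (1 / 2) ^ J := fun z hz =>
    norm_sub_taylor_le hk hR le_rfl (fun z hz => hkE z hz.le) le_rfl (by linarith) J
  have hout : ∀ z : ℂ, R / 2 ≤ ‖z‖ → ‖T z * conj (q z)‖ ≤ E ^ 2 * Kc * (J * εc) := fun z hz => by
    have hsz := sw_pos z
    have h1 : s1 ≤ sw z := le_sw (by positivity) hz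
    have h2 : sw z ^ (2 * J) / sw z ^ m ≤ s1 ^ (2 * J) / s1 ^ m :=
      pow_div_pow_anti hs1pos h1 (by omega)
    rw [norm_mul, hTn, Complex.norm_conj]
    calc ‖c‖ * ‖ker κ J w z‖ / sw z ^ m * ‖q z‖
        ≤ E * (Kc * (1 + r0) ^ m * sw z ^ J) / sw z ^ m * (J * (E * sw z ^ J / R ^ J)) := by
          gcongr
          · exact norm_ker_le' hKc hJm hκb hw z
          · exact norm_taylor_le hR hR1 hk hkE J z
      _ = E ^ 2 * Kc * (J * ((1 + r0) ^ m * (sw z ^ (2 * J) / sw z ^ m) / R ^ J)) := by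
          ring
      _ ≤ _ := by rw [hεc]; gcongr
  have hhalf : (1 / 2 : ℝ) ^ J ≤ 1 / 2 := by
    simpa using pow_le_pow_of_le_one (by norm_num : (0 : ℝ) ≤ 1 / 2) (by norm_num) hJ1
  have hvb : ∀ z, ‖T z * conj (q z)‖ ≤ E ^ 2 * Kc * (2 + J * εc) := fun z => by
    by_cases hz : R / 2 ≤ ‖z‖
    · refine (hout z hz).trans ?_
      gcongr
      linarith
    · have hz' : ‖z‖ ≤ R / 2 := (lt_of_not_ge hz).le
      have h1 : ‖q z‖ ≤ 2 * E := by
        have h2 := hqk z hz'
        have h3 := hkE z (by linarith)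
        have h4 : ‖q z‖ ≤ ‖k z‖ + ‖k z - q z‖ := by
          simpa using norm_sub_le (k z) (k z - q z)
        nlinarith
      rw [norm_mul, Complex.norm_conj]
      calc ‖T z‖ * ‖q z‖ ≤ E * Kc * (2 * E) := by gcongr; exact hTb z
        _ = E ^ 2 * Kc * (2 + 0) := by ring
        _ ≤ _ := by gcongr; positivity
  refine ⟨vpoly c κ k J w, (natDegree_vpoly _ _ _ _ _).trans (by omega), fun z => ?_,
    fun u hu K hK => ?_, ?_⟩
  · rw [← Complex.norm_conj, hv]; exact hvb z
  · have hK0 : 0 ≤ K := (norm_nonneg _).trans (hK 0)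
    set D : Set ℂ := Metric.ball 0 (R / 2) with hD
    have hDm : MeasurableSet D := measurableSet_ball
    have hDsub : D ⊆ Metric.closedBall 0 R :=
      Metric.ball_subset_closedBall.trans (Metric.closedBall_subset_closedBall (by linarith))
    simp_rw [hv]
    have hqc : Continuous q := by simp only [hq]; fun_prop
    have hgc : Continuous fun z => sec m u z * (T z * conj (q z)) :=
      (continuous_sec m u).mul (hTc.mul (continuous_conj.comp hqc))
    have hg : Integrable (fun z => sec m u z * (T z * conj (q z)) * f z) sig := by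
      refine hf.bdd_mul (c := K * (E ^ 2 * Kc * (2 + J * εc))) hgc.aestronglyMeasurable
        (Filter.Eventually.of_forall fun z => ?_)
      rw [norm_mul]
      exact mul_le_mul (hK z) (hvb z) (norm_nonneg _) hK0
    have hg1 : IntegrableOn (fun z => sec m u z * (T z * conj (k z)) * f z) D sig :=
      IntegrableOn.continuousOn_mul_of_subset
        ((continuous_sec m u).continuousOn.mul (hTc.continuousOn.mul
          (continuous_conj.comp_continuousOn hk.continuousOn)))
        hf.integrableOn (isCompact_closedBall 0 R) hDm hDsub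
    -- outer part
    have e3 : ‖∫ z in Dᶜ, sec m u z * (T z * conj (q z)) * f z ∂sig‖ ≤
        K * (E ^ 2 * Kc * (J * εc)) * F0 := by
      calc _ ≤ ∫ z in Dᶜ, K * (E ^ 2 * Kc * (J * εc)) * ‖f z‖ ∂sig := by
            refine norm_integral_le_of_norm_le (hf.norm.const_mul _).integrableOn ?_
            filter_upwards [ae_restrict_mem hDm.compl] with z hz
            have hz' : R / 2 ≤ ‖z‖ := by simpa [hD] using hz
            rw [norm_mul, norm_mul]
            gcongr
            · exact hK z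
            · exact hout z hz'
        _ ≤ ∫ z, K * (E ^ 2 * Kc * (J * εc)) * ‖f z‖ ∂sig :=
            setIntegral_le_integral (hf.norm.const_mul _)
              (Filter.Eventually.of_forall fun z => by positivity)
        _ ≤ _ := by rw [integral_const_mul]; gcongr
    -- Taylor error of `k`
    have e2 : ‖∫ z in D, sec m u z * (T z * conj (q z)) * f z ∂sig -
        ∫ z in D, sec m u z * (T z * conj (k z)) * f z ∂sig‖ ≤
        K * (E * Kc * (2 * E * (1 / 2) ^ J)) * F0 := by
      rw [← integral_sub hg.integrableOn hg1]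
      calc _ ≤ ∫ z in D, K * (E * Kc * (2 * E * (1 / 2) ^ J)) * ‖f z‖ ∂sig := by
            refine norm_integral_le_of_norm_le (hf.norm.const_mul _).integrableOn ?_
            filter_upwards [ae_restrict_mem hDm] with z hz
            have hz' : ‖z‖ ≤ R / 2 := (mem_ball_zero_iff.mp hz).le
            have e : sec m u z * (T z * conj (q z)) * f z - sec m u z * (T z * conj (k z)) * f z =
                -(sec m u z * (T z * conj (k z - q z)) * f z) := by rw [map_sub]; ring
            rw [e, norm_neg, norm_mul, norm_mul, norm_mul, Complex.norm_conj]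
            gcongr
            · exact hK z
            · exact hTb z
            · exact hqk z hz'
        _ ≤ ∫ z, K * (E * Kc * (2 * E * (1 / 2) ^ J)) * ‖f z‖ ∂sig :=
            setIntegral_le_integral (hf.norm.const_mul _)
              (Filter.Eventually.of_forall fun z => by positivity)
        _ ≤ _ := by rw [integral_const_mul]; gcongr
    -- the model term
    set ψ : ℂ → ℂ := fun z => Rw z / ((sw z : ℝ) : ℂ) ^ (2 * m) with hψ
    have hswc : Continuous fun z => (((sw z : ℝ) : ℂ) ^ (2 * m))⁻¹ :=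
      ((continuous_ofReal.comp continuous_sw).pow _).inv₀ fun z => pow_ne_zero _ (sw_ne_zero z)
    have hψe : ψ = fun z => (((sw z : ℝ) : ℂ) ^ (2 * m))⁻¹ * Rw z := by
      funext z; simp only [hψ]; ring
    have hψm : AEStronglyMeasurable ψ sig := by
      rw [hψe]; exact hswc.aestronglyMeasurable.mul hRm
    have hψi : IntegrableOn ψ D sig := by
      rw [hψe]
      exact IntegrableOn.continuousOn_mul_of_subset hswc.continuousOn hRi
        (isCompact_closedBall 0 R) hDm hDsub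
    have hψr : ∀ θ : ℝ, ∀ z, ψ (Complex.exp (θ * I) * z) = ψ z := fun θ z => by
      simp only [hψ, hRr, sw, norm_mul, Complex.norm_exp_ofReal_mul_I, one_mul]
    set F : ℂ → ℂ := fun z => u.eval z * h z with hF
    have hFd : DifferentiableOn ℂ F (Metric.closedBall 0 R) :=
      u.differentiable.differentiableOn.mul hh
    have hFb : ∀ z : ℂ, ‖z‖ = R / 2 → ‖F z‖ ≤ K * s1 ^ m * E := fun z hz => by
      have h1 := hK z
      have hsz := sw_pos z
      rw [norm_sec, div_le_iff₀ (by positivity)] at h1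
      have h2 : sw z ≤ s1 := sw_mono (by positivity) hz.le
      simp only [hF, norm_mul]
      calc ‖u.eval z‖ * ‖h z‖ ≤ K * sw z ^ m * E := by
            gcongr; exact hhE z (by linarith)
        _ ≤ _ := by gcongr
    have e1 : ∫ z in D, sec m u z * (T z * conj (k z)) * f z ∂sig =
        ∑ j ∈ Finset.range J, c * (κ j * w ^ j) *
          (tc F j * ∫ z in D, z ^ j * conj z ^ j * ψ z ∂sig) := by
      have hi : ∀ j, IntegrableOn (fun z => F z * conj z ^ j * ψ z) D sig := fun j =>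
        IntegrableOn.continuousOn_mul_of_subset
          (hFd.continuousOn.mul (by fun_prop : Continuous fun z : ℂ => conj z ^ j).continuousOn)
          hψi (isCompact_closedBall 0 R) hDm hDsub
      have hho : ∀ j, tc F j * ∫ z in D, z ^ j * conj z ^ j * ψ z ∂sig =
          ∫ z in D, F z * conj z ^ j * ψ z ∂sig := fun j =>
        (setIntegral_holo hFd (by positivity : 0 < R / 2) (by linarith) hψm hψi hψr j).symm
      simp_rw [hho, ← integral_const_mul]
      rw [← integral_finsetSum _ fun j _ => (hi j).const_mul _]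
      refine integral_congr_ae ?_
      have h0 : ∀ᵐ z ∂sig, z ≠ (0 : ℂ) := by
        rw [ae_iff]; simp
      filter_upwards [ae_restrict_mem hDm, ae_restrict_of_ae h0] with z hz hz0
      have h1 := hfac z (mem_ball_zero_iff.mp hz) hz0
      have hs := sw_ne_zero z
      have e : sec m u z * (T z * conj (k z)) * f z = c * (F z * ψ z) * ker κ J w z := by
        have : sec m u z * (T z * conj (k z)) * f z = sec m u z * T z * (f z * conj (k z)) := by
          ring
        rw [this, h1]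
        simp only [hT, hF, hψ, sec]
        field_simp
        ring
      rw [e, ker, Finset.mul_sum]
      refine Finset.sum_congr rfl fun j _ => ?_
      ring
    have hO : ∀ j < J, ∀ z : ℂ, R / 2 ≤ ‖z‖ →
        ‖z ^ j * conj z ^ j * ψ z‖ ≤ CR * (s1 ^ (2 * J + 2 * A') / s1 ^ (2 * m)) := by
      intro j hj z hz
      have hsz := sw_pos z
      have h1 : s1 ≤ sw z := le_sw (by positivity) hz
      have h2 : sw z ^ (2 * J + 2 * A') / sw z ^ (2 * m) ≤ s1 ^ (2 * J + 2 * A') / s1 ^ (2 * m) :=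
        pow_div_pow_anti hs1pos h1 (by omega)
      simp only [hψ, norm_mul, norm_pow, norm_div, Complex.norm_conj, Complex.norm_real,
        Real.norm_of_nonneg hsz.le]
      have h3 : ‖z‖ ^ j ≤ sw z ^ J :=
        (pow_le_pow_left₀ (norm_nonneg _) (norm_le_sw z) j).trans
          (pow_le_pow_right₀ (one_le_sw z) hj.le)
      calc ‖z‖ ^ j * ‖z‖ ^ j * (‖Rw z‖ / sw z ^ (2 * m))
          ≤ sw z ^ J * sw z ^ J * (CR * sw z ^ (2 * A') / sw z ^ (2 * m)) := by
            gcongr
            exact hRb z hz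
        _ = CR * (sw z ^ (2 * J + 2 * A') / sw z ^ (2 * m)) := by ring
        _ ≤ _ := by gcongr
    have hsplit : ∀ j < J, κ j * ∫ z in D, z ^ j * conj z ^ j * ψ z ∂sig =
        1 - κ j * ∫ z in Dᶜ, z ^ j * conj z ^ j * ψ z ∂sig := by
      intro j hj
      have hcont : Continuous fun z : ℂ => z ^ j * conj z ^ j := by fun_prop
      have hiD : IntegrableOn (fun z => z ^ j * conj z ^ j * ψ z) D sig :=
        IntegrableOn.continuousOn_mul_of_subset hcont.continuousOn hψi
          (isCompact_closedBall 0 R) hDm hDsub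
      have hiO : IntegrableOn (fun z => z ^ j * conj z ^ j * ψ z) Dᶜ sig := by
        refine Measure.integrableOn_of_bounded (measure_ne_top _ _)
          (hcont.aestronglyMeasurable.mul hψm)
          (M := CR * (s1 ^ (2 * J + 2 * A') / s1 ^ (2 * m))) ?_
        filter_upwards [ae_restrict_mem hDm.compl] with z hz
        exact hO j hj z (by simpa [hD] using hz)
      have hall : Integrable (fun z => z ^ j * conj z ^ j * ψ z) sig := by
        rw [← integrableOn_univ, ← union_compl_self D]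
        exact hiD.union hiO
      have h1 := hκ j hj
      rw [← integral_add_compl hDm hall] at h1
      linear_combination h1
    have hOi : ∀ j < J, ‖∫ z in Dᶜ, z ^ j * conj z ^ j * ψ z ∂sig‖ ≤
        CR * (s1 ^ (2 * J + 2 * A') / s1 ^ (2 * m)) := by
      intro j hj
      have h1 := norm_setIntegral_le_of_norm_le_const (μ := sig) (s := Dᶜ)
        (f := fun z => z ^ j * conj z ^ j * ψ z) (measure_lt_top _ _)
        (fun z hz => hO j hj z (by simpa [hD] using hz))
      exact h1.trans (mul_le_of_le_one_right (by positivity) measureReal_le_one)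
    have hsw : sec m u w = c * F w := by
      simp only [hc, hF, sec]
      field_simp
    have e4 : ‖F w - ∑ j ∈ Finset.range J, tc F j * w ^ j‖ ≤
        2 * (K * s1 ^ m * E) * (r0 / (R / 2)) ^ J :=
      norm_sub_taylor_le hFd (by positivity : 0 < R / 2) (by linarith) hFb
        (by rw [div_le_iff₀ (by positivity)]; linarith)
        (by rw [div_mul_cancel₀ _ (by positivity)]; exact hw) J
    have e5 : ‖∑ j ∈ Finset.range J, (κ j * w ^ j) *
        (tc F j * ∫ z in Dᶜ, z ^ j * conj z ^ j * ψ z ∂sig)‖ ≤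
        Kc * (K * s1 ^ m * E) * (CR * (s1 ^ (2 * J + 2 * A') / s1 ^ (2 * m))) *
          (1 + r0 / (R / 2)) ^ m := by
      calc _ ≤ ∑ j ∈ Finset.range J, Kc * (K * s1 ^ m * E) *
            (CR * (s1 ^ (2 * J + 2 * A') / s1 ^ (2 * m))) *
            ((m.choose j : ℝ) * (r0 / (R / 2)) ^ j) := by
            refine norm_sum_le_of_le _ fun j hj => ?_
            have hj' := Finset.mem_range.mp hj
            rw [norm_mul, norm_mul, norm_mul, norm_pow]
            calc ‖κ j‖ * ‖w‖ ^ j * (‖tc F j‖ * ‖∫ z in Dᶜ, z ^ j * conj z ^ j * ψ z ∂sig‖)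
                ≤ (Kc * m.choose j) * r0 ^ j * ((K * s1 ^ m * E) / (R / 2) ^ j *
                  (CR * (s1 ^ (2 * J + 2 * A') / s1 ^ (2 * m)))) := by
                  gcongr
                  · exact hκb j hj'
                  · exact norm_tc_le hFd (by positivity) (by linarith) hFb j
                  · exact hOi j hj'
              _ = _ := by
                  rw [div_pow r0]
                  generalize (R / 2) ^ j = y
                  ring
        _ ≤ _ := by
            rw [← Finset.mul_sum]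
            gcongr
            exact sum_choose_le (by positivity) hJm
    have e6 : ∫ z in D, sec m u z * (T z * conj (k z)) * f z ∂sig - sec m u w =
        -(c * (F w - ∑ j ∈ Finset.range J, tc F j * w ^ j)) -
        c * ∑ j ∈ Finset.range J, (κ j * w ^ j) *
          (tc F j * ∫ z in Dᶜ, z ^ j * conj z ^ j * ψ z ∂sig) := by
      rw [e1, hsw, mul_sub, Finset.mul_sum, Finset.mul_sum]
      have : ∑ j ∈ Finset.range J, c * (κ j * w ^ j) *
          (tc F j * ∫ z in D, z ^ j * conj z ^ j * ψ z ∂sig) =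
          ∑ j ∈ Finset.range J, (c * (tc F j * w ^ j) - c * ((κ j * w ^ j) *
            (tc F j * ∫ z in Dᶜ, z ^ j * conj z ^ j * ψ z ∂sig))) := by
        refine Finset.sum_congr rfl fun j hj => ?_
        linear_combination (c * w ^ j * tc F j) * hsplit j (Finset.mem_range.mp hj)
      rw [this, Finset.sum_sub_distrib]
      ring
    have e7 : ‖∫ z in D, sec m u z * (T z * conj (k z)) * f z ∂sig - sec m u w‖ ≤
        E * (2 * (K * s1 ^ m * E) * (r0 / (R / 2)) ^ J) +
        E * (Kc * (K * s1 ^ m * E) * (CR * (s1 ^ (2 * J + 2 * A') / s1 ^ (2 * m))) *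
          (1 + r0 / (R / 2)) ^ m) := by
      rw [e6]
      refine (norm_sub_le _ _).trans (add_le_add ?_ ?_)
      · rw [norm_neg, norm_mul]; gcongr
      · rw [norm_mul]; gcongr
    rw [← integral_add_compl hDm hg]
    have e8 : s1 ^ m * (s1 ^ (2 * J + 2 * A') / s1 ^ (2 * m)) = s1 ^ (2 * J + 2 * A') / s1 ^ m := by
      rw [two_mul m, pow_add s1 m m]; field_simp
    have tri : ∀ a b a' y : ℂ, ‖a + b - y‖ ≤ ‖a - a'‖ + ‖b‖ + ‖a' - y‖ := fun a b a' y => by
      have : a + b - y = (a - a') + b + (a' - y) := by ring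
      rw [this]; exact norm_add₃_le
    refine (tri _ _ _ _).trans ((add_le_add (add_le_add e2 e3) e7).trans ?_)
    have e9 : E * (Kc * (K * s1 ^ m * E) * (CR * (s1 ^ (2 * J + 2 * A') / s1 ^ (2 * m))) *
        (1 + r0 / (R / 2)) ^ m) = E ^ 2 * Kc * (CR * (1 + r0 / (R / 2)) ^ m *
          (s1 ^ (2 * J + 2 * A') / s1 ^ m)) * K := by
      rw [← e8]; ring
    rw [e9]
    have : 0 ≤ E ^ 2 * Kc * (2 * (1 / 2) ^ J) * K := by positivity
    generalize (1 / 2 : ℝ) ^ J = y1 at this ⊢
    generalize (CR * (1 + r0 / (R / 2)) ^ m * (s1 ^ (2 * J + 2 * A') / s1 ^ m)) = y2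
    generalize (r0 / (R / 2)) ^ J = y3
    generalize s1 ^ m = y4
    linarith [this]
  · rw [hv]
    have hs := sw_ne_zero w
    have e : T w * conj (q w) * f w - ker κ J w w * (Rw w / ((sw w : ℝ) : ℂ) ^ (2 * m)) =
        -(T w * conj (k w - q w) * f w) := by
      have h1 : ker κ J w w * (Rw w / ((sw w : ℝ) : ℂ) ^ (2 * m)) = T w * (h w * Rw w) := by
        simp only [hT, hc]
        field_simp
        ring
      rw [h1, ← hfw, map_sub]
      ring
    rw [e, norm_neg, norm_mul, norm_mul, Complex.norm_conj]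
    gcongr
    calc ‖T w‖ * ‖k w - q w‖ ≤ E * Kc * (2 * E * (1 / 2) ^ J) := by
          gcongr
          · exact hTb w
          · exact hqk w (by linarith)
      _ = E ^ 2 * Kc * (2 * (1 / 2) ^ J * (0 + 1) + 0 + 0) + 0 := by ring
      _ ≤ _ := by gcongr <;> positivity

end Pool.Agent.Lib.MP_8d6f76_pr
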