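import Pool.Agent.Lib.MP_8d6f76_pr.Cap
import Pool.Agent.Lib.MP_8d6f76_pr.Local

open MeasureTheory Set Complex Filter Topology
open scoped ENNReal ComplexConjugate Real

namespace Pool.Agent.Lib.MP_8d6f76_pr

/-- Half chordal distance from `z` to the point given by the unit vector `(α, β)`. -/
noncomputable def dl (α β z : ℂ) : ℝ := ‖β * z - α‖ / sw z

lemma dl_nonneg (α β z : ℂ) : 0 ≤ dl α β z := div_nonneg (norm_nonneg _) (sw_pos z).le

lemma continuous_dl (α β : ℂ) : Continuous (dl α β) :=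
  Continuous.div (by fun_prop) continuous_sw fun z => (sw_pos z).ne'

lemma norm_den_add {α β : ℂ} (h : ‖α‖ ^ 2 + ‖β‖ ^ 2 = 1) (z : ℂ) :
    ‖β * z - α‖ ^ 2 + ‖den (-α) (conj β) z‖ ^ 2 = sw z ^ 2 := by
  have := norm_sq_mob_add (unit_inv h) z
  rwa [conj_conj, ← sub_eq_add_neg, ← sw_sq] at this

lemma dl_le_one {α β : ℂ} (h : ‖α‖ ^ 2 + ‖β‖ ^ 2 = 1) (z : ℂ) : dl α β z ≤ 1 := by
  rw [dl, div_le_one (sw_pos z)]
  refine (pow_le_pow_iff_left₀ (norm_nonneg _) (sw_pos z).le two_ne_zero).mp ?_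
  rw [← norm_den_add h z]
  exact le_add_of_nonneg_right (by positivity)

lemma log_dl_nonpos {α β : ℂ} (h : ‖α‖ ^ 2 + ‖β‖ ^ 2 = 1) (z : ℂ) : Real.log (dl α β z) ≤ 0 :=
  Real.log_nonpos (dl_nonneg _ _ _) (dl_le_one h z)

lemma unit_rot {α β a b : ℂ} (h : ‖α‖ ^ 2 + ‖β‖ ^ 2 = 1) (h' : ‖a‖ ^ 2 + ‖b‖ ^ 2 = 1) :
    ‖α * b - β * a‖ ^ 2 + ‖β * conj b + α * conj a‖ ^ 2 = 1 := by
  simp only [← Complex.normSq_eq_norm_sq, Complex.normSq_apply] at h h' ⊢
  simp only [add_re, sub_re, mul_re, conj_re, conj_im, add_im, sub_im, mul_im]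
  linear_combination (a.re * a.re + a.im * a.im + (b.re * b.re + b.im * b.im)) * h + h'

lemma dl_mob (α β : ℂ) {a b : ℂ} (h' : ‖a‖ ^ 2 + ‖b‖ ^ 2 = 1) {ζ : ℂ} (hj : den a b ζ ≠ 0) :
    dl α β (mob a b ζ) = dl (α * b - β * a) (β * conj b + α * conj a) ζ := by
  have e : β * mob a b ζ - α =
      ((β * conj b + α * conj a) * ζ - (α * b - β * a)) / den a b ζ := by
    rw [mob]; field_simp; rw [den]; ring
  have := norm_pos_iff.mpr hj
  have := sw_pos ζ
  rw [dl, dl, sw_mob h' hj, e, norm_div]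
  field_simp

lemma dl_zero_sq {β : ℂ} (hβ : ‖β‖ = 1) (z : ℂ) : dl 0 β z ^ 2 = UU z := by
  rw [dl, sub_zero, norm_mul, hβ, one_mul, div_pow, sw_sq, UU]

lemma log_dl_zero {β : ℂ} (hβ : ‖β‖ = 1) (z : ℂ) :
    Real.log (dl 0 β z) = Real.log (UU z) / 2 := by
  rw [← dl_zero_sq hβ, Real.log_pow]; push_cast; ring

lemma dl_mob_self_sq {a b : ℂ} (h : ‖a‖ ^ 2 + ‖b‖ ^ 2 = 1) {ζ : ℂ} (hj : den a b ζ ≠ 0) :
    dl a b (mob a b ζ) ^ 2 = UU ζ := by
  have h1 : a * b - b * a = 0 := by ring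
  have h2 : b * conj b + a * conj a = 1 := by rw [add_comm]; exact unit_mul_conj h
  rw [dl_mob a b h hj, h1, h2, dl_zero_sq norm_one]

lemma cross_le {α β α' β' : ℂ} (h : ‖α‖ ^ 2 + ‖β‖ ^ 2 = 1) (h' : ‖α'‖ ^ 2 + ‖β'‖ ^ 2 = 1)
    (z : ℂ) : ‖α * β' - β * α'‖ ≤ dl α β z + dl α' β' z := by
  have hs := sw_pos z
  have k : ∀ {α β : ℂ}, ‖α‖ ^ 2 + ‖β‖ ^ 2 = 1 → ‖α * conj z + β‖ ≤ sw z := by
    intro α β h
    have e : α * conj z + β = conj (den (-α) (conj β) z) := by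
      simp [den]
    rw [e, Complex.norm_conj]
    refine (pow_le_pow_iff_left₀ (norm_nonneg _) hs.le two_ne_zero).mp ?_
    rw [← norm_den_add h z]
    exact le_add_of_nonneg_left (by positivity)
  have e : (α * β' - β * α') * (((sw z ^ 2 : ℝ)) : ℂ) =
      (β' * z - α') * (α * conj z + β) - (β * z - α) * (α' * conj z + β') := by
    rw [sw_sq, ← Complex.normSq_eq_norm_sq]
    push_cast
    rw [← Complex.mul_conj]
    ring
  have h1 := congrArg norm e
  rw [norm_mul, Complex.norm_real, Real.norm_of_nonneg (by positivity)] at h1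
  have h2 : ‖α * β' - β * α'‖ * sw z ^ 2 ≤ ‖β' * z - α'‖ * sw z + ‖β * z - α‖ * sw z := by
    rw [h1]
    refine (norm_sub_le _ _).trans ?_
    rw [norm_mul, norm_mul]
    gcongr
    · exact k h
    · exact k h'
  rw [dl, dl, ← add_div, le_div_iff₀ hs]
  nlinarith

lemma ball_eq_preimage {r : ℝ} (hr : 0 < r) :
    Metric.ball (0 : ℂ) r = UU ⁻¹' Iio (r ^ 2 / (1 + r ^ 2)) := by
  ext z
  simp only [mem_ball_zero_iff, mem_preimage, mem_Iio, UU]
  rw [div_lt_div_iff₀ (by positivity) (by positivity)]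
  have := norm_nonneg z
  constructor <;> intro h <;> nlinarith

lemma measurePreserving_UU_ball {r : ℝ} (hr : 0 < r) :
    MeasurePreserving UU (sig.restrict (Metric.ball (0 : ℂ) r))
      (volume.restrict (Ioo (0 : ℝ) (r ^ 2 / (1 + r ^ 2)))) := by
  have h := measurePreserving_UU.restrict_preimage (s := Iio (r ^ 2 / (1 + r ^ 2))) measurableSet_Iio
  have h1 : r ^ 2 / (1 + r ^ 2) ≤ 1 := by rw [div_le_one (by positivity)]; linarith
  have e : Iio (r ^ 2 / (1 + r ^ 2)) ∩ Ioo (0 : ℝ) 1 = Ioo 0 (r ^ 2 / (1 + r ^ 2)) := by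
    ext x
    exact ⟨fun h => ⟨h.2.1, h.1⟩, fun h => ⟨h.2, h.1, h.2.trans_le h1⟩⟩
  rwa [Measure.restrict_restrict measurableSet_Iio, e, ← ball_eq_preimage hr] at h

lemma integrableOn_ball_UU {r : ℝ} (hr : 0 < r) {G : ℝ → ℂ}
    (hG : IntegrableOn G (Ioo 0 (r ^ 2 / (1 + r ^ 2)))) :
    IntegrableOn (fun z => G (UU z)) (Metric.ball 0 r) sig :=
  (measurePreserving_UU_ball hr).integrable_comp_of_integrable hG

lemma setIntegral_ball_UU {r : ℝ} (hr : 0 < r) {G : ℝ → ℂ} (hG : Measurable G) :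
    ∫ z in Metric.ball (0 : ℂ) r, G (UU z) ∂sig = ∫ u in Ioo 0 (r ^ 2 / (1 + r ^ 2)), G u := by
  rw [← (measurePreserving_UU_ball hr).map_eq,
    integral_map continuous_UU.measurable.aemeasurable hG.aestronglyMeasurable]

variable {ι : Type*} [Fintype ι]

/-- The total logarithmic potential of a charge configuration. -/
noncomputable def GG (α β c : ι → ℂ) (z : ℂ) : ℂ :=
  ∑ i, c i * (Real.log (dl (α i) (β i) z) : ℝ)

lemma measurable_GG (α β c : ι → ℂ) : Measurable (GG α β c) := by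
  unfold GG
  refine Finset.measurable_sum _ fun i _ => ?_
  exact (continuous_ofReal.measurable.comp
    (Real.measurable_log.comp (continuous_dl _ _).measurable)).const_mul _

lemma GG_mob (α β c : ι → ℂ) {a b : ℂ} (h' : ‖a‖ ^ 2 + ‖b‖ ^ 2 = 1) {ζ : ℂ} (hj : den a b ζ ≠ 0) :
    GG α β c (mob a b ζ) =
      GG (fun i => α i * b - β i * a) (fun i => β i * conj b + α i * conj a) c ζ := by
  simp only [GG, dl_mob _ _ h' hj]

lemma GG_smul (α β c : ι → ℂ) (t : ℂ) (z : ℂ) :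
    GG α β (fun i => t * c i) z = t * GG α β c z := by
  simp only [GG, Finset.mul_sum, mul_assoc]

lemma integrable_exp_neg_log_dl {α β : ℂ} (h : ‖α‖ ^ 2 + ‖β‖ ^ 2 = 1) {σ : ℝ} (hσ : σ < 2) :
    Integrable (fun z => Real.exp (-σ * Real.log (dl α β z))) sig := by
  have hm : Measurable fun z => Real.exp (-σ * Real.log (dl α β z)) :=
    ((Real.measurable_log.comp (continuous_dl _ _).measurable).const_mul _).exp
  rw [← (measurePreserving_mob h).integrable_comp hm.aestronglyMeasurable]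
  have h1 := measurePreserving_UU.integrable_comp_of_integrable
    (integrableOn_rpow_Ioo (σ := -σ / 2) (by linarith))
  refine h1.congr ?_
  have h0 : ∀ᵐ z ∂sig, z ≠ (0 : ℂ) := by rw [ae_iff]; simp
  filter_upwards [ae_sig_den_ne h, h0] with ζ hζ hζ0
  simp only [Function.comp]
  rw [Real.rpow_def_of_pos (UU_pos hζ0), ← dl_mob_self_sq h hζ, Real.log_pow]
  congr 1
  push_cast
  ring

lemma integral_log_dl {α β : ℂ} (h : ‖α‖ ^ 2 + ‖β‖ ^ 2 = 1) :
    ∫ z, Real.log (dl α β z) ∂sig = -1 / 2 := by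
  have hm : Measurable fun z => Real.log (dl α β z) :=
    Real.measurable_log.comp (continuous_dl _ _).measurable
  rw [← integral_comp_mp (measurePreserving_mob h) hm.aestronglyMeasurable]
  have e : ∫ ζ, Real.log (dl α β (mob α β ζ)) ∂sig = ∫ ζ, Real.log (UU ζ) / 2 ∂sig := by
    refine integral_congr_ae ?_
    filter_upwards [ae_sig_den_ne h] with ζ hζ
    rw [← dl_mob_self_sq h hζ, Real.log_pow]; push_cast; ring
  rw [e, integral_UU (fun u => Real.log u / 2), integral_div, ← integral_Ioc_eq_integral_Ioo,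
    ← intervalIntegral.integral_of_le zero_le_one, integral_log]
  simp

/-- The dominating function. -/
noncomputable def Dom (α β : ι → ℂ) (σ : ℝ) (z : ℂ) : ℝ :=
  Real.exp (σ * ∑ i, -Real.log (dl (α i) (β i) z))

lemma integrable_Dom {α β : ι → ℂ} (hu : ∀ i, ‖α i‖ ^ 2 + ‖β i‖ ^ 2 = 1) {d0 : ℝ} (hd0 : 0 < d0)
    (hd1 : d0 ≤ 1) (hsep : ∀ i j, i ≠ j → d0 ≤ ‖α i * β j - β i * α j‖) {σ : ℝ} (hσ0 : 0 ≤ σ)
    (hσ : σ < 2) : Integrable (Dom α β σ) sig := by
  classical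
  set Λ : ℝ := -Real.log (d0 / 2) with hΛ
  have hΛ0 : 0 ≤ Λ := by
    rw [hΛ]; linarith [Real.log_nonpos (show 0 ≤ d0 / 2 by positivity) (by linarith)]
  have hint : Integrable (fun z => Real.exp (σ * (Fintype.card ι * Λ)) *
      (1 + ∑ i, Real.exp (-σ * Real.log (dl (α i) (β i) z)))) sig :=
    ((integrable_const 1).add
      (integrable_finsetSum _ fun i _ => integrable_exp_neg_log_dl (hu i) hσ)).const_mul _
  refine hint.mono' ?_ (Eventually.of_forall fun z => ?_)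
  · refine Measurable.aestronglyMeasurable ?_
    unfold Dom
    refine ((Finset.measurable_sum _ fun i _ => ?_).const_mul _).exp
    exact (Real.measurable_log.comp (continuous_dl _ _).measurable).neg
  · have hfar : ∀ j, d0 / 2 ≤ dl (α j) (β j) z → -Real.log (dl (α j) (β j) z) ≤ Λ := fun j hj => by
      rw [hΛ]; linarith [Real.log_le_log (by positivity) hj]
    have hpos : 0 ≤ ∑ i, Real.exp (-σ * Real.log (dl (α i) (β i) z)) :=
      Finset.sum_nonneg fun i _ => (Real.exp_pos _).le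
    rw [Dom, Real.norm_of_nonneg (Real.exp_pos _).le]
    by_cases hall : ∀ j, d0 / 2 ≤ dl (α j) (β j) z
    · have : ∑ i, -Real.log (dl (α i) (β i) z) ≤ Fintype.card ι * Λ := by
        simpa using Finset.sum_le_card_nsmul Finset.univ _ Λ fun j _ => hfar j (hall j)
      refine le_trans ?_ (le_mul_of_one_le_right (Real.exp_pos _).le (by linarith))
      gcongr
    · push Not at hall
      obtain ⟨i, hi⟩ := hall
      have h1 : ∑ j, -Real.log (dl (α j) (β j) z) ≤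
          Fintype.card ι * Λ + -Real.log (dl (α i) (β i) z) := by
        rw [← Finset.sum_erase_add _ _ (Finset.mem_univ i)]
        gcongr
        have h2 := Finset.sum_le_card_nsmul (Finset.univ.erase i) _ Λ fun j hj => hfar j (by
          have h3 := cross_le (hu i) (hu j) z
          have h4 := hsep i j (Finset.ne_of_mem_erase hj).symm
          linarith)
        refine h2.trans ?_
        rw [nsmul_eq_mul]
        gcongr
        exact Finset.card_le_univ _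
      calc Real.exp (σ * ∑ j, -Real.log (dl (α j) (β j) z))
          ≤ Real.exp (σ * (Fintype.card ι * Λ + -Real.log (dl (α i) (β i) z))) := by gcongr
        _ = Real.exp (σ * (Fintype.card ι * Λ)) * Real.exp (-σ * Real.log (dl (α i) (β i) z)) := by
            rw [← Real.exp_add]; congr 1; ring
        _ ≤ _ := by
            gcongr
            refine le_trans ?_ (le_add_of_nonneg_left zero_le_one)
            exact Finset.single_le_sum (f := fun i => Real.exp (-σ * Real.log (dl (α i) (β i) z)))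
              (fun i _ => (Real.exp_pos _).le) (Finset.mem_univ i)

lemma norm_exp_GG_le {α β c : ι → ℂ} (hu : ∀ i, ‖α i‖ ^ 2 + ‖β i‖ ^ 2 = 1) {σ : ℝ}
    (hc : ∀ i, -σ ≤ (c i).re) (z : ℂ) : ‖Complex.exp (GG α β c z)‖ ≤ Dom α β σ z := by
  rw [Complex.norm_exp, Dom, GG, re_sum, Finset.mul_sum]
  gcongr with i
  simp only [mul_re, ofReal_re, ofReal_im, mul_zero, sub_zero]
  nlinarith [log_dl_nonpos (hu i) z, hc i]

lemma norm_GG_le {α β c : ι → ℂ} (hu : ∀ i, ‖α i‖ ^ 2 + ‖β i‖ ^ 2 = 1) {Γ ε : ℝ} (hε : 0 < ε)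
    (hΓ : ∑ i, ‖c i‖ ≤ Γ) (z : ℂ) : ‖GG α β c z‖ ≤ Γ / ε * Dom α β ε z := by
  have hnn : ∀ i, 0 ≤ -Real.log (dl (α i) (β i) z) := fun i => by
    linarith [log_dl_nonpos (hu i) z]
  have hΓ0 : 0 ≤ Γ := (Finset.sum_nonneg fun i _ => norm_nonneg _).trans hΓ
  set S := ∑ i, -Real.log (dl (α i) (β i) z) with hS
  have h1 : ‖GG α β c z‖ ≤ Γ * S := by
    calc ‖GG α β c z‖ ≤ ∑ i, ‖c i‖ * S := by
          refine norm_sum_le_of_le _ fun i _ => ?_
          rw [norm_mul, Complex.norm_real, Real.norm_eq_abs, abs_of_nonpos (log_dl_nonpos (hu i) z)]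
          gcongr
          exact Finset.single_le_sum (f := fun i => -Real.log (dl (α i) (β i) z))
            (fun i _ => hnn i) (Finset.mem_univ i)
      _ ≤ Γ * S := by
          rw [← Finset.sum_mul]
          exact mul_le_mul_of_nonneg_right hΓ (Finset.sum_nonneg fun i _ => hnn i)
  have h2 : S ≤ Real.exp (ε * S) / ε := by
    rw [le_div_iff₀ hε]; linarith [Real.add_one_le_exp (ε * S)]
  calc _ ≤ Γ * S := h1
    _ ≤ Γ * (Real.exp (ε * S) / ε) := by gcongr
    _ = _ := by rw [Dom]; ring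

lemma Dom_mul (α β : ι → ℂ) (σ ε : ℝ) (z : ℂ) :
    Dom α β σ z * Dom α β ε z = Dom α β (σ + ε) z := by
  rw [Dom, Dom, Dom, ← Real.exp_add, add_mul]

/-- Holomorphic part of the potential near the origin. -/
noncomputable def Hol (α β c : ι → ℂ) (T : Finset ι) (z : ℂ) : ℂ :=
  ∑ j ∈ T, c j * Complex.log (1 - z * (β j / α j)) / 2

omit [Fintype ι] in
lemma norm_arg_le {α β : ℂ} (h : ‖α‖ ^ 2 + ‖β‖ ^ 2 = 1) {d : ℝ} (hd : 0 < d) (hα : d ≤ ‖α‖)
    {z : ℂ} (hz : ‖z‖ ≤ d / 2) : ‖z * (β / α)‖ ≤ 1 / 2 := by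
  have hβ : ‖β‖ ≤ 1 := by nlinarith [norm_nonneg α, norm_nonneg β]
  have hα0 : 0 < ‖α‖ := hd.trans_le hα
  rw [norm_mul, norm_div, ← mul_div_assoc, div_le_iff₀ hα0]
  nlinarith [norm_nonneg z, norm_nonneg β]

omit [Fintype ι] in
lemma differentiableOn_Hol {α β : ι → ℂ} (c : ι → ℂ) (hu : ∀ i, ‖α i‖ ^ 2 + ‖β i‖ ^ 2 = 1)
    {T : Finset ι} {d : ℝ} (hd : 0 < d) (hT : ∀ j ∈ T, d ≤ ‖α j‖) :
    DifferentiableOn ℂ (Hol α β c T) (Metric.closedBall 0 (d / 2)) := by
  intro z hz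
  refine DifferentiableAt.differentiableWithinAt ?_
  unfold Hol
  refine DifferentiableAt.fun_sum fun j hj => ?_
  refine DifferentiableAt.div_const (DifferentiableAt.const_mul ?_ _) _
  refine DifferentiableAt.clog (by fun_prop) ?_
  have := norm_arg_le (hu j) hd (hT j hj) (mem_closedBall_zero_iff.mp hz)
  rw [sub_eq_add_neg]
  exact mem_slitPlane_of_norm_lt_one (by rw [norm_neg]; linarith)

lemma norm_Hol_le {α β c : ι → ℂ} (hu : ∀ i, ‖α i‖ ^ 2 + ‖β i‖ ^ 2 = 1)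
    {T : Finset ι} {d Γ : ℝ} (hd : 0 < d) (hT : ∀ j ∈ T, d ≤ ‖α j‖) (hΓ : ∑ i, ‖c i‖ ≤ Γ)
    {z : ℂ} (hz : ‖z‖ ≤ d / 2) : ‖Hol α β c T z‖ ≤ Γ := by
  calc ‖Hol α β c T z‖ ≤ ∑ j ∈ T, ‖c j‖ := by
        refine norm_sum_le_of_le _ fun j hj => ?_
        have h1 := norm_arg_le (hu j) hd (hT j hj) hz
        have h2 := Complex.norm_log_one_add_half_le_self (z := -(z * (β j / α j)))
          (by rwa [norm_neg])
        rw [norm_neg, ← sub_eq_add_neg] at h2
        rw [norm_div, norm_mul, Complex.norm_ofNat]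
        nlinarith [norm_nonneg (c j)]
    _ ≤ ∑ j, ‖c j‖ :=
        Finset.sum_le_sum_of_subset_of_nonneg (Finset.subset_univ _) fun _ _ _ => norm_nonneg _
    _ ≤ Γ := hΓ

omit [Fintype ι] in
lemma Hol_zero (α β c : ι → ℂ) (T : Finset ι) : Hol α β c T 0 = 0 := by simp [Hol]

lemma GG_local [DecidableEq ι] {α β : ι → ℂ} (c : ι → ℂ) (hu : ∀ i, ‖α i‖ ^ 2 + ‖β i‖ ^ 2 = 1)
    {T : Finset ι} {d : ℝ} (hd : 0 < d) (hT : ∀ j ∈ T, d ≤ ‖α j‖) (hN : ∀ j, j ∉ T → α j = 0)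
    {z : ℂ} (hz : ‖z‖ ≤ d / 2) :
    GG α β c z = ell (∑ j ∈ Tᶜ, c j / 2) (∑ j ∈ T, c j / 2)
      (∑ j ∈ T, c j * (Real.log ‖α j‖ : ℝ)) (UU z) +
      Hol α β c T z + conj (Hol α β (fun j => conj (c j)) T z) := by
  have h1 : ∀ j ∈ Tᶜ, c j * (Real.log (dl (α j) (β j) z) : ℝ) =
      c j / 2 * (Real.log (UU z) : ℝ) := by
    intro j hj
    have h0 := hN j (Finset.mem_compl.mp hj)
    have hβ : ‖β j‖ = 1 := by
      have := hu j
      rw [h0, norm_zero] at this
      nlinarith [norm_nonneg (β j)]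
    rw [h0, log_dl_zero hβ]; push_cast; ring
  have h2 : ∀ j ∈ T, c j * (Real.log (dl (α j) (β j) z) : ℝ) =
      c j / 2 * (Real.log (1 - UU z) : ℝ) + c j * (Real.log ‖α j‖ : ℝ) +
        c j * Complex.log (1 - z * (β j / α j)) / 2 +
        conj (conj (c j) * Complex.log (1 - z * (β j / α j)) / 2) := by
    intro j hj
    have hα0 : 0 < ‖α j‖ := hd.trans_le (hT j hj)
    have hα : α j ≠ 0 := norm_pos_iff.mp hα0
    have h3 := norm_arg_le (hu j) hd (hT j hj) hz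
    have h4 : 0 < ‖1 - z * (β j / α j)‖ := by
      have := norm_sub_norm_le (1 : ℂ) (z * (β j / α j))
      rw [norm_one] at this
      linarith
    have h5 : ‖β j * z - α j‖ = ‖α j‖ * ‖1 - z * (β j / α j)‖ := by
      rw [← norm_mul, ← norm_neg]; congr 1; field_simp; ring
    have h6 : Real.log (sw z) = -(Real.log (1 - UU z) / 2) := by
      rw [one_sub_UU, Real.log_inv, ← sw_sq, Real.log_pow]; push_cast; ring
    have h7 : ((Real.log ‖1 - z * (β j / α j)‖ : ℝ) : ℂ) =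
        (Complex.log (1 - z * (β j / α j)) + conj (Complex.log (1 - z * (β j / α j)))) / 2 := by
      rw [Complex.add_conj, Complex.log_re]; push_cast; ring
    rw [dl, h5, Real.log_div (by positivity) (sw_pos z).ne', Real.log_mul hα0.ne' h4.ne', h6]
    push_cast [h7]
    simp only [map_div₀, map_mul, conj_conj, map_ofNat]
    ring
  rw [GG, ← Finset.sum_add_sum_compl T, Finset.sum_congr rfl h1, Finset.sum_congr rfl h2]
  simp only [ell, Hol, Finset.sum_add_distrib, Finset.sum_mul, map_sum]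
  ring

lemma setIntegral_GG [DecidableEq ι] {α β : ι → ℂ} (c : ι → ℂ)
    (hu : ∀ i, ‖α i‖ ^ 2 + ‖β i‖ ^ 2 = 1) {T : Finset ι} {d : ℝ} (hd : 0 < d)
    (hT : ∀ j ∈ T, d ≤ ‖α j‖) (hN : ∀ j, j ∉ T → α j = 0) {r : ℝ} (hr : 0 < r) (hrd : r < d / 2)
    {Ψ : ℝ → ℂ} (hΨ : Measurable Ψ) (hΨi : IntegrableOn Ψ (Ioo 0 (r ^ 2 / (1 + r ^ 2))))
    (hΨl : IntegrableOn (fun u => Ψ u * ell (∑ j ∈ Tᶜ, c j / 2) (∑ j ∈ T, c j / 2)
      (∑ j ∈ T, c j * (Real.log ‖α j‖ : ℝ)) u) (Ioo 0 (r ^ 2 / (1 + r ^ 2)))) :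
    IntegrableOn (fun z => Ψ (UU z) * GG α β c z) (Metric.ball 0 r) sig ∧
    ∫ z in Metric.ball (0 : ℂ) r, Ψ (UU z) * GG α β c z ∂sig =
      ∫ u in Ioo 0 (r ^ 2 / (1 + r ^ 2)), Ψ u * ell (∑ j ∈ Tᶜ, c j / 2) (∑ j ∈ T, c j / 2)
        (∑ j ∈ T, c j * (Real.log ‖α j‖ : ℝ)) u := by
  have hsub : Metric.ball (0 : ℂ) r ⊆ Metric.closedBall 0 (d / 2) :=
    Metric.ball_subset_closedBall.trans (Metric.closedBall_subset_closedBall hrd.le)
  have hm : Measurable fun z => Ψ (UU z) := hΨ.comp continuous_UU.measurable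
  have i0 := integrableOn_ball_UU hr hΨi
  have i1 := integrableOn_ball_UU hr hΨl
  have hrot : ∀ θ : ℝ, ∀ z, UU (Complex.exp (θ * I) * z) = UU z := fun θ z => by
    simp only [UU, norm_mul, Complex.norm_exp_ofReal_mul_I, one_mul]
  have i2 : IntegrableOn (fun z => Hol α β c T z * Ψ (UU z)) (Metric.ball 0 r) sig :=
    IntegrableOn.continuousOn_mul_of_subset (differentiableOn_Hol c hu hd hT).continuousOn i0
      (isCompact_closedBall _ _) measurableSet_ball hsub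
  have i3 : IntegrableOn (fun z => conj (Hol α β (fun j => conj (c j)) T z) * Ψ (UU z))
      (Metric.ball 0 r) sig :=
    IntegrableOn.continuousOn_mul_of_subset
      (continuous_conj.comp_continuousOn (differentiableOn_Hol _ hu hd hT).continuousOn) i0
      (isCompact_closedBall _ _) measurableSet_ball hsub
  have z2 := setIntegral_holo (differentiableOn_Hol c hu hd hT) hr hrd hm.aestronglyMeasurable i0
    (fun θ z => by simp only [hrot]) 0
  have z3 := setIntegral_holo (differentiableOn_Hol (fun j => conj (c j)) hu hd hT) hr hrd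
    (ψ := fun z => conj (Ψ (UU z))) (continuous_conj.measurable.comp hm).aestronglyMeasurable
    (Complex.conjCLE.toContinuousLinearMap.integrable_comp i0) (fun θ z => by simp only [hrot]) 0
  simp only [pow_zero, mul_one, tc, iteratedDeriv_zero, Hol_zero, mul_zero, zero_mul] at z2 z3
  have z4 : ∫ z in Metric.ball (0 : ℂ) r,
      conj (Hol α β (fun j => conj (c j)) T z) * Ψ (UU z) ∂sig = 0 := by
    have := congrArg conj z3
    rw [← integral_conj, map_zero] at this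
    simpa only [map_mul, conj_conj] using this
  have e : ∀ z ∈ Metric.ball (0 : ℂ) r, Ψ (UU z) * ell (∑ j ∈ Tᶜ, c j / 2) (∑ j ∈ T, c j / 2)
      (∑ j ∈ T, c j * (Real.log ‖α j‖ : ℝ)) (UU z) + Hol α β c T z * Ψ (UU z) +
      conj (Hol α β (fun j => conj (c j)) T z) * Ψ (UU z) = Ψ (UU z) * GG α β c z := by
    intro z hz
    rw [GG_local c hu hd hT hN (mem_closedBall_zero_iff.mp (hsub hz))]
    ring
  have i12 : IntegrableOn (fun z => Ψ (UU z) * ell (∑ j ∈ Tᶜ, c j / 2) (∑ j ∈ T, c j / 2)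
      (∑ j ∈ T, c j * (Real.log ‖α j‖ : ℝ)) (UU z) + Hol α β c T z * Ψ (UU z))
      (Metric.ball 0 r) sig := i1.add i2
  refine ⟨(i12.add i3).congr_fun e measurableSet_ball, ?_⟩
  rw [← setIntegral_congr_fun measurableSet_ball e, integral_add i12 i3, integral_add i1 i2, z2, z4,
    add_zero, add_zero]
  exact setIntegral_ball_UU hr (hΨ.mul (measurable_ell _ _ _))

end Pool.Agent.Lib.MP_8d6f76_pr
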