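import Mathlib

open MeasureTheory

namespace Pool.Agent.Lib.MP_8d6f76_pr

/-- The standard complex Gaussian law on the complex plane. -/
noncomputable def cgauss : Measure ℂ :=
  (volume : Measure ℂ).withDensity fun z => ENNReal.ofReal (Real.exp (-‖z‖ ^ 2) / Real.pi)

/-- The law of an `n × n` array of independent standard complex Gaussian entries. -/
noncomputable def ginibre (n : ℕ) : Measure (Fin n → Fin n → ℂ) :=
  Measure.pi fun _ => Measure.pi fun _ => cgauss

/-- The eigenvalues of `A B⁻¹`, with algebraic multiplicity. -/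
noncomputable def eigs {n : ℕ} (A B : Fin n → Fin n → ℂ) : Multiset ℂ :=
  (Matrix.of A * (Matrix.of B)⁻¹).charpoly.roots

/-- The linear statistic: the sum of `f` over the eigenvalues of `A B⁻¹`. -/
noncomputable def linStat {n : ℕ} (f : ℂ → ℝ) (A B : Fin n → Fin n → ℂ) : ℝ :=
  ((eigs A B).map f).sum

/-- Half the chordal distance on the Riemann sphere. -/
noncomputable def chord : OnePoint ℂ → OnePoint ℂ → ℝ
  | OnePoint.some p, OnePoint.some q => ‖p - q‖ / √((1 + ‖p‖ ^ 2) * (1 + ‖q‖ ^ 2))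
  | OnePoint.some p, OnePoint.infty => 1 / √(1 + ‖p‖ ^ 2)
  | OnePoint.infty, OnePoint.some q => 1 / √(1 + ‖q‖ ^ 2)
  | OnePoint.infty, OnePoint.infty => 0

/-- The Green function with pole `p`. -/
noncomputable def green (p : OnePoint ℂ) (q : ℂ) : ℝ :=
  Real.log (chord (OnePoint.some q) p)

/-- The Barnes G-function, by its Weierstrass product for `G(1 + z)` at `z = w - 1`. -/
noncomputable def barnesG (w : ℂ) : ℂ :=
  (2 * Real.pi : ℂ) ^ ((w - 1) / 2) *
    Complex.exp (-((w - 1) + (w - 1) ^ 2 * (1 + (Real.eulerMascheroniConstant : ℂ))) / 2) *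
    ∏' k : ℕ, ((1 + (w - 1) / ((k : ℂ) + 1)) ^ (k + 1) *
      Complex.exp ((w - 1) ^ 2 / (2 * ((k : ℂ) + 1)) - (w - 1)))

end Pool.Agent.Lib.MP_8d6f76_pr
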