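import Pool.Agent.Lib.MP_8d6f76_pr.Pack

open MeasureTheory Set Complex Filter Topology
open scoped ENNReal ComplexConjugate Real Matrix

namespace Pool.Agent.Lib.MP_8d6f76_pr

variable {ι : Type*} [Fintype ι] [DecidableEq ι]

lemma PP_zero {m J : ℕ} (hJ : 1 ≤ J) {b : ℂ} (hb : 0 < ((m : ℂ) + 1 + b).re) :
    PP m J 0 b 0 = (m : ℂ) + 1 + b := by
  rw [PP, Finset.sum_eq_single 0, kap_zero_zero hb]
  · simp [tt, phi]
  · intro j _ hj
    simp [tt, hj]
  · intro h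
    exact absurd (Finset.mem_range.mpr hJ) h

theorem approx_regular {α β c : ι → ℂ} (hu : ∀ i, ‖α i‖ ^ 2 + ‖β i‖ ^ 2 = 1)
    {d Γ F0 Kc r0 : ℝ} {m J A' : ℕ} (hd : 0 < d) (hd1 : d ≤ 1) (hΓ : ∑ i, ‖c i‖ ≤ Γ)
    (hA' : Γ ≤ A') (hf : Integrable (fun z => Complex.exp (GG α β c z)) sig)
    (hF0 : ∫ z, ‖Complex.exp (GG α β c z)‖ ∂sig ≤ F0)
    (hJ : 2 * J + 2 * A' ≤ m) (hJ1 : 1 ≤ J) (hKc : 0 ≤ Kc)
    (hκ : ∀ j < J, ‖kap m 0 (∑ j, c j / 2) j‖ ≤ Kc * m.choose j)
    (hr : 0 ≤ r0) (hr0 : r0 ≤ d / 2 / 4) {w : ℂ} (hw : ∀ j, d ≤ dl (α j) (β j) w) :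
    Approx m (fun z => Complex.exp (GG α β c z)) w ((m : ℂ) + 1 + ∑ j, c j / 2)
      (etaF m J A' (d / 2) r0 (Real.exp (Γ * (1 - Real.log d))) F0 Kc
        ((1 + (d / 2 / 2) ^ 2) / (d / 2 / 2) ^ 2))
      (bigM m J (d / 2) r0 (Real.exp (Γ * (1 - Real.log d))) Kc) := by
  have hs := sw_pos w
  have hs' := sw_ne_zero w
  have h0 : ‖w / (sw w : ℝ)‖ ^ 2 + ‖((sw w : ℝ) : ℂ)⁻¹‖ ^ 2 = 1 := by
    rw [norm_div, norm_inv, Complex.norm_real, Real.norm_of_nonneg hs.le, div_pow, inv_pow, sw_sq]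
    field_simp
    ring
  have hden : den (w / (sw w : ℝ)) ((sw w : ℝ) : ℂ)⁻¹ 0 ≠ 0 := by
    simpa [den] using hs.ne'
  have hmob : mob (w / (sw w : ℝ)) ((sw w : ℝ) : ℂ)⁻¹ 0 = w := by
    simp only [mob, den, mul_zero, zero_add]
    field_simp
  have hT : ∀ j ∈ (Finset.univ : Finset ι),
      d ≤ ‖α j * ((sw w : ℝ) : ℂ)⁻¹ - β j * (w / (sw w : ℝ))‖ := by
    intro j _
    have e : α j * ((sw w : ℝ) : ℂ)⁻¹ - β j * (w / (sw w : ℝ)) = -((β j * w - α j) / (sw w : ℝ)) := by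
      ring
    rw [e, norm_neg, norm_div, Complex.norm_real, Real.norm_of_nonneg hs.le]
    exact hw j
  have h := approx_config hu h0 hd hd1 hT (fun j hj => absurd (Finset.mem_univ j) hj) hΓ hA' hf hF0
    (by simp) hJ hJ1 hKc (by simpa using hκ) hr0 (by simpa using hr) hden
  have hre : 0 < ((m : ℂ) + 1 + ∑ j, c j / 2).re := by
    have h1 := (abs_le.mp ((abs_re_le_norm _).trans (norm_half_sum_le hΓ Finset.univ))).1
    have h2 : (A' : ℝ) ≤ m := by exact_mod_cast (by omega : A' ≤ m)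
    rw [add_re, add_re, natCast_re, one_re]; linarith
  have hU : UU 0 = 0 := by simp [UU]
  rwa [hmob, Finset.compl_univ, Finset.sum_empty, hU, PP_zero hJ1 hre] at h

theorem approx_cap {α β c : ι → ℂ} (hu : ∀ i, ‖α i‖ ^ 2 + ‖β i‖ ^ 2 = 1)
    {d Γ F0 Kc r0 : ℝ} {m J A' : ℕ} (hd : 0 < d) (hd1 : d ≤ 1)
    (hsep : ∀ i j, i ≠ j → d ≤ ‖α i * β j - β i * α j‖) (hΓ : ∑ i, ‖c i‖ ≤ Γ)
    (hA' : Γ ≤ A') (hf : Integrable (fun z => Complex.exp (GG α β c z)) sig)
    (hF0 : ∫ z, ‖Complex.exp (GG α β c z)‖ ∂sig ≤ F0) (i : ι) (ha : -1 < (c i / 2).re)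
    (hJ : 2 * J + 2 * A' ≤ m) (hJ1 : 1 ≤ J) (hKc : 0 ≤ Kc)
    (hκ : ∀ j < J, ‖kap m (c i / 2) (∑ j ∈ {i}ᶜ, c j / 2) j‖ ≤ Kc * m.choose j)
    (hr0 : r0 ≤ d / 2 / 4) {ζ : ℂ} (hζ : ‖ζ‖ ≤ r0) (hden : den (α i) (β i) ζ ≠ 0) :
    Approx m (fun z => Complex.exp (GG α β c z)) (mob (α i) (β i) ζ)
      (PP m J (c i / 2) (∑ j ∈ {i}ᶜ, c j / 2) (UU ζ))
      (etaF m J A' (d / 2) r0 (Real.exp (Γ * (1 - Real.log d))) F0 Kc
        ((1 + (d / 2 / 2) ^ 2) / (d / 2 / 2) ^ 2))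
      (bigM m J (d / 2) r0 (Real.exp (Γ * (1 - Real.log d))) Kc) := by
  have h := approx_config (T := {i}ᶜ) hu (hu i) hd hd1
    (fun j hj => hsep j i (by simpa using hj))
    (fun j hj => by
      have : j = i := by simpa using hj
      subst this; ring) hΓ hA' hf hF0 (by simpa using ha) hJ hJ1 hKc (by simpa using hκ) hr0 hζ hden
  simpa using h

theorem cap_integral {α β : ι → ℂ} (γ : ι → ℂ) (hu : ∀ i, ‖α i‖ ^ 2 + ‖β i‖ ^ 2 = 1)
    {d r : ℝ} (hd : 0 < d) (hsep : ∀ i j, i ≠ j → d ≤ ‖α i * β j - β i * α j‖) (hr : 0 < r)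
    (hrd : r < d / 2) (i : ι) {Ψ : ℝ → ℂ} (hΨ : Measurable Ψ)
    (hΨi : IntegrableOn Ψ (Ioo 0 (r ^ 2 / (1 + r ^ 2))))
    (hΨl : IntegrableOn (fun u => Ψ u * ell (γ i / 2) (∑ j ∈ {i}ᶜ, γ j / 2)
      (∑ j ∈ {i}ᶜ, γ j * (Real.log ‖α j * β i - β j * α i‖ : ℝ)) u) (Ioo 0 (r ^ 2 / (1 + r ^ 2)))) :
    Integrable (fun w => {w | dl (α i) (β i) w ^ 2 < r ^ 2 / (1 + r ^ 2)}.indicator
      (fun w => Ψ (dl (α i) (β i) w ^ 2) * GG α β γ w) w) sig ∧
    ∫ w, {w | dl (α i) (β i) w ^ 2 < r ^ 2 / (1 + r ^ 2)}.indicator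
      (fun w => Ψ (dl (α i) (β i) w ^ 2) * GG α β γ w) w ∂sig =
      ∫ u in Ioo 0 (r ^ 2 / (1 + r ^ 2)), Ψ u * ell (γ i / 2) (∑ j ∈ {i}ᶜ, γ j / 2)
        (∑ j ∈ {i}ᶜ, γ j * (Real.log ‖α j * β i - β j * α i‖ : ℝ)) u := by
  have hm : AEStronglyMeasurable (fun w => {w | dl (α i) (β i) w ^ 2 < r ^ 2 / (1 + r ^ 2)}.indicator
      (fun w => Ψ (dl (α i) (β i) w ^ 2) * GG α β γ w) w) sig := by
    refine (Measurable.indicator ((hΨ.comp ((continuous_dl _ _).pow 2).measurable).mul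
      (measurable_GG α β γ)) ?_).aestronglyMeasurable
    exact (isOpen_lt ((continuous_dl _ _).pow 2) continuous_const).measurableSet
  have h := setIntegral_GG (T := {i}ᶜ) γ (fun j => unit_rot (hu j) (hu i)) hd
    (fun j hj => hsep j i (by simpa using hj))
    (fun j hj => by
      have : j = i := by simpa using hj
      subst this; ring) hr hrd hΨ hΨi (by simpa using hΨl)
  simp only [compl_compl, Finset.sum_singleton] at h
  have e : (fun ζ => {w | dl (α i) (β i) w ^ 2 < r ^ 2 / (1 + r ^ 2)}.indicator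
      (fun w => Ψ (dl (α i) (β i) w ^ 2) * GG α β γ w) (mob (α i) (β i) ζ)) =ᵐ[sig]
      (Metric.ball (0 : ℂ) r).indicator fun z => Ψ (UU z) *
        GG (fun j => α j * β i - β j * α i) (fun j => β j * conj (β i) + α j * conj (α i)) γ z := by
    filter_upwards [ae_sig_den_ne (hu i)] with ζ hζ
    rw [ball_eq_preimage hr]
    simp only [Set.indicator, mem_ofPred_eq, mem_preimage, mem_Iio, dl_mob_self_sq (hu i) hζ,
      GG_mob α β γ (hu i) hζ]
  constructor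
  · rw [← (measurePreserving_mob (hu i)).integrable_comp hm]
    exact (h.1.integrable_indicator measurableSet_ball).congr e.symm
  · rw [← integral_comp_mp (measurePreserving_mob (hu i)) hm, integral_congr_ae e,
      integral_indicator measurableSet_ball, h.2]

omit [DecidableEq ι] in
lemma integrable_GG {α β : ι → ℂ} (γ : ι → ℂ) (hu : ∀ i, ‖α i‖ ^ 2 + ‖β i‖ ^ 2 = 1) :
    Integrable (GG α β γ) sig ∧ ∫ z, GG α β γ z ∂sig = -(∑ i, γ i) / 2 := by
  have hi : ∀ i, Integrable (fun z => ((Real.log (dl (α i) (β i) z) : ℝ) : ℂ)) sig := by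
    intro i
    refine Integrable.ofReal (f := fun z => Real.log (dl (α i) (β i) z)) ?_
    have hm : Measurable fun z => Real.log (dl (α i) (β i) z) :=
      Real.measurable_log.comp (continuous_dl _ _).measurable
    refine (integrable_exp_neg_log_dl (hu i) one_lt_two).mono' hm.aestronglyMeasurable
      (Eventually.of_forall fun z => ?_)
    rw [Real.norm_eq_abs, abs_of_nonpos (log_dl_nonpos (hu i) z)]
    linarith [Real.add_one_le_exp (-1 * Real.log (dl (α i) (β i) z))]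
  refine ⟨integrable_finsetSum _ fun i _ => (hi i).const_mul _, ?_⟩
  unfold GG
  rw [integral_finsetSum _ fun i _ => (hi i).const_mul _, neg_div, Finset.sum_div,
    ← Finset.sum_neg_distrib]
  refine Finset.sum_congr rfl fun i _ => ?_
  rw [integral_const_mul, integral_complex_ofReal, integral_log_dl (hu i)]
  push_cast
  ring

lemma continuous_kernel (m : ℕ) (B : Matrix (Fin (m + 1)) (Fin (m + 1)) ℂ) :
    Continuous fun w => comb m ((fun k => conj (bas m k w)) ᵥ* B) w := by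
  simp only [comb, Matrix.vecMul, dotProduct]
  refine continuous_finsetSum _ fun j _ => Continuous.mul ?_ (continuous_bas m j)
  exact continuous_finsetSum _ fun k _ =>
    (continuous_conj.comp (continuous_bas m k)).mul continuous_const

theorem density_estimate {α β c γ : ι → ℂ} (hu : ∀ i, ‖α i‖ ^ 2 + ‖β i‖ ^ 2 = 1)
    {d r η M Γ : ℝ} {m : ℕ} {N : ℂ} {P : ι → ℝ → ℂ} (hd : 0 < d) (hd1 : d ≤ 1)
    (hsep : ∀ i j, i ≠ j → d ≤ ‖α i * β j - β i * α j‖) (hr : 0 < r) (hrd : r ≤ d / 8)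
    (hΓ : ∑ i, ‖c i‖ ≤ Γ) (hf : Integrable (fun z => Complex.exp (GG α β c z)) sig)
    (hfG : Integrable (fun z => ‖Complex.exp (GG α β c z)‖ * ‖GG α β γ z‖) sig)
    (hη0 : 0 ≤ η) (hM : 0 ≤ M) (hη : √((m : ℝ) + 1) * η ≤ 1 / 2)
    (hreg : ∀ w, (∀ j, √(r ^ 2 / (1 + r ^ 2)) ≤ dl (α j) (β j) w) →
      Approx m (fun z => Complex.exp (GG α β c z)) w N η M)
    (hcap : ∀ i ζ, ‖ζ‖ ≤ r → den (α i) (β i) ζ ≠ 0 →
      Approx m (fun z => Complex.exp (GG α β c z)) (mob (α i) (β i) ζ) (P i (UU ζ)) η M)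
    (hPm : ∀ i, Measurable (P i))
    (hPi : ∀ i, IntegrableOn (fun u => N - P i u) (Ioo 0 (r ^ 2 / (1 + r ^ 2))))
    (hPl : ∀ i, IntegrableOn (fun u => (N - P i u) * ell (γ i / 2) (∑ j ∈ {i}ᶜ, γ j / 2)
      (∑ j ∈ {i}ᶜ, γ j * (Real.log ‖α j * β i - β j * α i‖ : ℝ)) u) (Ioo 0 (r ^ 2 / (1 + r ^ 2)))) :
    (gram m fun z => Complex.exp (GG α β c z)).det ≠ 0 ∧
    ‖(∫ z, rho m (fun z => Complex.exp (GG α β c z)) z * GG α β γ z ∂sig) -
      (N * (-(∑ i, γ i) / 2) - ∑ i, ∫ u in Ioo 0 (r ^ 2 / (1 + r ^ 2)), (N - P i u) *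
        ell (γ i / 2) (∑ j ∈ {i}ᶜ, γ j / 2)
          (∑ j ∈ {i}ᶜ, γ j * (Real.log ‖α j * β i - β j * α i‖ : ℝ)) u)‖ ≤
      (η + 2 * ((m : ℝ) + 1) * η * M) *
        ∫ z, ‖Complex.exp (GG α β c z)‖ * ‖GG α β γ z‖ ∂sig ∧
    ∀ i, ‖N - P i (r ^ 2 / (1 + r ^ 2))‖ ≤ 2 * (η + 2 * ((m : ℝ) + 1) * η * M) *
      Real.exp (Γ * -Real.log √(r ^ 2 / (1 + r ^ 2))) := by
  set u0 : ℝ := r ^ 2 / (1 + r ^ 2) with hu0
  have hu0pos : 0 < u0 := by positivity
  have hd2 : √u0 ≤ r := by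
    refine Real.sqrt_le_iff.mpr ⟨hr.le, ?_⟩
    rw [hu0, div_le_iff₀ (by positivity)]; nlinarith [sq_nonneg (r ^ 2)]
  have hlt : ∀ x : ℝ, 0 ≤ x → (x ^ 2 < u0 ↔ x < √u0) := fun x hx => (Real.lt_sqrt hx).symm
  set f : ℂ → ℂ := fun z => Complex.exp (GG α β c z) with hfdef
  set ρ : ℂ → ℂ := fun w => N - ∑ i, {w | dl (α i) (β i) w ^ 2 < u0}.indicator
    (fun w => N - P i (dl (α i) (β i) w ^ 2)) w with hρ
  have hother : ∀ i j w, i ≠ j → dl (α i) (β i) w ≤ √u0 → √u0 ≤ dl (α j) (β j) w := by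
    intro i j w hij hw
    have h1 := cross_le (hu i) (hu j) w
    have h2 := hsep i j hij
    linarith
  have hae : ∀ᵐ w ∂sig, Approx m f w (ρ w) η M := by
    have h1 : ∀ᵐ w ∂sig, ∀ i, den (-α i) (conj (β i)) w ≠ 0 :=
      ae_all_iff.mpr fun i => ae_sig_den_ne (unit_inv (hu i))
    filter_upwards [h1] with w hw
    by_cases hall : ∀ j, √u0 ≤ dl (α j) (β j) w
    · have : ρ w = N := by
        simp only [hρ]
        rw [Finset.sum_eq_zero, sub_zero]
        intro i _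
        refine indicator_of_notMem ?_ _
        simp only [mem_ofPred_eq, hlt _ (dl_nonneg _ _ _), not_lt]
        exact hall i
      rw [this]
      exact hreg w hall
    · push Not at hall
      obtain ⟨i, hi⟩ := hall
      have h2 := mob_inv_mob (unit_inv (hu i)) (hw i)
      have h3 := den_inv_mob (unit_inv (hu i)) (hw i)
      rw [neg_neg, conj_conj] at h2 h3
      have h4 : den (α i) (β i) (mob (-α i) (conj (β i)) w) ≠ 0 := by
        rw [h3]; exact inv_ne_zero (hw i)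
      have h5 := dl_mob_self_sq (hu i) h4
      rw [h2] at h5
      have h6 : dl (α i) (β i) w ^ 2 < u0 := (hlt _ (dl_nonneg _ _ _)).mpr hi
      have h7 : mob (-α i) (conj (β i)) w ∈ Metric.ball (0 : ℂ) r := by
        rw [ball_eq_preimage hr, mem_preimage, mem_Iio, ← h5]; exact h6
      have : ρ w = P i (UU (mob (-α i) (conj (β i)) w)) := by
        simp only [hρ]
        rw [Finset.sum_eq_single i, indicator_of_mem (show w ∈ {w | dl (α i) (β i) w ^ 2 < u0}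
          from h6), h5, sub_sub_cancel]
        · intro j _ hj
          refine indicator_of_notMem ?_ _
          simp only [mem_ofPred_eq, hlt _ (dl_nonneg _ _ _), not_lt]
          exact hother i j w hj.symm hi.le
        · simp
      rw [this]
      have h8 := hcap i _ (mem_ball_zero_iff.mp h7).le h4
      rwa [h2] at h8
  obtain ⟨hdet, hpt⟩ := global_approx hf hη0 hM hη (hae.mono fun w hw => ⟨_, hw⟩)
  have hη' : 0 ≤ η + 2 * ((m : ℝ) + 1) * η * M := by positivity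
  refine ⟨hdet, ?_, fun i => ?_⟩
  · have hc := fun i => cap_integral γ hu hd hsep hr (by linarith) i
      ((hPm i).const_sub N) (hPi i) (hPl i)
    have e : ∀ w, ρ w * GG α β γ w = N * GG α β γ w -
        ∑ i, {w | dl (α i) (β i) w ^ 2 < u0}.indicator
          (fun w => (N - P i (dl (α i) (β i) w ^ 2)) * GG α β γ w) w := by
      intro w
      simp only [hρ]
      rw [sub_mul, Finset.sum_mul]
      congr 1
      refine Finset.sum_congr rfl fun i _ => ?_
      by_cases hw : w ∈ {w | dl (α i) (β i) w ^ 2 < u0}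
      · rw [indicator_of_mem hw, indicator_of_mem hw]
      · rw [indicator_of_notMem hw, indicator_of_notMem hw, zero_mul]
    have i1 : Integrable (fun w => N * GG α β γ w) sig := (integrable_GG γ hu).1.const_mul N
    have i2 := integrable_finsetSum Finset.univ fun i _ => (hc i).1
    have i3 : Integrable (fun w => ρ w * GG α β γ w) sig := by
      simp_rw [e]; exact i1.sub i2
    have e2 : ∫ w, ρ w * GG α β γ w ∂sig = N * (-(∑ i, γ i) / 2) -
        ∑ i, ∫ u in Ioo 0 u0, (N - P i u) * ell (γ i / 2) (∑ j ∈ {i}ᶜ, γ j / 2)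
          (∑ j ∈ {i}ᶜ, γ j * (Real.log ‖α j * β i - β j * α i‖ : ℝ)) u := by
      simp_rw [e]
      rw [integral_sub i1 i2, integral_const_mul, (integrable_GG γ hu).2,
        integral_finsetSum _ fun i _ => (hc i).1]
      congr 1
      exact Finset.sum_congr rfl fun i _ => (hc i).2
    have hb : ∀ᵐ w ∂sig, ‖rho m f w * GG α β γ w - ρ w * GG α β γ w‖ ≤
        (η + 2 * ((m : ℝ) + 1) * η * M) * (‖f w‖ * ‖GG α β γ w‖) := by
      filter_upwards [hae] with w hw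
      rw [← sub_mul, norm_mul, ← mul_assoc]
      gcongr
      exact hpt w _ hw
    have hrm : AEStronglyMeasurable (fun w => rho m f w * GG α β γ w) sig :=
      ((continuous_kernel m _).aestronglyMeasurable.mul hf.aestronglyMeasurable).mul
        (measurable_GG α β γ).aestronglyMeasurable
    have i4 : Integrable (fun w => rho m f w * GG α β γ w - ρ w * GG α β γ w) sig :=
      (hfG.const_mul _).mono' (hrm.sub i3.aestronglyMeasurable) hb
    have i5 : Integrable (fun w => rho m f w * GG α β γ w) sig := by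
      exact (i4.add i3).congr (Eventually.of_forall fun w => by simp)
    rw [← e2, ← integral_sub i5 i3, ← integral_const_mul]
    exact norm_integral_le_of_norm_le (hfG.const_mul _) hb
  · obtain ⟨ζ, hζ, hden⟩ : ∃ ζ : ℂ, ‖ζ‖ = r ∧ den (α i) (β i) ζ ≠ 0 := by
      by_contra hcon
      push Not at hcon
      have h1 := hcon (r : ℂ) (by simp [hr.le])
      have h2 := hcon (-r : ℂ) (by simp [hr.le])
      have h3 := subsingleton_den (hu i) h1 h2
      have h4 : (r : ℂ) = 0 := by linear_combination h3 / 2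
      exact hr.ne' (by exact_mod_cast h4)
    have hU : UU ζ = u0 := by rw [UU, hζ]
    have h5 : dl (α i) (β i) (mob (α i) (β i) ζ) = √u0 := by
      rw [← hU, ← dl_mob_self_sq (hu i) hden, Real.sqrt_sq (dl_nonneg _ _ _)]
    have hall : ∀ j, √u0 ≤ dl (α j) (β j) (mob (α i) (β i) ζ) := by
      intro j
      by_cases hij : i = j
      · subst hij; exact h5.ge
      · exact hother i j _ hij h5.le
    have h1 := hpt _ _ (hreg _ hall)
    have h2 := hpt _ _ (hcap i ζ hζ.le hden)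
    rw [hU] at h2
    have h3 : ‖f (mob (α i) (β i) ζ)‖ ≤ Real.exp (Γ * -Real.log √u0) := by
      refine (Complex.norm_exp_le_exp_norm _).trans (Real.exp_le_exp.mpr ?_)
      have hl : 0 ≤ -Real.log √u0 := by
        linarith [Real.log_nonpos (Real.sqrt_nonneg u0) (by linarith)]
      calc ‖GG α β c (mob (α i) (β i) ζ)‖ ≤ ∑ j, ‖c j‖ * -Real.log √u0 := by
            refine norm_sum_le_of_le _ fun j _ => ?_
            rw [norm_mul, Complex.norm_real, Real.norm_eq_abs,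
              abs_of_nonpos (log_dl_nonpos (hu j) _)]
            gcongr
            exact hall j
        _ ≤ _ := by rw [← Finset.sum_mul]; gcongr
    have e : N - P i u0 = (rho m f (mob (α i) (β i) ζ) - P i u0) -
        (rho m f (mob (α i) (β i) ζ) - N) := by ring
    rw [e]
    refine (norm_sub_le _ _).trans ((add_le_add h2 h1).trans ?_)
    have := mul_le_mul_of_nonneg_left h3 hη'
    linarith

end Pool.Agent.Lib.MP_8d6f76_pr
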