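import Pool.Agent.Lib.MP_8d6f76_pr.Asymp

open MeasureTheory Set Complex Filter Topology
open scoped ENNReal ComplexConjugate Real Matrix

namespace Pool.Agent.Lib.MP_8d6f76_pr

lemma hasDerivAt_det {n : ℕ} {M : ℝ → Matrix (Fin n) (Fin n) ℂ} {M' : Matrix (Fin n) (Fin n) ℂ}
    {t : ℝ} (h : ∀ j k, HasDerivAt (fun s => M s j k) (M' j k) t) :
    HasDerivAt (fun s => (M s).det) (∑ k, ∑ j, (M t).adjugate k j * M' j k) t := by
  have h1 : HasDerivAt
      (fun s => ∑ σ : Equiv.Perm (Fin n), ((Equiv.Perm.sign σ : ℤ) : ℂ) * ∏ i, M s (σ i) i)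
      (∑ σ : Equiv.Perm (Fin n), ((Equiv.Perm.sign σ : ℤ) : ℂ) *
        ∑ i, (∏ j ∈ Finset.univ.erase i, M t (σ j) j) • M' (σ i) i) t :=
    HasDerivAt.fun_sum fun σ _ => (HasDerivAt.fun_finsetProd fun i _ => h (σ i) i).const_mul _
  have h2 : ∀ k, ∑ j, (M t).adjugate k j * M' j k = ((M t).updateCol k fun j => M' j k).det := by
    intro k
    rw [← Matrix.cramer_apply, Matrix.cramer_eq_adjugate_mulVec]; rfl
  simp_rw [h2, Matrix.det_apply']
  convert h1 using 1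
  rw [Finset.sum_comm]
  refine Finset.sum_congr rfl fun σ _ => ?_
  rw [Finset.mul_sum]
  refine Finset.sum_congr rfl fun k _ => ?_
  congr 1
  rw [← Finset.prod_erase_mul _ _ (Finset.mem_univ k), Matrix.updateCol_self, smul_eq_mul]
  congr 1
  refine Finset.prod_congr rfl fun j hj => ?_
  rw [Matrix.updateCol_ne (Finset.ne_of_mem_erase hj)]

lemma det_mul_integral_rho {m : ℕ} {f g : ℂ → ℂ} (hfg : Integrable (fun z => f z * g z) sig)
    (hdet : (gram m f).det ≠ 0) :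
    (gram m f).det * ∫ z, rho m f z * g z ∂sig =
      ∑ k, ∑ j, (gram m f).adjugate k j * gram m (fun z => f z * g z) j k := by
  have e : ∀ z, rho m f z * g z =
      ∑ k, ∑ j, (gram m f)⁻¹ k j * (bas m j z * conj (bas m k z) * (f z * g z)) := by
    intro z
    simp only [rho, comb, Matrix.vecMul, dotProduct, Finset.sum_mul]
    rw [Finset.sum_comm]
    refine Finset.sum_congr rfl fun k _ => Finset.sum_congr rfl fun j _ => ?_
    ring
  simp_rw [e]
  rw [integral_finsetSum _ fun k _ =>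
    integrable_finsetSum _ fun j _ => (integrable_bas_mul hfg j k).const_mul _, Finset.mul_sum]
  refine Finset.sum_congr rfl fun k _ => ?_
  rw [integral_finsetSum _ fun j _ => (integrable_bas_mul hfg j k).const_mul _, Finset.mul_sum]
  refine Finset.sum_congr rfl fun j _ => ?_
  rw [integral_const_mul, Matrix.inv_def, Matrix.smul_apply, Ring.inverse_eq_inv', smul_eq_mul,
    ← mul_assoc, ← mul_assoc, mul_inv_cancel₀ hdet, one_mul]
  rfl

variable {ι : Type*} [Fintype ι] [DecidableEq ι]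

/-- The determinant along the interpolation. -/
noncomputable def DD (α β γ : ι → ℂ) (m : ℕ) (t : ℝ) : ℂ :=
  (gram m fun z => Complex.exp (GG α β (fun i => t * γ i) z)).det

omit [DecidableEq ι] in
lemma DD_zero (α β γ : ι → ℂ) (m : ℕ) : DD α β γ m 0 = 1 := by
  simp [DD, GG, gram_one]

omit [DecidableEq ι] in
theorem hasDerivAt_DD {α β γ : ι → ℂ} (hu : ∀ i, ‖α i‖ ^ 2 + ‖β i‖ ^ 2 = 1) {d : ℝ} (hd : 0 < d)
    (hd1 : d ≤ 1) (hsep : ∀ i j, i ≠ j → d ≤ ‖α i * β j - β i * α j‖) (hγ : ∀ i, -2 < (γ i).re)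
    (m : ℕ) {t : ℝ} (ht : t ∈ Icc (0 : ℝ) 1) (hdet : DD α β γ m t ≠ 0) :
    HasDerivAt (DD α β γ m) (DD α β γ m t * LL α β γ m t) t := by
  obtain ⟨σ, hσ0, hσ2, hσ⟩ := exists_sigma hγ
  set Γ : ℝ := ∑ i, ‖γ i‖ with hΓ
  have hΓ0 : 0 ≤ Γ := Finset.sum_nonneg fun i _ => norm_nonneg _
  set ε : ℝ := (2 - σ) / 3 with hε
  have hε0 : 0 < ε := by rw [hε]; linarith
  have hD1 := integrable_Dom hu hd hd1 hsep (σ := σ + ε) (by linarith) (by rw [hε]; linarith)
  have hD2 := integrable_Dom hu hd hd1 hsep (σ := σ + ε + ε) (by linarith) (by rw [hε]; linarith)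
  have hre : ∀ s ∈ Metric.ball t (ε / (Γ + 1)), ∀ i, -(σ + ε) ≤ ((s : ℂ) * γ i).re := by
    intro s hs i
    rw [re_ofReal_mul]
    have h1 : |s - t| < ε / (Γ + 1) := hs
    have h2 : |(γ i).re| ≤ Γ := (abs_re_le_norm _).trans
      (Finset.single_le_sum (f := fun i => ‖γ i‖) (fun i _ => norm_nonneg _) (Finset.mem_univ i))
    have h3 : |(s - t) * (γ i).re| ≤ ε := by
      rw [abs_mul]
      calc |s - t| * |(γ i).re| ≤ ε / (Γ + 1) * (Γ + 1) := by
            gcongr; linarith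
        _ = ε := by field_simp
    have h4 := (abs_le.mp h3).1
    nlinarith [hσ i, ht.1, ht.2]
  have ht' : t ∈ Metric.ball t (ε / (Γ + 1)) := Metric.mem_ball_self (by positivity)
  have hb : ∀ s ∈ Metric.ball t (ε / (Γ + 1)), ∀ z,
      ‖Complex.exp (GG α β (fun i => s * γ i) z) * GG α β γ z‖ ≤
        Γ / ε * Dom α β (σ + ε + ε) z := by
    intro s hs z
    rw [norm_mul, ← Dom_mul, mul_left_comm]
    exact mul_le_mul (norm_exp_GG_le hu (hre s hs) z) (norm_GG_le hu hε0 le_rfl z) (norm_nonneg _)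
      (Real.exp_pos _).le
  have hf : Integrable (fun z => Complex.exp (GG α β (fun i => t * γ i) z)) sig :=
    hD1.mono' (measurable_exp_GG _ _ _).aestronglyMeasurable
      (Eventually.of_forall (norm_exp_GG_le hu (hre t ht')))
  have hfg : Integrable (fun z => Complex.exp (GG α β (fun i => t * γ i) z) * GG α β γ z) sig :=
    (hD2.const_mul _).mono'
      ((measurable_exp_GG _ _ _).mul (measurable_GG _ _ _)).aestronglyMeasurable
      (Eventually.of_forall (hb t ht'))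
  rw [LL, DD, det_mul_integral_rho hfg hdet]
  refine hasDerivAt_det (M := fun s : ℝ =>
    gram m fun z => Complex.exp (GG α β (fun i => s * γ i) z)) fun j k => ?_
  have hbb : Measurable fun z => bas m j z * conj (bas m k z) :=
    ((continuous_bas m j).mul (continuous_conj.comp (continuous_bas m k))).measurable
  refine (hasDerivAt_integral_of_dominated_loc_of_deriv_le (μ := sig)
    (F := fun (s : ℝ) z => bas m j z * conj (bas m k z) * Complex.exp (GG α β (fun i => s * γ i) z))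
    (F' := fun (s : ℝ) z => bas m j z * conj (bas m k z) *
      (Complex.exp (GG α β (fun i => s * γ i) z) * GG α β γ z))
    (bound := fun z => √((m : ℝ) + 1) * √((m : ℝ) + 1) * (Γ / ε * Dom α β (σ + ε + ε) z))
    (Metric.ball_mem_nhds t (show 0 < ε / (Γ + 1) by positivity))
    (Eventually.of_forall fun s => (hbb.mul (measurable_exp_GG _ _ _)).aestronglyMeasurable)
    (integrable_bas_mul hf j k) (integrable_bas_mul hfg j k).aestronglyMeasurable
    (Eventually.of_forall fun z s hs => ?_) ((hD2.const_mul _).const_mul _)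
    (Eventually.of_forall fun z s _ => ?_)).2
  · rw [norm_mul, norm_mul, Complex.norm_conj]
    exact mul_le_mul (mul_le_mul (norm_bas_le m j z) (norm_bas_le m k z) (norm_nonneg _)
      (Real.sqrt_nonneg _)) (hb s hs z) (norm_nonneg _) (by positivity)
  · simp only [GG_smul]
    refine HasDerivAt.const_mul _ ?_
    have h1 : HasDerivAt (fun s : ℝ => (s : ℂ) * GG α β γ z) (GG α β γ z) s := by
      simpa using (Complex.ofRealCLM.hasDerivAt (x := s)).mul_const (GG α β γ z)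
    exact h1.cexp

lemma uniform_of_local {P : ℕ → ℝ → Prop}
    (h : ∀ t0 ∈ Icc (0 : ℝ) 1, ∀ᶠ x : ℕ × ℝ in
      (atTop ×ˢ 𝓝 t0) ⊓ 𝓟 {x : ℕ × ℝ | x.2 ∈ Icc (0 : ℝ) 1}, P x.1 x.2) :
    ∀ᶠ m in atTop, ∀ t ∈ Icc (0 : ℝ) 1, P m t := by
  have h1 : {x : ℕ × ℝ | x.2 ∈ Icc (0 : ℝ) 1 → P x.1 x.2} ∈ atTop ×ˢ 𝓝ˢ (Icc (0 : ℝ) 1) :=
    isCompact_Icc.mem_prod_nhdsSet_of_forall fun t0 ht0 =>
      eventually_inf_principal.mp (h t0 ht0)
  obtain ⟨s1, hs1, s2, hs2, hsub⟩ := mem_prod_iff.mp h1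
  filter_upwards [hs1] with m hm t ht
  exact hsub (mk_mem_prod hm (subset_of_mem_nhdsSet hs2 ht)) ht

/-- The constant in the ratio asymptotics. -/
noncomputable def cc (α β γ : ι → ℂ) : ℂ :=
  -((∑ i, γ i) ^ 2 - ∑ i, γ i ^ 2) / 8 -
    (∑ i, γ i * ∑ j ∈ {i}ᶜ, γ j * (Real.log ‖α j * β i - β j * α i‖ : ℝ)) / 4

lemma mainT_sub (α β γ : ι → ℂ) (m : ℕ) (t : ℝ) :
    mainT α β γ m t - ∑ i, mainT (fun _ : Unit => 0) (fun _ => 1) (fun _ => γ i) m t =
      2 * t * cc α β γ := by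
  have h1 : ∀ i, mainT (fun _ : Unit => 0) (fun _ => 1) (fun _ => γ i) m t =
      ((m : ℂ) + 1) * (-1 / 2) * γ i - t / 4 * γ i ^ 2 -
        t * γ i / 2 * (-γ i / 2 - γ i / 2 * (Real.log (m + 1) : ℝ)) := by
    intro i
    have : ({()}ᶜ : Finset Unit) = ∅ := by decide
    simp only [mainT, Finset.univ_unique, Finset.sum_singleton, PUnit.default_eq_unit, this,
      Finset.sum_empty]
    ring
  have h2 : ∀ i, t * γ i / 2 * ((∑ j ∈ {i}ᶜ, γ j * (Real.log ‖α j * β i - β j * α i‖ : ℝ)) -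
      γ i / 2 - γ i / 2 * (Real.log (m + 1) : ℝ)) =
      t / 2 * (γ i * ∑ j ∈ {i}ᶜ, γ j * (Real.log ‖α j * β i - β j * α i‖ : ℝ)) +
        t * γ i / 2 * (-γ i / 2 - γ i / 2 * (Real.log (m + 1) : ℝ)) := by
    intro i; ring
  have h3 : ∑ i, (t : ℂ) * γ i / 2 = t / 2 * ∑ i, γ i := by
    rw [Finset.mul_sum]; exact Finset.sum_congr rfl fun i _ => by ring
  simp only [h1]
  simp only [mainT, h2, h3, cc, Finset.sum_add_distrib, Finset.sum_sub_distrib, ← Finset.mul_sum]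
  ring

theorem ratio_asymp {α β γ : ι → ℂ} (hu : ∀ i, ‖α i‖ ^ 2 + ‖β i‖ ^ 2 = 1) {d : ℝ} (hd : 0 < d)
    (hd1 : d ≤ 1) (hsep : ∀ i j, i ≠ j → d ≤ ‖α i * β j - β i * α j‖) (hγ : ∀ i, -2 < (γ i).re) :
    Tendsto (fun m => DD α β γ m 1 /
      (∏ i, DD (fun _ : Unit => 0) (fun _ => 1) (fun _ => γ i) m 1) *
        Complex.exp (-cc α β γ)) atTop (𝓝 1) := by
  have hu1 : ∀ _ : Unit, ‖(0 : ℂ)‖ ^ 2 + ‖(1 : ℂ)‖ ^ 2 = 1 := fun _ => by simp
  have hsep1 : ∀ i j : Unit, i ≠ j → (1 : ℝ) ≤ ‖(0 : ℂ) * 1 - 1 * 0‖ := fun i j h =>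
    (h (Subsingleton.elim i j)).elim
  rw [Metric.tendsto_nhds]
  intro ε hε
  set η : ℝ := Real.log (1 + ε / 2) with hη
  have hη0 : 0 < η := Real.log_pos (by linarith)
  have key : ∀ᶠ m in atTop, ∀ t ∈ Icc (0 : ℝ) 1, DD α β γ m t ≠ 0 ∧
      (∀ i, DD (fun _ : Unit => 0) (fun _ => 1) (fun _ => γ i) m t ≠ 0) ∧
      ‖LL α β γ m t - ∑ i, LL (fun _ : Unit => 0) (fun _ => 1) (fun _ => γ i) m t -
        2 * t * cc α β γ‖ ≤ η := by
    refine uniform_of_local fun t0 ht0 => ?_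
    have hm : Tendsto (fun x : ℕ × ℝ => x.1)
        ((atTop ×ˢ 𝓝 t0) ⊓ 𝓟 {x : ℕ × ℝ | x.2 ∈ Icc (0 : ℝ) 1}) atTop :=
      tendsto_fst.mono_left inf_le_left
    have ht : Tendsto (fun x : ℕ × ℝ => x.2)
        ((atTop ×ˢ 𝓝 t0) ⊓ 𝓟 {x : ℕ × ℝ | x.2 ∈ Icc (0 : ℝ) 1}) (𝓝 t0) :=
      tendsto_snd.mono_left inf_le_left
    have ht01 : ∀ᶠ x : ℕ × ℝ in (atTop ×ˢ 𝓝 t0) ⊓ 𝓟 {x : ℕ × ℝ | x.2 ∈ Icc (0 : ℝ) 1},
        x.2 ∈ Icc (0 : ℝ) 1 := eventually_inf_principal.mpr (Eventually.of_forall fun x hx => hx)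
    have H := main_asymp hm ht ht01 ht0 hu hd hd1 hsep hγ
    have H1 := fun i => main_asymp (α := fun _ : Unit => 0) (β := fun _ => 1) (γ := fun _ => γ i)
      hm ht ht01 ht0 hu1 one_pos le_rfl hsep1 (fun _ => hγ i)
    have T := H.2.sub (tendsto_finsetSum Finset.univ fun i _ => (H1 i).2)
    simp only [Finset.univ_unique, Finset.sum_singleton, Finset.sum_neg_distrib, sub_self] at T
    filter_upwards [H.1, eventually_all.mpr fun i => (H1 i).1,
      (Metric.tendsto_nhds.mp T) η hη0] with x h1 h2 h3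
    refine ⟨h1, h2, le_of_eq_of_le ?_ h3.le⟩
    rw [dist_zero_right, ← mainT_sub, Finset.sum_sub_distrib]
    congr 1
    ring
  filter_upwards [key] with m hm
  set Q : ℝ → ℂ := fun t => DD α β γ m t /
    (∏ i, DD (fun _ : Unit => 0) (fun _ => 1) (fun _ => γ i) m t) *
      Complex.exp (-((t : ℂ) ^ 2 * cc α β γ)) with hQ
  have hder : ∀ t ∈ Icc (0 : ℝ) 1, HasDerivAt (fun s => Q s - 1)
      (Q t * (LL α β γ m t - ∑ i, LL (fun _ : Unit => 0) (fun _ => 1) (fun _ => γ i) m t -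
        2 * t * cc α β γ)) t := by
    intro t ht
    obtain ⟨h1, h2, -⟩ := hm t ht
    have d1 := hasDerivAt_DD hu hd hd1 hsep hγ m ht h1
    have d2 := HasDerivAt.fun_finsetProd (u := Finset.univ) fun i _ =>
      hasDerivAt_DD (α := fun _ : Unit => 0) (β := fun _ => 1) (γ := fun _ => γ i) hu1 one_pos
        le_rfl hsep1 (fun _ => hγ i) m ht (h2 i)
    have e2 : ∑ i, (∏ j ∈ Finset.univ.erase i,
        DD (fun _ : Unit => 0) (fun _ => 1) (fun _ => γ j) m t) •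
        (DD (fun _ : Unit => 0) (fun _ => 1) (fun _ => γ i) m t *
          LL (fun _ : Unit => 0) (fun _ => 1) (fun _ => γ i) m t) =
        (∏ i, DD (fun _ : Unit => 0) (fun _ => 1) (fun _ => γ i) m t) *
          ∑ i, LL (fun _ : Unit => 0) (fun _ => 1) (fun _ => γ i) m t := by
      rw [Finset.mul_sum]
      refine Finset.sum_congr rfl fun i _ => ?_
      rw [smul_eq_mul, ← mul_assoc, Finset.prod_erase_mul _ _ (Finset.mem_univ i)]
    rw [e2] at d2
    have h3 : ∏ i, DD (fun _ : Unit => 0) (fun _ => 1) (fun _ => γ i) m t ≠ 0 :=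
      Finset.prod_ne_zero_iff.mpr fun i _ => h2 i
    have d3 : HasDerivAt (fun s : ℝ => -((s : ℂ) ^ 2 * cc α β γ)) (-(2 * t * cc α β γ)) t := by
      have d4 : HasDerivAt (fun s : ℝ => (s : ℂ)) 1 t := Complex.ofRealCLM.hasDerivAt
      simpa using ((d4.fun_pow 2).mul_const (cc α β γ)).fun_neg
    refine (((d1.fun_div d2 h3).fun_mul d3.cexp).sub_const 1).congr_deriv ?_
    simp only [hQ]
    field_simp
    ring
  have hG := norm_le_gronwallBound_of_norm_deriv_right_le (δ := 0) (K := η) (ε := η)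
    (fun t ht => (hder t ht).continuousAt.continuousWithinAt)
    (fun t ht => (hder t (Ico_subset_Icc_self ht)).hasDerivWithinAt)
    (by simp [hQ, DD_zero]) (fun t ht => by
      rw [norm_mul]
      have h1 := (hm t (Ico_subset_Icc_self ht)).2.2
      have h2 : ‖Q t‖ ≤ ‖Q t - 1‖ + 1 := by simpa using norm_add_le (Q t - 1) 1
      calc _ ≤ (‖Q t - 1‖ + 1) * η := by gcongr
        _ = _ := by ring) 1 ⟨zero_le_one, le_rfl⟩
  rw [gronwallBound_of_K_ne_0 hη0.ne'] at hG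
  simp only [sub_zero, mul_one, zero_mul, zero_add, div_self hη0.ne', one_mul] at hG
  rw [hη, Real.exp_log (by linarith)] at hG
  rw [dist_eq_norm]
  simp only [hQ, ofReal_one, one_pow, one_mul] at hG
  linarith

end Pool.Agent.Lib.MP_8d6f76_pr
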