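import Pool.Agent.Lib.MP_8d6f76_pr.OnePt
import Pool.Agent.Lib.MP_8d6f76_pr.Andreief

open MeasureTheory Set Complex Filter Topology
open scoped ENNReal ComplexConjugate Real Matrix

namespace Pool.Agent.Lib.MP_8d6f76_pr

/-- First coordinate of a unit vector representing a point of the sphere. -/
noncomputable def uA : OnePoint ℂ → ℂ
  | OnePoint.some p => p / (sw p : ℝ)
  | OnePoint.infty => 1

/-- Second coordinate of a unit vector representing a point of the sphere. -/
noncomputable def uB : OnePoint ℂ → ℂ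
  | OnePoint.some p => 1 / (sw p : ℝ)
  | OnePoint.infty => 0

lemma norm_sw (z : ℂ) : ‖((sw z : ℝ) : ℂ)‖ = sw z := by
  rw [Complex.norm_real, Real.norm_of_nonneg (sw_pos z).le]

lemma unit_u (p : OnePoint ℂ) : ‖uA p‖ ^ 2 + ‖uB p‖ ^ 2 = 1 := by
  induction p using OnePoint.rec with
  | infty => simp [uA, uB]
  | coe p =>
    have h := sw_pos p
    simp only [uA, uB, norm_div, norm_sw, norm_one, div_pow, sw_sq]
    field_simp
    ring

lemma sqrt_mul_sw (p q : ℂ) : √((1 + ‖p‖ ^ 2) * (1 + ‖q‖ ^ 2)) = sw p * sw q := by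
  rw [Real.sqrt_mul (by positivity)]; rfl

lemma dl_u (p : OnePoint ℂ) (z : ℂ) : dl (uA p) (uB p) z = chord (OnePoint.some z) p := by
  induction p using OnePoint.rec with
  | infty => simp [uA, uB, dl, chord, sw]
  | coe p =>
    have h := sw_pos p
    have h' := sw_pos z
    have e : 1 / ((sw p : ℝ) : ℂ) * z - p / (sw p : ℝ) = (z - p) / (sw p : ℝ) := by ring
    simp only [uA, uB, dl, chord, sqrt_mul_sw, e, norm_div, norm_sw]
    field_simp

lemma cross_u (p q : OnePoint ℂ) : ‖uA p * uB q - uB p * uA q‖ = chord p q := by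
  induction p using OnePoint.rec with
  | infty =>
    induction q using OnePoint.rec with
    | infty => simp [uA, uB, chord]
    | coe q =>
      simp only [uA, uB, chord, one_mul, zero_mul, sub_zero, norm_div, norm_one, sw]
      rw [Complex.norm_real, Real.norm_of_nonneg (Real.sqrt_nonneg _)]
  | coe p =>
    induction q using OnePoint.rec with
    | infty =>
      simp only [uA, uB, chord, mul_one, mul_zero, zero_sub, norm_neg, norm_div, norm_one, sw]
      rw [Complex.norm_real, Real.norm_of_nonneg (Real.sqrt_nonneg _)]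
    | coe q =>
      have e : p / ((sw p : ℝ) : ℂ) * (1 / (sw q : ℝ)) - 1 / (sw p : ℝ) * (q / (sw q : ℝ)) =
          (p - q) / ((sw p : ℝ) * (sw q : ℝ)) := by ring
      simp only [uA, uB, chord, sqrt_mul_sw, e, norm_div, norm_mul, norm_sw]

lemma chord_comm (p q : OnePoint ℂ) : chord p q = chord q p := by
  rw [← cross_u, ← cross_u, norm_sub_rev, mul_comm (uA p), mul_comm (uB p)]

lemma chord_pos {p q : OnePoint ℂ} (h : p ≠ q) : 0 < chord p q := by
  induction p using OnePoint.rec with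
  | infty =>
    induction q using OnePoint.rec with
    | infty => exact (h rfl).elim
    | coe q => simp only [chord]; positivity
  | coe p =>
    induction q using OnePoint.rec with
    | infty => simp only [chord]; positivity
    | coe q =>
      have h1 : 0 < ‖p - q‖ := norm_pos_iff.mpr (sub_ne_zero.mpr fun e => h (congrArg _ e))
      simp only [chord]
      positivity

lemma exp_sum_multiset {k : ℕ} (γ : Fin k → ℂ) (g : Fin k → ℂ → ℝ) (M : Multiset ℂ) :
    Complex.exp (∑ i, γ i * ((M.map (g i)).sum : ℝ)) =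
      (M.map fun z => Complex.exp (∑ i, γ i * (g i z : ℝ))).prod := by
  induction M using Multiset.induction_on with
  | empty => simp
  | cons z M ih =>
    simp only [Multiset.map_cons, Multiset.sum_cons, Multiset.prod_cons, ← ih, ← Complex.exp_add,
      ← Finset.sum_add_distrib, ofReal_add, mul_add]

theorem fisherHartwig (k : ℕ) (p : Fin k → OnePoint ℂ) (hp : Function.Injective p)
    (γ : Fin k → ℂ) (hγ : ∀ i, -2 < (γ i).re) :
    Tendsto (fun n : ℕ =>
      (∫ ω, Complex.exp (∑ i, γ i * (linStat (green (p i)) ω.1 ω.2 : ℝ))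
          ∂((ginibre n).prod (ginibre n))) /
        (Complex.exp (-(∑ i, γ i) / 2 * n - (∑ i, γ i) / 4 - (∑ i, γ i) ^ 2 / 8) *
          (2 * Real.pi : ℂ) ^ ((∑ i, γ i) / 4) *
          ((n : ℂ) ^ ((∑ i, γ i ^ 2) / 8) /
            ∏ i, ∏ j ∈ Finset.Ioi i, ((chord (p i) (p j) : ℝ) : ℂ) ^ (γ i * γ j / 2)) *
          (1 / ∏ i, barnesG (1 + γ i / 2)))) atTop (𝓝 1) := by
  obtain ⟨d, hd, hd1, hsep⟩ : ∃ d : ℝ, 0 < d ∧ d ≤ 1 ∧
      ∀ i j, i ≠ j → d ≤ ‖uA (p i) * uB (p j) - uB (p i) * uA (p j)‖ := by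
    have h1 : ∀ᶠ d in 𝓝[>] (0 : ℝ), d ∈ Ioo (0 : ℝ) 1 := Ioo_mem_nhdsGT one_pos
    have h2 : ∀ᶠ d in 𝓝[>] (0 : ℝ), ∀ i j, i ≠ j → d ∈ Ioo 0 (chord (p i) (p j)) := by
      refine eventually_all.mpr fun i => eventually_all.mpr fun j => ?_
      by_cases hij : i = j
      · exact Eventually.of_forall fun d h => (h hij).elim
      · filter_upwards [Ioo_mem_nhdsGT (chord_pos (hp.ne hij))] with d hd _ using hd
    obtain ⟨d, h3, h4⟩ := (h1.and h2).exists
    exact ⟨d, h3.1, h3.2.le, fun i j hij => by rw [cross_u]; exact (h4 i j hij).2.le⟩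
  have hu : ∀ i, ‖uA (p i)‖ ^ 2 + ‖uB (p i)‖ ^ 2 = 1 := fun i => unit_u _
  obtain ⟨σ, hσ0, hσ2, hσ⟩ := exists_sigma hγ
  have hF : Integrable (fun z => Complex.exp
      (GG (fun i => uA (p i)) (fun i => uB (p i)) (fun i => ((1 : ℝ) : ℂ) * γ i) z)) sig :=
    (integrable_Dom hu hd hd1 hsep hσ0 hσ2).mono' (measurable_exp_GG _ _ _).aestronglyMeasurable
      (Eventually.of_forall (norm_exp_GG_le hu fun i => by simpa using (hσ i).le))
  rw [← tendsto_add_atTop_iff_nat 1]
  refine (det_asymp hu hd hd1 hsep hγ).congr fun m => ?_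
  have h1 : ∫ ω, Complex.exp (∑ i, γ i * (linStat (green (p i)) ω.1 ω.2 : ℝ))
      ∂((ginibre (m + 1)).prod (ginibre (m + 1))) =
      DD (fun i => uA (p i)) (fun i => uB (p i)) γ m 1 := by
    rw [DD, ← (expect_eq m (measurable_exp_GG _ _ _) hF).2]
    refine integral_congr_ae (Eventually.of_forall fun ω => ?_)
    simp only [linStat, exp_sum_multiset, GG, green, dl_u, ofReal_one, one_mul]
  have h2 : (2 * π : ℂ) ^ ((∑ i, γ i) / 4) =
      Complex.exp ((∑ i, γ i) / 4 * (Real.log (2 * π) : ℝ)) := by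
    have h3 : (2 * π : ℂ) ≠ 0 := by exact_mod_cast Real.two_pi_pos.ne'
    rw [cpow_def_of_ne_zero h3, Complex.ofReal_log Real.two_pi_pos.le, mul_comm]
    push_cast; rfl
  have h3 : ((m + 1 : ℕ) : ℂ) ^ ((∑ i, γ i ^ 2) / 8) =
      Complex.exp ((∑ i, γ i ^ 2) / 8 * (Real.log (m + 1) : ℝ)) := by
    have h4 : ((m + 1 : ℕ) : ℂ) ≠ 0 := by exact_mod_cast Nat.succ_ne_zero m
    rw [cpow_def_of_ne_zero h4, Complex.ofReal_log (by positivity), mul_comm]
    push_cast; rfl
  have h4 : ∏ i, ∏ j ∈ Finset.Ioi i, ((chord (p i) (p j) : ℝ) : ℂ) ^ (γ i * γ j / 2) =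
      Complex.exp ((∑ i, γ i * ∑ j ∈ {i}ᶜ, γ j *
        (Real.log ‖uA (p j) * uB (p i) - uB (p j) * uA (p i)‖ : ℝ)) / 4) := by
    have h5 := Finset.sum_sum_Ioi_add_eq_sum_sum_off_diag
      (fun j i => γ i * (γ j * (Real.log (chord (p j) (p i)) : ℝ)))
    simp only [cross_u, Finset.mul_sum]
    rw [← h5, Finset.sum_div, Complex.exp_sum]
    refine Finset.prod_congr rfl fun i _ => ?_
    rw [Finset.sum_div, Complex.exp_sum]
    refine Finset.prod_congr rfl fun j hj => ?_
    have h6 := chord_pos (hp.ne (Finset.mem_Ioi.mp hj).ne)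
    rw [cpow_def_of_ne_zero (by exact_mod_cast h6.ne'), ← Complex.ofReal_log h6.le,
      chord_comm (p j) (p i)]
    congr 1
    ring
  rw [h1, h2, h3, h4, mul_one_div, div_div_eq_mul_div, ← Complex.exp_sub, ← Complex.exp_add,
    ← Complex.exp_add, Complex.exp_neg, ← div_eq_mul_inv]
  congr 2
  push_cast
  ring

end Pool.Agent.Lib.MP_8d6f76_pr
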