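import Pool.Agent.Lib.MP_8d6f76_pr.Sections

open MeasureTheory Set Complex Polynomial
open scoped ENNReal ComplexConjugate Real Matrix

namespace Pool.Agent.Lib.MP_8d6f76_pr

/-- The radial model weight `u ^ a (1 - u) ^ b`. -/
noncomputable def phi (a b : ℂ) (u : ℝ) : ℂ :=
  Complex.exp (a * (Real.log u : ℝ) + b * (Real.log (1 - u) : ℝ))

lemma measurable_phi (a b : ℂ) : Measurable (phi a b) := by unfold phi; fun_prop

lemma mono_eq {m j : ℕ} (hj : j ≤ m) (z : ℂ) :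
    z ^ j * conj z ^ j / ((sw z : ℝ) : ℂ) ^ (2 * m) =
      ((UU z : ℝ) : ℂ) ^ j * (1 - ((UU z : ℝ) : ℂ)) ^ (m - j) := by
  obtain ⟨l, rfl⟩ := Nat.exists_eq_add_of_le hj
  have h1 : z ^ j * conj z ^ j = ((‖z‖ ^ 2 : ℝ) : ℂ) ^ j := by
    rw [← mul_pow, Complex.mul_conj, Complex.normSq_eq_norm_sq]
  have h2 : ((sw z : ℝ) : ℂ) ^ (2 * (j + l)) = ((1 + ‖z‖ ^ 2 : ℝ) : ℂ) ^ (j + l) := by
    rw [pow_mul, ← sw_sq]; push_cast; rfl
  have h3 : (1 - ((UU z : ℝ) : ℂ)) = ((1 + ‖z‖ ^ 2 : ℝ) : ℂ)⁻¹ := by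
    have := one_sub_UU z
    exact_mod_cast this
  have h4 : ((UU z : ℝ) : ℂ) = ((‖z‖ ^ 2 : ℝ) : ℂ) / ((1 + ‖z‖ ^ 2 : ℝ) : ℂ) := by
    unfold UU; push_cast; rfl
  have h5 : ((1 + ‖z‖ ^ 2 : ℝ) : ℂ) ≠ 0 := by
    exact_mod_cast (by positivity : (1 + ‖z‖ ^ 2 : ℝ) ≠ 0)
  rw [h1, h2, h3, h4, Nat.add_sub_cancel_left, pow_add, div_pow, inv_pow]
  field_simp

lemma beta_integrand {u : ℝ} (hu : u ∈ Ioo (0 : ℝ) 1) (a b : ℂ) (j l : ℕ) :
    (u : ℂ) ^ (((j : ℂ) + 1 + a) - 1) * (1 - (u : ℂ)) ^ (((l : ℂ) + 1 + b) - 1) =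
      (u : ℂ) ^ j * (1 - (u : ℂ)) ^ l * phi a b u := by
  have h0 : (u : ℂ) ≠ 0 := by exact_mod_cast hu.1.ne'
  have h1 : (0 : ℝ) < 1 - u := by linarith [hu.2]
  have h1' : (1 - (u : ℂ)) ≠ 0 := by exact_mod_cast h1.ne'
  have e1 : ((j : ℂ) + 1 + a) - 1 = j + a := by ring
  have e2 : ((l : ℂ) + 1 + b) - 1 = l + b := by ring
  have e3 : Complex.log (1 - (u : ℂ)) = ((Real.log (1 - u) : ℝ) : ℂ) := by
    rw [Complex.ofReal_log h1.le]; push_cast; rfl
  rw [e1, e2, cpow_add _ _ h0, cpow_add _ _ h1', cpow_natCast, cpow_natCast,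
    cpow_def_of_ne_zero h0, cpow_def_of_ne_zero h1', ← Complex.ofReal_log hu.1.le, e3, phi,
    Complex.exp_add, mul_comm a, mul_comm b]
  ring

lemma betaIntegral_eq (a b : ℂ) (j l : ℕ) :
    betaIntegral ((j : ℂ) + 1 + a) ((l : ℂ) + 1 + b) =
      ∫ u in Ioo (0 : ℝ) 1, (u : ℂ) ^ j * (1 - (u : ℂ)) ^ l * phi a b u := by
  rw [betaIntegral, intervalIntegral.integral_of_le zero_le_one, integral_Ioc_eq_integral_Ioo]
  exact setIntegral_congr_fun measurableSet_Ioo fun u hu => beta_integrand hu a b j l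

lemma integrableOn_beta {a b : ℂ} {j l : ℕ} (ha : 0 < ((j : ℂ) + 1 + a).re)
    (hb : 0 < ((l : ℂ) + 1 + b).re) :
    IntegrableOn (fun u : ℝ => (u : ℂ) ^ j * (1 - (u : ℂ)) ^ l * phi a b u) (Ioo 0 1) := by
  have h := (betaIntegral_convergent ha hb).1.mono_set Ioo_subset_Ioc_self
  exact h.congr_fun (fun u hu => beta_integrand hu a b j l) measurableSet_Ioo

lemma integral_radial (a b : ℂ) {m j : ℕ} (hj : j ≤ m) :
    ∫ z, z ^ j * conj z ^ j * (phi a b (UU z) / ((sw z : ℝ) : ℂ) ^ (2 * m)) ∂sig =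
      betaIntegral ((j : ℂ) + 1 + a) (((m - j : ℕ) : ℂ) + 1 + b) := by
  rw [betaIntegral_eq, ← integral_comp_UU]
  · refine integral_congr_ae (Filter.Eventually.of_forall fun z => ?_)
    simp only
    rw [← mono_eq hj]
    ring
  · exact (Measurable.mul (by fun_prop) (measurable_phi a b)).aestronglyMeasurable

lemma beta_nat (j l : ℕ) (a : ℂ) (ha : 0 < ((j : ℂ) + 1 + a).re) :
    betaIntegral ((j : ℂ) + 1 + a) ((l : ℂ) + 1 + 0) =
      l.factorial / ∏ i ∈ Finset.range (l + 1), ((j : ℂ) + 1 + a + i) := by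
  rw [add_zero, betaIntegral_eval_nat_add_one_right ha]

lemma prod_range_fact (j l : ℕ) :
    (j.factorial : ℂ) * ∏ i ∈ Finset.range l, ((j : ℂ) + 1 + i) = (j + l).factorial := by
  induction l with
  | zero => simp
  | succ l ih =>
    rw [Finset.prod_range_succ, ← mul_assoc, ih, ← add_assoc, Nat.factorial_succ]
    push_cast; ring

/-- The orthonormal basis of sections. -/
noncomputable def bas (m : ℕ) (j : Fin (m + 1)) (z : ℂ) : ℂ :=
  ((√(((m : ℝ) + 1) * m.choose j) : ℝ) : ℂ) * z ^ (j : ℕ) / ((sw z : ℝ) : ℂ) ^ m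

lemma continuous_bas (m : ℕ) (j : Fin (m + 1)) : Continuous (bas m j) := by
  unfold bas
  refine Continuous.div (by fun_prop) ((continuous_ofReal.comp continuous_sw).pow m) fun z => ?_
  exact pow_ne_zero _ (sw_ne_zero z)

lemma sum_norm_sq_bas (m : ℕ) (z : ℂ) : ∑ j, ‖bas m j z‖ ^ 2 = m + 1 := by
  have hs := sw_pos z
  have h1 : ∀ j : Fin (m + 1), ‖bas m j z‖ ^ 2 =
      ((m : ℝ) + 1) / (1 + ‖z‖ ^ 2) ^ m * ((‖z‖ ^ 2) ^ (j : ℕ) * 1 ^ (m - j) * m.choose j) := by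
    intro j
    rw [bas, norm_div, norm_mul, norm_pow, norm_pow, Complex.norm_real, Complex.norm_real,
      Real.norm_of_nonneg hs.le, Real.norm_of_nonneg (Real.sqrt_nonneg _), div_pow, mul_pow,
      Real.sq_sqrt (by positivity), ← sw_sq]
    ring
  simp_rw [h1]
  rw [← Finset.mul_sum, Fin.sum_univ_eq_sum_range
    (fun j => (‖z‖ ^ 2) ^ j * 1 ^ (m - j) * (m.choose j : ℝ)) (m + 1), ← add_pow,
    add_comm (‖z‖ ^ 2) (1 : ℝ)]
  field_simp

lemma norm_bas_le (m : ℕ) (j : Fin (m + 1)) (z : ℂ) : ‖bas m j z‖ ≤ √((m : ℝ) + 1) := by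
  refine Real.le_sqrt_of_sq_le ?_
  rw [← sum_norm_sq_bas m z]
  exact Finset.single_le_sum (f := fun j => ‖bas m j z‖ ^ 2) (fun j _ => by positivity)
    (Finset.mem_univ j)

/-- The Gram matrix of the form with symbol `f`. -/
noncomputable def gram (m : ℕ) (f : ℂ → ℂ) : Matrix (Fin (m + 1)) (Fin (m + 1)) ℂ :=
  Matrix.of fun j k => ∫ z, bas m j z * conj (bas m k z) * f z ∂sig

lemma gram_radial (m : ℕ) (a b : ℂ) (j k : Fin (m + 1)) :
    gram m (fun z => phi a b (UU z)) j k = if j = k then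
      (((m : ℂ) + 1) * m.choose j) *
        betaIntegral (((j : ℕ) : ℂ) + 1 + a) (((m - j : ℕ) : ℂ) + 1 + b) else 0 := by
  have e : ∀ z, bas m j z * conj (bas m k z) * phi a b (UU z) =
      (((√(((m : ℝ) + 1) * m.choose j) : ℝ) : ℂ) * ((√(((m : ℝ) + 1) * m.choose k) : ℝ) : ℂ)) *
        (z ^ (j : ℕ) * conj z ^ (k : ℕ) * (phi a b (UU z) / ((sw z : ℝ) : ℂ) ^ (2 * m))) := by
    intro z
    simp only [bas, map_div₀, map_mul, map_pow, conj_ofReal]
    ring
  simp only [gram, Matrix.of_apply, e]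
  rw [integral_const_mul]
  split_ifs with hjk
  · subst hjk
    rw [integral_radial a b (Nat.lt_succ_iff.mp j.2), ← Complex.ofReal_mul,
      Real.mul_self_sqrt (by positivity)]
    push_cast; rfl
  · have hm : AEStronglyMeasurable (fun z => phi a b (UU z) / ((sw z : ℝ) : ℂ) ^ (2 * m)) sig :=
      (Measurable.div ((measurable_phi a b).comp continuous_UU.measurable)
        ((continuous_ofReal.comp continuous_sw).pow _).measurable).aestronglyMeasurable
    have h := setIntegral_monomial (S := univ) MeasurableSet.univ (fun _ _ => by simp) hm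
      (fun θ z => by simp only [UU, sw, norm_mul, Complex.norm_exp_ofReal_mul_I, one_mul])
      (k := j) (j := k) (fun h => hjk (Fin.ext h))
    rw [Measure.restrict_univ] at h
    rw [h, mul_zero]

lemma gram_one (m : ℕ) : gram m (fun _ => 1) = 1 := by
  ext j k
  have h := gram_radial m 0 0 j k
  simp only [phi, zero_mul, add_zero, Complex.exp_zero] at h
  rw [h, Matrix.one_apply]
  split_ifs with hjk
  · have hj : (j : ℕ) ≤ m := Nat.lt_succ_iff.mp j.2
    have h1 := beta_nat j (m - j) 0 (by simp; positivity)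
    simp only [add_zero] at h1
    rw [h1]
    have h2 := prod_range_fact j (m - j + 1)
    have h3 : (j : ℕ) + (m - j + 1) = m + 1 := by omega
    rw [h3, Nat.factorial_succ] at h2
    have h4 : ((m.choose j : ℕ) : ℂ) * (j : ℕ).factorial * (m - j).factorial = m.factorial := by
      exact_mod_cast Nat.choose_mul_factorial_mul_factorial hj
    have h5 : (((j : ℕ).factorial : ℕ) : ℂ) ≠ 0 := by exact_mod_cast (Nat.factorial_pos _).ne'
    have h6 : ∏ i ∈ Finset.range (m - j + 1), (((j : ℕ) : ℂ) + 1 + i) ≠ 0 := by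
      intro h0
      rw [h0, mul_zero] at h2
      exact (Nat.cast_ne_zero.mpr (by positivity)) h2.symm
    rw [← mul_div_assoc, div_eq_one_iff_eq h6]
    apply mul_left_cancel₀ h5
    rw [h2]
    push_cast
    linear_combination ((m : ℂ) + 1) * h4
  · rfl

/-- Euclidean norm of a coefficient vector. -/
noncomputable def nrm {n : ℕ} (x : Fin n → ℂ) : ℝ := √(∑ j, ‖x j‖ ^ 2)

lemma nrm_nonneg {n : ℕ} (x : Fin n → ℂ) : 0 ≤ nrm x := Real.sqrt_nonneg _

lemma norm_sum_mul_le {n : ℕ} (x y : Fin n → ℂ) : ‖∑ j, x j * y j‖ ≤ nrm x * nrm y := by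
  refine (norm_sum_le _ _).trans ?_
  simp_rw [norm_mul]
  exact Real.sum_mul_le_sqrt_mul_sqrt _ _ _

lemma eq_zero_of_nrm {n : ℕ} {x : Fin n → ℂ} (h : nrm x ≤ 0) : x = 0 := by
  have h1 : ∑ j, ‖x j‖ ^ 2 = 0 := by
    have := Real.sqrt_eq_zero'.mp (le_antisymm h (nrm_nonneg x))
    exact le_antisymm this (Finset.sum_nonneg fun j _ => by positivity)
  funext j
  have := (Finset.sum_eq_zero_iff_of_nonneg fun j _ => by positivity).mp h1 j (Finset.mem_univ j)
  simpa using this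

/-- The section with given coefficients. -/
noncomputable def comb (m : ℕ) (x : Fin (m + 1) → ℂ) (z : ℂ) : ℂ := ∑ j, x j * bas m j z

lemma nrm_bas (m : ℕ) (z : ℂ) : nrm (fun j => bas m j z) = √((m : ℝ) + 1) := by
  rw [nrm, sum_norm_sq_bas]

lemma norm_comb_le (m : ℕ) (x : Fin (m + 1) → ℂ) (z : ℂ) :
    ‖comb m x z‖ ≤ √((m : ℝ) + 1) * nrm x := by
  rw [mul_comm, ← nrm_bas m z]; exact norm_sum_mul_le _ _

lemma integrable_bas_mul {m : ℕ} {f : ℂ → ℂ} (hf : Integrable f sig) (j k : Fin (m + 1)) :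
    Integrable (fun z => bas m j z * conj (bas m k z) * f z) sig := by
  refine hf.bdd_mul (c := √((m : ℝ) + 1) * √((m : ℝ) + 1))
    ((continuous_bas m j).mul (continuous_conj.comp (continuous_bas m k))).aestronglyMeasurable
    (Filter.Eventually.of_forall fun z => ?_)
  rw [norm_mul, Complex.norm_conj]
  exact mul_le_mul (norm_bas_le m j z) (norm_bas_le m k z) (norm_nonneg _) (Real.sqrt_nonneg _)

lemma integral_comb {m : ℕ} {f : ℂ → ℂ} (hf : Integrable f sig) (x y : Fin (m + 1) → ℂ) :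
    ∫ z, comb m x z * conj (comb m y z) * f z ∂sig = ∑ k, (x ᵥ* gram m f) k * conj (y k) := by
  have e : ∀ z, comb m x z * conj (comb m y z) * f z =
      ∑ k, ∑ j, (x j * conj (y k)) * (bas m j z * conj (bas m k z) * f z) := by
    intro z
    simp only [comb, map_sum, map_mul, Finset.sum_mul, Finset.mul_sum]
    refine Finset.sum_congr rfl fun k _ => Finset.sum_congr rfl fun j _ => ?_
    ring
  simp_rw [e]
  rw [integral_finsetSum _ fun k _ =>
    integrable_finsetSum _ fun j _ => (integrable_bas_mul hf j k).const_mul _]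
  refine Finset.sum_congr rfl fun k _ => ?_
  rw [integral_finsetSum _ fun j _ => (integrable_bas_mul hf j k).const_mul _]
  simp only [integral_const_mul, Matrix.vecMul, dotProduct, gram, Matrix.of_apply, Finset.sum_mul]
  refine Finset.sum_congr rfl fun j _ => ?_
  ring

lemma nrm_le_of_ae {m : ℕ} {x : Fin (m + 1) → ℂ} {M : ℝ} (hM : 0 ≤ M)
    (h : ∀ᵐ z ∂sig, ‖comb m x z‖ ≤ M) : nrm x ≤ M := by
  have h1 := integral_comb (m := m) (integrable_const (1 : ℂ)) x x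
  rw [gram_one, Matrix.vecMul_one] at h1
  have h2 : ‖∫ z, comb m x z * conj (comb m x z) * 1 ∂sig‖ ≤ M ^ 2 := by
    have := norm_integral_le_of_norm_le_const (μ := sig)
      (f := fun z => comb m x z * conj (comb m x z) * 1) (C := M ^ 2) (by
        filter_upwards [h] with z hz
        rw [mul_one, norm_mul, Complex.norm_conj, sq]
        exact mul_le_mul hz hz (norm_nonneg _) hM)
    simpa using this
  rw [h1] at h2
  have h3 : ∑ k, x k * conj (x k) = ((∑ k, ‖x k‖ ^ 2 : ℝ) : ℂ) := by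
    push_cast
    refine Finset.sum_congr rfl fun k _ => ?_
    rw [Complex.mul_conj, Complex.normSq_eq_norm_sq]; push_cast; rfl
  rw [h3, Complex.norm_real, Real.norm_of_nonneg (Finset.sum_nonneg fun j _ => by positivity)] at h2
  exact Real.sqrt_le_iff.mpr ⟨hM, h2⟩

lemma exists_comb {m : ℕ} {p : ℂ[X]} (hp : p.natDegree ≤ m) :
    ∃ y : Fin (m + 1) → ℂ, ∀ z, sec m p z = comb m y z := by
  refine ⟨fun j => p.coeff j / ((√(((m : ℝ) + 1) * m.choose j) : ℝ) : ℂ), fun z => ?_⟩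
  rw [sec, comb, eval_eq_sum_range' (Nat.lt_succ_of_le hp), Finset.sum_div,
    ← Fin.sum_univ_eq_sum_range (fun j => p.coeff j * z ^ j / ((sw z : ℝ) : ℂ) ^ m) (m + 1)]
  refine Finset.sum_congr rfl fun j _ => ?_
  have h1 : (0 : ℝ) < m.choose j := by exact_mod_cast Nat.choose_pos (Nat.lt_succ_iff.mp j.2)
  have h2 : ((√(((m : ℝ) + 1) * m.choose j) : ℝ) : ℂ) ≠ 0 := by
    have h3 : (0 : ℝ) < ((m : ℝ) + 1) * m.choose j := by positivity
    exact_mod_cast (Real.sqrt_pos.mpr h3).ne'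
  rw [bas]
  field_simp

lemma exists_poly {m : ℕ} (x : Fin (m + 1) → ℂ) :
    ∃ p : ℂ[X], p.natDegree ≤ m ∧ ∀ z, sec m p z = comb m x z := by
  refine ⟨∑ j : Fin (m + 1), C (x j * ((√(((m : ℝ) + 1) * m.choose j) : ℝ) : ℂ)) * X ^ (j : ℕ),
    natDegree_sum_le_of_forall_le _ _ fun j _ =>
      (natDegree_C_mul_X_pow_le _ _).trans (Nat.lt_succ_iff.mp j.2), fun z => ?_⟩
  simp only [sec, comb, bas, eval_finsetSum, eval_mul, eval_C, eval_pow, eval_X, Finset.sum_div]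
  refine Finset.sum_congr rfl fun j _ => ?_
  ring

/-- The one point density of the tilted ensemble. -/
noncomputable def rho (m : ℕ) (f : ℂ → ℂ) (w : ℂ) : ℂ :=
  comb m ((fun k => conj (bas m k w)) ᵥ* (gram m f)⁻¹) w * f w

theorem global_approx {m : ℕ} {f : ℂ → ℂ} {η M : ℝ} (hf : Integrable f sig) (hη0 : 0 ≤ η)
    (hM : 0 ≤ M) (hη : √((m : ℝ) + 1) * η ≤ 1 / 2) (h : ∀ᵐ w ∂sig, ∃ ρ, Approx m f w ρ η M) :
    (gram m f).det ≠ 0 ∧ ∀ w ρ, Approx m f w ρ η M →
      ‖rho m f w - ρ‖ ≤ (η + 2 * ((m : ℝ) + 1) * η * M) * ‖f w‖ := by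
  have key : ∀ w ρ, Approx m f w ρ η M → ∃ c : Fin (m + 1) → ℂ, nrm c ≤ M ∧
      (∀ x : Fin (m + 1) → ℂ, ‖∑ k, (x ᵥ* gram m f) k * conj (c k) - comb m x w‖ ≤
        η * (√((m : ℝ) + 1) * nrm x)) ∧ ‖conj (comb m c w) * f w - ρ‖ ≤ η * ‖f w‖ := by
    intro w ρ hw
    obtain ⟨v, hv, hvM, hu, hd⟩ := hw
    obtain ⟨c, hc⟩ := exists_comb hv
    refine ⟨c, nrm_le_of_ae hM (Filter.Eventually.of_forall fun z => hc z ▸ hvM z), fun x => ?_,
      hc w ▸ hd⟩
    obtain ⟨u, hu', hux⟩ := exists_poly x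
    have h1 := hu u hu' _ fun z => by rw [hux]; exact norm_comb_le m x z
    simp_rw [hux, hc] at h1
    rwa [integral_comb hf] at h1
  have hinv : ∀ x : Fin (m + 1) → ℂ, nrm x ≤ 2 * M * nrm (x ᵥ* gram m f) := by
    intro x
    have h0 := nrm_nonneg x
    have h0' := nrm_nonneg (x ᵥ* gram m f)
    have h1 : nrm x ≤ M * nrm (x ᵥ* gram m f) + 1 / 2 * nrm x := by
      refine nrm_le_of_ae (by positivity) ?_
      filter_upwards [h] with w hw
      obtain ⟨ρ, hw⟩ := hw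
      obtain ⟨c, hc, hx, -⟩ := key w ρ hw
      have h2 := hx x
      have h3 := norm_sum_mul_le (x ᵥ* gram m f) fun k => conj (c k)
      have h4 : nrm (fun k => conj (c k)) = nrm c := by simp [nrm]
      have h5 : ‖comb m x w‖ ≤ ‖∑ k, (x ᵥ* gram m f) k * conj (c k)‖ +
          ‖∑ k, (x ᵥ* gram m f) k * conj (c k) - comb m x w‖ := by
        simpa using norm_sub_le (∑ k, (x ᵥ* gram m f) k * conj (c k))
          (∑ k, (x ᵥ* gram m f) k * conj (c k) - comb m x w)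
      rw [h4] at h3
      have h6 : nrm (x ᵥ* gram m f) * nrm c ≤ nrm (x ᵥ* gram m f) * M := by gcongr
      have h7 : √((m : ℝ) + 1) * η * nrm x ≤ 1 / 2 * nrm x := by gcongr
      linarith
    linarith
  have hdet : (gram m f).det ≠ 0 := by
    intro h0
    obtain ⟨x, hx, hx0⟩ := Matrix.exists_vecMul_eq_zero_iff.mpr h0
    have := hinv x
    rw [hx0] at this
    exact hx (eq_zero_of_nrm (by simpa [nrm] using this))
  refine ⟨hdet, fun w ρ hw => ?_⟩
  obtain ⟨c, hc, hx, hd⟩ := key w ρ hw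
  set x : Fin (m + 1) → ℂ := (fun k => conj (bas m k w)) ᵥ* (gram m f)⁻¹ with hxdef
  have h1 : x ᵥ* gram m f = fun k => conj (bas m k w) := by
    rw [hxdef, Matrix.vecMul_vecMul, Matrix.nonsing_inv_mul _ (isUnit_iff_ne_zero.mpr hdet),
      Matrix.vecMul_one]
  have h2 := hx x
  have h3 := hinv x
  have h4 : nrm (fun k => conj (bas m k w)) = √((m : ℝ) + 1) := by
    rw [← nrm_bas m w]; simp [nrm]
  rw [h1, h4] at h3
  have h5 : ∑ k, (x ᵥ* gram m f) k * conj (c k) = conj (comb m c w) := by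
    rw [h1, comb, map_sum]
    refine Finset.sum_congr rfl fun k _ => ?_
    rw [map_mul, mul_comm]
  rw [h5] at h2
  have h6 : ‖conj (comb m c w) - comb m x w‖ ≤ 2 * ((m : ℝ) + 1) * η * M := by
    refine h2.trans ?_
    calc η * (√((m : ℝ) + 1) * nrm x) ≤ η * (√((m : ℝ) + 1) * (2 * M * √((m : ℝ) + 1))) := by gcongr
      _ = 2 * (√((m : ℝ) + 1) * √((m : ℝ) + 1)) * η * M := by ring
      _ = _ := by rw [Real.mul_self_sqrt (by positivity)]
  have e : rho m f w - ρ =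
      (conj (comb m c w) * f w - ρ) - (conj (comb m c w) - comb m x w) * f w := by
    rw [rho, ← hxdef]; ring
  rw [e, add_mul]
  refine (norm_sub_le _ _).trans (add_le_add hd ?_)
  rw [norm_mul]
  gcongr

end Pool.Agent.Lib.MP_8d6f76_pr
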