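import Pool.Agent.Lib.MP_8d6f76_pr.Gram

open MeasureTheory Set Complex Filter Topology
open scoped ENNReal ComplexConjugate Real

namespace Pool.Agent.Lib.MP_8d6f76_pr

/-- Inverse moments of the radial model. -/
noncomputable def kap (m : ℕ) (a b : ℂ) (j : ℕ) : ℂ :=
  (betaIntegral ((j : ℂ) + 1 + a) (((m - j : ℕ) : ℂ) + 1 + b))⁻¹

lemma beta_ne_zero {u v : ℂ} (hu : 0 < u.re) (hv : 0 < v.re) : betaIntegral u v ≠ 0 := by
  rw [betaIntegral_eq_Gamma_mul_div u v hu hv]
  exact div_ne_zero (mul_ne_zero (Gamma_ne_zero_of_re_pos hu) (Gamma_ne_zero_of_re_pos hv))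
    (Gamma_ne_zero_of_re_pos (by rw [add_re]; linarith))

lemma re_nat_add_pos {a : ℂ} (ha : -1 < a.re) (j : ℕ) : 0 < ((j : ℂ) + 1 + a).re := by
  simp only [add_re, natCast_re, one_re]
  have : (0 : ℝ) ≤ j := Nat.cast_nonneg j
  linarith

lemma kap_mul {m j : ℕ} {a b : ℂ} (ha : -1 < a.re) (hb : 0 < (((m - j : ℕ) : ℂ) + 1 + b).re) :
    kap m a b j * betaIntegral ((j : ℂ) + 1 + a) (((m - j : ℕ) : ℂ) + 1 + b) = 1 :=
  inv_mul_cancel₀ (beta_ne_zero (re_nat_add_pos ha j) hb)

lemma kap_succ {m j : ℕ} {a b : ℂ} (hj : j < m) (ha : -1 < a.re)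
    (hb : 0 < (((m - j : ℕ) : ℂ) + b).re) :
    kap m a b (j + 1) * ((j : ℂ) + 1 + a) = kap m a b j * (((m - j : ℕ) : ℂ) + b) := by
  have h := betaIntegral_recurrence (re_nat_add_pos ha j) hb
  have e1 : (((j + 1 : ℕ) : ℂ) + 1 + a) = (j : ℂ) + 1 + a + 1 := by push_cast; ring
  have e2 : (((m - (j + 1) : ℕ) : ℂ) + 1 + b) = ((m - j : ℕ) : ℂ) + b := by
    have : m - j = m - (j + 1) + 1 := by omega
    rw [this]; push_cast; ring
  have e3 : (((m - j : ℕ) : ℂ) + 1 + b) = ((m - j : ℕ) : ℂ) + b + 1 := by ring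
  have h1 : betaIntegral ((j : ℂ) + 1 + a + 1) (((m - j : ℕ) : ℂ) + b) ≠ 0 :=
    beta_ne_zero (by have := re_nat_add_pos ha j; rw [add_re, one_re]; linarith) hb
  have h2 : betaIntegral ((j : ℂ) + 1 + a) (((m - j : ℕ) : ℂ) + b + 1) ≠ 0 :=
    beta_ne_zero (re_nat_add_pos ha j) (by rw [add_re, one_re]; linarith)
  rw [kap, kap, e1, e2, e3]
  field_simp
  linear_combination h

lemma kap_zero_zero {m : ℕ} {b : ℂ} (hb : 0 < ((m : ℂ) + 1 + b).re) :
    kap m 0 b 0 = (m : ℂ) + 1 + b := by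
  rw [kap, betaIntegral_symm]
  simp only [Nat.cast_zero, zero_add, add_zero, Nat.sub_zero]
  rw [betaIntegral_eval_one_right hb, one_div, inv_inv]

lemma norm_kap_le {m : ℕ} {a b : ℂ} {A δ : ℝ} (hδ : 0 < δ) (hδ1 : δ ≤ 1) (ha : -1 + δ ≤ a.re)
    (hb : ‖b‖ ≤ A) (hm : 2 * A < m) {j : ℕ} (hj : 2 * j ≤ m) :
    ‖kap m a b j‖ ≤ ‖kap m a b 0‖ * (Real.exp (2 * A) * (m + 1) / δ) * m.choose j := by
  have hA : 0 ≤ A := (norm_nonneg _).trans hb
  have hm0 : (0 : ℝ) < m := by linarith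
  have ha' : -1 < a.re := by linarith
  have step : ∀ i : ℕ, 2 * (i + 1) ≤ m → ‖kap m a b (i + 1)‖ * (i + δ) * m.choose i ≤
      ‖kap m a b i‖ * (1 + 2 * A / m) * ((i + 1) * m.choose (i + 1)) := by
    intro i hi
    have him : i < m := by omega
    have hc : ((m - i : ℕ) : ℝ) = m - i := by rw [Nat.cast_sub him.le]
    have hi' : (2 * (i + 1) : ℝ) ≤ m := by exact_mod_cast hi
    have hre : 0 < (((m - i : ℕ) : ℂ) + b).re := by
      have := (abs_le.mp ((abs_re_le_norm b).trans hb)).1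
      rw [add_re, natCast_re, hc]; linarith
    have h1 := congrArg norm (kap_succ him ha' hre)
    rw [norm_mul, norm_mul] at h1
    have h2 : (i : ℝ) + δ ≤ ‖(i : ℂ) + 1 + a‖ := by
      refine le_trans ?_ (re_le_norm _)
      simp only [add_re, natCast_re, one_re]; linarith
    have h3 : ‖((m - i : ℕ) : ℂ) + b‖ ≤ (1 + 2 * A / m) * (m - i) := by
      refine (norm_add_le _ _).trans ?_
      rw [Complex.norm_natCast, hc]
      have : A ≤ 2 * A / m * (m - i) := by
        rw [div_mul_eq_mul_div, le_div_iff₀ hm0]; nlinarith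
      linarith
    have h4 : ((i : ℝ) + 1) * m.choose (i + 1) = (m - i) * m.choose i := by
      have := Nat.choose_succ_right_eq m i
      have h5 : ((m.choose (i + 1) * (i + 1) : ℕ) : ℝ) = ((m.choose i * (m - i) : ℕ) : ℝ) := by
        rw [this]
      push_cast [hc] at h5
      linarith
    rw [h4]
    calc ‖kap m a b (i + 1)‖ * (i + δ) * m.choose i
        ≤ ‖kap m a b (i + 1)‖ * ‖(i : ℂ) + 1 + a‖ * m.choose i := by gcongr
      _ = ‖kap m a b i‖ * ‖((m - i : ℕ) : ℂ) + b‖ * m.choose i := by rw [h1]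
      _ ≤ ‖kap m a b i‖ * ((1 + 2 * A / m) * (m - i)) * m.choose i := by gcongr
      _ = _ := by ring
  have main : ∀ i : ℕ, 2 * (i + 1) ≤ m → ‖kap m a b (i + 1)‖ ≤
      ‖kap m a b 0‖ * ((1 + 2 * A / m) ^ (i + 1) * (i + 1) / δ) * m.choose (i + 1) := by
    intro i
    induction i with
    | zero =>
      intro hi
      have := step 0 hi
      simp only [Nat.cast_zero, zero_add, Nat.choose_zero_right, Nat.cast_one, mul_one, one_mul,
        pow_one] at this ⊢
      rw [← le_div_iff₀ hδ] at this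
      refine this.trans (le_of_eq ?_)
      ring
    | succ i ih =>
      intro hi
      have h1 := ih (by omega)
      have h2 := step (i + 1) hi
      have hc : (0 : ℝ) < m.choose (i + 1) := by exact_mod_cast Nat.choose_pos (by omega)
      have hi0 : (0 : ℝ) < (i : ℝ) + 1 := by positivity
      push_cast at h2 ⊢
      have h3 : ‖kap m a b (i + 1 + 1)‖ * ((i + 1) * m.choose (i + 1)) ≤
          (‖kap m a b 0‖ * ((1 + 2 * A / m) ^ (i + 1 + 1) * (i + 1 + 1) / δ) * m.choose (i + 1 + 1)) *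
            ((i + 1) * m.choose (i + 1)) := by
        calc ‖kap m a b (i + 1 + 1)‖ * ((i + 1) * m.choose (i + 1))
            ≤ ‖kap m a b (i + 1 + 1)‖ * ((i + 1 + δ) * m.choose (i + 1)) := by
              refine mul_le_mul_of_nonneg_left ?_ (norm_nonneg _)
              exact mul_le_mul_of_nonneg_right (by linarith) hc.le
          _ ≤ ‖kap m a b (i + 1)‖ * (1 + 2 * A / m) * ((i + 1 + 1) * m.choose (i + 1 + 1)) := by
              rw [← mul_assoc]; exact h2
          _ ≤ (‖kap m a b 0‖ * ((1 + 2 * A / m) ^ (i + 1) * (i + 1) / δ) * m.choose (i + 1)) *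
              (1 + 2 * A / m) * ((i + 1 + 1) * m.choose (i + 1 + 1)) := by gcongr
          _ = _ := by ring
      exact le_of_mul_le_mul_right h3 (by positivity)
  have hexp : 1 ≤ Real.exp (2 * A) := Real.one_le_exp (by positivity)
  rcases j with _ | i
  · simp only [Nat.choose_zero_right, Nat.cast_one, mul_one]
    refine le_mul_of_one_le_right (norm_nonneg _) ?_
    rw [le_div_iff₀ hδ]
    nlinarith
  · refine (main i hj).trans ?_
    have hi : (i : ℝ) + 1 ≤ m := by exact_mod_cast (by omega : i + 1 ≤ m)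
    have h1 : (1 + 2 * A / m) ^ (i + 1) ≤ Real.exp (2 * A) := by
      calc (1 + 2 * A / m) ^ (i + 1) ≤ (1 + 2 * A / m) ^ m :=
            pow_le_pow_right₀ (le_add_of_nonneg_right (by positivity)) (by omega)
        _ ≤ Real.exp (2 * A / m) ^ m := by
            gcongr
            rw [add_comm]; exact Real.add_one_le_exp _
        _ = _ := by rw [← Real.exp_nat_mul]; congr 1; field_simp
    gcongr
    linarith

/-- The rescaled moment integral. -/
noncomputable def Tint (m : ℕ) (a b : ℂ) (ψ : ℝ → ℂ) : ℂ :=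
  ∫ y in Ioo (0 : ℝ) (m + 1),
    Complex.exp (a * (Real.log y : ℝ) + (m + b) * (Real.log (1 - y / (m + 1)) : ℝ)) * ψ y

lemma Tint_eq (m : ℕ) (a b : ℂ) (ψ : ℝ → ℂ) :
    Tint m a b ψ = Complex.exp ((a + 1) * (Real.log (m + 1) : ℝ)) *
      ∫ u in Ioo (0 : ℝ) 1, (1 - (u : ℂ)) ^ m * phi a b u * ψ ((m + 1) * u) := by
  have hn : (0 : ℝ) < m + 1 := by positivity
  have h := intervalIntegral.integral_comp_mul_left (a := 0) (b := 1) (fun y : ℝ =>
    Complex.exp (a * (Real.log y : ℝ) + (m + b) * (Real.log (1 - y / (m + 1)) : ℝ)) * ψ y) hn.ne'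
  rw [mul_zero, mul_one, intervalIntegral.integral_of_le zero_le_one,
    intervalIntegral.integral_of_le hn.le, integral_Ioc_eq_integral_Ioo,
    integral_Ioc_eq_integral_Ioo] at h
  have h2 : ∫ u in Ioo (0 : ℝ) 1, Complex.exp (a * (Real.log ((m + 1) * u) : ℝ) +
      (m + b) * (Real.log (1 - (m + 1) * u / (m + 1)) : ℝ)) * ψ ((m + 1) * u) =
      Complex.exp (a * (Real.log (m + 1) : ℝ)) *
        ∫ u in Ioo (0 : ℝ) 1, (1 - (u : ℂ)) ^ m * phi a b u * ψ ((m + 1) * u) := by
    rw [← integral_const_mul]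
    refine setIntegral_congr_fun measurableSet_Ioo fun u hu => ?_
    have h1 : (0 : ℝ) < 1 - u := by linarith [hu.2]
    have e : (1 - (u : ℂ)) ^ m = Complex.exp (m * (Real.log (1 - u) : ℝ)) := by
      rw [Complex.exp_nat_mul, ← Complex.ofReal_exp, Real.exp_log h1]; push_cast; rfl
    rw [Real.log_mul hn.ne' hu.1.ne', mul_div_cancel_left₀ _ hn.ne', e, phi, ← mul_assoc,
      ← mul_assoc, ← Complex.exp_add, ← Complex.exp_add]
    congr 2
    push_cast
    ring
  rw [h2] at h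
  have e : Complex.exp ((a + 1) * (Real.log (m + 1) : ℝ)) =
      ((m + 1 : ℝ) : ℂ) * Complex.exp (a * (Real.log (m + 1) : ℝ)) := by
    rw [add_mul, Complex.exp_add, one_mul, ← Complex.ofReal_exp, Real.exp_log hn, mul_comm]
  rw [e, mul_assoc, h, Tint, real_smul, ← mul_assoc, ← Complex.ofReal_mul, mul_inv_cancel₀ hn.ne']
  simp

lemma tendsto_Tint {ι : Type*} {l : Filter ι} [l.IsCountablyGenerated] {mm : ι → ℕ} {a b : ι → ℂ}
    {a0 b0 : ℂ} (hm : Tendsto mm l atTop) (ha : Tendsto a l (𝓝 a0)) (hb : Tendsto b l (𝓝 b0))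
    (h0 : -1 < a0.re) {ψ : ℝ → ℂ} (hψm : Measurable ψ)
    (hψ : ∀ σ : ℝ, -1 < σ →
      IntegrableOn (fun y : ℝ => y ^ σ * Real.exp (-(1 / 2) * y) * ‖ψ y‖) (Ioi 0)) :
    Tendsto (fun i => Tint (mm i) (a i) (b i) ψ) l
      (𝓝 (∫ y in Ioi (0 : ℝ), Complex.exp (a0 * (Real.log y : ℝ) - y) * ψ y)) := by
  have hn : Tendsto (fun i => (mm i : ℝ) + 1) l atTop :=
    tendsto_atTop_add_const_right _ _ (tendsto_natCast_atTop_atTop.comp hm)
  have e : ∀ i, Tint (mm i) (a i) (b i) ψ = ∫ y in Ioi (0 : ℝ), (Iio ((mm i : ℝ) + 1)).indicator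
      (fun y => Complex.exp (a i * (Real.log y : ℝ) +
        (mm i + b i) * (Real.log (1 - y / (mm i + 1)) : ℝ)) * ψ y) y := by
    intro i
    rw [setIntegral_indicator measurableSet_Iio, Ioi_inter_Iio, Tint]
  simp_rw [e]
  have hare : Tendsto (fun i => (a i).re) l (𝓝 a0.re) := (continuous_re.tendsto _).comp ha
  have hbre : Tendsto (fun i => (b i).re) l (𝓝 b0.re) := (continuous_re.tendsto _).comp hb
  refine tendsto_integral_filter_of_dominated_convergence
    (fun y => y ^ ((a0.re - 1) / 2) * Real.exp (-(1 / 2) * y) * ‖ψ y‖ +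
      y ^ (a0.re + 1) * Real.exp (-(1 / 2) * y) * ‖ψ y‖) ?_ ?_
    ((hψ _ (by linarith)).add (hψ _ (by linarith))) ?_
  · refine Eventually.of_forall fun i => ?_
    exact (Measurable.indicator (by fun_prop) measurableSet_Iio).aestronglyMeasurable
  · filter_upwards [hare.eventually (lt_mem_nhds (show (a0.re - 1) / 2 < a0.re by linarith)),
      hare.eventually (gt_mem_nhds (show a0.re < a0.re + 1 by linarith)),
      hbre.eventually (lt_mem_nhds (show b0.re - 1 < b0.re by linarith)),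
      hn.eventually (eventually_ge_atTop (4 - 2 * b0.re))] with i h1 h2 h3 h4
    filter_upwards [ae_restrict_mem measurableSet_Ioi] with y hy
    have hy0 : (0 : ℝ) < y := hy
    by_cases hyn : y ∈ Iio ((mm i : ℝ) + 1)
    · have hn0 : (0 : ℝ) < mm i + 1 := by positivity
      have hlt : y / (mm i + 1) < 1 := (div_lt_one hn0).mpr hyn
      have hlog : Real.log (1 - y / (mm i + 1)) ≤ -(y / (mm i + 1)) := by
        have := Real.log_le_sub_one_of_pos (show 0 < 1 - y / (mm i + 1) by linarith)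
        linarith
      have hq : 0 ≤ y / (mm i + 1) := by positivity
      have h5 : ((mm i : ℝ) + (b i).re) * Real.log (1 - y / (mm i + 1)) ≤ -(1 / 2) * y := by
        calc ((mm i : ℝ) + (b i).re) * Real.log (1 - y / (mm i + 1))
            ≤ ((mm i + 1) / 2) * Real.log (1 - y / (mm i + 1)) :=
              mul_le_mul_of_nonpos_right (by linarith) (by linarith)
          _ ≤ ((mm i + 1) / 2) * -(y / (mm i + 1)) := by gcongr
          _ = _ := by field_simp
      have h6 : Real.exp ((a i).re * Real.log y) ≤ y ^ ((a0.re - 1) / 2) + y ^ (a0.re + 1) := by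
        rw [mul_comm, ← Real.rpow_def_of_pos hy0]
        rcases le_total y 1 with hy1 | hy1
        · exact (Real.rpow_le_rpow_of_exponent_ge hy0 hy1 h1.le).trans
            (le_add_of_nonneg_right (by positivity))
        · exact (Real.rpow_le_rpow_of_exponent_le hy1 h2.le).trans
            (le_add_of_nonneg_left (by positivity))
      rw [indicator_of_mem hyn, norm_mul, Complex.norm_exp, ← add_mul, ← add_mul]
      gcongr
      simp only [add_re, mul_re, ofReal_re, ofReal_im, mul_zero, sub_zero, natCast_re]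
      rw [Real.exp_add]
      gcongr
    · rw [indicator_of_notMem hyn, norm_zero]; positivity
  · filter_upwards [ae_restrict_mem measurableSet_Ioi] with y hy
    have h1 : Tendsto (fun i => ((mm i : ℝ) + 1) * Real.log (1 + -y / (mm i + 1))) l (𝓝 (-y)) :=
      (Real.tendsto_mul_log_one_add_div_atTop (-y)).comp hn
    have h2 : Tendsto (fun i => Real.log (1 + -y / (mm i + 1))) l (𝓝 0) := by
      have h3 : Tendsto (fun i => 1 + -y / ((mm i : ℝ) + 1)) l (𝓝 (1 + 0)) :=
        tendsto_const_nhds.add (tendsto_const_nhds.div_atTop hn)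
      rw [add_zero] at h3
      simpa using h3.log one_ne_zero
    have h4 := ((ha.mul_const ((Real.log y : ℝ) : ℂ)).add
      (((continuous_ofReal.tendsto _).comp h1).add
        ((hb.sub_const 1).mul ((continuous_ofReal.tendsto _).comp h2)))).cexp.mul_const (ψ y)
    simp only [ofReal_zero, mul_zero, add_zero, ofReal_neg, ← sub_eq_add_neg] at h4
    refine h4.congr' ?_
    filter_upwards [hn.eventually (eventually_gt_atTop y)] with i hi
    rw [indicator_of_mem (show y ∈ Iio ((mm i : ℝ) + 1) from hi)]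
    simp only [Function.comp, neg_div, ← sub_eq_add_neg]
    congr 2
    push_cast
    ring

lemma integrableOn_pow_exp {σ : ℝ} (hσ : -1 < σ) :
    IntegrableOn (fun y : ℝ => y ^ σ * Real.exp (-(1 / 2) * y)) (Ioi 0) := by
  simpa using integrableOn_rpow_mul_exp_neg_mul_rpow hσ one_pos (by norm_num : (0 : ℝ) < 1 / 2)

lemma abs_log_le {y ε : ℝ} (hy : 0 < y) (hε : 0 < ε) :
    |Real.log y| ≤ (y ^ ε + y ^ (-ε)) / ε := by
  have h1 : Real.log y ≤ y ^ ε / ε := Real.log_le_rpow_div hy.le hε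
  have h2 : Real.log y⁻¹ ≤ y⁻¹ ^ ε / ε := Real.log_le_rpow_div (inv_pos.mpr hy).le hε
  rw [Real.log_inv, Real.inv_rpow hy.le, ← Real.rpow_neg hy.le] at h2
  have h3 : 0 ≤ y ^ ε / ε := by positivity
  have h4 : 0 ≤ y ^ (-ε) / ε := by positivity
  rw [add_div, abs_le]
  constructor <;> linarith

lemma integrableOn_pow_exp_log {σ : ℝ} (hσ : -1 < σ) :
    IntegrableOn (fun y : ℝ => y ^ σ * Real.exp (-(1 / 2) * y) * ‖((Real.log y : ℝ) : ℂ)‖)
      (Ioi 0) := by
  set ε := (σ + 1) / 2 with hε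
  have hε0 : 0 < ε := by rw [hε]; linarith
  have h := ((integrableOn_pow_exp (σ := σ + ε) (by linarith)).add
    (integrableOn_pow_exp (σ := σ + -ε) (by rw [hε]; linarith))).div_const ε
  refine h.mono' (by
    refine Measurable.aestronglyMeasurable ?_
    fun_prop) ?_
  filter_upwards [ae_restrict_mem measurableSet_Ioi] with y hy
  have hy0 : (0 : ℝ) < y := hy
  rw [Real.norm_of_nonneg (by positivity), Complex.norm_real, Real.norm_eq_abs]
  calc y ^ σ * Real.exp (-(1 / 2) * y) * |Real.log y|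
      ≤ y ^ σ * Real.exp (-(1 / 2) * y) * ((y ^ ε + y ^ (-ε)) / ε) := by
        gcongr; exact abs_log_le hy0 hε0
    _ = _ := by
        simp only [Pi.add_apply, Real.rpow_add hy0]; ring

lemma integral_exp_eq_Gamma {a : ℂ} (ha : -1 < a.re) :
    ∫ y in Ioi (0 : ℝ), Complex.exp (a * (Real.log y : ℝ) - y) * 1 = Gamma (a + 1) := by
  rw [Gamma_eq_integral (by rw [add_re, one_re]; linarith), GammaIntegral]
  refine setIntegral_congr_fun measurableSet_Ioi fun y hy => ?_
  have hy0 : (0 : ℝ) < y := hy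
  have h0 : (y : ℂ) ≠ 0 := by exact_mod_cast hy0.ne'
  simp only [add_sub_cancel_right, mul_one]
  rw [cpow_def_of_ne_zero h0, ← Complex.ofReal_log hy0.le, Complex.ofReal_exp, ← Complex.exp_add]
  congr 1
  push_cast
  ring

/-- The limit of the logarithmic moment. -/
noncomputable def Xi (a : ℂ) : ℂ :=
  (∫ y in Ioi (0 : ℝ), Complex.exp (a * (Real.log y : ℝ) - y) * ((Real.log y : ℝ) : ℂ)) /
    Gamma (a + 1)

lemma kap_zero_eq (m : ℕ) (a b : ℂ) :
    kap m a b 0 = Complex.exp ((a + 1) * (Real.log (m + 1) : ℝ)) / Tint m a b fun _ => 1 := by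
  rw [kap, betaIntegral_eq, Tint_eq]
  simp only [pow_zero, one_mul, Nat.sub_zero, mul_one]
  rw [div_mul_eq_div_div, div_self (Complex.exp_ne_zero _), one_div]

section
variable {ι : Type*} {l : Filter ι} [l.IsCountablyGenerated] {mm : ι → ℕ} {a b : ι → ℂ}
  {a0 b0 : ℂ} (hm : Tendsto mm l atTop) (ha : Tendsto a l (𝓝 a0)) (hb : Tendsto b l (𝓝 b0))
  (h0 : -1 < a0.re)
include hm ha hb h0

lemma tendsto_Tint_one :
    Tendsto (fun i => Tint (mm i) (a i) (b i) fun _ => 1) l (𝓝 (Gamma (a0 + 1))) := by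
  rw [← integral_exp_eq_Gamma h0]
  exact tendsto_Tint hm ha hb h0 measurable_const fun σ hσ => by
    simpa using integrableOn_pow_exp hσ

lemma eventually_norm_kap_zero_le : ∃ (C : ℝ) (P : ℕ), 0 ≤ C ∧
    ∀ᶠ i in l, ‖kap (mm i) (a i) (b i) 0‖ ≤ C * ((mm i : ℝ) + 1) ^ P := by
  have hG : Gamma (a0 + 1) ≠ 0 := Gamma_ne_zero_of_re_pos (by rw [add_re, one_re]; linarith)
  have hG' : 0 < ‖Gamma (a0 + 1)‖ := norm_pos_iff.mpr hG
  have hare : Tendsto (fun i => (a i).re) l (𝓝 a0.re) := (continuous_re.tendsto _).comp ha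
  obtain ⟨P, hP⟩ := exists_nat_ge (a0.re + 2)
  refine ⟨(‖Gamma (a0 + 1)‖ / 2)⁻¹, P, by positivity, ?_⟩
  filter_upwards [(tendsto_Tint_one hm ha hb h0).norm.eventually
    (lt_mem_nhds (show ‖Gamma (a0 + 1)‖ / 2 < ‖Gamma (a0 + 1)‖ by linarith)),
    hare.eventually (gt_mem_nhds (show a0.re < a0.re + 1 by linarith))] with i h1 h2
  have hn : (1 : ℝ) ≤ mm i + 1 := by simp
  rw [kap_zero_eq, norm_div, Complex.norm_exp, div_eq_inv_mul]
  gcongr
  simp only [mul_re, add_re, one_re, ofReal_re, ofReal_im, mul_zero, sub_zero]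
  rw [mul_comm, ← Real.rpow_def_of_pos (by linarith), ← Real.rpow_natCast]
  exact Real.rpow_le_rpow_of_exponent_le hn (by linarith)

lemma tendsto_logMoment :
    Tendsto (fun i => kap (mm i) (a i) (b i) 0 *
      (∫ u in Ioo (0 : ℝ) 1, (1 - (u : ℂ)) ^ mm i * phi (a i) (b i) u *
        ((Real.log ((mm i + 1) * u) : ℝ) : ℂ))) l (𝓝 (Xi a0)) := by
  have hG : Gamma (a0 + 1) ≠ 0 := Gamma_ne_zero_of_re_pos (by rw [add_re, one_re]; linarith)
  have h1 := (tendsto_Tint hm ha hb h0 (ψ := fun y => ((Real.log y : ℝ) : ℂ)) (by fun_prop)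
    fun σ hσ => integrableOn_pow_exp_log hσ).div (tendsto_Tint_one hm ha hb h0) hG
  refine h1.congr fun i => ?_
  simp only [Pi.div_apply]
  rw [kap_zero_eq, Tint_eq]
  ring

lemma tendsto_firstMoment :
    Tendsto (fun i => ‖kap (mm i) (a i) (b i) 0‖ *
      (∫ u in Ioo (0 : ℝ) 1, (1 - u) ^ mm i * ‖phi (a i) (b i) u‖ * u)) l (𝓝 0) := by
  have hG : Gamma (a0 + 1) ≠ 0 := Gamma_ne_zero_of_re_pos (by rw [add_re, one_re]; linarith)
  have hn : Tendsto (fun i => (mm i : ℝ) + 1) l atTop :=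
    tendsto_atTop_add_const_right _ _ (tendsto_natCast_atTop_atTop.comp hm)
  have hare : Tendsto (fun i => (((a i).re : ℝ) : ℂ)) l (𝓝 (a0.re : ℝ)) :=
    ((continuous_ofReal.comp continuous_re).tendsto _).comp ha
  have hbre : Tendsto (fun i => (((b i).re : ℝ) : ℂ)) l (𝓝 (b0.re : ℝ)) :=
    ((continuous_ofReal.comp continuous_re).tendsto _).comp hb
  have h1 := (tendsto_Tint hm hare hbre (by simpa using h0) (ψ := fun y => (y : ℂ)) (by fun_prop)
    fun σ hσ => by
      refine (integrableOn_pow_exp (σ := σ + 1) (by linarith)).congr_fun (fun y hy => ?_)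
        measurableSet_Ioi
      have hy0 : (0 : ℝ) < y := hy
      simp only [Complex.norm_real, Real.norm_of_nonneg hy0.le, Real.rpow_add hy0, Real.rpow_one]
      ring).norm
  have h2 := (h1.div (tendsto_Tint_one hm ha hb h0).norm (norm_ne_zero_iff.mpr hG)).div_atTop hn
  refine h2.congr fun i => ?_
  have hn0 : (0 : ℝ) < mm i + 1 := by positivity
  have e1 : ∫ u in Ioo (0 : ℝ) 1, (1 - (u : ℂ)) ^ mm i * phi ((a i).re : ℝ) ((b i).re : ℝ) u *
      ((((mm i : ℝ) + 1) * u : ℝ) : ℂ) = ((((mm i : ℝ) + 1) *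
      ∫ u in Ioo (0 : ℝ) 1, (1 - u) ^ mm i * ‖phi (a i) (b i) u‖ * u : ℝ) : ℂ) := by
    rw [← integral_const_mul, ← integral_complex_ofReal]
    refine setIntegral_congr_fun measurableSet_Ioo fun u _ => ?_
    simp only [phi, Complex.norm_exp, add_re, mul_re, ofReal_re, ofReal_im, mul_zero, sub_zero]
    push_cast
    ring
  have e2 : 0 ≤ ∫ u in Ioo (0 : ℝ) 1, (1 - u) ^ mm i * ‖phi (a i) (b i) u‖ * u :=
    setIntegral_nonneg measurableSet_Ioo fun u hu => by
      have := hu.1.le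
      have : 0 ≤ 1 - u := by linarith [hu.2]
      positivity
  simp only [Pi.div_apply]
  rw [kap_zero_eq, Tint_eq (ψ := fun y => (y : ℂ)), e1, norm_mul, norm_div, Complex.norm_real,
    Real.norm_of_nonneg (by positivity), Complex.norm_exp, Complex.norm_exp]
  simp only [mul_re, add_re, one_re, ofReal_re, ofReal_im, mul_zero, sub_zero]
  field_simp

end

end Pool.Agent.Lib.MP_8d6f76_pr
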