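import Pool.Agent.Lib.MP_8d6f76_pr.Defs

open MeasureTheory Polynomial
open scoped ENNReal

namespace Pool.Agent.Lib.MP_8d6f76_pr

/-- A key that orders complex numbers lexicographically. -/
noncomputable def lexKey (z : ℂ) : ℝ ×ₗ ℝ := toLex (z.re, z.im)

theorem lexKey_injective : Function.Injective lexKey := by
  intro a b h
  have h' : (a.re, a.im) = (b.re, b.im) := toLex.injective h
  exact Complex.ext (congrArg Prod.fst h') (congrArg Prod.snd h')

/-- Lexicographically sorted tuples. -/
def sortedSet (n : ℕ) : Set (Fin n → ℂ) := {z | Monotone (lexKey ∘ z)}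

theorem measurableSet_sortedSet (n : ℕ) : MeasurableSet (sortedSet n) := by
  have : sortedSet n = ⋂ i : Fin n, ⋂ j : Fin n, ⋂ _ : i ≤ j,
      ({z : Fin n → ℂ | (z i).re < (z j).re} ∪
        ({z : Fin n → ℂ | (z i).re = (z j).re} ∩ {z : Fin n → ℂ | (z i).im ≤ (z j).im})) := by
    ext z
    simp only [sortedSet, Monotone, Function.comp, lexKey, Prod.Lex.toLex_le_toLex,
      Set.mem_ofPred_eq, Set.mem_iInter, Set.mem_union, Set.mem_inter_iff]
  rw [this]
  refine MeasurableSet.iInter fun i => MeasurableSet.iInter fun j =>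
    MeasurableSet.iInter fun _ => ?_
  refine (measurableSet_lt (by fun_prop) (by fun_prop)).union
    ((measurableSet_eq_fun (by fun_prop) (by fun_prop)).inter
      (measurableSet_le (by fun_prop) (by fun_prop)))

theorem eq_of_sorted {n : ℕ} {z w : Fin n → ℂ} (hz : z ∈ sortedSet n) (hw : w ∈ sortedSet n)
    (h : Finset.univ.val.map z = Finset.univ.val.map w) : z = w := by
  have h1 : Finset.univ.val.map (lexKey ∘ z) = Finset.univ.val.map (lexKey ∘ w) := by
    rw [← Multiset.map_map, ← Multiset.map_map, h]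
  rw [Fin.univ_val_map, Fin.univ_val_map, Multiset.coe_eq_coe] at h1
  have h2 : lexKey ∘ z = lexKey ∘ w :=
    List.ofFn_injective (h1.eq_of_pairwise' (Monotone.sortedLE_ofFn hz).pairwise
      (Monotone.sortedLE_ofFn hw).pairwise)
  funext i
  exact lexKey_injective (congrFun h2 i)

theorem exists_sorted {n : ℕ} (M : Multiset ℂ) (hM : Multiset.card M = n) :
    ∃ z ∈ sortedSet n, M = Finset.univ.val.map z := by
  obtain ⟨l, rfl⟩ := Quotient.exists_rep M
  have hl : l.length = n := by simpa using hM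
  subst hl
  let f : Fin l.length → ℂ := l.get
  refine ⟨f ∘ Tuple.sort (lexKey ∘ f), Tuple.monotone_sort (lexKey ∘ f), ?_⟩
  rw [Fin.univ_val_map]
  have h1 : List.Perm (List.ofFn (f ∘ Tuple.sort (lexKey ∘ f))) (List.ofFn f) :=
    Equiv.Perm.ofFn_comp_perm _ _
  have h2 : List.ofFn f = l := List.ofFn_get l
  rw [h2] at h1
  exact (Multiset.coe_eq_coe.2 h1).symm

theorem eval_prod_map {n : ℕ} (z : Fin n → ℂ) (t : ℂ) :
    ((Finset.univ.val.map z).map fun a => X - C a).prod.eval t = ∏ i, (t - z i) := by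
  rw [Multiset.map_map, eval_multiset_prod, Multiset.map_map, Finset.prod_eq_multiset_prod]
  simp

theorem map_eq_of_eval {n : ℕ} {z w : Fin n → ℂ}
    (h : ∀ k : ℕ, ∏ i, ((k : ℂ) - z i) = ∏ i, ((k : ℂ) - w i)) :
    Finset.univ.val.map z = Finset.univ.val.map w := by
  have hp : ((Finset.univ.val.map z).map fun a => X - C a).prod =
      ((Finset.univ.val.map w).map fun a => X - C a).prod := by
    apply Polynomial.eq_of_infinite_eval_eq
    refine Set.Infinite.mono ?_ (Set.infinite_range_of_injective (Nat.cast_injective (R := ℂ)))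
    rintro _ ⟨k, rfl⟩
    simp only [Set.mem_ofPred_eq, eval_prod_map, h k]
  rw [← roots_multiset_prod_X_sub_C (Finset.univ.val.map z), hp, roots_multiset_prod_X_sub_C]

theorem card_eigs {n : ℕ} (A B : Fin n → Fin n → ℂ) : Multiset.card (eigs A B) = n := by
  unfold eigs
  rw [IsAlgClosed.card_roots_eq_natDegree, Matrix.charpoly_natDegree_eq_dim, Fintype.card_fin]

theorem charpoly_eq_prod {n : ℕ} (A B : Fin n → Fin n → ℂ) :
    (Matrix.of A * (Matrix.of B)⁻¹).charpoly = ((eigs A B).map fun a => X - C a).prod := by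
  unfold eigs
  exact (prod_multiset_X_sub_C_of_monic_of_roots_card_eq (Matrix.charpoly_monic _)
    IsAlgClosed.card_roots_eq_natDegree).symm

theorem det_scalar_sub {n : ℕ} (A B : Fin n → Fin n → ℂ) (t : ℂ) :
    (Matrix.scalar (Fin n) t - Matrix.of A * (Matrix.of B)⁻¹).det =
      ((eigs A B).map fun a => t - a).prod := by
  rw [← Matrix.eval_charpoly, charpoly_eq_prod, eval_multiset_prod, Multiset.map_map]
  simp

theorem det_pencil {n : ℕ} (A B : Fin n → Fin n → ℂ) (hB : (Matrix.of B).det ≠ 0) (t : ℂ) :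
    (t • Matrix.of B - Matrix.of A).det =
      (Matrix.of B).det * ((eigs A B).map fun a => t - a).prod := by
  rw [← det_scalar_sub, mul_comm, ← Matrix.det_mul]
  congr 1
  rw [sub_mul, Matrix.mul_assoc, Matrix.nonsing_inv_mul _ (isUnit_iff_ne_zero.2 hB),
    Matrix.mul_one, Matrix.scalar_apply, ← Matrix.smul_eq_diagonal_mul]

theorem measurable_det_of {n : ℕ} {α : Type*} [MeasurableSpace α]
    {M : α → Matrix (Fin n) (Fin n) ℂ} (hM : ∀ i j, Measurable fun a => M a i j) :
    Measurable fun a => (M a).det := by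
  simp only [Matrix.det_apply']
  refine Finset.measurable_sum _ fun σ _ => Measurable.const_mul ?_ _
  exact Finset.measurable_prod _ fun i _ => hM _ _

theorem measurable_inv_entry {n : ℕ} (i j : Fin n) :
    Measurable fun B : Fin n → Fin n → ℂ => (Matrix.of B)⁻¹ i j := by
  simp only [Matrix.inv_def, Matrix.smul_apply, smul_eq_mul, Ring.inverse_eq_inv',
    Matrix.adjugate_apply]
  refine Measurable.mul (Measurable.inv (measurable_det_of fun a b => ?_))
    (measurable_det_of fun a b => ?_)
  · simp only [Matrix.of_apply]; fun_prop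
  · simp only [Matrix.updateRow_apply, Matrix.of_apply]
    split_ifs
    · exact measurable_const
    · fun_prop

theorem exists_measurable_eigs' (n : ℕ) :
    ∃ s : (Fin n → Fin n → ℂ) × (Fin n → Fin n → ℂ) → (Fin n → ℂ), Measurable s ∧
      ∀ ω, eigs ω.1 ω.2 = Finset.univ.val.map (s ω) := by
  let e : (Fin n → ℂ) → (ℕ → ℂ) := fun z k => ∏ i, ((k : ℂ) - z i)
  have he : Continuous e := by
    refine continuous_pi fun k => ?_
    simp only [e]
    fun_prop
  have hinj : Set.InjOn e (sortedSet n) := fun z hz w hw h =>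
    eq_of_sorted hz hw (map_eq_of_eval fun k => congrFun h k)
  have hemb := ContinuousOn.measurableEmbedding (measurableSet_sortedSet n) he.continuousOn hinj
  obtain ⟨g, hg, hge⟩ := hemb.exists_measurable_extend
    (g := fun x : sortedSet n => (x : Fin n → ℂ)) measurable_subtype_coe (fun _ => ⟨0⟩)
  let v : (Fin n → Fin n → ℂ) × (Fin n → Fin n → ℂ) → (ℕ → ℂ) := fun ω k =>
    (Matrix.scalar (Fin n) (k : ℂ) - Matrix.of ω.1 * (Matrix.of ω.2)⁻¹).det
  have hv : Measurable v := by
    refine measurable_pi_lambda _ fun k => measurable_det_of fun i j => ?_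
    simp only [Matrix.sub_apply, Matrix.mul_apply, Matrix.of_apply]
    refine Measurable.sub measurable_const (Finset.measurable_sum _ fun l _ => ?_)
    exact Measurable.mul (by fun_prop) ((measurable_inv_entry l j).comp measurable_snd)
  refine ⟨g ∘ v, hg.comp hv, fun ω => ?_⟩
  obtain ⟨z, hz, hzM⟩ := exists_sorted (eigs ω.1 ω.2) (card_eigs _ _)
  have h1 : v ω = e z := by
    funext k
    simp only [v, e]
    rw [det_scalar_sub, hzM, Multiset.map_map, Finset.prod_eq_multiset_prod]
    rfl
  have h2 : g (e z) = z := congrFun hge ⟨z, hz⟩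
  rw [Function.comp_apply, h1, h2, hzM]

theorem measurable_comp_eigs {n : ℕ} {Φ : Multiset ℂ → ℝ≥0∞}
    (hΦ : Measurable fun z : Fin n → ℂ => Φ (Finset.univ.val.map z)) :
    Measurable fun ω : (Fin n → Fin n → ℂ) × (Fin n → Fin n → ℂ) => Φ (eigs ω.1 ω.2) := by
  obtain ⟨s, hs, h⟩ := exists_measurable_eigs' n
  simp only [h]
  exact hΦ.comp hs

end Pool.Agent.Lib.MP_8d6f76_pr
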