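import Pool.Agent.Lib.MP_8d6f76_pr.Kri0

open MeasureTheory Matrix
open scoped ENNReal

namespace Pool.Agent.Lib.MP_8d6f76_pr

/-- Left multiplication of an array by a square matrix. -/
noncomputable def lm {k l : ℕ} (T : Matrix (Fin k) (Fin k) ℂ) (A : Fin k → Fin l → ℂ) :
    Fin k → Fin l → ℂ := fun i j => (T * Matrix.of A) i j

/-- Right multiplication of an array by a square matrix. -/
noncomputable def rm {k l : ℕ} (U : Matrix (Fin l) (Fin l) ℂ) (A : Fin k → Fin l → ℂ) :
    Fin k → Fin l → ℂ := fun i => A i ᵥ* U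

theorem of_lm {k l : ℕ} (T : Matrix (Fin k) (Fin k) ℂ) (A : Fin k → Fin l → ℂ) :
    Matrix.of (lm T A) = T * Matrix.of A := rfl

theorem of_rm {k l : ℕ} (U : Matrix (Fin l) (Fin l) ℂ) (A : Fin k → Fin l → ℂ) :
    Matrix.of (rm U A) = Matrix.of A * U := by
  ext i j
  simp [rm, Matrix.mul_apply, vecMul, dotProduct]

theorem continuous_lm {k l : ℕ} (T : Matrix (Fin k) (Fin k) ℂ) :
    Continuous (lm T : (Fin k → Fin l → ℂ) → Fin k → Fin l → ℂ) := by
  refine continuous_pi fun i => continuous_pi fun j => ?_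
  simp only [lm, Matrix.mul_apply, Matrix.of_apply]
  fun_prop

theorem continuous_rm {k l : ℕ} (U : Matrix (Fin l) (Fin l) ℂ) :
    Continuous (rm U : (Fin k → Fin l → ℂ) → Fin k → Fin l → ℂ) := by
  refine continuous_pi fun i => continuous_pi fun j => ?_
  simp only [rm, vecMul, dotProduct]
  fun_prop

/-- Change of variables under a complex linear map. -/
theorem lintegral_comp_clinear {E : Type*} [NormedAddCommGroup E] [NormedSpace ℂ E]
    [NormedSpace ℝ E] [IsScalarTower ℝ ℂ E] [FiniteDimensional ℝ E]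
    [MeasurableSpace E] [BorelSpace E] (μ : Measure E) [μ.IsAddHaarMeasure]
    (L : E →ₗ[ℂ] E) (hL : LinearMap.det L ≠ 0) (F : E → ℝ≥0∞) (hF : Measurable F) :
    ∫⁻ x, F (L x) ∂μ = (ENNReal.ofReal (‖LinearMap.det L‖ ^ 2))⁻¹ * ∫⁻ x, F x ∂μ := by
  have hd : LinearMap.det (L.restrictScalars ℝ) = ‖LinearMap.det L‖ ^ 2 := by
    rw [LinearMap.det_restrictScalars, Algebra.norm_complex_apply, Complex.normSq_eq_norm_sq]
  have hpos : 0 < ‖LinearMap.det L‖ ^ 2 := by positivity
  have h1 := Measure.map_linearMap_addHaar_eq_smul_addHaar μ (f := L.restrictScalars ℝ)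
    (by rw [hd]; exact hpos.ne')
  have hm : Measurable (L.restrictScalars ℝ) :=
    (LinearMap.continuous_of_finiteDimensional _).measurable
  have h2 := lintegral_map hF hm (μ := μ)
  rw [h1, lintegral_smul_measure, hd, abs_of_pos (inv_pos.2 hpos),
    ENNReal.ofReal_inv_of_pos hpos] at h2
  exact h2.symm

theorem haar_arr (k l : ℕ) : (volume : Measure (Fin k → Fin l → ℂ)).IsAddHaarMeasure :=
  Measure.pi.isAddHaarMeasure _

/-- `rm U` as a complex linear map. -/
noncomputable def rmL {k l : ℕ} (U : Matrix (Fin l) (Fin l) ℂ) :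
    (Fin k → Fin l → ℂ) →ₗ[ℂ] (Fin k → Fin l → ℂ) :=
  LinearMap.pi fun i => (Matrix.toLin' Uᵀ).comp (LinearMap.proj i)

theorem rmL_apply {k l : ℕ} (U : Matrix (Fin l) (Fin l) ℂ) (A : Fin k → Fin l → ℂ) :
    rmL U A = rm U A := by
  funext i
  simp [rmL, rm, Matrix.toLin'_apply, Matrix.mulVec_transpose]

theorem det_rmL {k l : ℕ} (U : Matrix (Fin l) (Fin l) ℂ) :
    LinearMap.det (rmL U : (Fin k → Fin l → ℂ) →ₗ[ℂ] _) = U.det ^ k := by
  unfold rmL
  rw [LinearMap.det_pi]
  simp [LinearMap.det_toLin']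

/-- Transposition of arrays. -/
def trL (k l : ℕ) : (Fin k → Fin l → ℂ) ≃ₗ[ℂ] (Fin l → Fin k → ℂ) where
  toFun A := fun j i => A i j
  invFun A := fun i j => A j i
  map_add' _ _ := rfl
  map_smul' _ _ := rfl
  left_inv _ := rfl
  right_inv _ := rfl

/-- `lm T` as a complex linear map. -/
noncomputable def lmL {k l : ℕ} (T : Matrix (Fin k) (Fin k) ℂ) :
    (Fin k → Fin l → ℂ) →ₗ[ℂ] (Fin k → Fin l → ℂ) :=
  (trL l k : (Fin l → Fin k → ℂ) →ₗ[ℂ] (Fin k → Fin l → ℂ)) ∘ₗ rmL Tᵀ ∘ₗ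
    ((trL l k).symm : (Fin k → Fin l → ℂ) →ₗ[ℂ] (Fin l → Fin k → ℂ))

theorem lmL_apply {k l : ℕ} (T : Matrix (Fin k) (Fin k) ℂ) (A : Fin k → Fin l → ℂ) :
    lmL T A = lm T A := by
  funext i j
  simp [lmL, rmL_apply, trL, rm, lm, Matrix.mul_apply, vecMul, dotProduct, mul_comm]

theorem det_lmL {k l : ℕ} (T : Matrix (Fin k) (Fin k) ℂ) :
    LinearMap.det (lmL T : (Fin k → Fin l → ℂ) →ₗ[ℂ] _) = T.det ^ l := by
  unfold lmL
  rw [LinearMap.det_conj, det_rmL, Matrix.det_transpose]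

theorem lintegral_rm {k l : ℕ} (U : Matrix (Fin l) (Fin l) ℂ) (hU : ‖U.det‖ = 1)
    (F : (Fin k → Fin l → ℂ) → ℝ≥0∞) (hF : Measurable F) :
    ∫⁻ A, F (rm U A) = ∫⁻ A, F A := by
  have h0 : U.det ≠ 0 := by
    intro h; rw [h] at hU; simp at hU
  have := haar_arr k l
  have := lintegral_comp_clinear (volume : Measure (Fin k → Fin l → ℂ)) (rmL U)
    (by rw [det_rmL]; exact pow_ne_zero _ h0) F hF
  simpa [rmL_apply, det_rmL, hU] using this

theorem lintegral_lm_add {k l : ℕ} (T : Matrix (Fin k) (Fin k) ℂ) (hT : T.det ≠ 0)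
    (c : Fin k → Fin l → ℂ) (F : (Fin k → Fin l → ℂ) → ℝ≥0∞) (hF : Measurable F) :
    ∫⁻ A, F (lm T A + c) = (ENNReal.ofReal ((‖T.det‖ ^ 2) ^ l))⁻¹ * ∫⁻ A, F A := by
  have := haar_arr k l
  have := lintegral_comp_clinear (volume : Measure (Fin k → Fin l → ℂ)) (lmL T)
    (by rw [det_lmL]; exact pow_ne_zero _ hT) (fun A => F (A + c))
    (hF.comp (measurable_add_const c))
  simp only [lmL_apply, det_lmL] at this
  rw [this, lintegral_add_right_eq_self, norm_pow, ← pow_mul, ← pow_mul, mul_comm l 2]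

theorem lintegral_lm {k l : ℕ} (T : Matrix (Fin k) (Fin k) ℂ) (hT : ‖T.det‖ = 1)
    (F : (Fin k → Fin l → ℂ) → ℝ≥0∞) (hF : Measurable F) :
    ∫⁻ A, F (lm T A) = ∫⁻ A, F A := by
  have h0 : T.det ≠ 0 := by
    intro h; rw [h] at hT; simp at hT
  have := lintegral_lm_add T h0 0 F hF
  simpa [hT] using this

theorem measurable_cons {n : ℕ} {α β : Type*} [MeasurableSpace α] [MeasurableSpace β]
    {f : β → α} {g : β → Fin n → α} (hf : Measurable f) (hg : Measurable g) :
    Measurable fun b => (Fin.cons (f b) (g b) : Fin (n + 1) → α) := by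
  refine measurable_pi_lambda _ fun i => ?_
  refine Fin.cases ?_ (fun j => ?_) i
  · simpa using hf
  · simp only [Fin.cons_succ]
    exact (measurable_pi_apply j).comp hg

theorem measurePreserving_cons {n : ℕ} {α : Type*} [MeasurableSpace α] (μ : Measure α)
    [SigmaFinite μ] :
    MeasurePreserving (fun p : α × (Fin n → α) => (Fin.cons p.1 p.2 : Fin (n + 1) → α))
      (μ.prod (Measure.pi fun _ => μ)) (Measure.pi fun _ => μ) := by
  have := (measurePreserving_piFinSuccAbove (fun _ : Fin (n + 1) => μ) 0).symm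
  convert this using 1
  funext p
  simp [MeasurableEquiv.piFinSuccAbove_symm_apply, Fin.insertNthEquiv]

theorem lintegral_pi_cons {n : ℕ} {α : Type*} [MeasurableSpace α] (μ : Measure α)
    [SigmaFinite μ] (F : (Fin (n + 1) → α) → ℝ≥0∞) (hF : Measurable F) :
    ∫⁻ A, F A ∂(Measure.pi fun _ => μ) =
      ∫⁻ a, ∫⁻ A' : Fin n → α, F (Fin.cons a A') ∂(Measure.pi fun _ => μ) ∂μ := by
  rw [← (measurePreserving_cons μ).lintegral_comp hF, lintegral_prod]
  exact (hF.comp (measurePreserving_cons μ).measurable).aemeasurable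

theorem lintegral_cons {n : ℕ} {α : Type*} [MeasureSpace α] [SigmaFinite (volume : Measure α)]
    (F : (Fin (n + 1) → α) → ℝ≥0∞) (hF : Measurable F) :
    ∫⁻ A, F A = ∫⁻ a, ∫⁻ A' : Fin n → α, F (Fin.cons a A') :=
  lintegral_pi_cons volume F hF

theorem lintegral_cons' {n : ℕ} {α : Type*} [MeasureSpace α] [SigmaFinite (volume : Measure α)]
    (F : (Fin (n + 1) → α) → ℝ≥0∞) (hF : Measurable F) :
    ∫⁻ A, F A = ∫⁻ A' : Fin n → α, ∫⁻ a, F (Fin.cons a A') := by
  rw [lintegral_cons F hF, lintegral_lintegral_swap]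
  exact (hF.comp (measurable_cons measurable_fst measurable_snd)).aemeasurable

/-- Prepending a column. -/
def colCons {k l : ℕ} (a : Fin k → ℂ) (A : Fin k → Fin l → ℂ) : Fin k → Fin (l + 1) → ℂ :=
  fun i => Fin.cons (a i) (A i)

theorem measurePreserving_colCons {k l : ℕ} :
    MeasurePreserving (fun p : (Fin k → ℂ) × (Fin k → Fin l → ℂ) => colCons p.1 p.2)
      volume volume := by
  have h1 := (volume_measurePreserving_arrowProdEquivProdArrow ℂ (Fin l → ℂ) (Fin k)).symm
  have h2 := measurePreserving_pi (fun _ : Fin k => (volume : Measure (ℂ × (Fin l → ℂ))))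
    (fun _ : Fin k => (volume : Measure (Fin (l + 1) → ℂ)))
    (f := fun _ p => (Fin.cons p.1 p.2 : Fin (l + 1) → ℂ))
    (fun _ => measurePreserving_cons (volume : Measure ℂ))
  exact h2.comp h1

theorem lintegral_colCons {k l : ℕ} (F : (Fin k → Fin (l + 1) → ℂ) → ℝ≥0∞) (hF : Measurable F) :
    ∫⁻ A, F A = ∫⁻ A₁ : Fin k → Fin l → ℂ, ∫⁻ a : Fin k → ℂ, F (colCons a A₁) := by
  rw [← measurePreserving_colCons.lintegral_comp hF, Measure.volume_eq_prod, lintegral_prod_symm]
  exact (hF.comp measurePreserving_colCons.measurable).aemeasurable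

theorem lintegral_pi_prod {n : ℕ} {α : Type*} [MeasurableSpace α] (μ : Measure α)
    [SigmaFinite μ] (f : Fin n → α → ℝ≥0∞) (hf : ∀ i, Measurable (f i)) :
    ∫⁻ x : Fin n → α, ∏ i, f i (x i) ∂(Measure.pi fun _ => μ) = ∏ i, ∫⁻ a, f i a ∂μ := by
  induction n with
  | zero => simp
  | succ n ih =>
    rw [lintegral_pi_cons μ (fun x => ∏ i, f i (x i)) (Finset.measurable_prod _ fun i _ =>
      (hf i).comp (measurable_pi_apply i))]
    simp only [Fin.prod_univ_succ, Fin.cons_zero, Fin.cons_succ]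
    have hm : Measurable fun x : Fin n → α => ∏ i, f (Fin.succ i) (x i) :=
      Finset.measurable_prod _ fun i _ => (hf _).comp (measurable_pi_apply i)
    simp_rw [lintegral_const_mul _ hm]
    rw [lintegral_mul_const _ (hf 0), ih (fun i => f i.succ) (fun i => hf _)]

theorem pi_withDensity {n : ℕ} {α : Type*} [MeasurableSpace α] (μ : Measure α)
    [SigmaFinite μ] (f : α → ℝ≥0∞) (hf : Measurable f) [SigmaFinite (μ.withDensity f)] :
    (Measure.pi fun _ : Fin n => μ.withDensity f) =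
      (Measure.pi fun _ : Fin n => μ).withDensity fun x => ∏ i, f (x i) := by
  refine Measure.pi_eq fun s hs => ?_
  rw [withDensity_apply _ (MeasurableSet.univ_pi hs), ← lintegral_indicator
    (MeasurableSet.univ_pi hs)]
  have : (Set.univ.pi s).indicator (fun x : Fin n → α => ∏ i, f (x i)) =
      fun x => ∏ i, (s i).indicator f (x i) := by
    funext x
    by_cases hx : x ∈ Set.univ.pi s
    · rw [Set.indicator_of_mem hx]
      exact Finset.prod_congr rfl fun i _ => (Set.indicator_of_mem (hx i trivial) f).symm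
    · rw [Set.indicator_of_notMem hx]
      simp only [Set.mem_pi, Set.mem_univ, true_implies, not_forall] at hx
      obtain ⟨i, hi⟩ := hx
      exact (Finset.prod_eq_zero (Finset.mem_univ i) (Set.indicator_of_notMem hi f)).symm
  rw [this, lintegral_pi_prod μ (fun i => (s i).indicator f) (fun i => hf.indicator (hs i))]
  exact Finset.prod_congr rfl fun i _ => by
    rw [lintegral_indicator (hs i), withDensity_apply _ (hs i)]

theorem lintegral_comp_smul_vec {l : ℕ} (r : ℝ) (hr : 0 < r) (F : (Fin l → ℂ) → ℝ≥0∞)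
    (hF : Measurable F) :
    ∫⁻ b, F ((r : ℂ) • b) = (ENNReal.ofReal ((r ^ 2) ^ l))⁻¹ * ∫⁻ b, F b := by
  have hd : LinearMap.det ((r : ℂ) • (LinearMap.id : (Fin l → ℂ) →ₗ[ℂ] (Fin l → ℂ))) =
      (r : ℂ) ^ l := by
    simp [LinearMap.det_smul]
  have := lintegral_comp_clinear (volume : Measure (Fin l → ℂ)) ((r : ℂ) • LinearMap.id)
    (by rw [hd]; exact pow_ne_zero _ (by exact_mod_cast hr.ne')) F hF
  rw [hd, norm_pow, Complex.norm_real, Real.norm_of_nonneg hr.le, ← pow_mul, mul_comm l 2,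
    pow_mul] at this
  simpa using this

end Pool.Agent.Lib.MP_8d6f76_pr
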