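import Pool.Agent.Lib.MP_8d6f76_pr.Kri1

open MeasureTheory Matrix
open scoped ENNReal

namespace Pool.Agent.Lib.MP_8d6f76_pr

theorem null_image {k l : ℕ} (i : Fin k) (j : Fin l)
    (Ψ : (Fin k → Fin l → ℂ) → (Fin k → Fin l → ℂ)) (hΨ : Differentiable ℝ Ψ) :
    volume (Ψ '' {A | A i j = 0}) = 0 := by
  have := haar_arr k l
  refine addHaar_image_eq_zero_of_differentiableOn_of_addHaar_eq_zero volume
    hΨ.differentiableOn ?_
  let ℓ : (Fin k → Fin l → ℂ) →ₗ[ℝ] ℂ :=
    (LinearMap.proj j : (Fin l → ℂ) →ₗ[ℝ] ℂ) ∘ₗ LinearMap.proj i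
  have h1 : {A : Fin k → Fin l → ℂ | A i j = 0} = (LinearMap.ker ℓ : Set _) := by
    ext A; simp [ℓ]
  rw [h1]
  refine Measure.addHaar_submodule volume _ fun h => ?_
  have h2 : (fun _ _ => (1 : ℂ)) ∈ LinearMap.ker ℓ := by rw [h]; trivial
  simp [ℓ] at h2

theorem ae_det_ne_zero (n : ℕ) :
    ∀ᵐ B : Fin n → Fin n → ℂ, (Matrix.of B).det ≠ 0 := by
  classical
  let Ψ : Fin n → (Fin n → Fin n → ℂ) → (Fin n → Fin n → ℂ) := fun j B =>
    Function.update B j (∑ i, B j i • B i)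
  have hΨ : ∀ j, Differentiable ℝ (Ψ j) := by
    intro j
    refine differentiable_pi.2 fun i => ?_
    by_cases h : i = j
    · subst h
      simp only [Ψ, Function.update_self]
      fun_prop
    · simp only [Ψ, Function.update_of_ne h]
      fun_prop
  rw [ae_iff]
  refine measure_mono_null (t := ⋃ j, Ψ j '' {B | B j j = 0}) ?_
    (measure_iUnion_null fun j => null_image j j _ (hΨ j))
  intro B hB
  simp only [Set.mem_ofPred_eq, not_not] at hB
  obtain ⟨v, hv, hvB⟩ := Matrix.exists_vecMul_eq_zero_iff.2 hB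
  obtain ⟨j, hj⟩ := Function.ne_iff.1 hv
  have hj' : v j ≠ 0 := hj
  refine Set.mem_iUnion.2 ⟨j, Function.update B j (Function.update (fun i => -(v i / v j)) j 0),
    by simp, ?_⟩
  have hsum : ∑ i, v i • B i = 0 := by
    funext l
    have := congrFun hvB l
    simpa [vecMul, dotProduct, Finset.sum_apply] using this
  simp only [Ψ, Function.update_self, Function.update_idem]
  rw [Function.update_eq_self_iff]
  rw [← Finset.add_sum_erase _ _ (Finset.mem_univ j)] at hsum ⊢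
  simp only [Function.update_self, zero_smul, zero_add]
  have h3 : ∑ i ∈ Finset.univ.erase j, Function.update (fun i => -(v i / v j)) j 0 i •
      Function.update B j (Function.update (fun i => -(v i / v j)) j 0) i =
      -(v j)⁻¹ • ∑ i ∈ Finset.univ.erase j, v i • B i := by
    rw [Finset.smul_sum]
    refine Finset.sum_congr rfl fun i hi => ?_
    have hij := Finset.ne_of_mem_erase hi
    rw [Function.update_of_ne hij, Function.update_of_ne hij, smul_smul]
    congr 1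
    field_simp
  rw [h3, eq_neg_of_add_eq_zero_right hsum, smul_neg, neg_smul, neg_neg, smul_smul,
    inv_mul_cancel₀ hj', one_smul]

theorem ae_no_common {n : ℕ} (B : Fin n → Fin (n + 1) → ℂ) :
    ∀ᵐ A : Fin n → Fin (n + 1) → ℂ, ∀ (z : ℂ) (ξ : Fin n → ℂ),
      ∑ i, ξ i • (z • B i - A i) = 0 → ξ = 0 := by
  classical
  let Ψ : Fin n → (Fin n → Fin (n + 1) → ℂ) → (Fin n → Fin (n + 1) → ℂ) := fun j A =>
    Function.update A j (A j 0 • B j + ∑ i, A j i.succ • (A j 0 • B i - A i))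
  have hΨ : ∀ j, Differentiable ℝ (Ψ j) := by
    intro j
    refine differentiable_pi.2 fun i => ?_
    by_cases h : i = j
    · subst h
      simp only [Ψ, Function.update_self]
      fun_prop
    · simp only [Ψ, Function.update_of_ne h]
      fun_prop
  rw [ae_iff]
  refine measure_mono_null (t := ⋃ j, Ψ j '' {A | A j j.succ = 0}) ?_
    (measure_iUnion_null fun j => null_image j j.succ _ (hΨ j))
  intro A hA
  simp only [Set.mem_ofPred_eq, not_forall] at hA
  obtain ⟨z, v, hsum, hv⟩ := hA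
  obtain ⟨j, hj⟩ := Function.ne_iff.1 hv
  have hj' : v j ≠ 0 := hj
  refine Set.mem_iUnion.2 ⟨j, Function.update A j
    (Fin.cons z (Function.update (fun i => v i / v j) j 0)), by simp, ?_⟩
  simp only [Ψ, Function.update_self, Function.update_idem, Fin.cons_zero, Fin.cons_succ]
  rw [Function.update_eq_self_iff]
  rw [← Finset.add_sum_erase _ _ (Finset.mem_univ j)] at hsum ⊢
  simp only [Function.update_self, zero_smul, zero_add]
  have h3 : ∑ i ∈ Finset.univ.erase j, Function.update (fun i => v i / v j) j 0 i •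
      (z • B i - Function.update A j
        (Fin.cons z (Function.update (fun i => v i / v j) j 0) : Fin (n + 1) → ℂ) i) =
      (v j)⁻¹ • ∑ i ∈ Finset.univ.erase j, v i • (z • B i - A i) := by
    rw [Finset.smul_sum]
    refine Finset.sum_congr rfl fun i hi => ?_
    have hij := Finset.ne_of_mem_erase hi
    rw [Function.update_of_ne hij, Function.update_of_ne hij, smul_smul]
    congr 1
    field_simp
  rw [h3, eq_neg_of_add_eq_zero_right hsum, smul_neg, smul_smul, inv_mul_cancel₀ hj', one_smul]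
  abel

/-- The squared Euclidean norm. -/
noncomputable def sqn {l : ℕ} (x : Fin l → ℂ) : ℝ := ∑ j, ‖x j‖ ^ 2

/-- The squared Frobenius norm. -/
noncomputable def fro {k l : ℕ} (A : Fin k → Fin l → ℂ) : ℝ := ∑ i, sqn (A i)

theorem sqn_nonneg {l : ℕ} (x : Fin l → ℂ) : 0 ≤ sqn x :=
  Finset.sum_nonneg fun _ _ => by positivity

theorem sqn_pos {l : ℕ} {x : Fin l → ℂ} (hx : x ≠ 0) : 0 < sqn x := by
  obtain ⟨j, hj⟩ := Function.ne_iff.1 hx
  have hj' : x j ≠ 0 := hj
  exact Finset.sum_pos' (fun _ _ => by positivity) ⟨j, Finset.mem_univ _, by positivity⟩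

theorem sqn_smul {l : ℕ} (c : ℂ) (x : Fin l → ℂ) : sqn (c • x) = ‖c‖ ^ 2 * sqn x := by
  simp [sqn, Finset.mul_sum, mul_pow]

theorem sqn_cons {l : ℕ} (c : ℂ) (x : Fin l → ℂ) :
    sqn (Fin.cons c x : Fin (l + 1) → ℂ) = ‖c‖ ^ 2 + sqn x := by
  simp [sqn, Fin.sum_univ_succ]

theorem continuous_sqn {l : ℕ} : Continuous (sqn : (Fin l → ℂ) → ℝ) := by
  unfold sqn; fun_prop

theorem continuous_fro {k l : ℕ} : Continuous (fro : (Fin k → Fin l → ℂ) → ℝ) := by
  unfold fro sqn; fun_prop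

theorem fro_cons {k l : ℕ} (a : Fin l → ℂ) (A : Fin k → Fin l → ℂ) :
    fro (Fin.cons a A : Fin (k + 1) → Fin l → ℂ) = sqn a + fro A := by
  simp [fro, Fin.sum_univ_succ]

theorem fro_colCons {k l : ℕ} (a : Fin k → ℂ) (A : Fin k → Fin l → ℂ) :
    fro (colCons a A) = sqn a + fro A := by
  simp only [fro, colCons, sqn_cons, Finset.sum_add_distrib]
  rfl

theorem fro_eq_trace {k l : ℕ} (A : Fin k → Fin l → ℂ) :
    (fro A : ℂ) = (Matrix.of A * (Matrix.of A)ᴴ).trace := by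
  simp [fro, sqn, Matrix.trace, Matrix.mul_apply, Complex.mul_conj, Complex.normSq_eq_norm_sq]

theorem fro_rm {k l : ℕ} {U : Matrix (Fin l) (Fin l) ℂ} (hU : U * Uᴴ = 1)
    (A : Fin k → Fin l → ℂ) : fro (rm U A) = fro A := by
  have : (fro (rm U A) : ℂ) = fro A := by
    rw [fro_eq_trace, fro_eq_trace, of_rm, conjTranspose_mul, Matrix.mul_assoc,
      ← Matrix.mul_assoc U, hU, Matrix.one_mul]
  exact_mod_cast this

theorem fro_lm {k l : ℕ} {U : Matrix (Fin k) (Fin k) ℂ} (hU : U * Uᴴ = 1)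
    (A : Fin k → Fin l → ℂ) : fro (lm U A) = fro A := by
  have hU' : Uᴴ * U = 1 := mul_eq_one_comm.1 hU
  have : (fro (lm U A) : ℂ) = fro A := by
    rw [fro_eq_trace, fro_eq_trace, of_lm, conjTranspose_mul, ← Matrix.mul_assoc,
      Matrix.trace_mul_comm, ← Matrix.mul_assoc, ← Matrix.mul_assoc, hU', Matrix.one_mul]
  exact_mod_cast this

theorem norm_det_of_unitary {k : ℕ} {U : Matrix (Fin k) (Fin k) ℂ} (hU : U * Uᴴ = 1) :
    ‖U.det‖ = 1 := by
  have h := congrArg (fun M => ‖Matrix.det M‖) hU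
  simp only [det_mul, det_conjTranspose, det_one, norm_mul, norm_star, norm_one] at h
  have h0 := norm_nonneg U.det
  nlinarith

theorem exists_unitary_row {n : ℕ} {x : Fin (n + 1) → ℂ} (hx : x ≠ 0) :
    ∃ V : Matrix (Fin (n + 1)) (Fin (n + 1)) ℂ, V * Vᴴ = 1 ∧
      ((√(sqn x) : ℝ) : ℂ) • V 0 = x := by
  have hpos : 0 < √(sqn x) := Real.sqrt_pos.2 (sqn_pos hx)
  let u : EuclideanSpace ℂ (Fin (n + 1)) := WithLp.toLp 2 (((√(sqn x) : ℝ) : ℂ)⁻¹ • x)
  have hu : ‖u‖ = 1 := by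
    rw [EuclideanSpace.norm_eq]
    have : ∑ i, ‖u i‖ ^ 2 = sqn (((√(sqn x) : ℝ) : ℂ)⁻¹ • x) := rfl
    rw [this, sqn_smul, norm_inv, Complex.norm_real, Real.norm_of_nonneg hpos.le, inv_pow,
      Real.sq_sqrt (sqn_nonneg x), inv_mul_cancel₀ (sqn_pos hx).ne', Real.sqrt_one]
  have horth : Orthonormal ℂ (({0} : Set (Fin (n + 1))).domRestrict fun _ => u) := by
    refine ⟨fun _ => hu, ?_⟩
    intro i j hij
    exact absurd (Subsingleton.elim i j) hij
  obtain ⟨b, hb⟩ := horth.exists_orthonormalBasis_extension_of_card_eq (by simp)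
  refine ⟨Matrix.of fun i j => b i j, ?_, ?_⟩
  · ext i k
    have h1 := orthonormal_iff_ite.1 b.orthonormal k i
    rw [PiLp.inner_apply] at h1
    simp only [Matrix.mul_apply, Matrix.of_apply, conjTranspose_apply, Matrix.one_apply]
    simp only [RCLike.inner_apply] at h1
    rw [show (if i = k then (1 : ℂ) else 0) = if k = i then (1 : ℂ) else 0 by simp [eq_comm], ← h1]
    rfl
  · funext j
    have h0 : ((√(sqn x) : ℝ) : ℂ) ≠ 0 := by exact_mod_cast hpos.ne'
    have h1 : b 0 = u := hb 0 rfl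
    simp only [Pi.smul_apply, Matrix.of_apply, h1, u, smul_eq_mul]
    field_simp

theorem det_row_zero {n : ℕ} (M : Matrix (Fin (n + 1)) (Fin (n + 1)) ℂ)
    (h : ∀ j : Fin n, M 0 j.succ = 0) :
    M.det = M 0 0 * (M.submatrix Fin.succ Fin.succ).det := by
  rw [Matrix.det_succ_row_zero, Fin.sum_univ_succ]
  simp [h]

theorem eigs_lm {n : ℕ} {V : Matrix (Fin n) (Fin n) ℂ} (hV : V * Vᴴ = 1)
    (A B : Fin n → Fin n → ℂ) : eigs (lm V A) (lm V B) = eigs A B := by
  have hV' : Vᴴ * V = 1 := mul_eq_one_comm.1 hV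
  unfold eigs
  rw [of_lm, of_lm, Matrix.mul_inv_rev, Matrix.inv_eq_right_inv hV, Matrix.mul_assoc,
    Matrix.charpoly_mul_comm, ← Matrix.mul_assoc, Matrix.mul_assoc _ Vᴴ, hV', Matrix.mul_one]

theorem eigs_rm {n : ℕ} {V : Matrix (Fin n) (Fin n) ℂ} (hV : V * Vᴴ = 1)
    (A B : Fin n → Fin n → ℂ) : eigs (rm V A) (rm V B) = eigs A B := by
  unfold eigs
  rw [of_rm, of_rm, Matrix.mul_inv_rev, Matrix.inv_eq_right_inv hV, Matrix.mul_assoc,
    ← Matrix.mul_assoc V, hV, Matrix.one_mul]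

end Pool.Agent.Lib.MP_8d6f76_pr
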