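import Pool.Agent.Lib.MP_8d6f76_pr.Kri2

open MeasureTheory Matrix
open scoped ENNReal

namespace Pool.Agent.Lib.MP_8d6f76_pr

/-- The first row forced by an eigenvalue `y 0` with left eigenvector `(1, tail y)`. -/
noncomputable def theta {n : ℕ} (A : Fin n → Fin (n + 1) → ℂ)
    (B : Fin (n + 1) → Fin (n + 1) → ℂ) (y : Fin (n + 1) → ℂ) : Fin (n + 1) → ℂ :=
  y 0 • B 0 + ∑ i : Fin n, y i.succ • (y 0 • B i.succ - A i)

/-- The deflated pencil. -/
noncomputable def jacT {n : ℕ} (A : Fin n → Fin (n + 1) → ℂ)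
    (B : Fin (n + 1) → Fin (n + 1) → ℂ) (y : Fin (n + 1) → ℂ) (t : ℂ) :
    Matrix (Fin (n + 1)) (Fin (n + 1)) ℂ :=
  Matrix.of (Fin.cons (B 0 + ∑ i : Fin n, y i.succ • B i.succ) fun i => t • B i.succ - A i)

/-- The deflated pencil when the left eigenvector is the first basis vector. -/
noncomputable def jac0 {n : ℕ} (A : Fin n → Fin (n + 1) → ℂ)
    (B : Fin (n + 1) → Fin (n + 1) → ℂ) (t : ℂ) : Matrix (Fin (n + 1)) (Fin (n + 1)) ℂ :=
  Matrix.of (Fin.cons (B 0) fun i => t • B i.succ - A i)

theorem hasFDerivAt_theta {n : ℕ} (A : Fin n → Fin (n + 1) → ℂ)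
    (B : Fin (n + 1) → Fin (n + 1) → ℂ) (y : Fin (n + 1) → ℂ) :
    HasFDerivAt (theta A B)
      (LinearMap.toContinuousLinearMap (Matrix.toLin' (jacT A B y (y 0))ᵀ)) y := by
  have h (i : Fin (n + 1)) : HasFDerivAt (fun y : Fin (n + 1) → ℂ => y i)
      (ContinuousLinearMap.proj (R := ℂ) (φ := fun _ : Fin (n + 1) => ℂ) i) y :=
    hasFDerivAt_apply i y
  have h1 := ((h 0).smul_const (B 0)).add (HasFDerivAt.fun_sum (u := Finset.univ)
    fun (i : Fin n) _ => (h i.succ).smul (((h 0).smul_const (B i.succ)).sub_const (A i)))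
  refine HasFDerivAt.congr_fderiv h1 ?_
  refine ContinuousLinearMap.ext fun v => ?_
  funext j
  simp only [jacT, _root_.add_apply, ContinuousLinearMap.smulRight_apply,
    ContinuousLinearMap.proj_apply, FunLike.coe_sum, Finset.sum_apply,
    _root_.smul_apply, Pi.add_apply, Pi.smul_apply, smul_eq_mul, Pi.sub_apply,
    LinearMap.coe_toContinuousLinearMap', Matrix.toLin'_apply, Matrix.mulVec_transpose, vecMul,
    dotProduct, Fin.sum_univ_succ, Matrix.of_apply, Fin.cons_zero, Fin.cons_succ,
    Finset.sum_add_distrib, mul_add, Finset.mul_sum]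
  rw [add_assoc]
  congr 2
  exact Finset.sum_congr rfl fun i _ => by ring

theorem det_pencil_theta {n : ℕ} (A : Fin n → Fin (n + 1) → ℂ)
    (B : Fin (n + 1) → Fin (n + 1) → ℂ) (y : Fin (n + 1) → ℂ) (t : ℂ) :
    (t • Matrix.of B - Matrix.of (Fin.cons (theta A B y) A : Fin (n + 1) → Fin (n + 1) → ℂ)).det =
      (t - y 0) * (jacT A B y t).det := by
  have h1 := Matrix.det_updateRow_sum
    (t • Matrix.of B - Matrix.of (Fin.cons (theta A B y) A : Fin (n + 1) → Fin (n + 1) → ℂ)) 0
    (Fin.cons 1 fun i => y i.succ)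
  rw [Fin.cons_zero, one_smul] at h1
  rw [← h1, ← Matrix.updateRow_eq_self (jacT A B y t) 0, ← Matrix.det_updateRow_smul]
  congr 1
  ext i j
  refine Fin.cases ?_ (fun i => ?_) i
  · simp only [jacT, theta, Matrix.updateRow_self, Fin.sum_univ_succ, Fin.cons_zero, Fin.cons_succ,
      Pi.add_apply, Pi.smul_apply, Finset.sum_apply, smul_eq_mul, Matrix.sub_apply,
      Matrix.smul_apply, Matrix.of_apply, Pi.sub_apply, one_mul]
    have h2 : ∑ i : Fin n, y i.succ * (t * B i.succ j - A i j) =
        ∑ i : Fin n, y i.succ * (y 0 * B i.succ j - A i j) +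
          (t - y 0) * ∑ i : Fin n, y i.succ * B i.succ j := by
      rw [Finset.mul_sum, ← Finset.sum_add_distrib]
      exact Finset.sum_congr rfl fun i _ => by ring
    rw [h2]
    ring
  · simp [jacT]

theorem continuous_det_jacT {n : ℕ} {X : Type*} [TopologicalSpace X]
    {A : X → Fin n → Fin (n + 1) → ℂ} {B : X → Fin (n + 1) → Fin (n + 1) → ℂ}
    {y : X → Fin (n + 1) → ℂ} {t : X → ℂ} (hA : Continuous A) (hB : Continuous B)
    (hy : Continuous y) (ht : Continuous t) :
    Continuous fun x => (jacT (A x) (B x) (y x) (t x)).det := by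
  refine Continuous.matrix_det (continuous_pi fun i => continuous_pi fun j => ?_)
  refine Fin.cases ?_ (fun i => ?_) i
  · simp only [jacT, Matrix.of_apply, Fin.cons_zero]
    fun_prop
  · simp only [jacT, Matrix.of_apply, Fin.cons_succ]
    fun_prop

theorem continuous_det_jac0 {n : ℕ} {X : Type*} [TopologicalSpace X]
    {A : X → Fin n → Fin (n + 1) → ℂ} {B : X → Fin (n + 1) → Fin (n + 1) → ℂ}
    {t : X → ℂ} (hA : Continuous A) (hB : Continuous B) (ht : Continuous t) :
    Continuous fun x => (jac0 (A x) (B x) (t x)).det := by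
  refine Continuous.matrix_det (continuous_pi fun i => continuous_pi fun j => ?_)
  refine Fin.cases ?_ (fun i => ?_) i
  · simp only [jac0, Matrix.of_apply, Fin.cons_zero]
    fun_prop
  · simp only [jac0, Matrix.of_apply, Fin.cons_succ]
    fun_prop

theorem continuous_theta {n : ℕ} {X : Type*} [TopologicalSpace X]
    {A : X → Fin n → Fin (n + 1) → ℂ} {B : X → Fin (n + 1) → Fin (n + 1) → ℂ}
    {y : X → Fin (n + 1) → ℂ} (hA : Continuous A) (hB : Continuous B) (hy : Continuous y) :
    Continuous fun x => theta (A x) (B x) (y x) := by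
  unfold theta
  fun_prop

theorem jac_zero_of_double {n : ℕ} (A : Fin n → Fin (n + 1) → ℂ)
    (B : Fin (n + 1) → Fin (n + 1) → ℂ) (hB : (Matrix.of B).det ≠ 0) (y : Fin (n + 1) → ℂ)
    (s : Fin (n + 1) → ℂ)
    (hs : eigs (Fin.cons (theta A B y) A : Fin (n + 1) → Fin (n + 1) → ℂ) B =
      Finset.univ.val.map s) {k l : Fin (n + 1)} (hkl : l ≠ k) (hk : y 0 = s k) (hl : y 0 = s l) :
    (jacT A B y (y 0)).det = 0 := by
  have h1 : (fun t => (jacT A B y t).det) =
      fun t => (Matrix.of B).det * ∏ j ∈ Finset.univ.erase k, (t - s j) := by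
    refine Continuous.ext_on (dense_compl_singleton (y 0))
      (continuous_det_jacT continuous_const continuous_const continuous_const continuous_id)
      (by fun_prop) fun t ht => ?_
    have ht' : t - y 0 ≠ 0 := sub_ne_zero.2 ht
    have h2 := det_pencil_theta A B y t
    rw [det_pencil _ _ hB, hs, Multiset.map_map, ← Finset.prod_eq_multiset_prod,
      ← Finset.mul_prod_erase _ _ (Finset.mem_univ k)] at h2
    simp only [Function.comp_apply, ← hk] at h2
    refine mul_left_cancel₀ ht' ?_
    rw [← h2]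
    ring
  rw [congrFun h1 (y 0), Finset.prod_eq_zero (Finset.mem_erase.2 ⟨hkl, Finset.mem_univ l⟩)
    (by rw [hl, sub_self]), mul_zero]

theorem area_step {n : ℕ} (A : Fin n → Fin (n + 1) → ℂ)
    (B : Fin (n + 1) → Fin (n + 1) → ℂ) (hB : (Matrix.of B).det ≠ 0)
    (hA : ∀ (z : ℂ) (ξ : Fin n → ℂ), ∑ i, ξ i • (z • B i.succ - A i) = 0 → ξ = 0)
    (h : (Fin (n + 1) → ℂ) → ℝ≥0∞) (hh : Measurable h) :
    ((n + 1 : ℕ) : ℝ≥0∞) * ∫⁻ a, h a =
      ∫⁻ y, ENNReal.ofReal (‖(jacT A B y (y 0)).det‖ ^ 2) * h (theta A B y) := by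
  classical
  obtain ⟨s, hs, hse⟩ := exists_measurable_eigs' (n + 1)
  have hθ : Continuous (theta A B) :=
    continuous_theta continuous_const continuous_const continuous_id
  let S : Fin (n + 1) → Set (Fin (n + 1) → ℂ) := fun k =>
    {y | y 0 = s (Fin.cons (theta A B y) A, B) k}
  have hS : ∀ k, MeasurableSet (S k) := fun k =>
    measurableSet_eq_fun (measurable_pi_apply 0) ((measurable_pi_apply k).comp (hs.comp
      ((measurable_cons hθ.measurable measurable_const).prodMk measurable_const)))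
  let f : (Fin (n + 1) → ℂ) → ℝ≥0∞ := fun y =>
    ENNReal.ofReal (‖(jacT A B y (y 0)).det‖ ^ 2) * h (theta A B y)
  have hf : Measurable f := by
    refine Measurable.mul (ENNReal.measurable_ofReal.comp ?_) (hh.comp hθ.measurable)
    exact ((continuous_det_jacT continuous_const continuous_const continuous_id
      (continuous_apply 0)).norm.pow 2).measurable
  have himg : ∀ k, theta A B '' S k = Set.univ := by
    intro k
    refine Set.eq_univ_of_forall fun a => ?_
    let A₀ : Fin (n + 1) → Fin (n + 1) → ℂ := Fin.cons a A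
    let z := s (A₀, B) k
    have hdet : (z • Matrix.of B - Matrix.of A₀).det = 0 := by
      rw [det_pencil _ _ hB, hse (A₀, B), Multiset.map_map, ← Finset.prod_eq_multiset_prod,
        Finset.prod_eq_zero (Finset.mem_univ k) (by simp [z]), mul_zero]
    obtain ⟨v, hv, hv0⟩ := Matrix.exists_vecMul_eq_zero_iff.2 hdet
    have hsum : v 0 • (z • B 0 - a) + ∑ i : Fin n, v i.succ • (z • B i.succ - A i) = 0 := by
      funext j
      have := congrFun hv0 j
      simpa [vecMul, dotProduct, Fin.sum_univ_succ, A₀, Finset.sum_apply] using this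
    have hv00 : v 0 ≠ 0 := by
      intro h0
      rw [h0, zero_smul, zero_add] at hsum
      have h3 := hA z (fun i => v i.succ) hsum
      apply hv
      funext i
      refine Fin.cases h0 (fun i => congrFun h3 i) i
    have hth : theta A B (Fin.cons z fun i => v i.succ / v 0) = a := by
      simp only [theta, Fin.cons_zero, Fin.cons_succ]
      have h4 : ∑ i : Fin n, (v i.succ / v 0) • (z • B i.succ - A i) =
          (v 0)⁻¹ • ∑ i : Fin n, v i.succ • (z • B i.succ - A i) := by
        rw [Finset.smul_sum]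
        refine Finset.sum_congr rfl fun i _ => ?_
        rw [smul_smul, div_eq_inv_mul]
      rw [h4, eq_neg_of_add_eq_zero_right hsum, smul_neg, smul_smul, inv_mul_cancel₀ hv00,
        one_smul]
      abel
    refine ⟨Fin.cons z fun i => v i.succ / v 0, ?_, hth⟩
    simp only [S, Set.mem_ofPred_eq, hth, Fin.cons_zero]
    rfl
  have hinj : ∀ k, Set.InjOn (theta A B) (S k) := by
    intro k y hy y' hy' hyy
    have h0 : y 0 = y' 0 := by
      simp only [S, Set.mem_ofPred_eq] at hy hy'
      rw [hy, hy', hyy]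
    have h1 : ∑ i : Fin n, (y i.succ - y' i.succ) • (y 0 • B i.succ - A i) = 0 := by
      simp only [theta, ← h0, add_right_inj] at hyy
      simp only [sub_smul, Finset.sum_sub_distrib, hyy, sub_self]
    have h2 := hA _ _ h1
    funext i
    refine Fin.cases h0 (fun i => sub_eq_zero.1 (congrFun h2 i)) i
  have hk : ∀ k, ∫⁻ a, h a = ∫⁻ y, (S k).indicator f y := by
    intro k
    have h1 := lintegral_image_eq_lintegral_abs_det_fderiv_mul volume (hS k)
      (f' := fun y => (LinearMap.toContinuousLinearMap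
        (Matrix.toLin' (jacT A B y (y 0))ᵀ)).restrictScalars ℝ)
      (fun y _ => ((hasFDerivAt_theta A B y).restrictScalars ℝ).hasFDerivWithinAt) (hinj k) h
    rw [himg k, Measure.restrict_univ] at h1
    rw [h1, lintegral_indicator (hS k)]
    refine lintegral_congr fun y => ?_
    congr 2
    have h2 : ((LinearMap.toContinuousLinearMap
        (Matrix.toLin' (jacT A B y (y 0))ᵀ)).restrictScalars ℝ).det =
        LinearMap.det ((Matrix.toLin' (jacT A B y (y 0))ᵀ).restrictScalars ℝ) := rfl
    rw [h2, LinearMap.det_restrictScalars, Algebra.norm_complex_apply, LinearMap.det_toLin',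
      Matrix.det_transpose, Complex.normSq_eq_norm_sq, abs_of_nonneg (by positivity)]
  have hsum : ((n + 1 : ℕ) : ℝ≥0∞) * ∫⁻ a, h a = ∑ k, ∫⁻ y, (S k).indicator f y := by
    simp only [← hk, Finset.sum_const, Finset.card_univ, Fintype.card_fin, nsmul_eq_mul]
  rw [hsum, ← lintegral_finsetSum _ fun k _ => hf.indicator (hS k)]
  refine lintegral_congr fun y => ?_
  by_cases hJ : (jacT A B y (y 0)).det = 0
  · have h0 : f y = 0 := by simp [f, hJ]
    have h1 : ∀ k, (S k).indicator f y = 0 := fun k => by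
      by_cases hy : y ∈ S k
      · rw [Set.indicator_of_mem hy, h0]
      · rw [Set.indicator_of_notMem hy]
    simp only [h1, Finset.sum_const_zero]
    exact h0.symm
  · have h1 := det_pencil_theta A B y (y 0)
    rw [sub_self, zero_mul, det_pencil _ _ hB, hse (Fin.cons (theta A B y) A, B),
      Multiset.map_map, ← Finset.prod_eq_multiset_prod, mul_eq_zero, Finset.prod_eq_zero_iff] at h1
    obtain ⟨k, -, hk0⟩ := h1.resolve_left hB
    have hyk : y ∈ S k := sub_eq_zero.1 hk0
    rw [Finset.sum_eq_single k, Set.indicator_of_mem hyk]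
    · intro l _ hl
      refine Set.indicator_of_notMem (fun hyl => hJ ?_) f
      exact jac_zero_of_double A B hB y _ (hse (Fin.cons (theta A B y) A, B)) hl hyk hyl
    · intro h; exact absurd (Finset.mem_univ k) h

end Pool.Agent.Lib.MP_8d6f76_pr
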