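import Pool.Agent.Lib.MP_8d6f76_pr.Kri3

open MeasureTheory Matrix
open scoped ENNReal

namespace Pool.Agent.Lib.MP_8d6f76_pr

/-- The lower block that appears when the left eigenvector is rotated to the first axis. -/
noncomputable def lowT {n : ℕ} (V : Matrix (Fin (n + 1)) (Fin (n + 1)) ℂ) (y : Fin (n + 1) → ℂ) :
    Matrix (Fin n) (Fin n) ℂ :=
  Matrix.of fun i j => V i.succ j.succ - V i.succ 0 * y j.succ

theorem det_lowT {n : ℕ} (V : Matrix (Fin (n + 1)) (Fin (n + 1)) ℂ) (y : Fin (n + 1) → ℂ)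
    (hV : ∀ j : Fin n, V 0 j.succ = V 0 0 * y j.succ) :
    V.det = V 0 0 * (lowT V y).det := by
  let P : Matrix (Fin (n + 1)) (Fin (n + 1)) ℂ := Matrix.of
    (Fin.cons (Pi.single 0 1) fun i => Pi.single i.succ 1 - y i.succ • Pi.single 0 1)
  have hP : P.det = 1 := by
    rw [det_row_zero P (fun j => by simp [P])]
    have : P.submatrix Fin.succ Fin.succ = 1 := by
      ext i j
      simp [P, Matrix.one_apply, Pi.single_apply, eq_comm]
    rw [this]
    simp [P]
  have h0 : ∀ i, (V * Pᵀ) i 0 = V i 0 := by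
    intro i
    simp [P, Matrix.mul_apply, Pi.single_apply]
  have h1 : ∀ i (j : Fin n), (V * Pᵀ) i j.succ = V i j.succ - V i 0 * y j.succ := by
    intro i j
    simp [P, Matrix.mul_apply, Pi.single_apply, mul_sub, Finset.sum_sub_distrib]
  have h2 : (V * Pᵀ).det = V.det := by rw [det_mul, det_transpose, hP, mul_one]
  rw [← h2, det_row_zero _ (fun j => by rw [h1, hV, sub_self]), h0]
  congr 2
  ext i j
  simp [lowT, h1]

theorem lm_row_zero {n l : ℕ} (V : Matrix (Fin (n + 1)) (Fin (n + 1)) ℂ) (y : Fin (n + 1) → ℂ)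
    (hV : ∀ j : Fin n, V 0 j.succ = V 0 0 * y j.succ) (B : Fin (n + 1) → Fin l → ℂ) :
    lm V B 0 = V 0 0 • (B 0 + ∑ k : Fin n, y k.succ • B k.succ) := by
  funext j
  simp [lm, Matrix.mul_apply, Fin.sum_univ_succ, hV, Finset.sum_apply, mul_add, Finset.mul_sum,
    mul_assoc]

theorem lm_row_succ {n l : ℕ} (V : Matrix (Fin (n + 1)) (Fin (n + 1)) ℂ) (y : Fin (n + 1) → ℂ)
    (B : Fin (n + 1) → Fin l → ℂ) (i : Fin n) :
    lm V B i.succ = V i.succ 0 • (B 0 + ∑ k : Fin n, y k.succ • B k.succ) +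
      ∑ k : Fin n, lowT V y i k • B k.succ := by
  funext j
  simp only [lm, Matrix.mul_apply, Fin.sum_univ_succ, Matrix.of_apply, Pi.add_apply,
    Pi.smul_apply, Finset.sum_apply, smul_eq_mul, lowT, mul_add, Finset.mul_sum, add_assoc,
    ← Finset.sum_add_distrib]
  congr 1
  exact Finset.sum_congr rfl fun k _ => by ring

theorem lm_apply_sum {n l : ℕ} (T : Matrix (Fin n) (Fin n) ℂ) (A : Fin n → Fin l → ℂ)
    (i : Fin n) : lm T A i = ∑ k, T i k • A k := by
  funext j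
  simp [lm, Matrix.mul_apply, Finset.sum_apply]

theorem theta_add {n : ℕ} (A : Fin n → Fin (n + 1) → ℂ)
    (B : Fin (n + 1) → Fin (n + 1) → ℂ) (y : Fin (n + 1) → ℂ) :
    theta A B y + ∑ k : Fin n, y k.succ • A k =
      y 0 • (B 0 + ∑ k : Fin n, y k.succ • B k.succ) := by
  simp only [theta, smul_sub, Finset.sum_sub_distrib, smul_add, Finset.smul_sum,
    smul_comm (y 0)]
  abel

theorem lm_cons_theta {n : ℕ} (V : Matrix (Fin (n + 1)) (Fin (n + 1)) ℂ) (y : Fin (n + 1) → ℂ)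
    (hV : ∀ j : Fin n, V 0 j.succ = V 0 0 * y j.succ) (A : Fin n → Fin (n + 1) → ℂ)
    (B : Fin (n + 1) → Fin (n + 1) → ℂ) :
    lm V (Fin.cons (theta A B y) A : Fin (n + 1) → Fin (n + 1) → ℂ) =
      Fin.cons (y 0 • lm V B 0) (lm (lowT V y) A +
        fun i => (V i.succ 0 * y 0) • (B 0 + ∑ k : Fin n, y k.succ • B k.succ)) := by
  funext i
  refine Fin.cases ?_ (fun i => ?_) i
  · rw [lm_row_zero V y hV, Fin.cons_zero, Fin.cons_zero, lm_row_zero V y hV]
    simp only [Fin.cons_succ]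
    rw [theta_add, smul_comm]
  · rw [lm_row_succ V y, Fin.cons_zero, Fin.cons_succ]
    simp only [Fin.cons_succ, Pi.add_apply]
    rw [theta_add, smul_smul, lm_apply_sum]
    exact add_comm _ _

theorem det_jac0_lm {n : ℕ} (V : Matrix (Fin (n + 1)) (Fin (n + 1)) ℂ) (y : Fin (n + 1) → ℂ)
    (hV : ∀ j : Fin n, V 0 j.succ = V 0 0 * y j.succ) (A : Fin n → Fin (n + 1) → ℂ)
    (B : Fin (n + 1) → Fin (n + 1) → ℂ) :
    (jac0 (lm (lowT V y) A +
        fun i => (V i.succ 0 * y 0) • (B 0 + ∑ k : Fin n, y k.succ • B k.succ))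
      (lm V B) (y 0)).det = V.det * (jacT A B y (y 0)).det := by
  let D : Matrix (Fin (n + 1)) (Fin (n + 1)) ℂ := Matrix.of
    (Fin.cons (Pi.single 0 (V 0 0)) fun i => Fin.cons 0 (lowT V y i))
  have hD : D.det = V.det := by
    rw [det_row_zero D (fun j => by simp [D]), det_lowT V y hV]
    congr 1
  rw [← hD, ← det_mul]
  congr 1
  ext i j
  refine Fin.cases ?_ (fun i => ?_) i
  · simp [jac0, jacT, D, Matrix.mul_apply, Fin.sum_univ_succ, lm_row_zero V y hV, mul_add]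
  · simp only [jac0, jacT, D, Matrix.mul_apply, Fin.sum_univ_succ, lm_row_succ V y,
      Matrix.of_apply, Fin.cons_zero, Fin.cons_succ, lm_apply_sum, Pi.add_apply, Pi.sub_apply,
      Pi.smul_apply, Finset.sum_apply, smul_eq_mul, zero_mul, zero_add, mul_sub,
      Finset.sum_sub_distrib]
    have : ∑ k : Fin n, lowT V y i k * (y 0 * B k.succ j) =
        y 0 * ∑ k : Fin n, lowT V y i k * B k.succ j := by
      rw [Finset.mul_sum]
      exact Finset.sum_congr rfl fun k _ => by ring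
    rw [this]
    ring

/-- The integrand after rotating the left eigenvector to the first axis. -/
noncomputable def kz {n : ℕ}
    (H : (Fin (n + 1) → Fin (n + 1) → ℂ) × (Fin (n + 1) → Fin (n + 1) → ℂ) → ℝ≥0∞) (z : ℂ)
    (B : Fin (n + 1) → Fin (n + 1) → ℂ) (A : Fin n → Fin (n + 1) → ℂ) : ℝ≥0∞ :=
  ENNReal.ofReal (‖(jac0 A B z).det‖ ^ 2) * H (Fin.cons (z • B 0) A, B)

/-- The integrand in eigenvalue and eigenvector coordinates. -/
noncomputable def ky {n : ℕ}
    (H : (Fin (n + 1) → Fin (n + 1) → ℂ) × (Fin (n + 1) → Fin (n + 1) → ℂ) → ℝ≥0∞)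
    (y : Fin (n + 1) → ℂ)
    (B : Fin (n + 1) → Fin (n + 1) → ℂ) (A : Fin n → Fin (n + 1) → ℂ) : ℝ≥0∞ :=
  ENNReal.ofReal (‖(jacT A B y (y 0)).det‖ ^ 2) * H (Fin.cons (theta A B y) A, B)

theorem measurable_kz0 {n : ℕ}
    {H : (Fin (n + 1) → Fin (n + 1) → ℂ) × (Fin (n + 1) → Fin (n + 1) → ℂ) → ℝ≥0∞}
    (hH : Measurable H) :
    Measurable fun p : (ℂ × (Fin (n + 1) → Fin (n + 1) → ℂ)) × (Fin n → Fin (n + 1) → ℂ) =>
      kz H p.1.1 p.1.2 p.2 := by
  unfold kz
  refine Measurable.mul (ENNReal.measurable_ofReal.comp ?_) (hH.comp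
    ((measurable_cons (by fun_prop) measurable_snd).prodMk (by fun_prop)))
  exact ((continuous_det_jac0 (by fun_prop) (by fun_prop) (by fun_prop)).norm.pow 2).measurable

theorem measurable_kz {n : ℕ} {X : Type*} [MeasurableSpace X]
    {H : (Fin (n + 1) → Fin (n + 1) → ℂ) × (Fin (n + 1) → Fin (n + 1) → ℂ) → ℝ≥0∞}
    (hH : Measurable H) {z : X → ℂ} {B : X → Fin (n + 1) → Fin (n + 1) → ℂ}
    {A : X → Fin n → Fin (n + 1) → ℂ} (hz : Measurable z) (hB : Measurable B)
    (hA : Measurable A) : Measurable fun x => kz H (z x) (B x) (A x) := by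
  have := (measurable_kz0 hH).comp ((hz.prodMk hB).prodMk hA)
  simpa only [Function.comp_def] using this

theorem measurable_ky0 {n : ℕ}
    {H : (Fin (n + 1) → Fin (n + 1) → ℂ) × (Fin (n + 1) → Fin (n + 1) → ℂ) → ℝ≥0∞}
    (hH : Measurable H) :
    Measurable fun p : ((Fin (n + 1) → ℂ) × (Fin (n + 1) → Fin (n + 1) → ℂ)) ×
      (Fin n → Fin (n + 1) → ℂ) => ky H p.1.1 p.1.2 p.2 := by
  unfold ky
  refine Measurable.mul (ENNReal.measurable_ofReal.comp ?_) (hH.comp
    ((measurable_cons ?_ measurable_snd).prodMk (by fun_prop)))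
  · exact ((continuous_det_jacT (by fun_prop) (by fun_prop) (by fun_prop)
      (by fun_prop)).norm.pow 2).measurable
  · exact (continuous_theta (by fun_prop) (by fun_prop) (by fun_prop)).measurable

theorem measurable_ky {n : ℕ} {X : Type*} [MeasurableSpace X]
    {H : (Fin (n + 1) → Fin (n + 1) → ℂ) × (Fin (n + 1) → Fin (n + 1) → ℂ) → ℝ≥0∞}
    (hH : Measurable H) {y : X → Fin (n + 1) → ℂ} {B : X → Fin (n + 1) → Fin (n + 1) → ℂ}
    {A : X → Fin n → Fin (n + 1) → ℂ} (hy : Measurable y) (hB : Measurable B)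
    (hA : Measurable A) : Measurable fun x => ky H (y x) (B x) (A x) := by
  have := (measurable_ky0 hH).comp ((hy.prodMk hB).prodMk hA)
  simpa only [Function.comp_def] using this

theorem measurable_lint {X Y : Type*} [MeasurableSpace X] [MeasureSpace Y]
    [SFinite (volume : Measure Y)] {f : X → Y → ℝ≥0∞}
    (hf : Measurable fun p : X × Y => f p.1 p.2) : Measurable fun x => ∫⁻ y, f x y :=
  hf.lintegral_prod_right'

theorem lint_swap {X Y : Type*} [MeasureSpace X] [MeasureSpace Y]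
    [SFinite (volume : Measure X)] [SFinite (volume : Measure Y)] {f : X → Y → ℝ≥0∞}
    (hf : Measurable fun p : X × Y => f p.1 p.2) :
    ∫⁻ x, ∫⁻ y, f x y = ∫⁻ y, ∫⁻ x, f x y :=
  lintegral_lintegral_swap hf.aemeasurable

theorem fixed_eigvec {n : ℕ}
    {H : (Fin (n + 1) → Fin (n + 1) → ℂ) × (Fin (n + 1) → Fin (n + 1) → ℂ) → ℝ≥0∞}
    (hH : Measurable H)
    (hinv : ∀ V : Matrix (Fin (n + 1)) (Fin (n + 1)) ℂ, V * Vᴴ = 1 →
      ∀ A B, H (lm V A, lm V B) = H (A, B)) (y : Fin (n + 1) → ℂ) :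
    ∫⁻ B, ∫⁻ A, ky H y B A =
      (ENNReal.ofReal ((1 + sqn fun i : Fin n => y i.succ) ^ (n + 1)))⁻¹ *
        ∫⁻ B, ∫⁻ A, kz H (y 0) B A := by
  let x : Fin (n + 1) → ℂ := Fin.cons 1 fun i => y i.succ
  have hx : x ≠ 0 := fun h => by simpa [x] using congrFun h 0
  obtain ⟨V, hV, hVx⟩ := exists_unitary_row hx
  have hsq : sqn x = 1 + sqn fun i : Fin n => y i.succ := by simp [x, sqn_cons]
  have hpos : 0 < √(sqn x) := Real.sqrt_pos.2 (sqn_pos hx)
  have h00 : ((√(sqn x) : ℝ) : ℂ) * V 0 0 = 1 := by simpa [x] using congrFun hVx 0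
  have hV0 : ∀ j : Fin n, V 0 j.succ = V 0 0 * y j.succ := by
    intro j
    have h1 : ((√(sqn x) : ℝ) : ℂ) * V 0 j.succ = y j.succ := by
      simpa [x] using congrFun hVx j.succ
    rw [← h1, ← mul_assoc, mul_comm (V 0 0), h00, one_mul]
  have hdV := norm_det_of_unitary hV
  have hT : ‖(lowT V y).det‖ = √(sqn x) := by
    have h1 := congrArg norm h00
    rw [norm_mul, Complex.norm_real, Real.norm_of_nonneg hpos.le, norm_one] at h1
    rw [det_lowT V y hV0, norm_mul] at hdV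
    calc ‖(lowT V y).det‖ = (√(sqn x) * ‖V 0 0‖) * ‖(lowT V y).det‖ := by rw [h1, one_mul]
      _ = √(sqn x) := by rw [mul_assoc, hdV, mul_one]
  have hT0 : (lowT V y).det ≠ 0 := by
    intro h; rw [h, norm_zero] at hT; exact hpos.ne hT
  have hG : Measurable fun B => ∫⁻ A, kz H (y 0) B A :=
    measurable_lint (measurable_kz hH measurable_const measurable_fst measurable_snd)
  have hG' : Measurable fun B => ∫⁻ A, kz H (y 0) (lm V B) A :=
    hG.comp (continuous_lm V).measurable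
  rw [← lintegral_lm V hdV _ hG, ← lintegral_const_mul _ hG']
  refine lintegral_congr fun B => ?_
  have h2 := lintegral_lm_add (lowT V y) hT0
    (fun i => (V i.succ 0 * y 0) • (B 0 + ∑ k : Fin n, y k.succ • B k.succ))
    (fun A => kz H (y 0) (lm V B) A)
    (measurable_kz hH measurable_const measurable_const measurable_id)
  rw [hT, Real.sq_sqrt (sqn_nonneg x), hsq] at h2
  rw [← h2]
  refine lintegral_congr fun A => ?_
  unfold kz ky
  rw [det_jac0_lm V y hV0, norm_mul, hdV, one_mul, ← lm_cons_theta V y hV0, hinv V hV]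

theorem deflate_left (n : ℕ) : ∃ c : ℝ≥0∞,
    ∀ H : (Fin (n + 1) → Fin (n + 1) → ℂ) × (Fin (n + 1) → Fin (n + 1) → ℂ) → ℝ≥0∞,
      Measurable H → (∀ V : Matrix (Fin (n + 1)) (Fin (n + 1)) ℂ, V * Vᴴ = 1 →
        ∀ A B, H (lm V A, lm V B) = H (A, B)) →
      ∫⁻ B, ∫⁻ A, H (A, B) = c * ∫⁻ z : ℂ, ∫⁻ B, ∫⁻ A, kz H z B A := by
  let κ : (Fin n → ℂ) → ℝ≥0∞ := fun ξ => (ENNReal.ofReal ((1 + sqn ξ) ^ (n + 1)))⁻¹
  have hκ : Measurable κ :=
    (ENNReal.measurable_ofReal.comp ((continuous_const.add continuous_sqn).pow _).measurable).inv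
  refine ⟨((n + 1 : ℕ) : ℝ≥0∞)⁻¹ * ∫⁻ ξ, κ ξ, fun H hH hinv => ?_⟩
  have hn0 : ((n + 1 : ℕ) : ℝ≥0∞) ≠ 0 := by simp
  have hnt : ((n + 1 : ℕ) : ℝ≥0∞) ≠ ∞ := ENNReal.natCast_ne_top _
  rw [mul_assoc, ← ENNReal.mul_right_inj hn0 hnt, ← mul_assoc, ENNReal.mul_inv_cancel hn0 hnt,
    one_mul]
  have hG : Measurable fun z : ℂ => ∫⁻ B, ∫⁻ A, kz H z B A :=
    measurable_lint (measurable_lint (measurable_kz0 hH))
  calc ((n + 1 : ℕ) : ℝ≥0∞) * ∫⁻ B, ∫⁻ A, H (A, B)
      = ∫⁻ B, ∫⁻ y, ∫⁻ A, ky H y B A := by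
        rw [← lintegral_const_mul' _ _ hnt]
        refine lintegral_congr_ae ?_
        filter_upwards [ae_det_ne_zero (n + 1)] with B hB
        rw [lintegral_cons' (fun A => H (A, B)) (hH.comp measurable_prodMk_right),
          ← lintegral_const_mul' _ _ hnt, lint_swap (f := fun y A => ky H y B A)
          (measurable_ky hH measurable_fst measurable_const measurable_snd)]
        refine lintegral_congr_ae ?_
        filter_upwards [ae_no_common fun i => B i.succ] with A hA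
        exact area_step A B hB hA (fun a => H (Fin.cons a A, B))
          (hH.comp ((measurable_cons measurable_id measurable_const).prodMk measurable_const))
    _ = ∫⁻ y, ∫⁻ B, ∫⁻ A, ky H y B A :=
        (lint_swap (f := fun y B => ∫⁻ A, ky H y B A) (measurable_lint (measurable_ky0 hH))).symm
    _ = ∫⁻ y : Fin (n + 1) → ℂ, κ (fun i => y i.succ) * ∫⁻ B, ∫⁻ A, kz H (y 0) B A :=
        lintegral_congr fun y => fixed_eigvec hH hinv y
    _ = _ := by
        have hm : Measurable fun y : Fin (n + 1) → ℂ =>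
            κ (fun i => y i.succ) * ∫⁻ B, ∫⁻ A, kz H (y 0) B A :=
          (hκ.comp (by fun_prop)).mul (hG.comp (measurable_pi_apply 0))
        rw [lintegral_cons _ hm, ← lintegral_const_mul _ hG]
        refine lintegral_congr fun z => ?_
        simp only [Fin.cons_zero, Fin.cons_succ]
        rw [lintegral_mul_const _ hκ]

end Pool.Agent.Lib.MP_8d6f76_pr
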