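import Pool.Agent.Lib.MP_8d6f76_pr.Kri4

open MeasureTheory Matrix
open scoped ENNReal

namespace Pool.Agent.Lib.MP_8d6f76_pr

/-- The Gaussian weight of a vector. -/
noncomputable def gv {l : ℕ} (a : Fin l → ℂ) : ℝ≥0∞ := ENNReal.ofReal (Real.exp (-sqn a))

/-- The Gaussian weight of an array. -/
noncomputable def gw {k l : ℕ} (A : Fin k → Fin l → ℂ) : ℝ≥0∞ := ENNReal.ofReal (Real.exp (-fro A))

/-- The weighted integrand of the induction. -/
noncomputable def hw {n : ℕ} (m : ℕ) (Φ : Multiset ℂ → ℝ≥0∞)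
    (ω : (Fin n → Fin n → ℂ) × (Fin n → Fin n → ℂ)) : ℝ≥0∞ :=
  ENNReal.ofReal ((‖(Matrix.of ω.2).det‖ ^ 2) ^ m) * Φ (eigs ω.1 ω.2) * gw ω.1 * gw ω.2

/-- The test function after removing one eigenvalue. -/
noncomputable def phiz (Φ : Multiset ℂ → ℝ≥0∞) (z : ℂ) (M : Multiset ℂ) : ℝ≥0∞ :=
  Φ (z ::ₘ M) * ENNReal.ofReal (‖(M.map fun a => z - a).prod‖ ^ 2)

theorem measurable_gv {l : ℕ} : Measurable (gv : (Fin l → ℂ) → ℝ≥0∞) :=
  ENNReal.measurable_ofReal.comp (Real.continuous_exp.comp continuous_sqn.neg).measurable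

theorem measurable_gw {k l : ℕ} : Measurable (gw : (Fin k → Fin l → ℂ) → ℝ≥0∞) :=
  ENNReal.measurable_ofReal.comp (Real.continuous_exp.comp continuous_fro.neg).measurable

theorem gw_cons {k l : ℕ} (a : Fin l → ℂ) (A : Fin k → Fin l → ℂ) :
    gw (Fin.cons a A : Fin (k + 1) → Fin l → ℂ) = gv a * gw A := by
  rw [gw, fro_cons, neg_add, Real.exp_add, ENNReal.ofReal_mul (Real.exp_pos _).le]
  rfl

theorem gw_colCons {k l : ℕ} (a : Fin k → ℂ) (A : Fin k → Fin l → ℂ) :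
    gw (colCons a A) = gv a * gw A := by
  rw [gw, fro_colCons, neg_add, Real.exp_add, ENNReal.ofReal_mul (Real.exp_pos _).le]
  rfl

theorem measurable_hw {n : ℕ} (m : ℕ) {Φ : Multiset ℂ → ℝ≥0∞}
    (hΦ : Measurable fun z : Fin n → ℂ => Φ (Finset.univ.val.map z)) :
    Measurable (hw m Φ : (Fin n → Fin n → ℂ) × (Fin n → Fin n → ℂ) → ℝ≥0∞) := by
  unfold hw
  refine ((Measurable.mul (ENNReal.measurable_ofReal.comp ?_) (measurable_comp_eigs hΦ)).mul
    (measurable_gw.comp measurable_fst)).mul (measurable_gw.comp measurable_snd)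
  refine ((Measurable.norm (measurable_det_of fun i j => ?_)).pow_const 2).pow_const m
  simp only [Matrix.of_apply]
  fun_prop

theorem hw_lm {n : ℕ} (m : ℕ) (Φ : Multiset ℂ → ℝ≥0∞) (V : Matrix (Fin n) (Fin n) ℂ)
    (hV : V * Vᴴ = 1) (A B : Fin n → Fin n → ℂ) : hw m Φ (lm V A, lm V B) = hw m Φ (A, B) := by
  simp only [hw, gw, eigs_lm hV, fro_lm hV, of_lm, det_mul, norm_mul, norm_det_of_unitary hV,
    one_mul]

theorem hw_rm {n : ℕ} (m : ℕ) (Φ : Multiset ℂ → ℝ≥0∞) (V : Matrix (Fin n) (Fin n) ℂ)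
    (hV : V * Vᴴ = 1) (A B : Fin n → Fin n → ℂ) : hw m Φ (rm V A, rm V B) = hw m Φ (A, B) := by
  simp only [hw, gw, eigs_rm hV, fro_rm hV, of_rm, det_mul, norm_mul, norm_det_of_unitary hV,
    mul_one]

theorem map_cons_eq {n : ℕ} (z : ℂ) (w : Fin n → ℂ) :
    Finset.univ.val.map (Fin.cons z w : Fin (n + 1) → ℂ) = z ::ₘ Finset.univ.val.map w := by
  rw [Fin.univ_val_map, Fin.univ_val_map, List.ofFn_succ]
  simp

theorem phiz_map {n : ℕ} (Φ : Multiset ℂ → ℝ≥0∞) (z : ℂ) (w : Fin n → ℂ) :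
    phiz Φ z (Finset.univ.val.map w) =
      Φ (Finset.univ.val.map (Fin.cons z w : Fin (n + 1) → ℂ)) *
        ENNReal.ofReal (‖∏ j, (z - w j)‖ ^ 2) := by
  rw [phiz, map_cons_eq, Multiset.map_map, Finset.prod_eq_multiset_prod]
  rfl

theorem measurable_phiz {n : ℕ} {Φ : Multiset ℂ → ℝ≥0∞}
    (hΦ : Measurable fun z : Fin (n + 1) → ℂ => Φ (Finset.univ.val.map z)) (z : ℂ) :
    Measurable fun w : Fin n → ℂ => phiz Φ z (Finset.univ.val.map w) := by
  simp only [phiz_map]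
  refine Measurable.mul ?_ (ENNReal.measurable_ofReal.comp ?_)
  · have := hΦ.comp (measurable_cons (measurable_const (a := z))
      (measurable_id (α := Fin n → ℂ)))
    simpa only [Function.comp_def, id] using this
  · exact (by fun_prop : Continuous fun w : Fin n → ℂ => ‖∏ j, (z - w j)‖ ^ 2).measurable

theorem multiset_eq_of_eval {M N : Multiset ℂ}
    (h : ∀ t : ℂ, (M.map fun a => t - a).prod = (N.map fun a => t - a).prod) : M = N := by
  have hp : (M.map fun a => Polynomial.X - Polynomial.C a).prod =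
      (N.map fun a => Polynomial.X - Polynomial.C a).prod := by
    refine Polynomial.funext fun t => ?_
    rw [Polynomial.eval_multiset_prod, Polynomial.eval_multiset_prod, Multiset.map_map,
      Multiset.map_map]
    simpa using h t
  rw [← Polynomial.roots_multiset_prod_X_sub_C M, hp, Polynomial.roots_multiset_prod_X_sub_C]

theorem det_block {n : ℕ} (β : ℂ) (b : Fin n → ℂ) (B : Fin n → Fin n → ℂ) :
    (Matrix.of (Fin.cons (Pi.single 0 β) (colCons b B) :
      Fin (n + 1) → Fin (n + 1) → ℂ)).det = β * (Matrix.of B).det := by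
  rw [det_row_zero _ (fun j => by simp)]
  congr 1

theorem eigs_block {n : ℕ} {β : ℂ} (hβ : β ≠ 0) (z : ℂ) (a b : Fin n → ℂ)
    (A B : Fin n → Fin n → ℂ) (hB : (Matrix.of B).det ≠ 0) :
    eigs (Fin.cons (z • Pi.single 0 β) (colCons a A) : Fin (n + 1) → Fin (n + 1) → ℂ)
      (Fin.cons (Pi.single 0 β) (colCons b B)) = z ::ₘ eigs A B := by
  refine multiset_eq_of_eval fun t => ?_
  have hd := det_block β b B
  have hd0 := mul_ne_zero hβ hB
  have h1 := det_pencil
    (Fin.cons (z • Pi.single 0 β) (colCons a A) : Fin (n + 1) → Fin (n + 1) → ℂ)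
    (Fin.cons (Pi.single 0 β) (colCons b B)) (by rw [hd]; exact hd0) t
  have h2 : t • Matrix.of (Fin.cons (Pi.single 0 β) (colCons b B) :
      Fin (n + 1) → Fin (n + 1) → ℂ) - Matrix.of
      (Fin.cons (z • Pi.single 0 β) (colCons a A) : Fin (n + 1) → Fin (n + 1) → ℂ) =
      Matrix.of (Fin.cons (Pi.single 0 ((t - z) * β))
        (colCons (t • b - a) (t • B - A)) : Fin (n + 1) → Fin (n + 1) → ℂ) := by
    ext i j
    refine Fin.cases ?_ (fun i => ?_) i <;> refine Fin.cases ?_ (fun j => ?_) j <;>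
      simp [colCons, sub_mul]
  have h3 : Matrix.of (t • B - A) = t • Matrix.of B - Matrix.of A := rfl
  rw [h2, det_block, hd, h3, det_pencil A B hB t] at h1
  refine mul_left_cancel₀ hd0 ?_
  rw [← h1, Multiset.map_cons, Multiset.prod_cons]
  ring

theorem kz_block {n : ℕ} (m : ℕ) (Φ : Multiset ℂ → ℝ≥0∞) {β : ℝ} (hβ : 0 < β) (z : ℂ)
    (a b : Fin n → ℂ) (A B : Fin n → Fin n → ℂ) (hB : (Matrix.of B).det ≠ 0) :
    kz (hw m Φ) z (Fin.cons (Pi.single 0 (β : ℂ)) (colCons b B)) (colCons a A) =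
      ENNReal.ofReal ((β ^ 2) ^ (m + 1) * Real.exp (-((1 + ‖z‖ ^ 2) * β ^ 2))) * gv b *
        (hw (m + 1) (phiz Φ z) (A, B) * gv a) := by
  have hβ' : (β : ℂ) ≠ 0 := by exact_mod_cast hβ.ne'
  have h1 : jac0 (colCons a A) (Fin.cons (Pi.single 0 (β : ℂ)) (colCons b B)) z =
      Matrix.of (Fin.cons (Pi.single 0 (β : ℂ))
        (colCons (z • b - a) (z • B - A)) : Fin (n + 1) → Fin (n + 1) → ℂ) := by
    ext i j
    refine Fin.cases ?_ (fun i => ?_) i <;> refine Fin.cases ?_ (fun j => ?_) j <;>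
      simp [jac0, colCons]
  have h3 : Matrix.of (z • B - A) = z • Matrix.of B - Matrix.of A := rfl
  have h4 : sqn (Pi.single 0 (β : ℂ) : Fin (n + 1) → ℂ) = β ^ 2 := by
    simp [sqn, Fin.sum_univ_succ]
  have hn : ‖(β : ℂ)‖ = β := by rw [Complex.norm_real, Real.norm_of_nonneg hβ.le]
  simp only [kz, hw, Fin.cons_zero, h1, det_block, h3, det_pencil A B hB z, eigs_block hβ' z a b A B hB,
    gw_cons, gw_colCons, phiz, norm_mul, hn]
  have h5 : gv (z • Pi.single 0 (β : ℂ) : Fin (n + 1) → ℂ) =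
      ENNReal.ofReal (Real.exp (-(‖z‖ ^ 2 * β ^ 2))) := by rw [gv, sqn_smul, h4]
  have h6 : gv (Pi.single 0 (β : ℂ) : Fin (n + 1) → ℂ) =
      ENNReal.ofReal (Real.exp (-(β ^ 2))) := by rw [gv, h4]
  have h7 : Real.exp (-((1 + ‖z‖ ^ 2) * β ^ 2)) =
      Real.exp (-(‖z‖ ^ 2 * β ^ 2)) * Real.exp (-(β ^ 2)) := by
    rw [← Real.exp_add]; congr 1; ring
  rw [h5, h6, h7]
  simp only [mul_pow, pow_succ _ m]
  rw [ENNReal.ofReal_mul (by positivity), ENNReal.ofReal_mul (by positivity),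
    ENNReal.ofReal_mul (by positivity), ENNReal.ofReal_mul (by positivity),
    ENNReal.ofReal_mul (by positivity), ENNReal.ofReal_mul (by positivity),
    ENNReal.ofReal_mul (by positivity)]
  ring

theorem kz_rm {n : ℕ} (m : ℕ) (Φ : Multiset ℂ → ℝ≥0∞) (V : Matrix (Fin (n + 1)) (Fin (n + 1)) ℂ)
    (hV : V * Vᴴ = 1) (z : ℂ) (B : Fin (n + 1) → Fin (n + 1) → ℂ)
    (A : Fin n → Fin (n + 1) → ℂ) :
    kz (hw m Φ) z (rm V B) (rm V A) = kz (hw m Φ) z B A := by
  have h1 : jac0 (rm V A) (rm V B) z = jac0 A B z * V := by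
    unfold jac0
    rw [← of_rm]
    congr 1
    funext i
    refine Fin.cases ?_ (fun i => ?_) i
    · simp [rm]
    · simp [rm, Matrix.sub_vecMul, Matrix.smul_vecMul]
  have h2 : (Fin.cons (z • rm V B 0) (rm V A) : Fin (n + 1) → Fin (n + 1) → ℂ) =
      rm V (Fin.cons (z • B 0) A) := by
    funext i
    refine Fin.cases ?_ (fun i => ?_) i
    · simp [rm, Matrix.smul_vecMul]
    · simp [rm]
  rw [kz, kz, h1, h2, hw_rm m Φ V hV, det_mul, norm_mul, norm_det_of_unitary hV, mul_one]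

theorem deflate_right {n : ℕ} (m : ℕ) {Φ : Multiset ℂ → ℝ≥0∞}
    (hΦ : Measurable fun z : Fin (n + 1) → ℂ => Φ (Finset.univ.val.map z)) (z : ℂ)
    {b : Fin (n + 1) → ℂ} (hb : b ≠ 0) :
    ∫⁻ B : Fin n → Fin (n + 1) → ℂ, ∫⁻ A, kz (hw m Φ) z (Fin.cons b B) A =
      ENNReal.ofReal (sqn b ^ (m + 1) * Real.exp (-((1 + ‖z‖ ^ 2) * sqn b))) *
        (((∫⁻ a : Fin n → ℂ, gv a) * ∫⁻ a : Fin n → ℂ, gv a) *
          ∫⁻ B : Fin n → Fin n → ℂ, ∫⁻ A, hw (m + 1) (phiz Φ z) (A, B)) := by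
  obtain ⟨V, hV, hVb⟩ := exists_unitary_row hb
  have hpos : 0 < √(sqn b) := Real.sqrt_pos.2 (sqn_pos hb)
  have hdV := norm_det_of_unitary hV
  have hH := measurable_hw m hΦ
  have hH1 := measurable_hw (m + 1) (measurable_phiz hΦ z)
  have hG : ∀ c : Fin (n + 1) → ℂ, Measurable fun B : Fin n → Fin (n + 1) → ℂ =>
      ∫⁻ A, kz (hw m Φ) z (Fin.cons c B) A := fun c =>
    measurable_lint (measurable_kz hH measurable_const
      (measurable_cons measurable_const measurable_fst) measurable_snd)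
  have hG1 : Measurable fun B : Fin n → Fin n → ℂ => ∫⁻ A, hw (m + 1) (phiz Φ z) (A, B) :=
    measurable_lint (hH1.comp measurable_swap)
  have hc : ∀ B : Fin n → Fin (n + 1) → ℂ, (Fin.cons b (rm V B) : Fin (n + 1) → Fin (n + 1) → ℂ) =
      rm V (Fin.cons (Pi.single 0 ((√(sqn b) : ℝ) : ℂ)) B) := by
    intro B
    funext i
    refine Fin.cases ?_ (fun i => ?_) i
    · simp only [rm, Fin.cons_zero, Matrix.single_vecMul]
      exact hVb.symm
    · simp [rm]
  calc ∫⁻ B : Fin n → Fin (n + 1) → ℂ, ∫⁻ A, kz (hw m Φ) z (Fin.cons b B) A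
      = ∫⁻ B : Fin n → Fin (n + 1) → ℂ, ∫⁻ A,
          kz (hw m Φ) z (Fin.cons (Pi.single 0 ((√(sqn b) : ℝ) : ℂ)) B) A := by
        rw [← lintegral_rm V hdV _ (hG b)]
        refine lintegral_congr fun B => ?_
        rw [← lintegral_rm V hdV (fun A => kz (hw m Φ) z (Fin.cons b (rm V B)) A)
          (measurable_kz hH measurable_const measurable_const measurable_id)]
        refine lintegral_congr fun A => ?_
        rw [hc, kz_rm m Φ V hV]
    _ = ∫⁻ B : Fin n → Fin n → ℂ,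
          ENNReal.ofReal (sqn b ^ (m + 1) * Real.exp (-((1 + ‖z‖ ^ 2) * sqn b))) *
          (((∫⁻ a : Fin n → ℂ, gv a) * ∫⁻ a : Fin n → ℂ, gv a) *
            ∫⁻ A, hw (m + 1) (phiz Φ z) (A, B)) := by
        rw [lintegral_colCons _ (hG _)]
        refine lintegral_congr_ae ?_
        filter_upwards [ae_det_ne_zero n] with B hB
        have hA1 : Measurable fun A => hw (m + 1) (phiz Φ z) (A, B) :=
          hH1.comp measurable_prodMk_right
        have h1 : ∀ b' : Fin n → ℂ, ∫⁻ A, kz (hw m Φ) z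
            (Fin.cons (Pi.single 0 ((√(sqn b) : ℝ) : ℂ)) (colCons b' B)) A =
            gv b' * (ENNReal.ofReal (sqn b ^ (m + 1) * Real.exp (-((1 + ‖z‖ ^ 2) * sqn b))) *
              ((∫⁻ a : Fin n → ℂ, gv a) * ∫⁻ A, hw (m + 1) (phiz Φ z) (A, B))) := by
          intro b'
          rw [lintegral_colCons (fun A => kz (hw m Φ) z
            (Fin.cons (Pi.single 0 ((√(sqn b) : ℝ) : ℂ)) (colCons b' B)) A)
            (measurable_kz hH measurable_const measurable_const measurable_id)]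
          simp only [kz_block m Φ hpos z _ b' _ B hB, Real.sq_sqrt (sqn_nonneg b)]
          have h2 : ∀ A : Fin n → Fin n → ℂ, ∫⁻ a : Fin n → ℂ,
              ENNReal.ofReal (sqn b ^ (m + 1) * Real.exp (-((1 + ‖z‖ ^ 2) * sqn b))) * gv b' *
                (hw (m + 1) (phiz Φ z) (A, B) * gv a) =
              (ENNReal.ofReal (sqn b ^ (m + 1) * Real.exp (-((1 + ‖z‖ ^ 2) * sqn b))) * gv b' *
                ∫⁻ a : Fin n → ℂ, gv a) * hw (m + 1) (phiz Φ z) (A, B) := by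
            intro A
            simp only [← mul_assoc]
            rw [lintegral_const_mul _ measurable_gv]
            ring
          simp only [h2]
          rw [lintegral_const_mul _ hA1]
          ring
        simp only [h1]
        rw [lintegral_mul_const _ measurable_gv]
        ring
    _ = _ := by
        simp only [← mul_assoc]
        rw [lintegral_const_mul _ hG1]

theorem lintegral_radial (l m : ℕ) (z : ℂ) :
    ∫⁻ b : Fin l → ℂ, ENNReal.ofReal (sqn b ^ (m + 1) * Real.exp (-((1 + ‖z‖ ^ 2) * sqn b))) =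
      ENNReal.ofReal (((1 + ‖z‖ ^ 2) ^ (l + 1 + m))⁻¹) *
        ∫⁻ b : Fin l → ℂ, ENNReal.ofReal (sqn b ^ (m + 1) * Real.exp (-sqn b)) := by
  have hq : 0 < 1 + ‖z‖ ^ 2 := by positivity
  have hr : 0 < √(1 + ‖z‖ ^ 2) := Real.sqrt_pos.2 hq
  have hF : Measurable fun b : Fin l → ℂ => ENNReal.ofReal (sqn b ^ (m + 1) * Real.exp (-sqn b)) :=
    ENNReal.measurable_ofReal.comp ((continuous_sqn.pow _).mul
      (Real.continuous_exp.comp continuous_sqn.neg)).measurable
  have h1 := lintegral_comp_smul_vec _ hr _ hF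
  simp only [sqn_smul, Complex.norm_real, Real.norm_of_nonneg hr.le, Real.sq_sqrt hq.le] at h1
  have h2 : ∀ b : Fin l → ℂ,
      ENNReal.ofReal (sqn b ^ (m + 1) * Real.exp (-((1 + ‖z‖ ^ 2) * sqn b))) =
      ENNReal.ofReal (((1 + ‖z‖ ^ 2) ^ (m + 1))⁻¹) * ENNReal.ofReal
        (((1 + ‖z‖ ^ 2) * sqn b) ^ (m + 1) * Real.exp (-((1 + ‖z‖ ^ 2) * sqn b))) := by
    intro b
    rw [← ENNReal.ofReal_mul (by positivity), mul_pow]
    congr 1
    field_simp
  simp only [h2]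
  rw [lintegral_const_mul' _ _ ENNReal.ofReal_ne_top, h1, ← mul_assoc,
    ← ENNReal.ofReal_inv_of_pos (by positivity), ← ENNReal.ofReal_mul (by positivity)]
  congr 2
  rw [← mul_inv, ← pow_add]
  congr 2
  ring

end Pool.Agent.Lib.MP_8d6f76_pr
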