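import Pool.Agent.Lib.MP_8d6f76_pr.Deriv

open MeasureTheory Set Complex Filter Topology
open scoped ENNReal ComplexConjugate Real Matrix

namespace Pool.Agent.Lib.MP_8d6f76_pr

lemma prod_Ico_pow (x : ℕ → ℂ) (n : ℕ) :
    ∏ j ∈ Finset.range n, ∏ l ∈ Finset.Ico j n, x l = ∏ l ∈ Finset.range n, x l ^ (l + 1) := by
  induction n with
  | zero => simp
  | succ n ih =>
    have h1 : ∀ j ∈ Finset.range (n + 1),
        ∏ l ∈ Finset.Ico j (n + 1), x l = (∏ l ∈ Finset.Ico j n, x l) * x n := fun j hj =>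
      Finset.prod_Ico_succ_top (Nat.lt_succ_iff.mp (Finset.mem_range.mp hj)) _
    rw [Finset.prod_congr rfl h1, Finset.prod_mul_distrib, Finset.prod_range_succ, ih,
      Finset.prod_range_succ (fun l => x l ^ (l + 1))]
    simp

lemma one_add_div_ne_zero {a : ℂ} (ha : -1 < a.re) (l : ℕ) : 1 + a / ((l : ℂ) + 1) ≠ 0 := by
  have h1 : ((l : ℂ) + 1) ≠ 0 := by exact_mod_cast Nat.succ_ne_zero l
  have h2 : (l : ℂ) + 1 + a ≠ 0 := fun h => by
    have := re_nat_add_pos ha l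
    rw [h] at this
    simp at this
  rw [one_add_div h1]
  exact div_ne_zero h2 h1

lemma DD_one (g : ℂ) (hg : -2 < g.re) (m : ℕ) :
    DD (fun _ : Unit => 0) (fun _ => 1) (fun _ => g) m 1 =
      ∏ l ∈ Finset.range (m + 1), ((1 + g / 2 / ((l : ℂ) + 1))⁻¹) ^ (l + 1) := by
  have ha : -1 < (g / 2).re := by rw [div_ofNat_re]; linarith
  have h1 : (fun z => Complex.exp (GG (fun _ : Unit => 0) (fun _ => 1)
      (fun _ => ((1 : ℝ) : ℂ) * g) z)) = fun z => phi (g / 2) 0 (UU z) := by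
    funext z
    simp only [GG, Finset.univ_unique, Finset.sum_singleton, phi, log_dl_zero norm_one]
    congr 1
    push_cast
    ring
  have h2 : gram m (fun z => phi (g / 2) 0 (UU z)) = Matrix.diagonal fun j : Fin (m + 1) =>
      ∏ l ∈ Finset.Ico (j : ℕ) (m + 1), (1 + g / 2 / ((l : ℂ) + 1))⁻¹ := by
    ext j k
    rw [gram_radial, Matrix.diagonal_apply]
    split_ifs with hjk
    · have hj : (j : ℕ) ≤ m := Nat.lt_succ_iff.mp j.2
      rw [beta_nat _ _ _ (re_nat_add_pos ha j), Finset.prod_Ico_eq_prod_range]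
      have h3 := prod_range_fact j (m - j + 1)
      have h4 : (j : ℕ) + (m - j + 1) = m + 1 := by omega
      have h4' : m + 1 - j = m - j + 1 := by omega
      rw [h4, Nat.factorial_succ] at h3
      have h5 : ((m.choose j : ℕ) : ℂ) * (j : ℕ).factorial * (m - j).factorial = m.factorial := by
        exact_mod_cast Nat.choose_mul_factorial_mul_factorial hj
      have h6 : (((j : ℕ).factorial : ℕ) : ℂ) ≠ 0 := by exact_mod_cast (Nat.factorial_pos _).ne'
      have h7 : ((m : ℂ) + 1) * m.choose j * (m - j).factorial =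
          ∏ i ∈ Finset.range (m - j + 1), (((j : ℕ) : ℂ) + 1 + i) := by
        apply mul_left_cancel₀ h6
        rw [h3]
        push_cast
        linear_combination ((m : ℂ) + 1) * h5
      rw [← mul_div_assoc, h7, h4', ← Finset.prod_div_distrib]
      refine Finset.prod_congr rfl fun i _ => ?_
      have h8 : ((((j : ℕ) + i : ℕ) : ℂ) + 1) ≠ 0 := by
        exact_mod_cast Nat.succ_ne_zero ((j : ℕ) + i)
      rw [one_add_div h8, inv_div]
      push_cast
      congr 1 <;> ring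
    · rfl
  rw [DD, h1, h2, Matrix.det_diagonal, Fin.prod_univ_eq_prod_range
    (fun j => ∏ l ∈ Finset.Ico j (m + 1), (1 + g / 2 / ((l : ℂ) + 1))⁻¹) (m + 1), prod_Ico_pow]

/-- Logarithm of a factor of the Weierstrass product. -/
noncomputable def wlog (a : ℂ) (k : ℕ) : ℂ :=
  ((k + 1 : ℕ) : ℂ) * Complex.log (1 + a / ((k : ℂ) + 1)) + (a ^ 2 / (2 * ((k : ℂ) + 1)) - a)

lemma summable_wlog (a : ℂ) : Summable (wlog a) := by
  have h0 : Summable fun k : ℕ => ‖a‖ ^ 3 * (1 / ((k + 1 : ℕ) : ℝ) ^ 2) :=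
    ((summable_nat_add_iff 1).mpr (Real.summable_one_div_nat_pow.mpr one_lt_two)).mul_left _
  refine Summable.of_norm_bounded_eventually_nat h0 ?_
  filter_upwards [tendsto_natCast_atTop_atTop.eventually (eventually_ge_atTop (2 * ‖a‖))] with k hk
  have h1 : ((k : ℂ) + 1) ≠ 0 := by exact_mod_cast Nat.succ_ne_zero k
  have h2 : ‖(k : ℂ) + 1‖ = (k : ℝ) + 1 := by exact_mod_cast Complex.norm_natCast (k + 1)
  have h3 : (0 : ℝ) < (k : ℝ) + 1 := by positivity
  have h4 : ‖a / ((k : ℂ) + 1)‖ ≤ 1 / 2 := by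
    rw [norm_div, h2, div_le_iff₀ h3]; linarith
  have h5 := norm_log_sub_logTaylor_le 2 (z := a / ((k : ℂ) + 1)) (by linarith)
  have e : wlog a k = ((k : ℂ) + 1) *
      (Complex.log (1 + a / ((k : ℂ) + 1)) - logTaylor (2 + 1) (a / ((k : ℂ) + 1))) := by
    simp only [wlog, logTaylor, Finset.sum_range_succ, Finset.range_zero, Finset.sum_empty]
    push_cast
    field_simp
    ring
  have h6 : (1 - ‖a / ((k : ℂ) + 1)‖)⁻¹ ≤ 2 := by
    rw [inv_le_comm₀ (by linarith) two_pos]; linarith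
  rw [e, norm_mul, h2]
  calc _ ≤ ((k : ℝ) + 1) * (‖a / ((k : ℂ) + 1)‖ ^ (2 + 1) * 3 / ((2 : ℕ) + 1)) := by
        gcongr
        refine h5.trans ?_
        gcongr
        linarith
    _ = _ := by
        rw [norm_div, h2]
        push_cast
        field_simp
        ring

lemma barnesG_eq {a : ℂ} (ha : -1 < a.re) : barnesG (1 + a) =
    Complex.exp (a / 2 * (Real.log (2 * π) : ℝ) -
      (a + a ^ 2 * (1 + (Real.eulerMascheroniConstant : ℂ))) / 2 + ∑' k, wlog a k) := by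
  have h1 := (summable_wlog a).hasSum.cexp
  have h2 : (Complex.exp ∘ wlog a) = fun k : ℕ => (1 + a / ((k : ℂ) + 1)) ^ (k + 1) *
      Complex.exp (a ^ 2 / (2 * ((k : ℂ) + 1)) - a) := by
    funext k
    simp only [Function.comp, wlog]
    rw [Complex.exp_add, Complex.exp_nat_mul, Complex.exp_log (one_add_div_ne_zero ha k)]
  rw [h2] at h1
  have h3 : (2 * π : ℂ) ≠ 0 := by exact_mod_cast Real.two_pi_pos.ne'
  have h4 : Complex.log (2 * π : ℂ) = (Real.log (2 * π) : ℝ) := by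
    rw [Complex.ofReal_log Real.two_pi_pos.le]; push_cast; rfl
  simp only [barnesG, add_sub_cancel_left]
  rw [h1.tprod_eq, cpow_def_of_ne_zero h3, h4, ← Complex.exp_add, ← Complex.exp_add]
  congr 1
  ring

theorem onePoint_asymp {g : ℂ} (hg : -2 < g.re) :
    Tendsto (fun m : ℕ => DD (fun _ : Unit => 0) (fun _ => 1) (fun _ => g) m 1 *
      barnesG (1 + g / 2) * Complex.exp (-(-g / 2 * ((m : ℂ) + 1) - g / 4 - g ^ 2 / 8 +
        g / 4 * (Real.log (2 * π) : ℝ) + g ^ 2 / 8 * (Real.log (m + 1) : ℝ)))) atTop (𝓝 1) := by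
  have ha : -1 < (g / 2).re := by rw [div_ofNat_re]; linarith
  have T1 : Tendsto (fun m : ℕ => ∑ k ∈ Finset.range (m + 1), wlog (g / 2) k) atTop
      (𝓝 (∑' k, wlog (g / 2) k)) :=
    (summable_wlog _).hasSum.tendsto_sum_nat.comp (tendsto_add_atTop_nat 1)
  have T2 : Tendsto (fun m : ℕ => (((harmonic (m + 1) : ℝ) - Real.log ((m + 1 : ℕ) : ℝ) : ℝ) : ℂ))
      atTop (𝓝 (Real.eulerMascheroniConstant : ℂ)) :=
    (continuous_ofReal.tendsto _).comp
      (Real.tendsto_harmonic_sub_log.comp (tendsto_add_atTop_nat 1))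
  have T3 := ((T1.const_sub (∑' k, wlog (g / 2) k)).add
    ((T2.sub_const (Real.eulerMascheroniConstant : ℂ)).const_mul (g ^ 2 / 8))).cexp
  simp only [sub_self, mul_zero, add_zero, Complex.exp_zero] at T3
  refine T3.congr fun m => ?_
  have h1 : ∏ l ∈ Finset.range (m + 1), ((1 + g / 2 / ((l : ℂ) + 1))⁻¹) ^ (l + 1) =
      Complex.exp (∑ l ∈ Finset.range (m + 1),
        -(((l + 1 : ℕ) : ℂ) * Complex.log (1 + g / 2 / ((l : ℂ) + 1)))) := by
    rw [Complex.exp_sum]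
    refine Finset.prod_congr rfl fun l _ => ?_
    rw [Complex.exp_neg, Complex.exp_nat_mul, Complex.exp_log (one_add_div_ne_zero ha l), inv_pow]
  have h2 : ∑ k ∈ Finset.range (m + 1), wlog (g / 2) k =
      -∑ l ∈ Finset.range (m + 1), -(((l + 1 : ℕ) : ℂ) * Complex.log (1 + g / 2 / ((l : ℂ) + 1))) +
        (g ^ 2 / 8 * ((harmonic (m + 1) : ℝ) : ℂ) - g / 2 * ((m : ℂ) + 1)) := by
    simp only [wlog, Finset.sum_add_distrib, Finset.sum_neg_distrib, neg_neg,
      Finset.sum_sub_distrib, Finset.sum_const, Finset.card_range, nsmul_eq_mul, harmonic]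
    push_cast
    rw [Finset.mul_sum]
    congr 2
    · refine Finset.sum_congr rfl fun l _ => ?_
      have h3 : ((l : ℂ) + 1) ≠ 0 := by exact_mod_cast Nat.succ_ne_zero l
      field_simp
      ring
    · ring
  rw [DD_one g hg, barnesG_eq ha, h1, h2, ← Complex.exp_add, ← Complex.exp_add]
  congr 1
  push_cast
  ring

variable {ι : Type*} [Fintype ι] [DecidableEq ι]

theorem det_asymp {α β γ : ι → ℂ} (hu : ∀ i, ‖α i‖ ^ 2 + ‖β i‖ ^ 2 = 1) {d : ℝ} (hd : 0 < d)
    (hd1 : d ≤ 1) (hsep : ∀ i j, i ≠ j → d ≤ ‖α i * β j - β i * α j‖) (hγ : ∀ i, -2 < (γ i).re) :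
    Tendsto (fun m : ℕ => DD α β γ m 1 * (∏ i, barnesG (1 + γ i / 2)) *
      Complex.exp (-(-(∑ i, γ i) / 2 * ((m : ℂ) + 1) - (∑ i, γ i) / 4 - (∑ i, γ i) ^ 2 / 8 +
        (∑ i, γ i) / 4 * (Real.log (2 * π) : ℝ) + (∑ i, γ i ^ 2) / 8 * (Real.log (m + 1) : ℝ) -
        (∑ i, γ i * ∑ j ∈ {i}ᶜ, γ j * (Real.log ‖α j * β i - β j * α i‖ : ℝ)) / 4)))
      atTop (𝓝 1) := by
  have T := (ratio_asymp hu hd hd1 hsep hγ).mul
    (tendsto_finsetProd Finset.univ fun i _ => onePoint_asymp (hγ i))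
  simp only [Finset.prod_const_one, mul_one] at T
  refine T.congr fun m => ?_
  have h1 : ∏ i, DD (fun _ : Unit => 0) (fun _ => 1) (fun _ => γ i) m 1 ≠ 0 := by
    refine Finset.prod_ne_zero_iff.mpr fun i _ => ?_
    rw [DD_one _ (hγ i)]
    refine Finset.prod_ne_zero_iff.mpr fun l _ => pow_ne_zero _ (inv_ne_zero ?_)
    exact one_add_div_ne_zero (by rw [div_ofNat_re]; linarith [hγ i]) l
  have h2 : ∑ i, -(-γ i / 2 * ((m : ℂ) + 1) - γ i / 4 - γ i ^ 2 / 8 +
      γ i / 4 * (Real.log (2 * π) : ℝ) + γ i ^ 2 / 8 * (Real.log (m + 1) : ℝ)) =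
      (∑ i, γ i) * (((m : ℂ) + 1) / 2 + 1 / 4 - (Real.log (2 * π) : ℝ) / 4) +
        (∑ i, γ i ^ 2) * (1 / 8 - (Real.log (m + 1) : ℝ) / 8) := by
    rw [Finset.sum_mul, Finset.sum_mul, ← Finset.sum_add_distrib]
    exact Finset.sum_congr rfl fun i _ => by ring
  rw [Finset.prod_mul_distrib, Finset.prod_mul_distrib, ← Complex.exp_sum, h2]
  calc _ = DD α β γ m 1 * (∏ i, barnesG (1 + γ i / 2)) * (Complex.exp (-cc α β γ) *
        Complex.exp ((∑ i, γ i) * (((m : ℂ) + 1) / 2 + 1 / 4 - (Real.log (2 * π) : ℝ) / 4) +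
        (∑ i, γ i ^ 2) * (1 / 8 - (Real.log (m + 1) : ℝ) / 8))) := by field_simp
    _ = _ := by
      rw [← Complex.exp_add, cc]
      congr 2
      ring

end Pool.Agent.Lib.MP_8d6f76_pr
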