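import Pool.Agent.Lib.MP_8d6f76_pr.Config

open MeasureTheory Set Complex Filter Topology
open scoped ENNReal ComplexConjugate Real

namespace Pool.Agent.Lib.MP_8d6f76_pr

/-- The error term of the local approximation. -/
noncomputable def etaF (m J A' : ℕ) (R r0 E F0 Kc CR : ℝ) : ℝ :=
  E ^ 2 * Kc * (2 * (1 / 2) ^ J * (F0 + 1) +
      J * ((1 + r0) ^ m * (√(1 + (R / 2) ^ 2) ^ (2 * J) / √(1 + (R / 2) ^ 2) ^ m) / R ^ J) * F0 +
      CR * (1 + r0 / (R / 2)) ^ m *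
        (√(1 + (R / 2) ^ 2) ^ (2 * J + 2 * A') / √(1 + (R / 2) ^ 2) ^ m)) +
    2 * E ^ 2 * √(1 + (R / 2) ^ 2) ^ m * (r0 / (R / 2)) ^ J

/-- The size of the local reproducing section. -/
noncomputable def bigM (m J : ℕ) (R r0 E Kc : ℝ) : ℝ :=
  E ^ 2 * Kc * (2 +
    J * ((1 + r0) ^ m * (√(1 + (R / 2) ^ 2) ^ (2 * J) / √(1 + (R / 2) ^ 2) ^ m) / R ^ J))

lemma ker_diag {m J : ℕ} (hJ : J ≤ m + 1) (a b w : ℂ) :
    ker (kap m a b) J w w * (phi a b (UU w) / ((sw w : ℝ) : ℂ) ^ (2 * m)) = PP m J a b (UU w) := by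
  rw [ker, PP, Finset.sum_mul]
  refine Finset.sum_congr rfl fun j hj => ?_
  have hj' : j ≤ m := by have := Finset.mem_range.mp hj; omega
  rw [tt, ← mono_eq hj', mul_pow]
  ring

lemma norm_phi_le {A' : ℕ} {a b : ℂ} {σ : ℝ} (ha : σ ≤ a.re) (hb : -(A' : ℝ) ≤ b.re) {u : ℝ}
    (hu : u ∈ Ioo (0 : ℝ) 1) : ‖phi a b u‖ ≤ u ^ σ * ((1 - u)⁻¹) ^ A' := by
  have h := norm_tt_le (m := A') (j := 0) ha hb (by omega) hu
  have h1 : (0 : ℝ) < 1 - u := by linarith [hu.2]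
  have e1 : ‖1 - (u : ℂ)‖ = 1 - u := by
    rw [← Complex.ofReal_one, ← Complex.ofReal_sub, Complex.norm_real, Real.norm_of_nonneg h1.le]
  simp only [tt, pow_zero, one_mul, Nat.sub_zero, Nat.sub_self, norm_mul, norm_pow, e1] at h
  rw [inv_pow, ← div_eq_mul_inv, le_div_iff₀ (by positivity), mul_comm]
  exact h

lemma integrableOn_phi {a b : ℂ} (ha : -1 < a.re) {u0 : ℝ} (hu0 : u0 < 1) :
    IntegrableOn (phi a b) (Ioo 0 u0) := by
  obtain ⟨A', hA'⟩ := exists_nat_ge (-b.re)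
  have h1 : IntegrableOn (fun u : ℝ => u ^ a.re) (Ioo 0 u0) :=
    (integrableOn_rpow_Ioo ha).mono_set (Ioo_subset_Ioo_right hu0.le)
  refine (h1.mul_const (((1 - u0)⁻¹) ^ A')).mono' (measurable_phi a b).aestronglyMeasurable ?_
  filter_upwards [ae_restrict_mem measurableSet_Ioo] with u hu
  have h0 := hu.1
  have h2 : 0 < 1 - u0 := by linarith
  refine (norm_phi_le (A' := A') le_rfl (by linarith) ⟨h0, hu.2.trans hu0⟩).trans ?_
  have h3 : 0 < 1 - u := by linarith [hu.2]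
  gcongr
  exact hu.2.le

variable {ι : Type*} [Fintype ι]

lemma norm_half_sum_le {c : ι → ℂ} {Γ : ℝ} (hΓ : ∑ i, ‖c i‖ ≤ Γ) (T : Finset ι) :
    ‖∑ j ∈ T, c j / 2‖ ≤ Γ := by
  calc ‖∑ j ∈ T, c j / 2‖ ≤ ∑ j ∈ T, ‖c j‖ := by
        refine norm_sum_le_of_le _ fun j _ => ?_
        rw [norm_div, Complex.norm_ofNat]; linarith [norm_nonneg (c j)]
    _ ≤ ∑ j, ‖c j‖ :=
        Finset.sum_le_sum_of_subset_of_nonneg (Finset.subset_univ _) fun _ _ _ => norm_nonneg _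
    _ ≤ Γ := hΓ

lemma norm_logsum_le {α β c : ι → ℂ} (hu : ∀ i, ‖α i‖ ^ 2 + ‖β i‖ ^ 2 = 1) {Γ d : ℝ}
    (hΓ : ∑ i, ‖c i‖ ≤ Γ) (hd : 0 < d) (hd1 : d ≤ 1) {T : Finset ι} (hT : ∀ j ∈ T, d ≤ ‖α j‖) :
    ‖∑ j ∈ T, c j * (Real.log ‖α j‖ : ℝ)‖ ≤ Γ * -Real.log d := by
  have hl : 0 ≤ -Real.log d := by linarith [Real.log_nonpos hd.le hd1]
  calc _ ≤ ∑ j ∈ T, ‖c j‖ * -Real.log d := by
        refine norm_sum_le_of_le _ fun j hj => ?_
        have h1 : ‖α j‖ ≤ 1 := by nlinarith [hu j, norm_nonneg (α j), norm_nonneg (β j)]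
        rw [norm_mul, Complex.norm_real, Real.norm_eq_abs,
          abs_of_nonpos (Real.log_nonpos (norm_nonneg _) h1)]
        gcongr
        exact hT j hj
    _ ≤ _ := by
        rw [← Finset.sum_mul]
        gcongr
        exact (Finset.sum_le_sum_of_subset_of_nonneg (Finset.subset_univ _)
          fun _ _ _ => norm_nonneg _).trans hΓ

theorem approx_config [DecidableEq ι] {α β c : ι → ℂ} (hu : ∀ i, ‖α i‖ ^ 2 + ‖β i‖ ^ 2 = 1)
    {a0 b0 : ℂ} (h0 : ‖a0‖ ^ 2 + ‖b0‖ ^ 2 = 1) {T : Finset ι} {d Γ F0 Kc r0 : ℝ} {m J A' : ℕ}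
    (hd : 0 < d) (hd1 : d ≤ 1) (hT : ∀ j ∈ T, d ≤ ‖α j * b0 - β j * a0‖)
    (hN : ∀ j, j ∉ T → α j * b0 - β j * a0 = 0) (hΓ : ∑ i, ‖c i‖ ≤ Γ) (hA' : Γ ≤ A')
    (hf : Integrable (fun z => Complex.exp (GG α β c z)) sig)
    (hF0 : ∫ z, ‖Complex.exp (GG α β c z)‖ ∂sig ≤ F0)
    (ha : -1 < (∑ j ∈ Tᶜ, c j / 2).re) (hJ : 2 * J + 2 * A' ≤ m) (hJ1 : 1 ≤ J) (hKc : 0 ≤ Kc)
    (hκ : ∀ j < J, ‖kap m (∑ j ∈ Tᶜ, c j / 2) (∑ j ∈ T, c j / 2) j‖ ≤ Kc * m.choose j)
    (hr0 : r0 ≤ d / 2 / 4) {ζ : ℂ} (hζ : ‖ζ‖ ≤ r0) (hden : den a0 b0 ζ ≠ 0) :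
    Approx m (fun z => Complex.exp (GG α β c z)) (mob a0 b0 ζ)
      (PP m J (∑ j ∈ Tᶜ, c j / 2) (∑ j ∈ T, c j / 2) (UU ζ))
      (etaF m J A' (d / 2) r0 (Real.exp (Γ * (1 - Real.log d))) F0 Kc
        ((1 + (d / 2 / 2) ^ 2) / (d / 2 / 2) ^ 2))
      (bigM m J (d / 2) r0 (Real.exp (Γ * (1 - Real.log d))) Kc) := by
  set α' : ι → ℂ := fun i => α i * b0 - β i * a0 with hα'
  set β' : ι → ℂ := fun i => β i * conj b0 + α i * conj a0 with hβ'
  have hu' : ∀ i, ‖α' i‖ ^ 2 + ‖β' i‖ ^ 2 = 1 := fun i => unit_rot (hu i) h0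
  set a : ℂ := ∑ j ∈ Tᶜ, c j / 2 with haa
  set b : ℂ := ∑ j ∈ T, c j / 2 with hbb
  set c3 : ℂ := ∑ j ∈ T, c j * (Real.log ‖α' j‖ : ℝ) with hc3
  have hb : -(A' : ℝ) ≤ b.re := by
    have := (abs_le.mp ((abs_re_le_norm b).trans (norm_half_sum_le hΓ T))).1
    linarith
  have hΓ0 : 0 ≤ Γ := (Finset.sum_nonneg fun i _ => norm_nonneg _).trans hΓ
  have hl : 0 ≤ -Real.log d := by linarith [Real.log_nonpos hd.le hd1]
  have hg : ∀ ζ, den a0 b0 ζ ≠ 0 →
      Complex.exp (GG α' β' c ζ) = Complex.exp (GG α β c (mob a0 b0 ζ)) := fun ζ hζ => by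
    rw [GG_mob α β c h0 hζ]
  have hgae : (fun ζ => Complex.exp (GG α β c (mob a0 b0 ζ))) =ᵐ[sig]
      fun ζ => Complex.exp (GG α' β' c ζ) := by
    filter_upwards [ae_sig_den_ne h0] with ζ hζ using (hg ζ hζ).symm
  have hgi : Integrable (fun ζ => Complex.exp (GG α' β' c ζ)) sig :=
    ((measurePreserving_mob h0).integrable_comp_of_integrable hf).congr hgae
  have hgF : ∫ ζ, ‖Complex.exp (GG α' β' c ζ)‖ ∂sig ≤ F0 := by
    rw [← integral_comp_mp (measurePreserving_mob h0) hf.norm.aestronglyMeasurable] at hF0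
    refine le_trans (le_of_eq (integral_congr_ae ?_)) hF0
    filter_upwards [hgae] with ζ hζ
    rw [hζ]
  refine Approx.transfer h0 hf.aestronglyMeasurable hg hden ?_
  rw [← ker_diag (by omega)]
  have hΓ' : ∑ i, ‖conj (c i)‖ ≤ Γ := by simpa using hΓ
  have hfac : ∀ z : ℂ, ‖z‖ ≤ d / 2 → Complex.exp (GG α' β' c z) *
      conj (Complex.exp (-Hol α' β' (fun j => conj (c j)) T z)) =
      Complex.exp (c3 + Hol α' β' c T z) * phi a b (UU z) := by
    intro z hz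
    rw [GG_local c hu' hd hT hN hz, ← Complex.exp_conj, phi, ← Complex.exp_add, ← Complex.exp_add,
      ell, map_neg]
    congr 1
    ring
  have hH : ∀ z : ℂ, ‖z‖ ≤ d / 2 → ‖c3 + Hol α' β' c T z‖ ≤ Γ * (1 - Real.log d) := by
    intro z hz
    have h1 := norm_logsum_le hu' hΓ hd hd1 hT
    have h2 := norm_Hol_le hu' hd hT hΓ hz
    refine (norm_add_le _ _).trans ?_
    linarith
  have hr0' : 0 ≤ r0 := (norm_nonneg _).trans hζ
  refine local_approx (h := fun z => Complex.exp (c3 + Hol α' β' c T z))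
    (k := fun z => Complex.exp (-Hol α' β' (fun j => conj (c j)) T z))
    (Rw := fun z => phi a b (UU z)) (by positivity) (by linarith) hr0 hζ hJ hJ1 hKc (by positivity)
    ((differentiableOn_Hol c hu' hd hT).const_add _).cexp
    (differentiableOn_Hol _ hu' hd hT).neg.cexp
    (fun z hz => (Complex.norm_exp_le_exp_norm _).trans (Real.exp_le_exp.mpr (hH z hz)))
    (fun z hz => (Complex.norm_exp_le_exp_norm _).trans (Real.exp_le_exp.mpr ?_))
    (Complex.exp_ne_zero _) ?_ hgi hgF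
    ((measurable_phi a b).comp continuous_UU.measurable).aestronglyMeasurable
    (integrableOn_ball_UU (by positivity) (integrableOn_phi ha ?_)) (fun θ z => ?_) (fun z hz => ?_)
    (fun z hz _ => hfac z (by linarith)) (hfac ζ (by linarith)) (fun j hj => ?_) hκ
  · rw [norm_neg]
    refine (norm_Hol_le hu' hd hT hΓ' hz).trans ?_
    nlinarith
  · rw [← Complex.exp_neg]
    refine (Complex.norm_exp_le_exp_norm _).trans (Real.exp_le_exp.mpr ?_)
    rw [norm_neg]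
    exact hH ζ (by linarith)
  · rw [div_lt_one (by positivity)]; linarith
  · simp only [UU, norm_mul, Complex.norm_exp_ofReal_mul_I, one_mul]
  · have hz0 : z ≠ 0 := by
      rintro rfl
      rw [norm_zero] at hz; linarith
    refine (norm_phi_le ha.le hb ⟨UU_pos hz0, UU_lt_one z⟩).trans ?_
    rw [one_sub_UU, inv_inv, ← sw_sq, ← pow_mul, Real.rpow_neg_one]
    gcongr
    · exact pow_nonneg (sw_pos z).le _
    · rw [UU, inv_div, div_le_div_iff₀ (by positivity) (by positivity)]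
      have : (d / 2 / 2) ^ 2 ≤ ‖z‖ ^ 2 := by gcongr
      nlinarith
  · rw [integral_radial a b (by omega : j ≤ m)]
    refine kap_mul ha ?_
    have : (A' : ℝ) ≤ ((m - j : ℕ) : ℝ) := by exact_mod_cast (by omega : A' ≤ m - j)
    rw [add_re, add_re, natCast_re, one_re]; linarith

/-- Decay faster than every power. -/
def Small (ε : ℕ → ℝ) : Prop :=
  ∀ p : ℕ, Tendsto (fun m : ℕ => ((m : ℝ) + 1) ^ p * ε m) atTop (𝓝 0)

lemma Small.add {ε ε' : ℕ → ℝ} (h : Small ε) (h' : Small ε') : Small fun m => ε m + ε' m :=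
  fun p => by simpa only [mul_add, add_zero] using (h p).add (h' p)

lemma Small.const_mul {ε : ℕ → ℝ} (h : Small ε) (C : ℝ) : Small fun m => C * ε m := fun p => by
  simpa only [mul_zero, mul_left_comm C] using (h p).const_mul C

lemma Small.poly_mul {ε : ℕ → ℝ} (h : Small ε) (q : ℕ) :
    Small fun m => ((m : ℝ) + 1) ^ q * ε m := fun p => by
  simpa only [pow_add, mul_assoc] using h (p + q)

lemma Small.of_le {ε ε' : ℕ → ℝ} (h : Small ε') (h0 : ∀ m, 0 ≤ ε m) (h1 : ∀ m, ε m ≤ ε' m) :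
    Small ε := fun p =>
  squeeze_zero (fun m => by have := h0 m; positivity) (fun m => by gcongr; exact h1 m) (h p)

lemma Small.tendsto {ε : ℕ → ℝ} (h : Small ε) : Tendsto ε atTop (𝓝 0) := by simpa using h 0

lemma small_inv_pow {y : ℝ} (hy : 1 < y) : Small fun m => 1 / y ^ m := fun p => by
  have h := (tendsto_add_atTop_iff_nat 1).mpr (tendsto_pow_const_div_const_pow_of_one_lt p hy)
  have h2 := h.mul_const y
  rw [zero_mul] at h2
  refine h2.congr fun m => ?_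
  have : y ≠ 0 := by positivity
  push_cast
  field_simp
  ring

lemma small_div_pow {y : ℝ} (hy : 1 < y) (p : ℕ) {L : ℕ} (hL : 0 < L) :
    Small fun m => y ^ (p * m) / y ^ ((p + 1) * (L * (m / L))) := by
  have hy0 : 0 < y := by linarith
  refine ((small_inv_pow hy).const_mul (y ^ ((p + 1) * L))).of_le (fun m => by positivity)
    fun m => ?_
  rw [mul_one_div, div_le_div_iff₀ (by positivity) (by positivity), ← pow_add, ← pow_add]
  refine pow_le_pow_right₀ hy.le ?_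
  have h1 := Nat.lt_mul_div_succ m hL
  have h2 : (p + 1) * m ≤ (p + 1) * (L * (m / L + 1)) := Nat.mul_le_mul_left _ h1.le
  nlinarith

theorem exists_params {R : ℝ} (hR : 0 < R) (hR1 : R ≤ 1) (A' : ℕ) :
    ∃ (L : ℕ) (r0 : ℝ), 8 ≤ L ∧ 0 < r0 ∧ r0 ≤ R / 4 ∧ (Small fun m => 2 ^ m * (r0 ^ 2) ^ (m / L)) ∧
      ∀ (E F0 C CR : ℝ) (P : ℕ), 0 ≤ C →
        (Small fun m => etaF m (m / L) A' R r0 E F0 (C * ((m : ℝ) + 1) ^ P) CR) ∧
        ∀ᶠ m in atTop, bigM m (m / L) R r0 E (C * ((m : ℝ) + 1) ^ P) ≤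
          3 * E ^ 2 * C * ((m : ℝ) + 1) ^ P := by
  set s1 : ℝ := √(1 + (R / 2) ^ 2) with hs1
  have hs : 1 < s1 := by
    rw [hs1]; exact Real.lt_sqrt_of_sq_lt (by nlinarith)
  set g : ℝ := √(√s1) with hg
  have hg1 : 1 < g := by
    rw [hg]; refine Real.lt_sqrt_of_sq_lt ?_
    rw [one_pow]; exact Real.lt_sqrt_of_sq_lt (by linarith)
  have hg0 : 0 < g := by linarith
  have hg4 : g ^ 4 = s1 := by
    rw [show g ^ 4 = (g ^ 2) ^ 2 by ring, hg, Real.sq_sqrt (Real.sqrt_nonneg _),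
      Real.sq_sqrt (by linarith)]
  obtain ⟨L0, hL0⟩ := pow_unbounded_of_one_lt (1 / R) hg1
  set L := L0 + 8 with hL
  have hLpos : 0 < L := by omega
  have hgL : 1 / R ≤ g ^ L := hL0.le.trans (pow_le_pow_right₀ hg1.le (by omega))
  set r0 : ℝ := min (min (R / 4) (R / 2 * (g - 1))) (min (R / 2 * (1 / g ^ (5 * L))) (1 / 2 ^ L))
    with hr0
  have hr0pos : 0 < r0 := by
    have : 0 < g - 1 := by linarith
    rw [hr0]; positivity
  have hr1 : r0 ≤ R / 4 := (min_le_left _ _).trans (min_le_left _ _)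
  have hr2 : r0 / (R / 2) ≤ g - 1 := by
    rw [div_le_iff₀ (by positivity), mul_comm]
    exact (min_le_left _ _).trans (min_le_right _ _)
  have hr3 : r0 / (R / 2) ≤ 1 / g ^ (5 * L) := by
    rw [div_le_iff₀ (by positivity), mul_comm]
    exact (min_le_right _ _).trans (min_le_left _ _)
  have hr4 : r0 ≤ 1 / 2 ^ L := (min_le_right _ _).trans (min_le_right _ _)
  have hr5 : r0 ≤ r0 / (R / 2) := by
    rw [le_div_iff₀ (by positivity)]; nlinarith
  have hJ : ∀ m, L * (m / L) ≤ m := fun m => Nat.mul_div_le m L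
  have hJ8 : ∀ m, 8 * (m / L) ≤ m := fun m =>
    (Nat.mul_le_mul_right _ (by omega : 8 ≤ L)).trans (hJ m)
  have S1 : Small fun m => (1 / 2 : ℝ) ^ (m / L) := by
    have hy : (1 : ℝ) < 2 ^ ((L : ℝ)⁻¹) := Real.one_lt_rpow one_lt_two (by positivity)
    refine (small_div_pow hy 0 hLpos).of_le (fun m => by positivity) fun m => le_of_eq ?_
    rw [zero_mul, pow_zero, zero_add, one_mul, pow_mul, Real.rpow_inv_natCast_pow (by norm_num)
      hLpos.ne', div_pow, one_pow]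
  have S2 : Small fun m => (1 + r0) ^ m * (s1 ^ (2 * (m / L)) / s1 ^ m) / R ^ (m / L) := by
    refine (small_inv_pow hg1).of_le (fun m => by positivity) fun m => ?_
    have h1 : (1 + r0) ^ m ≤ g ^ m := by gcongr; linarith
    have h2 : s1 ^ (2 * (m / L)) ≤ g ^ m := by
      rw [← hg4, ← pow_mul]; exact pow_le_pow_right₀ hg1.le (by have := hJ8 m; omega)
    have h3 : 1 / R ^ (m / L) ≤ g ^ m := by
      calc 1 / R ^ (m / L) = (1 / R) ^ (m / L) := by rw [div_pow, one_pow]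
        _ ≤ (g ^ L) ^ (m / L) := by gcongr
        _ ≤ g ^ m := by rw [← pow_mul]; exact pow_le_pow_right₀ hg1.le (hJ m)
    calc (1 + r0) ^ m * (s1 ^ (2 * (m / L)) / s1 ^ m) / R ^ (m / L)
        = (1 + r0) ^ m * (s1 ^ (2 * (m / L)) / s1 ^ m) * (1 / R ^ (m / L)) := by ring
      _ ≤ g ^ m * (g ^ m / s1 ^ m) * g ^ m := by gcongr
      _ = 1 / g ^ m := by rw [← hg4, ← pow_mul, mul_comm 4 m, pow_mul]; field_simp
  have S3 : Small fun m => (1 + r0 / (R / 2)) ^ m * (s1 ^ (2 * (m / L) + 2 * A') / s1 ^ m) := by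
    refine ((small_inv_pow hg1).const_mul (s1 ^ (2 * A'))).of_le (fun m => by positivity)
      fun m => ?_
    have h1 : (1 + r0 / (R / 2)) ^ m ≤ g ^ m := by gcongr; linarith
    have h2 : s1 ^ (2 * (m / L)) ≤ g ^ m * g ^ m := by
      rw [← hg4, ← pow_mul, ← pow_add]; exact pow_le_pow_right₀ hg1.le (by have := hJ8 m; omega)
    calc (1 + r0 / (R / 2)) ^ m * (s1 ^ (2 * (m / L) + 2 * A') / s1 ^ m)
        ≤ g ^ m * (g ^ m * g ^ m * s1 ^ (2 * A') / s1 ^ m) := by rw [pow_add]; gcongr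
      _ = s1 ^ (2 * A') * (1 / g ^ m) := by
        have : s1 ^ m = (g ^ m) ^ 4 := by rw [← hg4, ← pow_mul, mul_comm 4 m, pow_mul]
        rw [this]; field_simp
  have S4 : Small fun m => s1 ^ m * (r0 / (R / 2)) ^ (m / L) := by
    refine (small_div_pow hg1 4 hLpos).of_le (fun m => by positivity) fun m => ?_
    calc s1 ^ m * (r0 / (R / 2)) ^ (m / L) ≤ s1 ^ m * (1 / g ^ (5 * L)) ^ (m / L) := by gcongr
      _ = _ := by
        rw [← hg4, ← pow_mul, div_pow, one_pow, ← pow_mul, mul_one_div, mul_assoc]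
  have S5 : Small fun m => 2 ^ m * (r0 ^ 2) ^ (m / L) := by
    refine (small_div_pow one_lt_two 1 hLpos).of_le (fun m => by positivity) fun m => ?_
    calc 2 ^ m * (r0 ^ 2) ^ (m / L) ≤ 2 ^ m * ((1 / 2 ^ L) ^ 2) ^ (m / L) := by gcongr
      _ = _ := by
        rw [div_pow, div_pow, one_pow, one_pow, ← pow_mul, ← pow_mul, mul_one_div, one_mul]
        congr 2
        ring
  have S2' : Small fun m => ((m / L : ℕ) : ℝ) *
      ((1 + r0) ^ m * (s1 ^ (2 * (m / L)) / s1 ^ m) / R ^ (m / L)) := by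
    refine (S2.poly_mul 1).of_le (fun m => by positivity) fun m => ?_
    gcongr
    rw [pow_one]
    have : ((m / L : ℕ) : ℝ) ≤ m := by exact_mod_cast Nat.div_le_self m L
    linarith
  refine ⟨L, r0, by omega, hr0pos, hr1, S5, fun E F0 C CR P hC => ⟨?_, ?_⟩⟩
  · have h := (((((S1.const_mul (2 * (F0 + 1))).add (S2'.const_mul F0)).add
      (S3.const_mul CR)).poly_mul P).const_mul (E ^ 2 * C)).add (S4.const_mul (2 * E ^ 2))
    intro p
    refine (h p).congr fun m => ?_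
    simp only [etaF, ← hs1]
    ring
  · filter_upwards [S2'.tendsto.eventually (gt_mem_nhds zero_lt_one)] with m hm
    simp only [bigM, ← hs1]
    calc _ ≤ E ^ 2 * (C * ((m : ℝ) + 1) ^ P) * (2 + 1) := by gcongr
      _ = _ := by ring

end Pool.Agent.Lib.MP_8d6f76_pr
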