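import Pool.Agent.Lib.MP_8d6f76_pr.Sphere

open MeasureTheory Set Complex Polynomial
open scoped ENNReal ComplexConjugate Real

namespace Pool.Agent.Lib.MP_8d6f76_pr

/-- The weight `√(1 + |z|²)`. -/
noncomputable def sw (z : ℂ) : ℝ := √(1 + ‖z‖ ^ 2)

lemma sw_sq (z : ℂ) : sw z ^ 2 = 1 + ‖z‖ ^ 2 := Real.sq_sqrt (by positivity)

lemma one_le_sw (z : ℂ) : 1 ≤ sw z := by
  unfold sw; exact Real.one_le_sqrt.mpr (by nlinarith [sq_nonneg ‖z‖])

lemma sw_pos (z : ℂ) : 0 < sw z := lt_of_lt_of_le one_pos (one_le_sw z)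

lemma norm_le_sw (z : ℂ) : ‖z‖ ≤ sw z := by
  unfold sw; exact Real.le_sqrt_of_sq_le (by linarith)

lemma continuous_sw : Continuous sw := by unfold sw; fun_prop

lemma one_add_mul_le_sw (w z : ℂ) : 1 + ‖w‖ * ‖z‖ ≤ sw w * sw z := by
  have h1 := sw_pos w
  have h2 := sw_pos z
  refine (pow_le_pow_iff_left₀ (by positivity) (by positivity) two_ne_zero).mp ?_
  rw [mul_pow, sw_sq, sw_sq]
  nlinarith [sq_nonneg (‖w‖ - ‖z‖)]

lemma sw_mono {z : ℂ} {r : ℝ} (hr : 0 ≤ r) (h : ‖z‖ ≤ r) : sw z ≤ √(1 + r ^ 2) := by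
  unfold sw
  exact Real.sqrt_le_sqrt (by nlinarith [norm_nonneg z])

lemma le_sw {z : ℂ} {r : ℝ} (hr : 0 ≤ r) (h : r ≤ ‖z‖) : √(1 + r ^ 2) ≤ sw z := by
  unfold sw
  exact Real.sqrt_le_sqrt (by nlinarith)

lemma sw_mob {α β : ℂ} (h : ‖α‖ ^ 2 + ‖β‖ ^ 2 = 1) {ζ : ℂ} (hj : den α β ζ ≠ 0) :
    sw (mob α β ζ) = sw ζ / ‖den α β ζ‖ := by
  unfold sw
  rw [one_add_norm_sq_mob h hj, Real.sqrt_div (by positivity), Real.sqrt_sq (norm_nonneg _)]

/-- The section of degree `m` given by a polynomial. -/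
noncomputable def sec (m : ℕ) (p : ℂ[X]) (z : ℂ) : ℂ := p.eval z / ((sw z : ℝ) : ℂ) ^ m

lemma sw_ne_zero (z : ℂ) : ((sw z : ℝ) : ℂ) ≠ 0 := by exact_mod_cast (sw_pos z).ne'

lemma continuous_sec (m : ℕ) (p : ℂ[X]) : Continuous (sec m p) := by
  unfold sec
  refine Continuous.div p.continuous ((continuous_ofReal.comp continuous_sw).pow m) fun z => ?_
  exact pow_ne_zero _ (sw_ne_zero z)

lemma norm_sec (m : ℕ) (p : ℂ[X]) (z : ℂ) : ‖sec m p z‖ = ‖p.eval z‖ / sw z ^ m := by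
  rw [sec, norm_div, norm_pow, Complex.norm_real, Real.norm_of_nonneg (sw_pos z).le]

/-- The unimodular factor of the rotation. -/
noncomputable def chi (α β ζ : ℂ) : ℂ := (‖den α β ζ‖ : ℂ) / den α β ζ

lemma norm_chi {α β ζ : ℂ} (hj : den α β ζ ≠ 0) : ‖chi α β ζ‖ = 1 := by
  rw [chi, norm_div, Complex.norm_real, norm_norm, div_self (norm_ne_zero_iff.mpr hj)]

lemma chi_inv {α β : ℂ} (h : ‖α‖ ^ 2 + ‖β‖ ^ 2 = 1) {ζ : ℂ} (hj : den α β ζ ≠ 0) :
    chi (-α) (conj β) (mob α β ζ) * chi α β ζ = 1 := by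
  have : ((‖den α β ζ‖ : ℝ) : ℂ) ≠ 0 := by exact_mod_cast norm_ne_zero_iff.mpr hj
  rw [chi, chi, den_inv_mob h hj, norm_inv]
  push_cast
  field_simp

lemma rot_sec {α β : ℂ} (h : ‖α‖ ^ 2 + ‖β‖ ^ 2 = 1) {m : ℕ} {p : ℂ[X]} (hp : p.natDegree ≤ m) :
    ∃ p' : ℂ[X], p'.natDegree ≤ m ∧
      ∀ ζ, den α β ζ ≠ 0 → sec m p (mob α β ζ) = sec m p' ζ * chi α β ζ ^ m := by
  refine ⟨∑ j ∈ Finset.range (m + 1),
    C (p.coeff j) * (C (conj β) * X + C α) ^ j * (C (-conj α) * X + C β) ^ (m - j), ?_, ?_⟩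
  · refine natDegree_sum_le_of_forall_le _ _ fun j hj => ?_
    have hj' : j ≤ m := Nat.lt_succ_iff.mp (Finset.mem_range.mp hj)
    have h1 : (C (conj β) * X + C α : ℂ[X]).natDegree ≤ 1 := natDegree_linear_le
    have h2 : (C (-conj α) * X + C β : ℂ[X]).natDegree ≤ 1 := natDegree_linear_le
    calc _ ≤ (C (p.coeff j) * (C (conj β) * X + C α) ^ j).natDegree +
          ((C (-conj α) * X + C β) ^ (m - j)).natDegree := natDegree_mul_le
      _ ≤ j + (m - j) := by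
        refine add_le_add ((natDegree_C_mul_le _ _).trans ?_) ?_
        · exact natDegree_pow_le.trans (by nlinarith)
        · exact natDegree_pow_le.trans (by nlinarith)
      _ = m := by omega
  · intro ζ hζ
    have hn : ((‖den α β ζ‖ : ℝ) : ℂ) ≠ 0 := by exact_mod_cast norm_ne_zero_iff.mpr hζ
    have hs := sw_ne_zero ζ
    rw [sec, sec, sw_mob h hζ, eval_eq_sum_range' (Nat.lt_succ_of_le hp), eval_finsetSum, chi,
      Finset.sum_div, Finset.sum_div, Finset.sum_mul]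
    refine Finset.sum_congr rfl fun j hj => ?_
    have hj' : j ≤ m := Nat.lt_succ_iff.mp (Finset.mem_range.mp hj)
    obtain ⟨l, rfl⟩ := Nat.exists_eq_add_of_le hj'
    simp only [eval_mul, eval_C, eval_pow, eval_add, eval_X, Nat.add_sub_cancel_left]
    have e : -conj α * ζ + β = den α β ζ := rfl
    rw [e, mob]
    push_cast
    simp only [div_pow]
    field_simp
    ring

lemma le_of_off_subsingleton {g : ℂ → ℝ} (hg : Continuous g) {K : ℝ} {S : Set ℂ}
    (hS : S.Subsingleton) (h : ∀ z, z ∉ S → g z ≤ K) (z : ℂ) : g z ≤ K := by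
  have hd : Dense Sᶜ := hS.countable.dense_compl ℂ
  have hc : IsClosed {z | g z ≤ K} := isClosed_le hg continuous_const
  exact hc.closure_subset_iff.mpr (fun x hx => h x hx) (hd z)

/-- `Approx m f w ρ η M`: there is a section of size at most `M` which reproduces evaluation at `w`
for the form with symbol `f` up to `η`, and whose diagonal value is close to `ρ`. -/
def Approx (m : ℕ) (f : ℂ → ℂ) (w ρ : ℂ) (η M : ℝ) : Prop :=
  ∃ v : ℂ[X], v.natDegree ≤ m ∧ (∀ z, ‖sec m v z‖ ≤ M) ∧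
    (∀ u : ℂ[X], u.natDegree ≤ m → ∀ K : ℝ, (∀ z, ‖sec m u z‖ ≤ K) →
      ‖∫ z, sec m u z * conj (sec m v z) * f z ∂sig - sec m u w‖ ≤ η * K) ∧
    ‖conj (sec m v w) * f w - ρ‖ ≤ η * ‖f w‖

lemma Approx.mono {m : ℕ} {f : ℂ → ℂ} {w ρ : ℂ} {η M η' M' : ℝ} (h : Approx m f w ρ η M)
    (h1 : η ≤ η') (h2 : M ≤ M') : Approx m f w ρ η' M' := by
  obtain ⟨v, hv, hM, hu, hd⟩ := h
  refine ⟨v, hv, fun z => (hM z).trans h2, fun u hu' K hK => (hu u hu' K hK).trans ?_,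
    hd.trans (mul_le_mul_of_nonneg_right h1 (norm_nonneg _))⟩
  exact mul_le_mul_of_nonneg_right h1 ((norm_nonneg _).trans (hK 0))

lemma sec_C_mul (m : ℕ) (c : ℂ) (p : ℂ[X]) (z : ℂ) : sec m (C c * p) z = c * sec m p z := by
  simp [sec, mul_div_assoc]

lemma Approx.transfer {α β : ℂ} (h : ‖α‖ ^ 2 + ‖β‖ ^ 2 = 1) {m : ℕ} {f g : ℂ → ℂ}
    (hf : AEStronglyMeasurable f sig) (hg : ∀ ζ, den α β ζ ≠ 0 → g ζ = f (mob α β ζ))
    {ζ₀ ρ : ℂ} (h0 : den α β ζ₀ ≠ 0) {η M : ℝ} (ha : Approx m g ζ₀ ρ η M) :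
    Approx m f (mob α β ζ₀) ρ η M := by
  obtain ⟨v', hv', hM, hu, hd⟩ := ha
  obtain ⟨v, hv, hvv⟩ := rot_sec (unit_inv h) hv'
  have hv2 : ∀ ζ, den α β ζ ≠ 0 → sec m v (mob α β ζ) = sec m v' ζ * chi α β ζ ^ m := by
    intro ζ hζ
    have h1 : den (-α) (conj β) (mob α β ζ) ≠ 0 := by
      rw [den_inv_mob h hζ]; exact inv_ne_zero hζ
    have h2 := hvv _ h1
    rw [mob_inv_mob h hζ] at h2
    rw [h2, mul_assoc, ← mul_pow, chi_inv h hζ, one_pow, mul_one]
  have hc0 : ‖chi α β ζ₀ ^ m‖ = 1 := by rw [norm_pow, norm_chi h0, one_pow]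
  have hcc : ∀ ζ, den α β ζ ≠ 0 → chi α β ζ ^ m * conj (chi α β ζ ^ m) = 1 := by
    intro ζ hζ
    rw [Complex.mul_conj, Complex.normSq_eq_norm_sq, norm_pow, norm_chi hζ]; simp
  refine ⟨C (conj (chi α β ζ₀ ^ m)) * v, (natDegree_C_mul_le _ _).trans hv, fun z => ?_,
    fun u hu' K hK => ?_, ?_⟩
  · rw [sec_C_mul, norm_mul, Complex.norm_conj, hc0, one_mul]
    refine le_of_off_subsingleton (continuous_sec m v).norm (subsingleton_den (unit_inv h))
      (fun z hz => ?_) z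
    have h2 := hvv z hz
    have h3 := hM (mob (-α) (conj β) z)
    rwa [h2, norm_mul, norm_pow, norm_chi hz, one_pow, mul_one] at h3
  · obtain ⟨u', hu'', huu⟩ := rot_sec h hu'
    have hK' : ∀ z, ‖sec m u' z‖ ≤ K := by
      refine le_of_off_subsingleton (continuous_sec m u').norm (subsingleton_den h) fun z hz => ?_
      have h3 := hK (mob α β z)
      rwa [huu z hz, norm_mul, norm_pow, norm_chi hz, one_pow, mul_one] at h3
    have hmeas : AEStronglyMeasurable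
        (fun z => sec m u z * conj (sec m (C (conj (chi α β ζ₀ ^ m)) * v) z) * f z) sig :=
      (((continuous_sec m u).mul (continuous_conj.comp (continuous_sec m _))).aestronglyMeasurable).mul hf
    rw [← integral_comp_mp (measurePreserving_mob h) hmeas]
    have e : ∫ ζ, sec m u (mob α β ζ) * conj (sec m (C (conj (chi α β ζ₀ ^ m)) * v) (mob α β ζ)) *
        f (mob α β ζ) ∂sig = (∫ ζ, sec m u' ζ * conj (sec m v' ζ) * g ζ ∂sig) * chi α β ζ₀ ^ m := by
      rw [← integral_mul_const]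
      refine integral_congr_ae ?_
      filter_upwards [ae_sig_den_ne h] with ζ hζ
      rw [sec_C_mul, huu ζ hζ, hv2 ζ hζ, hg ζ hζ, map_mul, map_mul, conj_conj]
      linear_combination (sec m u' ζ * conj (sec m v' ζ) * f (mob α β ζ) * chi α β ζ₀ ^ m) * hcc ζ hζ
    rw [e, huu ζ₀ h0, ← sub_mul, norm_mul, hc0, mul_one]
    exact hu u' hu'' K hK'
  · rw [sec_C_mul, hv2 ζ₀ h0, ← hg ζ₀ h0, map_mul, map_mul, conj_conj]
    have e : chi α β ζ₀ ^ m * (conj (sec m v' ζ₀) * conj (chi α β ζ₀ ^ m)) = conj (sec m v' ζ₀) := by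
      linear_combination conj (sec m v' ζ₀) * hcc ζ₀ h0
    rw [e]
    exact hd

lemma setIntegral_monomial {S : Set ℂ} (hS : MeasurableSet S)
    (hrot : ∀ θ : ℝ, ∀ z, Complex.exp (θ * I) * z ∈ S ↔ z ∈ S) {ψ : ℂ → ℂ}
    (hψ : AEStronglyMeasurable ψ sig) (hψr : ∀ θ : ℝ, ∀ z, ψ (Complex.exp (θ * I) * z) = ψ z)
    {k j : ℕ} (hkj : k ≠ j) : ∫ z in S, z ^ k * conj z ^ j * ψ z ∂sig = 0 := by
  have hd : ((k : ℝ) - j) ≠ 0 := sub_ne_zero.mpr (by exact_mod_cast hkj)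
  set θ : ℝ := π / ((k : ℝ) - j) with hθ
  have hmeas : AEStronglyMeasurable (S.indicator fun z => z ^ k * conj z ^ j * ψ z) sig :=
    (((by fun_prop : Continuous fun z : ℂ => z ^ k * conj z ^ j).aestronglyMeasurable).mul
      hψ).indicator hS
  have h1 := integral_comp_mp (measurePreserving_rot θ) hmeas
  have hc : Complex.exp (θ * I) ^ k * conj (Complex.exp (θ * I)) ^ j = -1 := by
    rw [← Complex.exp_conj, ← Complex.exp_nat_mul, ← Complex.exp_nat_mul, ← Complex.exp_add,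
      ← Complex.exp_pi_mul_I]
    congr 1
    have : (θ : ℂ) * ((k : ℂ) - j) = π := by
      have : θ * ((k : ℝ) - j) = π := by rw [hθ]; field_simp
      exact_mod_cast this
    simp only [map_mul, conj_ofReal, conj_I]
    linear_combination I * this
  have e : (fun z => S.indicator (fun z => z ^ k * conj z ^ j * ψ z) (Complex.exp (θ * I) * z)) =
      fun z => -S.indicator (fun z => z ^ k * conj z ^ j * ψ z) z := by
    funext z
    by_cases hz : z ∈ S
    · rw [indicator_of_mem hz, indicator_of_mem ((hrot θ z).mpr hz), hψr, map_mul, mul_pow, mul_pow]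
      linear_combination (z ^ k * conj z ^ j * ψ z) * hc
    · rw [indicator_of_notMem hz, indicator_of_notMem (fun h => hz ((hrot θ z).mp h)), neg_zero]
  rw [e, integral_neg, integral_indicator hS] at h1
  linear_combination (-1 / 2 : ℂ) * h1

/-- Taylor coefficients at the origin. -/
noncomputable def tc (F : ℂ → ℂ) (j : ℕ) : ℂ := ((j.factorial : ℂ))⁻¹ * iteratedDeriv j F 0

lemma norm_tc_le {F : ℂ → ℂ} {R ρ M : ℝ} (hF : DifferentiableOn ℂ F (Metric.closedBall 0 R))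
    (hρ : 0 < ρ) (hρR : ρ ≤ R) (hM : ∀ z : ℂ, ‖z‖ = ρ → ‖F z‖ ≤ M) (j : ℕ) :
    ‖tc F j‖ ≤ M / ρ ^ j := by
  have hd : DiffContOnCl ℂ F (Metric.ball 0 ρ) := by
    refine DifferentiableOn.diffContOnCl ?_
    rw [closure_ball _ hρ.ne']
    exact hF.mono (Metric.closedBall_subset_closedBall hρR)
  have h := Complex.norm_iteratedDeriv_le_of_forall_mem_sphere_norm_le j hρ hd
    (C := M) (fun z hz => hM z (by simpa using hz))
  have hj : (0 : ℝ) < j.factorial := by exact_mod_cast j.factorial_pos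
  rw [tc, norm_mul, norm_inv, Complex.norm_natCast, inv_mul_le_iff₀ hj, ← mul_div_assoc]
  exact h

lemma hasSum_tc {F : ℂ → ℂ} {R : ℝ} (hF : DifferentiableOn ℂ F (Metric.closedBall 0 R))
    {z : ℂ} (hz : ‖z‖ < R) : HasSum (fun j => tc F j * z ^ j) (F z) := by
  have h := Complex.hasSum_taylorSeries_on_ball (hF.mono Metric.ball_subset_closedBall)
    (z := z) (by simpa using hz)
  have e : (fun j => tc F j * z ^ j) =
      fun n : ℕ => ((n.factorial : ℂ))⁻¹ • (z - 0) ^ n • iteratedDeriv n F 0 := by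
    funext j
    simp only [tc, sub_zero, smul_eq_mul]
    ring
  rw [e]
  exact h

lemma norm_sub_taylor_le {F : ℂ → ℂ} {R ρ M x : ℝ}
    (hF : DifferentiableOn ℂ F (Metric.closedBall 0 R)) (hρ : 0 < ρ) (hρR : ρ ≤ R)
    (hM : ∀ z : ℂ, ‖z‖ = ρ → ‖F z‖ ≤ M) {z : ℂ} (hx : x ≤ 1 / 2) (hz : ‖z‖ ≤ x * ρ) (J : ℕ) :
    ‖F z - ∑ j ∈ Finset.range J, tc F j * z ^ j‖ ≤ 2 * M * x ^ J := by
  have hx0 : 0 ≤ x := by
    by_contra hneg
    have : x * ρ < 0 := mul_neg_of_neg_of_pos (lt_of_not_ge hneg) hρ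
    linarith [norm_nonneg z]
  have hM0 : 0 ≤ M := (norm_nonneg _).trans (hM (ρ : ℂ) (by simp [hρ.le]))
  have hzR : ‖z‖ < R := by nlinarith
  have h1 := (hasSum_nat_add_iff' J).mpr (hasSum_tc hF hzR)
  have h2 : HasSum (fun j : ℕ => M * x ^ J * (1 / 2 : ℝ) ^ j) (M * x ^ J * 2) :=
    hasSum_geometric_two.mul_left _
  have h3 := h1.norm_le_of_bounded h2 fun j => by
    rw [norm_mul, norm_pow]
    calc ‖tc F (j + J)‖ * ‖z‖ ^ (j + J) ≤ M / ρ ^ (j + J) * (x * ρ) ^ (j + J) := by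
          gcongr
          exact norm_tc_le hF hρ hρR hM _
      _ = M * x ^ J * x ^ j := by rw [mul_pow]; field_simp; ring
      _ ≤ M * x ^ J * (1 / 2) ^ j := by gcongr
  linarith

lemma rot_mem_ball (r θ : ℝ) (z : ℂ) :
    Complex.exp (θ * I) * z ∈ Metric.ball (0 : ℂ) r ↔ z ∈ Metric.ball (0 : ℂ) r := by
  simp [Complex.norm_exp_ofReal_mul_I]

lemma setIntegral_holo {F : ℂ → ℂ} {R r : ℝ} (hF : DifferentiableOn ℂ F (Metric.closedBall 0 R))
    (hr : 0 < r) (hrR : r < R) {ψ : ℂ → ℂ} (hψ : AEStronglyMeasurable ψ sig)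
    (hψi : IntegrableOn ψ (Metric.ball 0 r) sig)
    (hψr : ∀ θ : ℝ, ∀ z, ψ (Complex.exp (θ * I) * z) = ψ z) (j : ℕ) :
    ∫ z in Metric.ball (0 : ℂ) r, F z * conj z ^ j * ψ z ∂sig =
      tc F j * ∫ z in Metric.ball (0 : ℂ) r, z ^ j * conj z ^ j * ψ z ∂sig := by
  have hR : 0 < R := hr.trans hrR
  obtain ⟨M, hM⟩ := (isCompact_closedBall (0 : ℂ) R).exists_bound_of_continuousOn hF.continuousOn
  have hM' : ∀ z : ℂ, ‖z‖ = R → ‖F z‖ ≤ M := fun z hz => hM z (by simp [hz])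
  have hM0 : 0 ≤ M := (norm_nonneg _).trans (hM 0 (by simp [hR.le]))
  have hsum : Summable fun k : ℕ => (r / R) ^ k :=
    summable_geometric_of_lt_one (by positivity) ((div_lt_one hR).mpr hrR)
  have key := hasSum_integral_of_dominated_convergence
    (μ := sig.restrict (Metric.ball (0 : ℂ) r))
    (F := fun (k : ℕ) z => tc F k * (z ^ k * conj z ^ j * ψ z))
    (f := fun z => F z * conj z ^ j * ψ z)
    (fun (k : ℕ) z => (r / R) ^ k * (M * r ^ j * ‖ψ z‖))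
    (fun k => (((by fun_prop : Continuous fun z : ℂ => z ^ k * conj z ^ j).aestronglyMeasurable).mul
      hψ.restrict).const_mul _)
    (fun k => ?_) (Filter.Eventually.of_forall fun z => hsum.mul_right _) ?_ ?_
  · have h2 : HasSum (fun k : ℕ => ∫ z in Metric.ball (0 : ℂ) r,
        tc F k * (z ^ k * conj z ^ j * ψ z) ∂sig)
        (tc F j * ∫ z in Metric.ball (0 : ℂ) r, z ^ j * conj z ^ j * ψ z ∂sig) := by
      rw [← integral_const_mul]
      refine hasSum_single j fun k hk => ?_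
      rw [integral_const_mul, setIntegral_monomial measurableSet_ball (rot_mem_ball r) hψ hψr hk,
        mul_zero]
    exact key.unique h2
  · filter_upwards [ae_restrict_mem measurableSet_ball] with z hz
    have hz' : ‖z‖ ≤ r := by simpa using (mem_ball_zero_iff.mp hz).le
    simp only [norm_mul, norm_pow, Complex.norm_conj]
    calc ‖tc F k‖ * (‖z‖ ^ k * ‖z‖ ^ j * ‖ψ z‖) ≤ M / R ^ k * (r ^ k * r ^ j * ‖ψ z‖) := by
          gcongr
          exact norm_tc_le hF hR le_rfl hM' k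
      _ = _ := by rw [div_pow]; ring
  · simp_rw [tsum_mul_right]
    exact (hψi.norm.const_mul _).const_mul _
  · filter_upwards [ae_restrict_mem measurableSet_ball] with z hz
    have hz' : ‖z‖ < R := (mem_ball_zero_iff.mp hz).trans hrR
    have h3 := (hasSum_tc hF hz').mul_right (conj z ^ j * ψ z)
    simp only [mul_assoc] at h3 ⊢
    exact h3

end Pool.Agent.Lib.MP_8d6f76_pr
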