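import Pool.Agent.Lib.MP_8d6f76_pr.Defs

open MeasureTheory Set Complex
open scoped ENNReal ComplexConjugate Real

namespace Pool.Agent.Lib.MP_8d6f76_pr

/-- The uniform probability measure of the sphere, in the plane chart. -/
noncomputable def sig : Measure ℂ :=
  (volume : Measure ℂ).withDensity fun z => ENNReal.ofReal (1 / (π * (1 + ‖z‖ ^ 2) ^ 2))

/-- Squared half chordal distance to the origin. -/
noncomputable def UU (z : ℂ) : ℝ := ‖z‖ ^ 2 / (1 + ‖z‖ ^ 2)

lemma measurable_sigDens : Measurable fun z : ℂ => ENNReal.ofReal (1 / (π * (1 + ‖z‖ ^ 2) ^ 2)) := by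
  fun_prop

lemma continuous_UU : Continuous UU := by
  unfold UU
  refine Continuous.div (by fun_prop) (by fun_prop) fun z => ?_
  positivity

lemma UU_nonneg (z : ℂ) : 0 ≤ UU z := by unfold UU; positivity

lemma UU_lt_one (z : ℂ) : UU z < 1 := by
  unfold UU; rw [div_lt_one (by positivity)]; linarith

lemma UU_pos {z : ℂ} (hz : z ≠ 0) : 0 < UU z := by
  unfold UU; have := norm_pos_iff.mpr hz; positivity

lemma one_sub_UU (z : ℂ) : 1 - UU z = (1 + ‖z‖ ^ 2)⁻¹ := by
  unfold UU; field_simp; ring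

lemma sig_ac : sig ≪ (volume : Measure ℂ) := withDensity_absolutelyContinuous _ _

instance : NullSingletonClass sig := ⟨fun x => sig_ac (measure_singleton x)⟩

lemma integral_sig (g : ℂ → ℝ) :
    ∫ z, g z ∂sig = ∫ z : ℂ, (1 / (π * (1 + ‖z‖ ^ 2) ^ 2)) * g z := by
  unfold sig
  rw [integral_withDensity_eq_integral_toReal_smul measurable_sigDens (by simp)]
  refine integral_congr_ae (Filter.Eventually.of_forall fun z => ?_)
  have : 0 ≤ 1 / (π * (1 + ‖z‖ ^ 2) ^ 2) := by positivity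
  simp only [ENNReal.toReal_ofReal this, smul_eq_mul]

lemma image_Ioi_UU : (fun y : ℝ => y ^ 2 / (1 + y ^ 2)) '' Ioi 0 = Ioo 0 1 := by
  ext u
  constructor
  · rintro ⟨y, hy, rfl⟩
    have hy' : (0 : ℝ) < y := hy
    refine ⟨by positivity, ?_⟩
    rw [div_lt_one (by positivity)]; linarith
  · rintro ⟨h0, h1⟩
    have h2 : 0 < 1 - u := by linarith
    refine ⟨√(u / (1 - u)), Real.sqrt_pos.mpr (by positivity), ?_⟩
    simp only
    rw [Real.sq_sqrt (by positivity)]
    field_simp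
    ring

lemma integral_UU (g : ℝ → ℝ) : ∫ z, g (UU z) ∂sig = ∫ u in Ioo (0 : ℝ) 1, g u := by
  rw [integral_sig]
  have h1 := integral_fun_norm_addHaar (volume : Measure ℂ)
    (fun y : ℝ => (1 / (π * (1 + y ^ 2) ^ 2)) * g (y ^ 2 / (1 + y ^ 2)))
  have h2 : ∫ u in Ioo (0 : ℝ) 1, g u =
      ∫ y in Ioi (0 : ℝ), |2 * y / (1 + y ^ 2) ^ 2| • g (y ^ 2 / (1 + y ^ 2)) := by
    rw [← image_Ioi_UU]
    refine integral_image_eq_integral_abs_deriv_smul measurableSet_Ioi (fun y _ => ?_) ?_ g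
    · have : HasDerivAt (fun y : ℝ => y ^ 2 / (1 + y ^ 2))
          ((2 * y * (1 + y ^ 2) - y ^ 2 * (2 * y)) / (1 + y ^ 2) ^ 2) y := by
        have h1 : HasDerivAt (fun y : ℝ => y ^ 2) (2 * y) y := by
          simpa using hasDerivAt_pow 2 y
        exact h1.div (h1.const_add 1) (by positivity)
      have e : 2 * y / (1 + y ^ 2) ^ 2 =
          (2 * y * (1 + y ^ 2) - y ^ 2 * (2 * y)) / (1 + y ^ 2) ^ 2 := by ring
      rw [e]
      exact this.hasDerivWithinAt
    · intro x hx y hy hxy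
      have hx' : (0 : ℝ) < x := hx
      have hy' : (0 : ℝ) < y := hy
      simp only at hxy
      rw [div_eq_div_iff (by positivity) (by positivity)] at hxy
      have : x ^ 2 = y ^ 2 := by linarith
      exact (pow_left_inj₀ hx'.le hy'.le two_ne_zero).mp this
  unfold UU
  rw [h1, h2]
  simp only [finrank_real_complex, Measure.real, Complex.volume_ball, ENNReal.ofReal_one, one_pow,
    one_mul, ENNReal.coe_toReal, NNReal.coe_real_pi, smul_eq_mul, nsmul_eq_mul]
  rw [← integral_const_mul, ← integral_const_mul]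
  refine setIntegral_congr_fun measurableSet_Ioi fun y hy => ?_
  have hy' : (0 : ℝ) < y := hy
  have : |2 * y / (1 + y ^ 2) ^ 2| = 2 * y / (1 + y ^ 2) ^ 2 := abs_of_pos (by positivity)
  simp only [this]
  have hpi := Real.pi_pos
  field_simp
  norm_num
  ring

lemma sig_univ : sig univ = 1 := by
  have h := integral_UU (fun _ => 1)
  simp only [integral_const, smul_eq_mul, mul_one, MeasurableSet.univ, measureReal_restrict_apply,
    univ_inter, Real.volume_real_Ioo, sub_zero] at h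
  rw [max_eq_left zero_le_one] at h
  exact (ENNReal.toReal_eq_one_iff _).mp h

instance : IsProbabilityMeasure sig := ⟨sig_univ⟩

lemma measurePreserving_UU : MeasurePreserving UU sig (volume.restrict (Ioo (0 : ℝ) 1)) := by
  refine ⟨continuous_UU.measurable, ?_⟩
  ext S hS
  rw [Measure.map_apply continuous_UU.measurable hS]
  have h := integral_UU (S.indicator 1)
  have e : (fun z => S.indicator (1 : ℝ → ℝ) (UU z)) = (UU ⁻¹' S).indicator 1 := by
    funext z; by_cases hz : UU z ∈ S <;> simp [Set.indicator, hz]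
  rw [e, integral_indicator_one (continuous_UU.measurable hS), integral_indicator_one hS] at h
  exact (ENNReal.toReal_eq_toReal_iff' (measure_ne_top _ _) (measure_ne_top _ _)).mp h

/-- Denominator of the rotation attached to a unit vector. -/
noncomputable def den (α β ζ : ℂ) : ℂ := -conj α * ζ + β

/-- The rotation of the sphere attached to a unit vector `(α, β)`; it sends `0` to `α / β`. -/
noncomputable def mob (α β ζ : ℂ) : ℂ := (conj β * ζ + α) / den α β ζ

lemma continuous_den (α β : ℂ) : Continuous (den α β) := by unfold den; fun_prop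

lemma norm_sq_mob_add {α β : ℂ} (h : ‖α‖ ^ 2 + ‖β‖ ^ 2 = 1) (ζ : ℂ) :
    ‖conj β * ζ + α‖ ^ 2 + ‖den α β ζ‖ ^ 2 = 1 + ‖ζ‖ ^ 2 := by
  simp only [den, ← Complex.normSq_eq_norm_sq, Complex.normSq_apply] at h ⊢
  simp only [add_re, mul_re, conj_re, conj_im, add_im, mul_im, neg_re, neg_im]
  linear_combination (1 + (ζ.re * ζ.re + ζ.im * ζ.im)) * h

lemma one_add_norm_sq_mob {α β : ℂ} (h : ‖α‖ ^ 2 + ‖β‖ ^ 2 = 1) {ζ : ℂ}
    (hj : den α β ζ ≠ 0) :
    1 + ‖mob α β ζ‖ ^ 2 = (1 + ‖ζ‖ ^ 2) / ‖den α β ζ‖ ^ 2 := by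
  have := norm_pos_iff.mpr hj
  rw [mob, norm_div, div_pow, ← norm_sq_mob_add h ζ]
  field_simp
  ring

lemma unit_mul_conj {α β : ℂ} (h : ‖α‖ ^ 2 + ‖β‖ ^ 2 = 1) : α * conj α + β * conj β = 1 := by
  rw [Complex.mul_conj, Complex.mul_conj, Complex.normSq_eq_norm_sq, Complex.normSq_eq_norm_sq]
  exact_mod_cast h

lemma den_inv_mob {α β : ℂ} (h : ‖α‖ ^ 2 + ‖β‖ ^ 2 = 1) {ζ : ℂ} (hj : den α β ζ ≠ 0) :
    den (-α) (conj β) (mob α β ζ) = (den α β ζ)⁻¹ := by
  have h' := unit_mul_conj h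
  rw [den, mob, map_neg]
  field_simp
  rw [den]
  linear_combination h'

lemma mob_inv_mob {α β : ℂ} (h : ‖α‖ ^ 2 + ‖β‖ ^ 2 = 1) {ζ : ℂ} (hj : den α β ζ ≠ 0) :
    mob (-α) (conj β) (mob α β ζ) = ζ := by
  have h' := unit_mul_conj h
  have h2 := den_inv_mob h hj
  rw [mob, h2, conj_conj, mob]
  field_simp
  rw [den]
  linear_combination ζ * h'

lemma unit_inv {α β : ℂ} (h : ‖α‖ ^ 2 + ‖β‖ ^ 2 = 1) : ‖-α‖ ^ 2 + ‖conj β‖ ^ 2 = 1 := by
  simpa using h

lemma subsingleton_den {α β : ℂ} (h : ‖α‖ ^ 2 + ‖β‖ ^ 2 = 1) :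
    {ζ : ℂ | den α β ζ = 0}.Subsingleton := by
  intro x hx y hy
  have hx' : -conj α * x + β = 0 := hx
  have hy' : -conj α * y + β = 0 := hy
  by_cases ha : α = 0
  · subst ha
    simp only [map_zero, neg_zero, zero_mul, zero_add] at hx'
    subst hx'
    simp at h
  · have : conj α ≠ 0 := by simpa using ha
    have h3 : conj α * (x - y) = 0 := by linear_combination hy' - hx'
    exact sub_eq_zero.mp ((mul_eq_zero.mp h3).resolve_left this)

lemma ae_den_ne {α β : ℂ} (h : ‖α‖ ^ 2 + ‖β‖ ^ 2 = 1) :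
    ∀ᵐ ζ ∂(volume : Measure ℂ), den α β ζ ≠ 0 := by
  rw [ae_iff]
  simpa using (subsingleton_den h).measure_zero volume

lemma ae_sig_den_ne {α β : ℂ} (h : ‖α‖ ^ 2 + ‖β‖ ^ 2 = 1) :
    ∀ᵐ ζ ∂sig, den α β ζ ≠ 0 := sig_ac.ae_le (ae_den_ne h)

lemma measurable_mob (α β : ℂ) : Measurable (mob α β) := by
  unfold mob den; fun_prop

lemma hasDerivAt_mob {α β : ℂ} (h : ‖α‖ ^ 2 + ‖β‖ ^ 2 = 1) {ζ : ℂ} (hj : den α β ζ ≠ 0) :
    HasDerivAt (mob α β) ((den α β ζ ^ 2)⁻¹) ζ := by
  have h' := unit_mul_conj h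
  have h1 : HasDerivAt (fun ζ : ℂ => conj β * ζ + α) (conj β) ζ := by
    simpa using ((hasDerivAt_id ζ).const_mul (conj β)).add_const α
  have h2 : HasDerivAt (den α β) (-conj α) ζ := by
    unfold den
    simpa using ((hasDerivAt_id ζ).const_mul (-conj α)).add_const β
  have e : (den α β ζ ^ 2)⁻¹ =
      (conj β * den α β ζ - (conj β * ζ + α) * (-conj α)) / den α β ζ ^ 2 := by
    field_simp
    rw [den]
    linear_combination -h'
  rw [e]
  exact h1.div h2 hj

lemma det_mul_real (c : ℂ) :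
    ((ContinuousLinearMap.toSpanSingleton ℂ c).restrictScalars ℝ).det = ‖c‖ ^ 2 := by
  simp [ContinuousLinearMap.det, LinearMap.det_restrictScalars, Algebra.norm_complex_eq,
    Complex.normSq_eq_norm_sq]

lemma measurePreserving_mob {α β : ℂ} (h : ‖α‖ ^ 2 + ‖β‖ ^ 2 = 1) :
    MeasurePreserving (mob α β) sig sig := by
  refine ⟨measurable_mob α β, ?_⟩
  ext T hT
  rw [Measure.map_apply (measurable_mob α β) hT]
  set S : Set ℂ := {ζ | den α β ζ ≠ 0} with hS
  have hSm : MeasurableSet S :=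
    (isOpen_ne_fun (continuous_den α β) continuous_const).measurableSet
  have hinj : InjOn (mob α β) S := fun x hx y hy hxy => by
    rw [← mob_inv_mob h hx, hxy, mob_inv_mob h hy]
  have key := lintegral_image_eq_lintegral_abs_det_fderiv_mul (volume : Measure ℂ) hSm
    (f := mob α β)
    (f' := fun ζ => (ContinuousLinearMap.toSpanSingleton ℂ ((den α β ζ ^ 2)⁻¹)).restrictScalars ℝ)
    (fun ζ hζ => ((hasDerivAt_mob h hζ).hasFDerivAt.restrictScalars ℝ).hasFDerivWithinAt) hinj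
    (T.indicator fun z => ENNReal.ofReal (1 / (π * (1 + ‖z‖ ^ 2) ^ 2)))
  have hS1 : (volume : Measure ℂ).restrict S = volume :=
    Measure.restrict_eq_self_of_ae_mem (ae_den_ne h)
  have hS2 : (volume : Measure ℂ).restrict (mob α β '' S) = volume := by
    refine Measure.restrict_eq_self_of_ae_mem ?_
    filter_upwards [ae_den_ne (unit_inv h)] with z hz
    have h1 := mob_inv_mob (unit_inv h) hz
    have h2 := den_inv_mob (unit_inv h) hz
    rw [neg_neg, conj_conj] at h1 h2
    refine ⟨_, ?_, h1⟩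
    show den α β _ ≠ 0
    rw [h2]; exact inv_ne_zero hz
  rw [hS1, hS2, lintegral_indicator hT] at key
  rw [sig, withDensity_apply _ hT, withDensity_apply _ (measurable_mob α β hT), key,
    ← lintegral_indicator (measurable_mob α β hT)]
  refine lintegral_congr_ae ?_
  filter_upwards [ae_den_ne h] with ζ hζ
  by_cases hz : mob α β ζ ∈ T
  · rw [indicator_of_mem hz, indicator_of_mem (show ζ ∈ mob α β ⁻¹' T from hz), det_mul_real,
      ← ENNReal.ofReal_mul (abs_nonneg _), one_add_norm_sq_mob h hζ]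
    congr 1
    have := norm_pos_iff.mpr hζ
    have hpi := Real.pi_pos
    rw [abs_of_nonneg (by positivity), norm_inv, norm_pow]
    field_simp
  · rw [indicator_of_notMem hz, indicator_of_notMem (show ζ ∉ mob α β ⁻¹' T from hz), mul_zero]

lemma measurePreserving_rot (θ : ℝ) :
    MeasurePreserving (fun z : ℂ => Complex.exp (θ * I) * z) sig sig := by
  have h : ‖(0 : ℂ)‖ ^ 2 + ‖Complex.exp (((-θ / 2 : ℝ) : ℂ) * I)‖ ^ 2 = 1 := by
    rw [Complex.norm_exp_ofReal_mul_I]; simp
  have e : mob 0 (Complex.exp (((-θ / 2 : ℝ) : ℂ) * I)) = fun z : ℂ => Complex.exp (θ * I) * z := by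
    funext z
    simp only [mob, den, map_zero, neg_zero, zero_mul, zero_add, add_zero, ← Complex.exp_conj,
      map_mul, conj_ofReal, conj_I]
    rw [div_eq_iff (Complex.exp_ne_zero _), mul_right_comm, ← Complex.exp_add]
    congr 2
    push_cast
    ring
  rw [← e]
  exact measurePreserving_mob h

lemma integral_comp_mp {E : Type*} [NormedAddCommGroup E] [NormedSpace ℝ E] {φ : ℂ → ℂ}
    (hφ : MeasurePreserving φ sig sig) {F : ℂ → E} (hF : AEStronglyMeasurable F sig) :
    ∫ z, F (φ z) ∂sig = ∫ z, F z ∂sig := by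
  have h1 : AEStronglyMeasurable F (Measure.map φ sig) := by rw [hφ.map_eq]; exact hF
  rw [← integral_map hφ.measurable.aemeasurable h1, hφ.map_eq]

lemma integral_comp_UU {E : Type*} [NormedAddCommGroup E] [NormedSpace ℝ E] {F : ℝ → E}
    (hF : AEStronglyMeasurable F (volume.restrict (Ioo (0 : ℝ) 1))) :
    ∫ z, F (UU z) ∂sig = ∫ u in Ioo (0 : ℝ) 1, F u := by
  have h1 : AEStronglyMeasurable F (Measure.map UU sig) := by
    rw [measurePreserving_UU.map_eq]; exact hF
  rw [← integral_map measurePreserving_UU.measurable.aemeasurable h1, measurePreserving_UU.map_eq]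

end Pool.Agent.Lib.MP_8d6f76_pr
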