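import Pool.Agent.Lib.MP_8d6f76_pr.XPar

open MeasureTheory Set Complex Filter Topology
open scoped ENNReal ComplexConjugate Real Matrix

namespace Pool.Agent.Lib.MP_8d6f76_pr

variable {ι : Type*} [Fintype ι] [DecidableEq ι]

/-- The closed form of the logarithmic derivative. -/
noncomputable def exT (α β γ : ι → ℂ) (m : ℕ) (t : ℝ) : ℂ :=
  ((m : ℂ) + 1 + ∑ j, t * γ j / 2) * (-(∑ i, γ i) / 2) -
    ∑ i, capV m (t * γ i / 2) (∑ j ∈ {i}ᶜ, t * γ j / 2) (γ i / 2) (∑ j ∈ {i}ᶜ, γ j / 2)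
      (∑ j ∈ {i}ᶜ, γ j * (Real.log ‖α j * β i - β j * α i‖ : ℝ))

lemma kap_unif {γ : ι → ℂ} (hγ : ∀ i, -2 < (γ i).re) :
    ∃ P : ℕ, ∀ᶠ m : ℕ in atTop, ∀ t ∈ Icc (0 : ℝ) 1,
      (∀ i, ‖kap m (t * γ i / 2) (∑ j ∈ {i}ᶜ, t * γ j / 2) 0‖ ≤ ((m : ℝ) + 1) ^ P) ∧
      ‖kap m 0 (∑ j, t * γ j / 2) 0‖ ≤ ((m : ℝ) + 1) ^ P := by
  obtain ⟨P, hP⟩ := exists_nat_ge (∑ i, ‖γ i‖ + 2)
  have hΓ0 : 0 ≤ ∑ i, ‖γ i‖ := Finset.sum_nonneg fun i _ => norm_nonneg _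
  refine ⟨P + 1, uniform_of_local fun t0 ht0 => ?_⟩
  have hm : Tendsto (fun x : ℕ × ℝ => x.1)
      ((atTop ×ˢ 𝓝 t0) ⊓ 𝓟 {x : ℕ × ℝ | x.2 ∈ Icc (0 : ℝ) 1}) atTop :=
    tendsto_fst.mono_left inf_le_left
  have ht : Tendsto (fun x : ℕ × ℝ => x.2)
      ((atTop ×ˢ 𝓝 t0) ⊓ 𝓟 {x : ℕ × ℝ | x.2 ∈ Icc (0 : ℝ) 1}) (𝓝 t0) :=
    tendsto_snd.mono_left inf_le_left
  have htc := (continuous_ofReal.tendsto _).comp ht
  have ha := fun i => (htc.mul_const (γ i)).div_const 2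
  have hb := fun T : Finset ι => tendsto_finsetSum T fun j _ => ha j
  have ha0 : ∀ i, -1 < ((t0 : ℂ) * γ i / 2).re := fun i => by
    rw [div_ofNat_re, re_ofReal_mul]
    rcases le_total 0 (γ i).re with h | h
    · nlinarith [mul_nonneg ht0.1 h]
    · nlinarith [hγ i, mul_nonneg_of_nonpos_of_nonpos h (sub_nonpos.mpr ht0.2)]
  have ha1 : ∀ i, ((t0 : ℂ) * γ i / 2).re + 2 ≤ P := fun i => by
    have h1 : ‖γ i‖ ≤ ∑ i, ‖γ i‖ :=
      Finset.single_le_sum (f := fun i => ‖γ i‖) (fun i _ => norm_nonneg _) (Finset.mem_univ i)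
    have h2 := (abs_le.mp (abs_re_le_norm (γ i))).2
    rw [div_ofNat_re, re_ofReal_mul]
    nlinarith [norm_nonneg (γ i), ht0.1, ht0.2]
  exact (eventually_all.mpr fun i => eventually_kap_pow hm (ha i) (hb {i}ᶜ) (ha0 i) (ha1 i)).and
    (eventually_kap_pow hm (tendsto_const_nhds (x := (0 : ℂ))) (hb Finset.univ) (by simp)
      (by simp only [zero_re]; linarith))

theorem main_exact {γ : ι → ℂ} (hγ : ∀ i, -2 < (γ i).re) {d : ℝ} (hd : 0 < d) (hd1 : d ≤ 1) :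
    ∃ ε : ℕ → ℝ, ESm ε ∧ ∀ᶠ m : ℕ in atTop, ∀ t ∈ Icc (0 : ℝ) 1, ∀ α β : ι → ℂ,
      (∀ i, ‖α i‖ ^ 2 + ‖β i‖ ^ 2 = 1) → (∀ i j, i ≠ j → d ≤ ‖α i * β j - β i * α j‖) →
      DD α β γ m t ≠ 0 ∧ ‖LL α β γ m t - exT α β γ m t‖ ≤ ε m := by
  obtain ⟨σ, hσ0, hσ2, hσ⟩ := exists_sigma hγ
  set Γ : ℝ := ∑ i, ‖γ i‖ with hΓ
  have hΓ0 : 0 ≤ Γ := Finset.sum_nonneg fun i _ => norm_nonneg _
  obtain ⟨A', hA'⟩ := exists_nat_ge Γ
  set ε : ℝ := (2 - σ) / 2 with hε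
  have hε0 : 0 < ε := by rw [hε]; linarith
  have hWn : ∀ s : ℝ, 0 ≤ domB (Fintype.card ι) d s := fun s => by
    have : 0 ≤ ∫ u in Ioo (0 : ℝ) 1, u ^ (-s / 2) :=
      setIntegral_nonneg measurableSet_Ioo fun u hu => Real.rpow_nonneg hu.1.le _
    unfold domB; positivity
  set F0 : ℝ := domB (Fintype.card ι) d σ with hF0
  have hF00 : 0 ≤ F0 := hWn _
  set F1 : ℝ := Γ / ε * domB (Fintype.card ι) d (σ + ε) with hF1
  have hre : ∀ s ∈ Icc (0 : ℝ) 1, ∀ i, -σ ≤ ((s : ℂ) * γ i).re := by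
    intro s hs i
    rw [re_ofReal_mul]
    nlinarith [hσ i, hs.1, hs.2]
  have hre2 : ∀ s ∈ Icc (0 : ℝ) 1, ∀ i, -σ / 2 ≤ ((s : ℂ) * γ i / 2).re := by
    intro s hs i
    rw [div_ofNat_re]
    linarith [hre s hs i]
  have hsum : ∀ s ∈ Icc (0 : ℝ) 1, ∑ i, ‖(s : ℂ) * γ i‖ ≤ Γ := by
    intro s hs
    refine Finset.sum_le_sum fun i _ => ?_
    rw [norm_mul, Complex.norm_real, Real.norm_of_nonneg hs.1]
    exact mul_le_of_le_one_left (norm_nonneg _) hs.2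
  obtain ⟨L1, r, hL1, hr, hrR, S5, hP1⟩ :=
    exists_paramsE (R := d / 2) (by positivity) (by linarith) A'
  set u0 : ℝ := r ^ 2 / (1 + r ^ 2) with hu0
  have hu0pos : 0 < u0 := by positivity
  have hu0r : u0 ≤ r ^ 2 := by
    rw [hu0, div_le_iff₀ (by positivity)]; nlinarith [sq_nonneg (r ^ 2)]
  have hu0h : u0 ≤ 1 / 2 := by nlinarith
  have hd2 : 0 < √u0 := Real.sqrt_pos.mpr hu0pos
  have hd21 : √u0 ≤ 1 := Real.sqrt_le_one.mpr (by linarith)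
  obtain ⟨L2, r2, hL2, hr2, hr2R, -, hP2⟩ :=
    exists_paramsE (R := √u0 / 2) (by positivity) (by linarith) A'
  obtain ⟨P0, hk⟩ := kap_unif hγ
  set δ : ℝ := 1 - σ / 2 with hδ
  have hδ0 : 0 < δ := by rw [hδ]; linarith
  have hδ1 : δ ≤ 1 := by rw [hδ]; linarith
  set C : ℝ := Real.exp (2 * Γ) / δ with hC
  have hCpos : 0 ≤ C := by positivity
  have hone : ∀ m : ℕ, (1 : ℝ) ≤ m + 1 := fun m => by simp
  have hkap : ∀ (m : ℕ) (a b : ℂ), -σ / 2 ≤ a.re → ‖b‖ ≤ Γ → 2 * Γ < m →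
      ‖kap m a b 0‖ ≤ ((m : ℝ) + 1) ^ P0 → ∀ j, 2 * j ≤ m →
      ‖kap m a b j‖ ≤ C * ((m : ℝ) + 1) ^ (P0 + 1) * m.choose j := by
    intro m a b h1 h2 h3 h4 j hj
    refine (norm_kap_le hδ0 hδ1 (by rw [hδ]; linarith) h2 h3 hj).trans ?_
    gcongr ?_ * _
    calc ‖kap m a b 0‖ * (Real.exp (2 * Γ) * (m + 1) / δ)
        ≤ ((m : ℝ) + 1) ^ P0 * (Real.exp (2 * Γ) * (m + 1) / δ) := by gcongr
      _ = _ := by rw [hC]; ring
  set E1 : ℝ := Real.exp (Γ * (1 - Real.log d)) with hE1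
  set E2 : ℝ := Real.exp (Γ * (1 - Real.log √u0)) with hE2
  obtain ⟨Sη1, hM1⟩ := hP1 E1 F0 C ((1 + (d / 2 / 2) ^ 2) / (d / 2 / 2) ^ 2) (P0 + 1) hCpos
  obtain ⟨Sη2, hM2⟩ := hP2 E2 F0 C ((1 + (√u0 / 2 / 2) ^ 2) / (√u0 / 2 / 2) ^ 2) (P0 + 1) hCpos
  set η1 : ℕ → ℝ := fun m => etaF m (m / L1) A' (d / 2) r E1 F0 (C * ((m : ℝ) + 1) ^ (P0 + 1))
    ((1 + (d / 2 / 2) ^ 2) / (d / 2 / 2) ^ 2) with hη1
  set η2 : ℕ → ℝ := fun m => etaF m (m / L2) A' (√u0 / 2) r2 E2 F0 (C * ((m : ℝ) + 1) ^ (P0 + 1))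
    ((1 + (√u0 / 2 / 2) ^ 2) / (√u0 / 2 / 2) ^ 2) with hη2
  have hη10 : ∀ m, 0 ≤ η1 m := fun m =>
    etaF_nonneg _ _ _ (by positivity) hr.le hF00 (by positivity) (by positivity)
  have hη20 : ∀ m, 0 ≤ η2 m := fun m =>
    etaF_nonneg _ _ _ (by positivity) hr2.le hF00 (by positivity) (by positivity)
  have Sη : ESm fun m => η1 m + η2 m := Sη1.add Sη2
  set M : ℕ → ℝ := fun m => 3 * (E1 ^ 2 + E2 ^ 2) * C * ((m : ℝ) + 1) ^ (P0 + 1) with hMdef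
  set η' : ℕ → ℝ := fun m => (η1 m + η2 m) + 2 * ((m : ℝ) + 1) * (η1 m + η2 m) * M m with hη'
  have Sη' : ESm η' := by
    refine (Sη.add ((Sη.poly_mul (P0 + 2)).const_mul (6 * (E1 ^ 2 + E2 ^ 2) * C))).congr
      fun m => ?_
    simp only [hη', hMdef]
    ring
  have hev : ∀ᶠ m : ℕ in atTop, (2 * (m / L1) + 2 * A' ≤ m ∧ 1 ≤ m / L1) ∧
      (2 * (m / L2) + 2 * A' ≤ m ∧ 1 ≤ m / L2) ∧ 2 * Γ < m ∧
      √((m : ℝ) + 1) * (η1 m + η2 m) ≤ 1 / 2 := by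
    have h1 : ∀ L, 8 ≤ L → ∀ᶠ m : ℕ in atTop, 2 * (m / L) + 2 * A' ≤ m ∧ 1 ≤ m / L := by
      intro L hL
      filter_upwards [eventually_ge_atTop (3 * A'), eventually_ge_atTop L] with m h1 h2
      have h3 : 8 * (m / L) ≤ m := (Nat.mul_le_mul_right _ hL).trans (Nat.mul_div_le m L)
      exact ⟨by omega, (Nat.le_div_iff_mul_le (by omega)).mpr (by omega)⟩
    filter_upwards [h1 L1 hL1, h1 L2 hL2,
      tendsto_natCast_atTop_atTop.eventually (eventually_gt_atTop (2 * Γ)),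
      (Sη.poly_mul 1).tendsto.eventually (gt_mem_nhds (show (0 : ℝ) < 1 / 2 by norm_num))]
      with m h2 h3 h4 h5
    refine ⟨h2, h3, h4, le_trans ?_ h5.le⟩
    have := hη10 m
    have := hη20 m
    gcongr
    rw [pow_one]
    exact Real.sqrt_le_iff.mpr ⟨by positivity, by nlinarith [hone m]⟩
  have hσ' : -1 < -σ / 2 := by linarith
  have hbre : ∀ s ∈ Icc (0 : ℝ) 1, ∀ T : Finset ι, -(A' : ℝ) ≤ (∑ j ∈ T, (s : ℂ) * γ j / 2).re := by
    intro s hs T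
    have := (abs_le.mp ((abs_re_le_norm _).trans (norm_half_sum_le (hsum s hs) T))).1
    linarith
  set ξ : ℕ → ℝ := fun m => (C * ((m : ℝ) + 1) ^ (P0 + 1) * 2 ^ m) * ((1 + Γ) * (m + 1)) *
      (r ^ 2) ^ (m / L1) + Γ * ((m : ℝ) + 1) ^ P0 * (1 - u0) ^ (m - A') with hξ
  have S6 : ESm ξ := by
    have hy : 1 < (1 - u0)⁻¹ := by
      rw [lt_inv_comm₀ one_pos (by linarith)]; linarith
    have h1u : 0 < 1 - u0 := by linarith
    have S7 : ESm fun m => (1 - u0) ^ (m - A') := by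
      refine ((esm_inv_pow hy).const_mul ((1 - u0)⁻¹ ^ A')).of_le (fun m => by positivity)
        fun m => ?_
      rw [inv_pow, inv_pow, one_div, inv_inv, inv_mul_eq_div, le_div_iff₀ (by positivity),
        ← pow_add]
      exact pow_le_pow_of_le_one h1u.le (by linarith) (by omega)
    refine (((S5.poly_mul (P0 + 2)).const_mul (C * (1 + Γ))).add
      ((S7.poly_mul P0).const_mul Γ)).congr fun m => ?_
    simp only [hξ]
    ring
  set Cl : ℝ := Γ + Γ + Γ * -Real.log d with hCl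
  set W : ℝ := ∫ u in Ioo (0 : ℝ) 1, wgt (-σ / 2) u with hWdef
  have hW : 0 ≤ W := setIntegral_nonneg measurableSet_Ioo fun u hu => wgt_nonneg _ hu
  refine ⟨fun m => F1 * η' m + Fintype.card ι *
      (2 * Real.exp (Γ * -Real.log √u0) * Cl * η' m + Cl * W * ξ m),
    (Sη'.const_mul _).add (((Sη'.const_mul _).add (S6.const_mul _)).const_mul _), ?_⟩
  filter_upwards [hk, hev, hM1, hM2] with m hkm h3 h4 h5 t hx α β hu hsep
  obtain ⟨h1, h2⟩ := hkm t hx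
  obtain ⟨⟨hJ1, hJ1'⟩, ⟨hJ2, hJ2'⟩, hΓm, hsq⟩ := h3
  have hD0 := integrable_Dom hu hd hd1 hsep hσ0 hσ2
  have hD1 := integrable_Dom hu hd hd1 hsep (σ := σ + ε) (by linarith) (by rw [hε]; linarith)
  have hf : Integrable (fun z => Complex.exp (GG α β (fun i => t * γ i) z)) sig :=
    hD0.mono' (measurable_exp_GG _ _ _).aestronglyMeasurable
      (Eventually.of_forall (norm_exp_GG_le hu (hre t hx)))
  have hfF : ∫ z, ‖Complex.exp (GG α β (fun i => t * γ i) z)‖ ∂sig ≤ F0 :=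
    (integral_mono hf.norm hD0 (norm_exp_GG_le hu (hre t hx))).trans
      (integral_Dom_le hu hd hd1 hsep hσ0 hσ2)
  have hfGb : ∀ z, ‖Complex.exp (GG α β (fun i => t * γ i) z)‖ *
      ‖GG α β γ z‖ ≤ Γ / ε * Dom α β (σ + ε) z := by
    intro z
    rw [← Dom_mul, mul_left_comm]
    exact mul_le_mul (norm_exp_GG_le hu (hre t hx) z) (norm_GG_le hu hε0 le_rfl z) (norm_nonneg _)
      (Real.exp_pos _).le
  have hfG : Integrable
      (fun z => ‖Complex.exp (GG α β (fun i => t * γ i) z)‖ * ‖GG α β γ z‖) sig :=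
    (hD1.const_mul _).mono'
      ((measurable_exp_GG _ _ _).norm.mul (measurable_GG _ _ _).norm).aestronglyMeasurable
      (Eventually.of_forall fun z => by
        rw [Real.norm_of_nonneg (by positivity)]; exact hfGb z)
  have hfGF : ∫ z, ‖Complex.exp (GG α β (fun i => t * γ i) z)‖ * ‖GG α β γ z‖ ∂sig ≤ F1 := by
    refine (integral_mono hfG (hD1.const_mul _) hfGb).trans ?_
    rw [integral_const_mul]
    exact mul_le_mul_of_nonneg_left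
      (integral_Dom_le hu hd hd1 hsep (by linarith) (by rw [hε]; linarith)) (by positivity)
  have := hη10 m
  have := hη20 m
  have hM0 : 0 ≤ M m := by simp only [hMdef]; positivity
  have h := density_estimate (γ := γ) (η := η1 m + η2 m) (M := M m)
    (N := (m : ℂ) + 1 + ∑ j, t * γ j / 2)
    (P := fun i => PP m (m / L1) (t * γ i / 2) (∑ j ∈ {i}ᶜ, t * γ j / 2))
    hu hd hd1 hsep hr (by linarith) (hsum _ hx) hf hfG (by positivity) hM0 hsq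
    (fun w hw => (approx_regular hu hd2 hd21 (hsum _ hx) hA' hf hfF hJ2 hJ2'
      (by positivity) (fun j hj => hkap _ _ _ (by simp; linarith)
        (norm_half_sum_le (hsum _ hx) _) hΓm h2 j (by omega)) hr2.le hr2R hw).mono
      (by simp only [hη2]; linarith) (h5.trans (by
        simp only [hMdef]; gcongr; exact le_add_of_nonneg_left (by positivity))))
    (fun i ζ hζ hden => (approx_cap hu hd hd1 hsep (hsum _ hx) hA' hf hfF i
      (by linarith [hre2 _ hx i]) hJ1 hJ1' (by positivity)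
      (fun j hj => hkap _ _ _ (hre2 _ hx i) (norm_half_sum_le (hsum _ hx) _) hΓm (h1 i) j
        (by omega)) hrR hζ hden).mono
      (by simp only [hη1]; linarith) (h4.trans (by
        simp only [hMdef]; gcongr; exact le_add_of_nonneg_right (by positivity))))
    (fun i => measurable_PP _ _ _ _)
    (fun i => by
      simpa [ell] using integrableOn_cap (N := (m : ℂ) + 1 + ∑ j, t * γ j / 2) 0 0 1 hσ'
        (by linarith) (hre2 _ hx i) (hbre _ hx {i}ᶜ) (by omega : m / L1 + A' ≤ m) hu0h)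
    (fun i => integrableOn_cap _ _ _ hσ' (by linarith) (hre2 _ hx i) (hbre _ hx {i}ᶜ)
      (by omega : m / L1 + A' ≤ m) hu0h)
  refine ⟨h.1, ?_⟩
  have hη'0 : 0 ≤ η' m := by simp only [hη']; positivity
  have hA := h.2.1.trans (mul_le_mul_of_nonneg_left hfGF hη'0)
  have hB : ∀ i, ‖(∫ u in Ioo 0 u0, (((m : ℂ) + 1 + ∑ j, t * γ j / 2) -
        PP m (m / L1) (t * γ i / 2) (∑ j ∈ {i}ᶜ, t * γ j / 2) u) *
        ell (γ i / 2) (∑ j ∈ {i}ᶜ, γ j / 2)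
          (∑ j ∈ {i}ᶜ, γ j * (Real.log ‖α j * β i - β j * α i‖ : ℝ)) u) -
      capV m (t * γ i / 2) (∑ j ∈ {i}ᶜ, t * γ j / 2) (γ i / 2) (∑ j ∈ {i}ᶜ, γ j / 2)
        (∑ j ∈ {i}ᶜ, γ j * (Real.log ‖α j * β i - β j * α i‖ : ℝ))‖ ≤
      2 * Real.exp (Γ * -Real.log √u0) * Cl * η' m + Cl * W * ξ m := by
    intro i
    have han : ‖(t : ℂ) * γ i / 2‖ ≤ Γ := by
      simpa using norm_half_sum_le (hsum _ hx) {i}
    have hc1 : ‖γ i / 2‖ ≤ Γ := by simpa using norm_half_sum_le (c := γ) le_rfl {i}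
    have hc2 : ‖∑ j ∈ {i}ᶜ, γ j / 2‖ ≤ Γ := norm_half_sum_le (c := γ) le_rfl _
    have hc3 : ‖∑ j ∈ {i}ᶜ, γ j * (Real.log ‖α j * β i - β j * α i‖ : ℝ)‖ ≤ Γ * -Real.log d :=
      norm_logsum_le (α := fun j => α j * β i - β j * α i)
        (β := fun j => β j * conj (β i) + α j * conj (α i)) (fun j => unit_rot (hu j) (hu i))
        le_rfl hd hd1 fun j hj => hsep j i (by simpa using hj)
    have hc : ‖γ i / 2‖ + ‖∑ j ∈ {i}ᶜ, γ j / 2‖ +
        ‖∑ j ∈ {i}ᶜ, γ j * (Real.log ‖α j * β i - β j * α i‖ : ℝ)‖ ≤ Cl := by linarith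
    refine (cap_exact _ _ _ hσ' (by linarith) (hre2 _ hx i) (hbre _ hx {i}ᶜ)
      (by omega : m / L1 + A' ≤ m) hu0pos hu0h).trans ?_
    have h6 : ‖kap m (t * γ i / 2) (∑ j ∈ {i}ᶜ, t * γ j / 2) (m / L1)‖ ≤
        C * ((m : ℝ) + 1) ^ (P0 + 1) * 2 ^ m := by
      refine (hkap _ _ _ (hre2 _ hx i) (norm_half_sum_le (hsum _ hx) _) hΓm (h1 i) _
        (by omega)).trans ?_
      gcongr
      exact_mod_cast Nat.choose_le_two_pow _ _
    have h7 : ‖((m / L1 : ℕ) : ℂ) + t * γ i / 2‖ ≤ (1 + Γ) * (m + 1) := by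
      refine (norm_add_le _ _).trans ?_
      rw [Complex.norm_natCast]
      have : ((m / L1 : ℕ) : ℝ) ≤ m := by exact_mod_cast Nat.div_le_self _ _
      nlinarith [hone m]
    have h1u : 0 ≤ 1 - u0 := by linarith
    have h8 := mul_le_mul (mul_le_mul h6 h7 (norm_nonneg _) (by positivity))
      (pow_le_pow_left₀ hu0pos.le hu0r (m / L1)) (by positivity) (by positivity)
    have h9 := mul_le_mul_of_nonneg_right (mul_le_mul han (h1 i) (norm_nonneg _) hΓ0)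
      (pow_nonneg h1u (m - A'))
    have h10 : 0 ≤ ξ m := le_trans (by positivity) (add_le_add h8 h9)
    have h11 := mul_le_mul (h.2.2 i) hc (by positivity) (by positivity)
    have h12 := mul_le_mul_of_nonneg_right
      (mul_le_mul (add_le_add h8 h9) hc (by positivity) h10) hW
    refine (add_le_add h11 h12).trans (le_of_eq ?_)
    simp only [hξ, hη', hu0]
    ring
  have hC := (norm_sum_le _ _).trans (Finset.sum_le_card_nsmul Finset.univ _ _ fun i _ => hB i)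
  rw [nsmul_eq_mul, Finset.card_univ, Finset.sum_sub_distrib] at hC
  have e : ∀ a1 a2 a3 a4 : ℂ, a1 - (a2 - a4) = (a1 - (a2 - a3)) - (a3 - a4) := by
    intros; ring
  rw [exT, e]
  refine (norm_sub_le _ _).trans (add_le_add ?_ hC)
  rw [mul_comm F1]
  exact hA

end Pool.Agent.Lib.MP_8d6f76_pr
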