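import Pool.Agent.Lib.MP_8d6f76_pr.OnePt

open MeasureTheory Set Complex Filter Topology
open scoped ENNReal ComplexConjugate Real

namespace Pool.Agent.Lib.MP_8d6f76_pr

lemma ne_neg_nat {z : ℂ} (hz : 0 < z.re) (m : ℕ) : z ≠ -m := fun h => by
  rw [h, neg_re, natCast_re] at hz
  linarith [Nat.cast_nonneg (α := ℝ) m]

lemma hasDerivAt_Gamma_dig {z : ℂ} (hz : 0 < z.re) :
    HasDerivAt Gamma (Gamma z * digamma z) z := by
  have h := (differentiableAt_Gamma z (ne_neg_nat hz)).hasDerivAt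
  rw [digamma_def, logDeriv_apply, mul_div_cancel₀ _ (Gamma_ne_zero_of_re_pos hz)]
  exact h

lemma integral_phi (a b : ℂ) :
    ∫ u in Ioo (0 : ℝ) 1, phi a b u = betaIntegral (1 + a) (1 + b) := by
  have h := betaIntegral_eq a b 0 0
  simp only [Nat.cast_zero, zero_add, pow_zero, one_mul] at h
  exact h.symm

lemma integrableOn_phi_one {a b : ℂ} (ha : -1 < a.re) (hb : -1 < b.re) :
    IntegrableOn (phi a b) (Ioo 0 1) := by
  have h := integrableOn_beta (a := a) (b := b) (j := 0) (l := 0) (re_nat_add_pos ha 0)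
    (re_nat_add_pos hb 0)
  simpa using h

lemma norm_phi (a b : ℂ) (u : ℝ) :
    ‖phi a b u‖ = Real.exp (a.re * Real.log u + b.re * Real.log (1 - u)) := by
  simp [phi, Complex.norm_exp]

theorem beta_log {a b : ℂ} (ha : -1 < a.re) (hb : -1 < b.re) :
    IntegrableOn (fun u => phi a b u * (Real.log u : ℝ)) (Ioo 0 1) ∧
    ∫ u in Ioo (0 : ℝ) 1, phi a b u * (Real.log u : ℝ) =
      betaIntegral (1 + a) (1 + b) * (digamma (1 + a) - digamma (2 + a + b)) := by
  set ε : ℝ := (a.re + 1) / 3 with hε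
  have hε0 : 0 < ε := by rw [hε]; linarith
  have hre : ∀ x ∈ Metric.ball a ε, a.re - ε < x.re := fun x hx => by
    have h1 : ‖x - a‖ < ε := mem_ball_iff_norm.mp hx
    have h2 := (abs_le.mp ((abs_re_le_norm (x - a)).trans h1.le)).1
    have h3 := abs_re_le_norm (x - a)
    rw [sub_re] at h3
    have := (abs_lt.mp (h3.trans_lt h1)).1
    linarith
  have hbd : IntegrableOn (fun u => ‖phi (a - 2 * ε) b u‖ / ε) (Ioo 0 1) :=
    (integrableOn_phi_one (a := a - 2 * ε) (by
      simp only [sub_re, mul_re, re_ofNat, ofReal_re, im_ofNat, ofReal_im, mul_zero, sub_zero]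
      rw [hε]; linarith) hb).norm.div_const ε
  have h := hasDerivAt_integral_of_dominated_loc_of_deriv_le
    (μ := volume.restrict (Ioo (0 : ℝ) 1)) (F := fun (x : ℂ) u => phi x b u)
    (F' := fun (x : ℂ) u => phi x b u * (Real.log u : ℝ)) (x₀ := a)
    (bound := fun u => ‖phi (a - 2 * ε) b u‖ / ε) (Metric.ball_mem_nhds a hε0)
    (Eventually.of_forall fun x => (measurable_phi x b).aestronglyMeasurable)
    (integrableOn_phi_one ha hb)
    ((measurable_phi a b).mul (by fun_prop)).aestronglyMeasurable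
    (by
      filter_upwards [ae_restrict_mem measurableSet_Ioo] with u hu x hx
      have hl := Real.log_nonpos hu.1.le hu.2.le
      have h1 : -Real.log u * ε ≤ Real.exp (-ε * Real.log u) := by
        linarith [Real.add_one_le_exp (-ε * Real.log u)]
      rw [norm_mul, norm_phi, norm_phi, Complex.norm_real, Real.norm_eq_abs, abs_of_nonpos hl,
        le_div_iff₀ hε0, mul_assoc]
      refine (mul_le_mul_of_nonneg_left h1 (Real.exp_pos _).le).trans ?_
      rw [← Real.exp_add, Real.exp_le_exp]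
      simp only [sub_re, mul_re, re_ofNat, ofReal_re, im_ofNat, ofReal_im, mul_zero, sub_zero]
      nlinarith [hre x hx]) hbd
    (Eventually.of_forall fun u x _ => by
      unfold phi
      have h1 := (((hasDerivAt_id x).mul_const ((Real.log u : ℝ) : ℂ)).add_const
        (b * (Real.log (1 - u) : ℝ))).cexp
      simpa using h1)
  refine ⟨h.1, h.2.unique ?_⟩
  have h1a : 0 < (1 + a).re := by rw [add_re, one_re]; linarith
  have h1b : 0 < (1 + b).re := by rw [add_re, one_re]; linarith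
  have h2 : 0 < (1 + a + (1 + b)).re := by rw [add_re]; linarith
  have d1 : HasDerivAt (fun x => Gamma (1 + x)) (Gamma (1 + a) * digamma (1 + a)) a :=
    (hasDerivAt_Gamma_dig h1a).comp_const_add 1 a
  have d2 : HasDerivAt (fun x => Gamma (1 + x + (1 + b)))
      (Gamma (1 + a + (1 + b)) * digamma (1 + a + (1 + b))) a := by
    have := (hasDerivAt_Gamma_dig h2).comp a (((hasDerivAt_id a).const_add 1).add_const (1 + b))
    simpa [Function.comp_def] using this
  have hG := Gamma_ne_zero_of_re_pos h2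
  have d3 := (d1.mul_const (Gamma (1 + b))).fun_div d2 hG
  refine HasDerivAt.congr_of_eventuallyEq (d3.congr_deriv ?_) ?_
  · rw [betaIntegral_eq_Gamma_mul_div _ _ h1a h1b, show 2 + a + b = 1 + a + (1 + b) by ring]
    field_simp
  · filter_upwards [Metric.ball_mem_nhds a hε0] with x hx
    rw [integral_phi, betaIntegral_eq_Gamma_mul_div _ _ _ h1b]
    rw [add_re, one_re]
    have := hre x hx
    rw [hε] at this
    linarith

theorem beta_log' {a b : ℂ} (ha : -1 < a.re) (hb : -1 < b.re) :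
    IntegrableOn (fun u => phi a b u * (Real.log (1 - u) : ℝ)) (Ioo 0 1) ∧
    ∫ u in Ioo (0 : ℝ) 1, phi a b u * (Real.log (1 - u) : ℝ) =
      betaIntegral (1 + a) (1 + b) * (digamma (1 + b) - digamma (2 + a + b)) := by
  obtain ⟨h1, h2⟩ := beta_log hb ha
  have e : ∀ u : ℝ, phi a b u * (Real.log (1 - u) : ℝ) =
      (fun v : ℝ => phi b a v * (Real.log v : ℝ)) (1 - u) := fun u => by
    simp only [phi, sub_sub_cancel, add_comm]
  simp_rw [e]
  constructor
  · rw [← intervalIntegrable_iff_integrableOn_Ioo_of_le zero_le_one] at h1 ⊢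
    simpa using (h1.comp_sub_left 1).symm
  · rw [betaIntegral_symm, show 2 + a + b = 2 + b + a by ring, ← h2,
      ← integral_Ioc_eq_integral_Ioo, ← integral_Ioc_eq_integral_Ioo,
      ← intervalIntegral.integral_of_le zero_le_one, ← intervalIntegral.integral_of_le zero_le_one,
      intervalIntegral.integral_comp_sub_left (fun v : ℝ => phi b a v * (Real.log v : ℝ)) 1]
    simp

lemma kap_beta {m : ℕ} {a b : ℂ} (ha : -1 < a.re) (hb : -1 < ((m : ℂ) + b).re) :
    kap m a b 0 * betaIntegral (1 + a) (1 + (m + b)) = 1 := by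
  have h := kap_mul (m := m) (j := 0) (b := b) ha (by
    simp only [Nat.sub_zero, add_re, natCast_re, one_re] at hb ⊢; linarith)
  simp only [Nat.cast_zero, zero_add, Nat.sub_zero] at h
  rwa [show 1 + ((m : ℂ) + b) = m + 1 + b by ring]

lemma tt_zero (m : ℕ) (a b : ℂ) {u : ℝ} (hu : u ∈ Ioo (0 : ℝ) 1) :
    tt m a b 0 u = phi a (m + b) u := by
  simpa using tt_eq_phi m a b 0 hu

lemma digamma_add_nat {z : ℂ} (hz : -1 < z.re) (K : ℕ) :
    digamma (1 + z + K) = digamma (1 + z) + ∑ k ∈ Finset.range K, ((k : ℂ) + 1 + z)⁻¹ := by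
  induction K with
  | zero => simp
  | succ K ih =>
    rw [Finset.sum_range_succ, ← add_assoc, ← ih, Nat.cast_succ, ← add_assoc,
      digamma_apply_add_one _ (ne_neg_nat (by
        rw [show 1 + z + K = (K : ℂ) + 1 + z by ring]; exact re_nat_add_pos hz K))]
    congr 2
    ring

lemma tendsto_digamma {z : ℂ} (hz : -1 < z.re) :
    Tendsto (fun m : ℕ => digamma 1 - digamma (1 + z + (m + 1 : ℕ)) + (Real.log (m + 1) : ℝ))
      atTop (𝓝 (Xi 0)) := by
  refine (tendsto_logMoment (mm := fun m => m) (a := fun _ => 0) (b := fun _ => z) tendsto_id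
    tendsto_const_nhds tendsto_const_nhds (by simp)).congr fun m => ?_
  have hb : -1 < ((m : ℂ) + z).re := by
    rw [add_re, natCast_re]; linarith [Nat.cast_nonneg (α := ℝ) m]
  have h0 : -1 < (0 : ℂ).re := by simp
  obtain ⟨h1, h2⟩ := beta_log h0 hb
  have hk := kap_beta h0 hb
  have hn : (0 : ℝ) < m + 1 := by positivity
  have e : ∫ u in Ioo (0 : ℝ) 1, (1 - (u : ℂ)) ^ m * phi 0 z u *
      ((Real.log ((m + 1) * u) : ℝ) : ℂ) =
      (∫ u in Ioo (0 : ℝ) 1, phi 0 (m + z) u * (Real.log u : ℝ)) +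
        (Real.log (m + 1) : ℝ) * ∫ u in Ioo (0 : ℝ) 1, phi 0 (m + z) u := by
    rw [← integral_const_mul, ← integral_add h1 ((integrableOn_phi_one h0 hb).const_mul _)]
    refine setIntegral_congr_fun measurableSet_Ioo fun u hu => ?_
    simp only [← tt_zero m 0 z hu, tt, pow_zero, one_mul, Nat.sub_zero,
      Real.log_mul hn.ne' hu.1.ne']
    push_cast
    ring
  rw [e, h2, integral_phi, show (2 : ℂ) + 0 + (m + z) = 1 + z + (m + 1 : ℕ) by push_cast; ring,
    add_zero] at *
  linear_combination (digamma 1 - digamma (1 + z + (m + 1 : ℕ)) + (Real.log (m + 1) : ℝ)) * hk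

lemma tendsto_dig_sum {z : ℂ} (hz : -1 < z.re) :
    Tendsto (fun K : ℕ => ∑ k ∈ Finset.range K, (((k : ℂ) + 1)⁻¹ - ((k : ℂ) + 1 + z)⁻¹)) atTop
      (𝓝 (digamma (1 + z) + Real.eulerMascheroniConstant)) := by
  rw [← tendsto_add_atTop_iff_nat 1]
  have h0 : -1 < (0 : ℂ).re := by simp
  have h := ((tendsto_digamma hz).sub (tendsto_digamma h0)).add_const
    (digamma (1 + z) + Real.eulerMascheroniConstant)
  rw [sub_self, zero_add] at h
  refine h.congr fun m => ?_
  rw [digamma_add_nat hz, digamma_add_nat h0, Finset.sum_sub_distrib]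
  simp only [add_zero, digamma_one]
  ring

theorem hasDerivAt_barnesG {z : ℂ} (hz : -1 < z.re) :
    HasDerivAt (fun w => barnesG (1 + w)) (barnesG (1 + z) *
      ((((Real.log (2 * π) : ℝ) : ℂ) - 1) / 2 - z + z * digamma (1 + z))) z := by
  set ε : ℝ := min 1 ((z.re + 1) / 2) with hε
  have hε0 : 0 < ε := lt_min one_pos (by linarith)
  have hε1 : ε ≤ 1 := min_le_left _ _
  have hε2 : ε ≤ (z.re + 1) / 2 := min_le_right _ _
  have hre : ∀ x ∈ Metric.ball z ε, -1 + ε ≤ x.re := fun x hx => by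
    have h1 : ‖x - z‖ < ε := mem_ball_iff_norm.mp hx
    have h3 := abs_re_le_norm (x - z)
    rw [sub_re] at h3
    have := (abs_lt.mp (h3.trans_lt h1)).1
    linarith
  have hn : ∀ x ∈ Metric.ball z ε, ‖x‖ ≤ ‖z‖ + 1 := fun x hx => by
    have h1 : ‖x - z‖ < ε := mem_ball_iff_norm.mp hx
    linarith [norm_le_insert' x z]
  have hk1 : ∀ k : ℕ, ((k : ℂ) + 1) ≠ 0 := fun k => by exact_mod_cast Nat.succ_ne_zero k
  have hk2 : ∀ x ∈ Metric.ball z ε, ∀ k : ℕ, (k : ℂ) + 1 + x ≠ 0 := fun x hx k h => by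
    have := re_nat_add_pos (a := x) (by linarith [hre x hx]) k
    rw [h] at this
    simp at this
  have hsum : Summable fun k : ℕ => (‖z‖ + 1) ^ 2 / ε * (1 / ((k + 1 : ℕ) : ℝ) ^ 2) :=
    ((summable_nat_add_iff 1).mpr (Real.summable_one_div_nat_pow.mpr one_lt_two)).mul_left _
  have hbd : ∀ (k : ℕ), ∀ x ∈ Metric.ball z ε,
      ‖x * (((k : ℂ) + 1)⁻¹ - ((k : ℂ) + 1 + x)⁻¹)‖ ≤
        (‖z‖ + 1) ^ 2 / ε * (1 / ((k + 1 : ℕ) : ℝ) ^ 2) := by
    intro k x hx
    have e : x * (((k : ℂ) + 1)⁻¹ - ((k : ℂ) + 1 + x)⁻¹) =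
        x ^ 2 / (((k : ℂ) + 1) * ((k : ℂ) + 1 + x)) := by
      have := hk1 k
      have := hk2 x hx k
      field_simp
      ring
    have h2 : ‖(k : ℂ) + 1‖ = (k : ℝ) + 1 := by exact_mod_cast Complex.norm_natCast (k + 1)
    have h3 : ε * ((k : ℝ) + 1) ≤ ‖(k : ℂ) + 1 + x‖ := by
      refine le_trans ?_ (re_le_norm _)
      simp only [add_re, natCast_re, one_re]
      nlinarith [hre x hx, Nat.cast_nonneg (α := ℝ) k]
    rw [e, norm_div, norm_mul, norm_pow, h2]
    push_cast
    calc ‖x‖ ^ 2 / (((k : ℝ) + 1) * ‖(k : ℂ) + 1 + x‖)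
        ≤ (‖z‖ + 1) ^ 2 / (((k : ℝ) + 1) * (ε * ((k : ℝ) + 1))) := by
          gcongr
          exact hn x hx
      _ = _ := by field_simp
  have hd : ∀ (k : ℕ), ∀ x ∈ Metric.ball z ε, HasDerivAt (fun w => wlog w k)
      (x * (((k : ℂ) + 1)⁻¹ - ((k : ℂ) + 1 + x)⁻¹)) x := by
    intro k x hx
    have hs : 1 + x / ((k : ℂ) + 1) ∈ slitPlane := by
      left
      have e : 1 + x / ((k : ℂ) + 1) = ((k : ℂ) + 1 + x) / (((k : ℝ) + 1 : ℝ) : ℂ) := by
        have := hk1 k
        push_cast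
        field_simp
      rw [e, div_ofReal_re]
      exact div_pos (re_nat_add_pos (by linarith [hre x hx]) k) (by positivity)
    have d1 := ((((hasDerivAt_id x).div_const ((k : ℂ) + 1)).const_add 1).clog hs).const_mul
      ((k + 1 : ℕ) : ℂ)
    have d2 := (((hasDerivAt_id x).fun_pow 2).div_const (2 * ((k : ℂ) + 1))).sub (hasDerivAt_id x)
    refine (d1.add d2).congr_deriv ?_
    have := hk1 k
    have := hk2 x hx k
    simp only [id]
    push_cast
    field_simp
    ring
  have hz0 : z ∈ Metric.ball z ε := Metric.mem_ball_self hε0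
  have h := hasDerivAt_tsum_of_isPreconnected hsum Metric.isOpen_ball
    (convex_ball z ε).isPreconnected hd hbd hz0 (summable_wlog z) hz0
  have hs : Summable fun k : ℕ => z * (((k : ℂ) + 1)⁻¹ - ((k : ℂ) + 1 + z)⁻¹) :=
    Summable.of_norm_bounded hsum fun k => hbd k z hz0
  have e : ∑' k : ℕ, z * (((k : ℂ) + 1)⁻¹ - ((k : ℂ) + 1 + z)⁻¹) =
      z * (digamma (1 + z) + Real.eulerMascheroniConstant) := by
    refine tendsto_nhds_unique hs.hasSum.tendsto_sum_nat ?_
    simpa only [Finset.mul_sum] using (tendsto_dig_sum hz).const_mul z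
  rw [e] at h
  have d1 := (((hasDerivAt_id z).div_const 2).mul_const ((Real.log (2 * π) : ℝ) : ℂ)).sub
    (((hasDerivAt_id z).add (((hasDerivAt_id z).fun_pow 2).mul_const
      (1 + (Real.eulerMascheroniConstant : ℂ)))).div_const 2)
  refine HasDerivAt.congr_of_eventuallyEq ((d1.add h).cexp.congr_deriv ?_) ?_
  · rw [barnesG_eq hz]
    simp only [id, Pi.add_apply, Pi.sub_apply]
    congr 1
    push_cast
    ring
  · filter_upwards [Metric.ball_mem_nhds z hε0] with x hx
    rw [barnesG_eq (by linarith [hre x hx])]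
    simp only [id, Pi.add_apply, Pi.sub_apply]

lemma barnesG_ne_zero {z : ℂ} (hz : -1 < z.re) : barnesG (1 + z) ≠ 0 := by
  rw [barnesG_eq hz]; exact Complex.exp_ne_zero _

end Pool.Agent.Lib.MP_8d6f76_pr
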