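import Pool.Agent.Lib.MP_8d6f76_pr.XBeta

open MeasureTheory Set Complex Filter Topology
open scoped ENNReal ComplexConjugate Real

namespace Pool.Agent.Lib.MP_8d6f76_pr

lemma q_integral {a M : ℂ} (ha : -1 < a.re) (hM : 0 ≤ M.re) :
    IntegrableOn (fun u : ℝ => a * phi a M u * (((1 - u) * Real.log (1 - u) : ℝ) : ℂ) / u)
      (Ioo 0 1) ∧
    ∫ u in Ioo (0 : ℝ) 1, a * phi a M u * (((1 - u) * Real.log (1 - u) : ℝ) : ℂ) / u =
      (M + 1) * (∫ u in Ioo (0 : ℝ) 1, phi a M u * (Real.log (1 - u) : ℝ)) +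
        ∫ u in Ioo (0 : ℝ) 1, phi a M u := by
  have hM' : -1 < M.re := by linarith
  have i0 := integrableOn_phi_one ha hM'
  have i1 := (beta_log' ha hM').1
  have hl : ∀ u ∈ Ioo (0 : ℝ) 1, |(1 - u) * Real.log (1 - u)| ≤ 2 * u := fun u hu => by
    have h := abs_le.mp (abs_lam2_le hu)
    rw [abs_le]
    constructor <;> nlinarith [hu.1, hu.2]
  have hp : ∀ u ∈ Ioo (0 : ℝ) 1, ‖phi a M u‖ ≤ u ^ a.re := fun u hu => by
    rw [norm_phi, Real.rpow_def_of_pos hu.1, Real.exp_le_exp]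
    nlinarith [Real.log_nonpos (show 0 ≤ 1 - u by linarith [hu.2]) (by linarith [hu.1])]
  have iq : IntegrableOn
      (fun u : ℝ => a * phi a M u * (((1 - u) * Real.log (1 - u) : ℝ) : ℂ) / u) (Ioo 0 1) := by
    refine (i0.norm.const_mul (‖a‖ * 2)).mono'
      ((((measurable_phi a M).const_mul a).mul (by fun_prop)).div
        (by fun_prop)).aestronglyMeasurable ?_
    filter_upwards [ae_restrict_mem measurableSet_Ioo] with u hu
    rw [norm_div, norm_mul, norm_mul, Complex.norm_real, Complex.norm_real, Real.norm_eq_abs,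
      Real.norm_of_nonneg hu.1.le, div_le_iff₀ hu.1]
    calc ‖a‖ * ‖phi a M u‖ * |(1 - u) * Real.log (1 - u)| ≤ ‖a‖ * ‖phi a M u‖ * (2 * u) := by
          gcongr
          exact hl u hu
      _ = _ := by ring
  refine ⟨iq, ?_⟩
  have hder : ∀ u ∈ Ioo (0 : ℝ) 1,
      HasDerivAt (fun u : ℝ => phi a M u * (((1 - u) * Real.log (1 - u) : ℝ) : ℂ))
        (a * phi a M u * (((1 - u) * Real.log (1 - u) : ℝ) : ℂ) / u -
          (M + 1) * (phi a M u * (Real.log (1 - u) : ℝ)) - phi a M u) u := by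
    intro u hu
    have h0 : (u : ℂ) ≠ 0 := by exact_mod_cast hu.1.ne'
    have h1 : (1 - u : ℝ) ≠ 0 := by linarith [hu.2]
    have h1' : (1 - (u : ℂ)) ≠ 0 := by exact_mod_cast h1
    have d1 : HasDerivAt (fun u : ℝ => (1 - u) * Real.log (1 - u)) (-Real.log (1 - u) - 1) u := by
      refine (((hasDerivAt_id u).const_sub 1).mul (hasDerivAt_log_one_sub hu)).congr_deriv ?_
      simp only [id]
      field_simp
      ring
    refine ((hasDerivAt_phi a M hu).mul d1.ofReal_comp).congr_deriv ?_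
    push_cast
    field_simp
    ring
  have l0 : Tendsto (fun u : ℝ => phi a M u * (((1 - u) * Real.log (1 - u) : ℝ) : ℂ)) (𝓝[>] 0)
      (𝓝 0) := by
    have h1 : Tendsto (fun u : ℝ => 2 * u ^ (a.re + 1)) (𝓝[>] 0) (𝓝 0) := by
      have := (Real.continuousAt_rpow_const 0 (a.re + 1) (Or.inr (by linarith))).tendsto
      rw [Real.zero_rpow (by linarith)] at this
      simpa using (this.mono_left nhdsWithin_le_nhds).const_mul 2
    refine squeeze_zero_norm' ?_ h1
    filter_upwards [Ioo_mem_nhdsGT (zero_lt_one' ℝ)] with u hu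
    have := hu.1
    rw [norm_mul, Complex.norm_real, Real.norm_eq_abs, Real.rpow_add hu.1, Real.rpow_one]
    calc _ ≤ u ^ a.re * (2 * u) := by
          gcongr
          · exact hp u hu
          · exact hl u hu
      _ = _ := by ring
  have l1 : Tendsto (fun u : ℝ => phi a M u * (((1 - u) * Real.log (1 - u) : ℝ) : ℂ)) (𝓝[<] 1)
      (𝓝 0) := by
    have h1 : Tendsto (fun u : ℝ => u ^ a.re * |(1 - u) * Real.log (1 - u)|) (𝓝[<] 1) (𝓝 0) := by
      have c1 := (Real.continuousAt_rpow_const 1 a.re (Or.inl one_ne_zero)).tendsto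
      have c2 : Continuous fun u : ℝ => |(1 - u) * Real.log (1 - u)| :=
        (Real.continuous_mul_log.comp (continuous_const.sub continuous_id)).abs
      simpa using (c1.mul (c2.tendsto 1)).mono_left nhdsWithin_le_nhds
    refine squeeze_zero_norm' ?_ h1
    filter_upwards [Ioo_mem_nhdsLT (zero_lt_one' ℝ)] with u hu
    rw [norm_mul, Complex.norm_real, Real.norm_eq_abs]
    gcongr
    exact hp u hu
  have i2 : IntegrableOn (fun u : ℝ => a * phi a M u * (((1 - u) * Real.log (1 - u) : ℝ) : ℂ) / u -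
      (M + 1) * (phi a M u * (Real.log (1 - u) : ℝ))) (Ioo 0 1) := iq.sub (i1.const_mul _)
  have hftc := intervalIntegral.integral_eq_sub_of_hasDerivAt_of_tendsto zero_lt_one hder
    ((intervalIntegrable_iff_integrableOn_Ioo_of_le zero_le_one).mpr (i2.sub i0)) l0 l1
  rw [intervalIntegral.integral_of_le zero_le_one, integral_Ioc_eq_integral_Ioo,
    integral_sub i2 i0, integral_sub iq (i1.const_mul _), integral_const_mul] at hftc
  linear_combination hftc

/-- The exact contribution of one pole to the logarithmic derivative. -/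
noncomputable def capV (m : ℕ) (a b c1 c2 c3 : ℂ) : ℂ :=
  a * c3 + c1 * a * (digamma (1 + a) - digamma (2 + a + (m + b)) - 1) +
    c2 * (-(m + b + 1) * (digamma (1 + (m + b)) - digamma (2 + a + (m + b))) - 1 - a)

lemma integral_D0 {m : ℕ} {a b : ℂ} (c1 c2 c3 : ℂ) (ha : -1 < a.re) (hM : 0 ≤ ((m : ℂ) + b).re) :
    ∫ u in Ioo (0 : ℝ) 1, kap m a b 0 * a * tt m a b 0 u / u * Lam c1 c2 c3 u =
      capV m a b c1 c2 c3 := by
  have hM' : -1 < ((m : ℂ) + b).re := by linarith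
  have i0 := integrableOn_phi_one ha hM'
  obtain ⟨i1, e1⟩ := beta_log ha hM'
  obtain ⟨-, e2⟩ := beta_log' ha hM'
  obtain ⟨iq, e3⟩ := q_integral ha hM
  have hk := kap_beta ha hM'
  have j1 : IntegrableOn (fun u : ℝ => a * c1 * (phi a (m + b) u * (Real.log u : ℝ)) +
      a * (c3 - c1 - c2) * phi a (m + b) u) (Ioo 0 1) := (i1.const_mul _).add (i0.const_mul _)
  have e : ∫ u in Ioo (0 : ℝ) 1, kap m a b 0 * a * tt m a b 0 u / u * Lam c1 c2 c3 u =
      kap m a b 0 * (a * c1 * (∫ u in Ioo (0 : ℝ) 1, phi a (m + b) u * (Real.log u : ℝ)) +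
        a * (c3 - c1 - c2) * (∫ u in Ioo (0 : ℝ) 1, phi a (m + b) u) -
        c2 * ∫ u in Ioo (0 : ℝ) 1,
          a * phi a (m + b) u * (((1 - u) * Real.log (1 - u) : ℝ) : ℂ) / u) := by
    rw [← integral_const_mul, ← integral_const_mul, ← integral_const_mul,
      ← integral_add (i1.const_mul _) (i0.const_mul _), ← integral_sub j1 (iq.const_mul _),
      ← integral_const_mul]
    refine setIntegral_congr_fun measurableSet_Ioo fun u hu => ?_
    have h0 : (u : ℂ) ≠ 0 := by exact_mod_cast hu.1.ne'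
    simp only [tt_zero m a b hu, Lam]
    push_cast
    field_simp
    ring
  rw [e, e3, e1, e2, integral_phi, capV]
  linear_combination (a * c1 * (digamma (1 + a) - digamma (2 + a + (m + b))) + a * (c3 - c1 - c2) -
    c2 * ((m + b + 1) * (digamma (1 + (m + b)) - digamma (2 + a + (m + b))) + 1)) * hk

theorem cap_exact {m J A' : ℕ} {a b N : ℂ} (c1 c2 c3 : ℂ) {σ u0 : ℝ} (hσ : -1 < σ)
    (hσ0 : σ ≤ 0) (ha : σ ≤ a.re) (hb : -(A' : ℝ) ≤ b.re) (hJ : J + A' ≤ m) (hu0 : 0 < u0)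
    (hu1 : u0 ≤ 1 / 2) :
    ‖(∫ u in Ioo (0 : ℝ) u0, (N - PP m J a b u) * ell c1 c2 c3 u) - capV m a b c1 c2 c3‖ ≤
      ‖N - PP m J a b u0‖ * (‖c1‖ + ‖c2‖ + ‖c3‖) +
      (‖kap m a b J‖ * ‖(J : ℂ) + a‖ * u0 ^ J + ‖a‖ * ‖kap m a b 0‖ * (1 - u0) ^ (m - A')) *
        (‖c1‖ + ‖c2‖ + ‖c3‖) * ∫ u in Ioo (0 : ℝ) 1, wgt σ u := by
  set Cl := ‖c1‖ + ‖c2‖ + ‖c3‖ with hCl
  have hCl0 : 0 ≤ Cl := by positivity
  have ha' : -1 < a.re := by linarith
  have hsub : Ioo 0 u0 ⊆ Ioo (0 : ℝ) 1 := Ioo_subset_Ioo_right (by linarith)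
  have hu01 : u0 ∈ Ioo (0 : ℝ) 1 := ⟨hu0, by linarith⟩
  set D : ℕ → ℝ → ℂ := fun j u => kap m a b j * (j + a) * tt m a b j u / u * Lam c1 c2 c3 u with hD
  have hDm : ∀ j, Measurable (D j) := fun j =>
    (((measurable_tt m a b j).const_mul _).div (by fun_prop)).mul (measurable_Lam c1 c2 c3)
  have hDb : ∀ j, j + A' ≤ m → ∀ u ∈ Ioo (0 : ℝ) 1, ∀ X : ℝ,
      u ^ j * (1 - u) ^ (m - j - A') ≤ X →
      ‖D j u‖ ≤ ‖kap m a b j‖ * ‖(j : ℂ) + a‖ * X * Cl * wgt σ u := by
    intro j hj u hu X hX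
    have h0 := hu.1
    have h1 : (0 : ℝ) < 1 - u := by linarith [hu.2]
    have hX0 : 0 ≤ X := le_trans (by positivity) hX
    have hl : 0 ≤ 1 - Real.log u := by linarith [Real.log_nonpos h0.le hu.2.le]
    have h2 : ‖tt m a b j u‖ ≤ X * u ^ σ := by
      refine (norm_tt_le ha hb hj hu).trans ?_
      gcongr
    simp only [hD, norm_mul, norm_div, Complex.norm_real, Real.norm_of_nonneg h0.le, wgt]
    calc ‖kap m a b j‖ * ‖(j : ℂ) + a‖ * ‖tt m a b j u‖ / u * ‖Lam c1 c2 c3 u‖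
        ≤ ‖kap m a b j‖ * ‖(j : ℂ) + a‖ * (X * u ^ σ) / u * (Cl * (u * (1 - Real.log u))) := by
          gcongr
          exact norm_Lam_le c1 c2 c3 hu
      _ = _ := by field_simp
  have hDi : ∀ j, j + A' ≤ m → IntegrableOn (D j) (Ioo 0 1) := fun j hj =>
    integrableOn_of_le_wgt hσ le_rfl (hDm j) fun u hu => hDb j hj u hu 1
      (mul_le_one₀ (pow_le_one₀ hu.1.le hu.2.le) (pow_nonneg (by linarith [hu.2]) _)
        (pow_le_one₀ (by linarith [hu.2]) (by linarith [hu.1])))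
  have hI := integrableOn_cap (N := N) c1 c2 c3 hσ hσ0 ha hb hJ hu1
  have hder : ∀ u ∈ Ioo (0 : ℝ) 1, HasDerivAt (fun u => (N - PP m J a b u) * Lam c1 c2 c3 u)
      ((N - PP m J a b u) * ell c1 c2 c3 u - D 0 u + D J u) u := by
    intro u hu
    refine (((hasDerivAt_PP ha' hb hJ hu).const_sub N).mul
      (hasDerivAt_Lam c1 c2 c3 hu)).congr_deriv ?_
    simp only [hD, Nat.cast_zero, zero_add]
    ring
  have hlim : Tendsto (fun u => (N - PP m J a b u) * Lam c1 c2 c3 u) (𝓝[>] 0) (𝓝 0) := by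
    have h1 : Tendsto (fun u : ℝ => u ^ (σ + 1)) (𝓝[>] 0) (𝓝 0) := by
      have := (Real.continuousAt_rpow_const 0 (σ + 1) (Or.inr (by linarith))).tendsto
      rw [Real.zero_rpow (by linarith)] at this
      exact this.mono_left nhdsWithin_le_nhds
    have h2 := (h1.sub (tendsto_log_mul_rpow_nhdsGT_zero (r := σ + 1) (by linarith))).const_mul
      ((‖N‖ + ∑ j ∈ Finset.range J, ‖kap m a b j‖) * Cl)
    rw [sub_zero, mul_zero] at h2
    refine squeeze_zero_norm' ?_ h2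
    filter_upwards [Ioo_mem_nhdsGT (zero_lt_one' ℝ)] with u hu
    have h0 := hu.1
    have hl : 0 ≤ 1 - Real.log u := by linarith [Real.log_nonpos h0.le hu.2.le]
    rw [norm_mul]
    calc _ ≤ ((‖N‖ + ∑ j ∈ Finset.range J, ‖kap m a b j‖) * u ^ σ) *
          (Cl * (u * (1 - Real.log u))) := by
          gcongr
          · exact norm_sub_PP_le hσ0 ha hb hJ hu
          · exact norm_Lam_le c1 c2 c3 hu
      _ = _ := by rw [Real.rpow_add h0, Real.rpow_one]; ring
  have i0 := (hDi 0 (by omega)).mono_set hsub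
  have iJ := (hDi J hJ).mono_set hsub
  have hftc := intervalIntegral.integral_eq_sub_of_hasDerivAt_of_tendsto hu0
    (fun u hu => hder u (hsub hu))
    ((intervalIntegrable_iff_integrableOn_Ioo_of_le hu0.le).mpr ((hI.sub i0).add iJ)) hlim
    ((hder u0 hu01).continuousAt.tendsto.mono_left nhdsWithin_le_nhds)
  have hI' : IntegrableOn (fun u => (N - PP m J a b u) * ell c1 c2 c3 u - D 0 u) (Ioo 0 u0) :=
    hI.sub i0
  rw [intervalIntegral.integral_of_le hu0.le, integral_Ioc_eq_integral_Ioo,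
    integral_add hI' iJ, integral_sub hI i0, sub_zero] at hftc
  have hsplit : ∫ u in Ioo (0 : ℝ) 1, D 0 u =
      (∫ u in Ioo (0 : ℝ) u0, D 0 u) + ∫ u in Ico u0 1, D 0 u := by
    rw [← setIntegral_union (by
        rw [Set.disjoint_left]; intro x hx hx'; linarith [hx.2, hx'.1]) measurableSet_Ico
      i0 ((hDi 0 (by omega)).mono_set fun x hx => ⟨hu0.trans_le hx.1, hx.2⟩),
      Ioo_union_Ico_eq_Ioo hu0 hu01.2.le]
  have hmain : ∫ u in Ioo (0 : ℝ) 1, D 0 u = capV m a b c1 c2 c3 := by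
    simp only [hD, Nat.cast_zero, zero_add]
    refine integral_D0 c1 c2 c3 ha' ?_
    have : (A' : ℝ) ≤ m := by exact_mod_cast (by omega : A' ≤ m)
    rw [add_re, natCast_re]; linarith
  have b1 : ‖(N - PP m J a b u0) * Lam c1 c2 c3 u0‖ ≤ ‖N - PP m J a b u0‖ * Cl := by
    rw [norm_mul]
    gcongr
    refine (norm_Lam_le c1 c2 c3 hu01).trans (mul_le_of_le_one_right hCl0 ?_)
    have h3 := Real.one_sub_inv_le_log_of_pos hu0
    have h4 := mul_le_mul_of_nonneg_left h3 hu0.le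
    have h5 : u0 * (1 - u0⁻¹) = u0 - 1 := by field_simp
    nlinarith
  have h1u : 0 ≤ 1 - u0 := by linarith
  have b3 := norm_integral_le_wgt hσ (by positivity) measurableSet_Ioo hsub
    fun u hu => hDb J hJ u (hsub hu) (u0 ^ J) (by
      have h1 : 0 ≤ 1 - u := by linarith [hu.2]
      refine (mul_le_of_le_one_right (pow_nonneg hu.1.le _)
        (pow_le_one₀ h1 (by linarith [hu.1]))).trans ?_
      exact pow_le_pow_left₀ hu.1.le hu.2.le _)
  have b4 := norm_integral_le_wgt hσ (by positivity) measurableSet_Ico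
    (fun x hx => ⟨hu0.trans_le hx.1, hx.2⟩)
    fun u hu => hDb 0 (by omega) u ⟨hu0.trans_le hu.1, hu.2⟩ ((1 - u0) ^ (m - A')) (by
      rw [pow_zero, one_mul, Nat.sub_zero]
      exact pow_le_pow_left₀ (by linarith [hu.2]) (by linarith [hu.1]) _)
  rw [← hmain]
  have e : (∫ u in Ioo (0 : ℝ) u0, (N - PP m J a b u) * ell c1 c2 c3 u) -
      ∫ u in Ioo (0 : ℝ) 1, D 0 u = (N - PP m J a b u0) * Lam c1 c2 c3 u0 -
      (∫ u in Ioo (0 : ℝ) u0, D J u) - ∫ u in Ico u0 1, D 0 u := by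
    rw [hsplit, ← hftc]; ring
  rw [e]
  refine (norm_sub_le _ _).trans ((add_le_add ((norm_sub_le _ _).trans
    (add_le_add b1 b3)) b4).trans (le_of_eq ?_))
  simp only [Nat.cast_zero, zero_add]
  ring

end Pool.Agent.Lib.MP_8d6f76_pr
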