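import Pool.Agent.Lib.MP_8d6f76_pr.XAsymp
import Pool.Agent.Lib.MP_8d6f76_pr.Final

open MeasureTheory Set Complex Filter Topology
open scoped ENNReal ComplexConjugate Real Matrix

namespace Pool.Agent.Lib.MP_8d6f76_pr

/-- `f` does not vanish at `t` and has logarithmic derivative `L` there. -/
def LD (f : ℝ → ℂ) (L : ℂ) (t : ℝ) : Prop := f t ≠ 0 ∧ HasDerivAt f (f t * L) t

lemma LD.mul {f g : ℝ → ℂ} {L L' : ℂ} {t : ℝ} (h : LD f L t) (h' : LD g L' t) :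
    LD (fun s => f s * g s) (L + L') t :=
  ⟨mul_ne_zero h.1 h'.1, (h.2.fun_mul h'.2).congr_deriv (by ring)⟩

lemma LD.div {f g : ℝ → ℂ} {L L' : ℂ} {t : ℝ} (h : LD f L t) (h' : LD g L' t) :
    LD (fun s => f s / g s) (L - L') t :=
  ⟨div_ne_zero h.1 h'.1, (h.2.fun_div h'.2 h'.1).congr_deriv (by have := h'.1; field_simp)⟩

lemma ld_const {c : ℂ} (hc : c ≠ 0) (t : ℝ) : LD (fun _ => c) 0 t :=
  ⟨hc, (hasDerivAt_const t c).congr_deriv (by ring)⟩

lemma ld_prod {ι : Type*} (s : Finset ι) {f : ι → ℝ → ℂ} {L : ι → ℂ} {t : ℝ}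
    (h : ∀ i, LD (f i) (L i) t) : LD (fun x => ∏ i ∈ s, f i x) (∑ i ∈ s, L i) t := by
  classical
  induction s using Finset.induction_on with
  | empty => simpa using ld_const one_ne_zero t
  | insert i s hi ih => simpa only [Finset.prod_insert hi, Finset.sum_insert hi] using (h i).mul ih

lemma LD.pow {f : ℝ → ℂ} {L : ℂ} {t : ℝ} (h : LD f L t) (n : ℕ) :
    LD (fun x => f x ^ n) (n * L) t := by
  simpa using ld_prod (Finset.range n) fun _ => h

lemma hasDerivAt_aff (x c : ℂ) (t : ℝ) : HasDerivAt (fun s : ℝ => x + s * c) c t := by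
  have d4 : HasDerivAt (fun s : ℝ => (s : ℂ)) 1 t := Complex.ofRealCLM.hasDerivAt
  simpa using (d4.mul_const c).const_add x

/-- The logarithmic derivative of the Barnes function at `1 + z`. -/
noncomputable def gB (z : ℂ) : ℂ :=
  (((Real.log (2 * π) : ℝ) : ℂ) - 1) / 2 - z + z * digamma (1 + z)

lemma ld_barnes {x c : ℂ} {t : ℝ} (h : -1 < (x + t * c).re) :
    LD (fun s : ℝ => barnesG (1 + (x + s * c))) (c * gB (x + t * c)) t :=
  ⟨barnesG_ne_zero h, (HasDerivAt.scomp (g₁ := fun w => barnesG (1 + w)) t (hasDerivAt_barnesG h)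
    (hasDerivAt_aff x c t)).congr_deriv (by rw [smul_eq_mul, gB]; ring)⟩

lemma ld_Gamma {x c : ℂ} {t : ℝ} (h : -1 < (x + t * c).re) :
    LD (fun s : ℝ => Gamma (1 + (x + s * c))) (c * digamma (1 + (x + t * c))) t := by
  have h1 : 0 < (1 + (x + t * c)).re := by rw [add_re, one_re]; linarith
  exact ⟨Gamma_ne_zero_of_re_pos h1, ((hasDerivAt_Gamma_dig h1).scomp t
    ((hasDerivAt_aff x c t).const_add 1)).congr_deriv (by rw [smul_eq_mul]; ring)⟩

lemma ld_gauss (c : ℂ) (t : ℝ) : LD (fun s : ℝ => Complex.exp ((s : ℂ) ^ 2 * c)) (2 * t * c) t := by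
  have d4 : HasDerivAt (fun s : ℝ => (s : ℂ)) 1 t := Complex.ofRealCLM.hasDerivAt
  exact ⟨Complex.exp_ne_zero _, ((d4.fun_pow 2).mul_const c).cexp.congr_deriv (by simp)⟩

lemma gronwall_ld {Q e : ℝ → ℂ} {η : ℝ} (h : ∀ t ∈ Icc (0 : ℝ) 1, LD Q (e t) t)
    (he : ∀ t ∈ Icc (0 : ℝ) 1, ‖e t‖ ≤ η) (h0 : Q 0 = 1) (hη : η ≤ 1) : ‖Q 1 - 1‖ ≤ 2 * η := by
  have hη0 : 0 ≤ η := (norm_nonneg _).trans (he 0 ⟨le_rfl, zero_le_one⟩)
  have hder : ∀ t ∈ Icc (0 : ℝ) 1, HasDerivAt (fun s => Q s - 1) (Q t * e t) t :=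
    fun t ht => (h t ht).2.sub_const 1
  have hG := norm_le_gronwallBound_of_norm_deriv_right_le (δ := 0) (K := η) (ε := η)
    (fun t ht => (hder t ht).continuousAt.continuousWithinAt)
    (fun t ht => (hder t (Ico_subset_Icc_self ht)).hasDerivWithinAt)
    (by simp [h0]) (fun t ht => by
      rw [norm_mul]
      have h1 := he t (Ico_subset_Icc_self ht)
      have h2 : ‖Q t‖ ≤ ‖Q t - 1‖ + 1 := by simpa using norm_add_le (Q t - 1) 1
      calc _ ≤ (‖Q t - 1‖ + 1) * η := by gcongr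
        _ = _ := by ring) 1 ⟨zero_le_one, le_rfl⟩
  rcases hη0.eq_or_lt with h1 | h1
  · subst h1
    simpa [gronwallBound_K0] using hG
  · rw [gronwallBound_of_K_ne_0 h1.ne'] at hG
    simp only [sub_zero, mul_one, zero_mul, zero_add, div_self h1.ne', one_mul] at hG
    have h2 := Real.abs_exp_sub_one_le (x := η) (by rw [abs_of_pos h1]; exact hη)
    rw [abs_of_pos h1] at h2
    exact hG.trans ((le_abs_self _).trans h2)

variable {ι : Type*} [Fintype ι] [DecidableEq ι]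

/-- The closed form along the interpolation. -/
noncomputable def MM (α β γ : ι → ℂ) (m : ℕ) (t : ℝ) : ℂ :=
  (Gamma (1 + ((m : ℂ) + 1)) / Gamma (1 + (((m : ℂ) + 1) + t * ((∑ i, γ i) / 2)))) ^ (m + 1) *
    (barnesG (1 + (((m : ℂ) + 1) + t * ((∑ i, γ i) / 2))) / barnesG (1 + ((m : ℂ) + 1))) ^ 2 *
    (∏ i, barnesG (1 + (((m : ℂ) + 1) + t * ((∑ j, γ j - γ i) / 2))) /
      (barnesG (1 + (0 + t * (γ i / 2))) *
        barnesG (1 + (((m : ℂ) + 1) + t * ((∑ i, γ i) / 2))))) /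
    Complex.exp ((t : ℂ) ^ 2 *
      ((∑ i, γ i * ∑ j ∈ {i}ᶜ, γ j * (Real.log ‖α j * β i - β j * α i‖ : ℝ)) / 4))

lemma MM_zero (α β γ : ι → ℂ) (m : ℕ) : MM α β γ m 0 = 1 := by
  have h : -1 < ((m : ℂ) + 1).re := by
    rw [add_re, natCast_re, one_re]; linarith [Nat.cast_nonneg (α := ℝ) m]
  have h1 := barnesG_ne_zero h
  have h2 : Gamma (1 + ((m : ℂ) + 1)) ≠ 0 :=
    Gamma_ne_zero_of_re_pos (by rw [add_re, one_re]; linarith)
  have h3 : barnesG 1 = 1 := by simp [barnesG]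
  simp [MM, h1, h2, h3]

lemma sum_compl_half (c : ι → ℂ) (i : ι) : ∑ j ∈ {i}ᶜ, c j / 2 = (∑ j, c j - c i) / 2 := by
  rw [← Finset.sum_div, ← Finset.sum_compl_add_sum {i}, Finset.sum_singleton]
  ring

lemma ld_MM (α β : ι → ℂ) {γ : ι → ℂ} (hγ : ∀ i, -2 < (γ i).re) {m : ℕ} (hm : ∑ i, ‖γ i‖ ≤ m)
    {t : ℝ} (ht : t ∈ Icc (0 : ℝ) 1) : LD (MM α β γ m) (exT α β γ m t) t := by
  have hre : ∀ T : Finset ι, 0 < ((m : ℂ) + 1 + t * ∑ j ∈ T, γ j / 2).re := fun T => by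
    have h1 := (abs_le.mp ((abs_re_le_norm _).trans (norm_half_sum_le hm T))).1
    rw [add_re, add_re, natCast_re, one_re, re_ofReal_mul]
    nlinarith [ht.1, ht.2, Nat.cast_nonneg (α := ℝ) m]
  have hN : -1 < ((m : ℂ) + 1 + t * ((∑ i, γ i) / 2)).re := by
    have := hre Finset.univ
    rw [← Finset.sum_div] at this
    linarith
  have hB : ∀ i, 0 < ((m : ℂ) + 1 + t * ((∑ j, γ j - γ i) / 2)).re := fun i => by
    rw [← sum_compl_half]; exact hre _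
  have ha : ∀ i, -1 < (0 + t * (γ i / 2)).re := fun i => by
    rw [zero_add, re_ofReal_mul, div_ofNat_re]
    rcases le_total 0 (γ i).re with h | h
    · nlinarith [mul_nonneg ht.1 h]
    · nlinarith [hγ i, mul_nonneg_of_nonpos_of_nonpos h (sub_nonpos.mpr ht.2)]
  have h : -1 < ((m : ℂ) + 1).re := by
    rw [add_re, natCast_re, one_re]; linarith [Nat.cast_nonneg (α := ℝ) m]
  have h2 : Gamma (1 + ((m : ℂ) + 1)) ≠ 0 :=
    Gamma_ne_zero_of_re_pos (by rw [add_re, one_re]; linarith)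
  have H := (((((ld_const h2 t).div (ld_Gamma hN)).pow (m + 1)).mul
    (((ld_barnes hN).div (ld_const (barnesG_ne_zero h) t)).pow 2)).mul
    (ld_prod Finset.univ fun i => (ld_barnes (by linarith [hB i] :
      -1 < ((m : ℂ) + 1 + t * ((∑ j, γ j - γ i) / 2)).re)).div
        ((ld_barnes (ha i)).mul (ld_barnes hN)))).div (ld_gauss
      ((∑ i, γ i * ∑ j ∈ {i}ᶜ, γ j * (Real.log ‖α j * β i - β j * α i‖ : ℝ)) / 4) t)
  refine Eq.mp (congrArg (fun L => LD (MM α β γ m) L t) (Eq.symm ?_)) H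
  set s : ℂ := ∑ i, γ i with hs
  set N : ℂ := (m : ℂ) + 1 + t * (s / 2) with hNdef
  have e0 : ∑ j, (t : ℂ) * γ j / 2 = t * (s / 2) := by
    rw [← Finset.sum_div, ← Finset.mul_sum]; ring
  have e1 : ∀ i, capV m (t * γ i / 2) (∑ j ∈ {i}ᶜ, t * γ j / 2) (γ i / 2) (∑ j ∈ {i}ᶜ, γ j / 2)
      (∑ j ∈ {i}ᶜ, γ j * (Real.log ‖α j * β i - β j * α i‖ : ℝ)) =
      t / 2 * (γ i * ∑ j ∈ {i}ᶜ, γ j * (Real.log ‖α j * β i - β j * α i‖ : ℝ)) -
      ((s - γ i) / 2 * gB ((m : ℂ) + 1 + t * ((s - γ i) / 2)) -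
        (γ i / 2 * gB (0 + t * (γ i / 2)) + s / 2 * gB N)) -
      ((((Real.log (2 * π) : ℝ) : ℂ) - 1) / 2 + (s * t / 4 + N / 2) * digamma (1 + N) - N / 2) *
        γ i := by
    intro i
    have e2 : ∑ j ∈ {i}ᶜ, (t : ℂ) * γ j / 2 = t * ((s - γ i) / 2) := by
      rw [sum_compl_half, ← Finset.mul_sum]; ring
    have e3 := digamma_apply_add_one _ (ne_neg_nat (hB i))
    have e4 : (m : ℂ) + 1 + t * ((s - γ i) / 2) ≠ 0 := fun h0 => by
      have := hB i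
      rw [h0, zero_re] at this
      exact lt_irrefl _ this
    have e5 := mul_inv_cancel₀ e4
    rw [capV, e2, sum_compl_half, ← hs,
      show 2 + (t : ℂ) * γ i / 2 + (m + t * ((s - γ i) / 2)) = 1 + N by rw [hNdef]; ring,
      show 1 + ((m : ℂ) + t * ((s - γ i) / 2)) = m + 1 + t * ((s - γ i) / 2) by ring]
    simp only [gB]
    rw [add_comm 1 ((m : ℂ) + 1 + t * ((s - γ i) / 2)), e3,
      show (0 : ℂ) + t * (γ i / 2) = t * γ i / 2 by ring]
    rw [hNdef]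
    linear_combination (s - γ i) / 2 * e5
  rw [exT, e0]
  simp only [e1, Finset.sum_sub_distrib, ← Finset.mul_sum, ← hs, ← hNdef]
  simp only [gB]
  push_cast
  linear_combination (-(s / 2) * digamma (1 + N)) * hNdef

theorem det_exact {γ : ι → ℂ} (hγ : ∀ i, -2 < (γ i).re) {d : ℝ} (hd : 0 < d) (hd1 : d ≤ 1) :
    ∃ c : ℝ, 0 < c ∧ ∀ᶠ m : ℕ in atTop, ∀ α β : ι → ℂ,
      (∀ i, ‖α i‖ ^ 2 + ‖β i‖ ^ 2 = 1) → (∀ i j, i ≠ j → d ≤ ‖α i * β j - β i * α j‖) →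
      ‖DD α β γ m 1 / MM α β γ m 1 - 1‖ ≤ Real.exp (-c * (m + 1 : ℕ)) := by
  obtain ⟨ε, hε, H⟩ := main_exact hγ hd hd1
  have hε1 := hε.tendsto
  obtain ⟨y, hy, hε2⟩ := hε
  have hy0 : 0 < y := by linarith
  refine ⟨Real.log y, Real.log_pos hy, ?_⟩
  filter_upwards [H, hε1.eventually (gt_mem_nhds zero_lt_one),
    hε2.eventually (gt_mem_nhds (show 0 < 1 / (2 * y) by positivity)),
    tendsto_natCast_atTop_atTop.eventually (eventually_ge_atTop (∑ i, ‖γ i‖))]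
    with m h1 h2 h3 h4 α β hu hsep
  refine (gronwall_ld (Q := fun t => DD α β γ m t / MM α β γ m t)
    (fun t ht => LD.div ⟨(h1 t ht α β hu hsep).1,
      hasDerivAt_DD hu hd hd1 hsep hγ m ht (h1 t ht α β hu hsep).1⟩ (ld_MM α β hγ h4 ht))
    (fun t ht => (h1 t ht α β hu hsep).2) (by simp [DD_zero, MM_zero]) h2.le).trans ?_
  rw [neg_mul, Real.exp_neg, mul_comm (Real.log y), Real.exp_nat_mul, Real.exp_log hy0,
    ← one_div, le_div_iff₀ (by positivity), pow_succ]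
  rw [lt_div_iff₀ (by positivity)] at h3
  linarith

theorem closedForm (k : ℕ) (γ : Fin k → ℂ) (hγ : ∀ i, -2 < (γ i).re) (δ : ℝ) (hδ : 0 < δ) :
    ∃ c : ℝ, 0 < c ∧ ∀ᶠ n : ℕ in atTop, ∀ p : Fin k → OnePoint ℂ,
      (∀ i j, i ≠ j → δ ≤ chord (p i) (p j)) →
      ‖(∫ ω, Complex.exp (∑ i, γ i * (linStat (green (p i)) ω.1 ω.2 : ℝ))
          ∂((ginibre n).prod (ginibre n))) /
        ((Gamma (n + 1) / Gamma (n + 1 + (∑ i, γ i) / 2)) ^ n *
          (barnesG (n + 1 + (∑ i, γ i) / 2) / barnesG (n + 1)) ^ 2 *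
          (∏ i, barnesG (n + 1 + (∑ j, γ j - γ i) / 2) /
            (barnesG (1 + γ i / 2) * barnesG (n + 1 + (∑ j, γ j) / 2))) /
          ∏ i, ∏ j ∈ Finset.Ioi i, ((chord (p i) (p j) : ℝ) : ℂ) ^ (γ i * γ j / 2)) - 1‖ ≤
        Real.exp (-c * n) := by
  have hd : 0 < min δ 1 := lt_min hδ one_pos
  have hd1 : min δ 1 ≤ 1 := min_le_right _ _
  obtain ⟨c, hc, H⟩ := det_exact hγ hd hd1
  refine ⟨c, hc, ?_⟩
  rw [← (map_add_atTop_eq_nat 1), eventually_map]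
  filter_upwards [H] with m hm p hp
  have hsep : ∀ i j, i ≠ j → min δ 1 ≤ ‖uA (p i) * uB (p j) - uB (p i) * uA (p j)‖ :=
    fun i j hij => by rw [cross_u]; exact (min_le_left _ _).trans (hp i j hij)
  have hu : ∀ i, ‖uA (p i)‖ ^ 2 + ‖uB (p i)‖ ^ 2 = 1 := fun i => unit_u _
  obtain ⟨σ, hσ0, hσ2, hσ⟩ := exists_sigma hγ
  have hF : Integrable (fun z => Complex.exp
      (GG (fun i => uA (p i)) (fun i => uB (p i)) (fun i => ((1 : ℝ) : ℂ) * γ i) z)) sig :=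
    (integrable_Dom hu hd hd1 hsep hσ0 hσ2).mono' (measurable_exp_GG _ _ _).aestronglyMeasurable
      (Eventually.of_forall (norm_exp_GG_le hu fun i => by simpa using (hσ i).le))
  have h1 : ∫ ω, Complex.exp (∑ i, γ i * (linStat (green (p i)) ω.1 ω.2 : ℝ))
      ∂((ginibre (m + 1)).prod (ginibre (m + 1))) =
      DD (fun i => uA (p i)) (fun i => uB (p i)) γ m 1 := by
    rw [DD, ← (expect_eq m (measurable_exp_GG _ _ _) hF).2]
    refine integral_congr_ae (Eventually.of_forall fun ω => ?_)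
    simp only [linStat, exp_sum_multiset, GG, green, dl_u, ofReal_one, one_mul]
  have h4 : ∏ i, ∏ j ∈ Finset.Ioi i, ((chord (p i) (p j) : ℝ) : ℂ) ^ (γ i * γ j / 2) =
      Complex.exp ((∑ i, γ i * ∑ j ∈ {i}ᶜ, γ j *
        (Real.log ‖uA (p j) * uB (p i) - uB (p j) * uA (p i)‖ : ℝ)) / 4) := by
    have h5 := Finset.sum_sum_Ioi_add_eq_sum_sum_off_diag
      (fun j i => γ i * (γ j * (Real.log (chord (p j) (p i)) : ℝ)))
    simp only [cross_u, Finset.mul_sum]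
    rw [← h5, Finset.sum_div, Complex.exp_sum]
    refine Finset.prod_congr rfl fun i _ => ?_
    rw [Finset.sum_div, Complex.exp_sum]
    refine Finset.prod_congr rfl fun j hj => ?_
    have h6 := hδ.trans_le (hp i j (Finset.mem_Ioi.mp hj).ne)
    rw [cpow_def_of_ne_zero (by exact_mod_cast h6.ne'), ← Complex.ofReal_log h6.le,
      chord_comm (p j) (p i)]
    congr 1
    ring
  have h := hm _ _ hu hsep
  rw [h1, h4]
  have e1 : ∀ x : ℂ, ((m + 1 : ℕ) : ℂ) + 1 + x = 1 + ((m : ℂ) + 1 + x) := fun x => by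
    push_cast; ring
  have e2 : ((m + 1 : ℕ) : ℂ) + 1 = 1 + ((m : ℂ) + 1) := by push_cast; ring
  simp only [e1]
  simpa only [MM, e2, ofReal_one, one_mul, one_pow, zero_add] using h

theorem closedForm_asymp (k : ℕ) (γ : Fin k → ℂ) (hγ : ∀ i, -2 < (γ i).re) :
    Tendsto (fun n : ℕ =>
      ((Gamma (n + 1) / Gamma (n + 1 + (∑ i, γ i) / 2)) ^ n *
          (barnesG (n + 1 + (∑ i, γ i) / 2) / barnesG (n + 1)) ^ 2 *
          ∏ i, barnesG (n + 1 + (∑ j, γ j - γ i) / 2) /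
            (barnesG (1 + γ i / 2) * barnesG (n + 1 + (∑ j, γ j) / 2))) /
        (Complex.exp (-(∑ i, γ i) / 2 * n - (∑ i, γ i) / 4 - (∑ i, γ i) ^ 2 / 8) *
          (2 * Real.pi : ℂ) ^ ((∑ i, γ i) / 4) * (n : ℂ) ^ ((∑ i, γ i ^ 2) / 8) /
          ∏ i, barnesG (1 + γ i / 2))) atTop (𝓝 1) := by
  set p : Fin k → OnePoint ℂ := fun i => OnePoint.some ((i : ℕ) : ℂ) with hpdef
  have hp : Function.Injective p := fun i j h =>
    Fin.ext (Nat.cast_injective (R := ℂ) (OnePoint.coe_injective h))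
  obtain ⟨d, hd, hsep⟩ : ∃ d : ℝ, 0 < d ∧ ∀ i j, i ≠ j → d ≤ chord (p i) (p j) := by
    have h1 : ∀ᶠ d in 𝓝[>] (0 : ℝ), d ∈ Ioo (0 : ℝ) 1 := Ioo_mem_nhdsGT one_pos
    have h2 : ∀ᶠ d in 𝓝[>] (0 : ℝ), ∀ i j, i ≠ j → d ∈ Ioo 0 (chord (p i) (p j)) := by
      refine eventually_all.mpr fun i => eventually_all.mpr fun j => ?_
      by_cases hij : i = j
      · exact Eventually.of_forall fun d h => (h hij).elim
      · filter_upwards [Ioo_mem_nhdsGT (chord_pos (hp.ne hij))] with d hd _ using hd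
    obtain ⟨d, h3, h4⟩ := (h1.and h2).exists
    exact ⟨d, h3.1, fun i j hij => (h4 i j hij).2.le⟩
  obtain ⟨c, hc, H⟩ := closedForm k γ hγ d hd
  have h0 : Tendsto (fun n : ℕ => Real.exp (-c * n)) atTop (𝓝 0) :=
    Real.tendsto_exp_atBot.comp
      (tendsto_natCast_atTop_atTop.const_mul_atTop_of_neg (by linarith))
  have h1 := tendsto_iff_norm_sub_tendsto_zero.mpr
    (squeeze_zero' (Eventually.of_forall fun _ => norm_nonneg _) (H.mono fun n hn => hn p hsep) h0)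
  have h2 := (fisherHartwig k p hp γ hγ).div h1 one_ne_zero
  rw [div_one] at h2
  refine h2.congr' ?_
  filter_upwards [h1.eventually_ne one_ne_zero] with n hn
  have e : ∀ E A D c1 c2 c3 c4 : ℂ, E / (A / D) ≠ 0 →
      E / (c1 * c2 * (c3 / D) * (1 / c4)) / (E / (A / D)) = A / (c1 * c2 * c3 / c4) := by
    intro E A D c1 c2 c3 c4 h
    obtain ⟨hE, h⟩ := div_ne_zero_iff.mp h
    obtain ⟨hA, hD⟩ := div_ne_zero_iff.mp h
    rw [show c1 * c2 * (c3 / D) * (1 / c4) = c1 * c2 * c3 / c4 / D by ring]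
    generalize c1 * c2 * c3 / c4 = C
    field_simp
  exact e _ _ _ _ _ _ _ hn

end Pool.Agent.Lib.MP_8d6f76_pr
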