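import Pool.Agent.Lib.MP_8d6f76_pr.XCap

open MeasureTheory Set Complex Filter Topology
open scoped ENNReal ComplexConjugate Real

namespace Pool.Agent.Lib.MP_8d6f76_pr

/-- Exponential decay. -/
def ESm (ε : ℕ → ℝ) : Prop :=
  ∃ y : ℝ, 1 < y ∧ Tendsto (fun m : ℕ => y ^ m * ε m) atTop (𝓝 0)

lemma esm_mono {ε : ℕ → ℝ} {y z : ℝ} (hz : 0 ≤ z) (hzy : z ≤ y)
    (h : Tendsto (fun m : ℕ => y ^ m * ε m) atTop (𝓝 0)) :
    Tendsto (fun m : ℕ => z ^ m * ε m) atTop (𝓝 0) := by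
  refine squeeze_zero_norm (fun m => ?_) (tendsto_zero_iff_norm_tendsto_zero.mp h)
  rw [norm_mul, norm_mul, norm_pow, norm_pow, Real.norm_of_nonneg hz,
    Real.norm_of_nonneg (hz.trans hzy)]
  gcongr

lemma ESm.congr {ε ε' : ℕ → ℝ} (h : ESm ε) (e : ∀ m, ε m = ε' m) : ESm ε' := funext e ▸ h

lemma ESm.add {ε ε' : ℕ → ℝ} (h : ESm ε) (h' : ESm ε') : ESm fun m => ε m + ε' m := by
  obtain ⟨y, hy, h⟩ := h
  obtain ⟨z, hz, h'⟩ := h'
  have h1 : 1 < min y z := lt_min hy hz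
  refine ⟨min y z, h1, ?_⟩
  simpa only [mul_add, add_zero] using (esm_mono (by linarith) (min_le_left _ _) h).add
    (esm_mono (by linarith) (min_le_right _ _) h')

lemma ESm.const_mul {ε : ℕ → ℝ} (h : ESm ε) (C : ℝ) : ESm fun m => C * ε m := by
  obtain ⟨y, hy, h⟩ := h
  exact ⟨y, hy, by simpa only [mul_zero, mul_left_comm C] using h.const_mul C⟩

lemma ESm.poly_mul {ε : ℕ → ℝ} (h : ESm ε) (q : ℕ) :
    ESm fun m => ((m : ℝ) + 1) ^ q * ε m := by
  obtain ⟨y, hy, h⟩ := h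
  have h1 : 1 < √y := Real.lt_sqrt_of_sq_lt (by linarith)
  refine ⟨√y, h1, ?_⟩
  have h2 := (small_inv_pow h1 q).mul h
  rw [zero_mul] at h2
  refine h2.congr fun m => ?_
  have h3 : y ^ m = √y ^ m * √y ^ m := by rw [← mul_pow, Real.mul_self_sqrt (by linarith)]
  rw [h3]
  field_simp

lemma ESm.of_le {ε ε' : ℕ → ℝ} (h : ESm ε') (h0 : ∀ m, 0 ≤ ε m) (h1 : ∀ m, ε m ≤ ε' m) :
    ESm ε := by
  obtain ⟨y, hy, h⟩ := h
  exact ⟨y, hy, squeeze_zero (fun m => by have := h0 m; positivity)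
    (fun m => by gcongr; exact h1 m) h⟩

lemma ESm.tendsto {ε : ℕ → ℝ} (h : ESm ε) : Tendsto ε atTop (𝓝 0) := by
  obtain ⟨y, hy, h⟩ := h
  simpa using esm_mono zero_le_one hy.le h

lemma esm_inv_pow {y : ℝ} (hy : 1 < y) : ESm fun m => 1 / y ^ m := by
  have h1 : 1 < √y := Real.lt_sqrt_of_sq_lt (by linarith)
  refine ⟨√y, h1, (small_inv_pow h1).tendsto.congr fun m => ?_⟩
  have h3 : y ^ m = √y ^ m * √y ^ m := by rw [← mul_pow, Real.mul_self_sqrt (by linarith)]
  simp only [h3]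
  field_simp

lemma esm_div_pow {y : ℝ} (hy : 1 < y) (p : ℕ) {L : ℕ} (hL : 0 < L) :
    ESm fun m => y ^ (p * m) / y ^ ((p + 1) * (L * (m / L))) := by
  have hy0 : 0 < y := by linarith
  refine ((esm_inv_pow hy).const_mul (y ^ ((p + 1) * L))).of_le (fun m => by positivity)
    fun m => ?_
  rw [mul_one_div, div_le_div_iff₀ (by positivity) (by positivity), ← pow_add, ← pow_add]
  refine pow_le_pow_right₀ hy.le ?_
  have h1 := Nat.lt_mul_div_succ m hL
  have h2 : (p + 1) * m ≤ (p + 1) * (L * (m / L + 1)) := Nat.mul_le_mul_left _ h1.le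
  nlinarith

theorem exists_paramsE {R : ℝ} (hR : 0 < R) (hR1 : R ≤ 1) (A' : ℕ) :
    ∃ (L : ℕ) (r0 : ℝ), 8 ≤ L ∧ 0 < r0 ∧ r0 ≤ R / 4 ∧ (ESm fun m => 2 ^ m * (r0 ^ 2) ^ (m / L)) ∧
      ∀ (E F0 C CR : ℝ) (P : ℕ), 0 ≤ C →
        (ESm fun m => etaF m (m / L) A' R r0 E F0 (C * ((m : ℝ) + 1) ^ P) CR) ∧
        ∀ᶠ m in atTop, bigM m (m / L) R r0 E (C * ((m : ℝ) + 1) ^ P) ≤
          3 * E ^ 2 * C * ((m : ℝ) + 1) ^ P := by
  set s1 : ℝ := √(1 + (R / 2) ^ 2) with hs1
  have hs : 1 < s1 := by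
    rw [hs1]; exact Real.lt_sqrt_of_sq_lt (by nlinarith)
  set g : ℝ := √(√s1) with hg
  have hg1 : 1 < g := by
    rw [hg]; refine Real.lt_sqrt_of_sq_lt ?_
    rw [one_pow]; exact Real.lt_sqrt_of_sq_lt (by linarith)
  have hg0 : 0 < g := by linarith
  have hg4 : g ^ 4 = s1 := by
    rw [show g ^ 4 = (g ^ 2) ^ 2 by ring, hg, Real.sq_sqrt (Real.sqrt_nonneg _),
      Real.sq_sqrt (by linarith)]
  obtain ⟨L0, hL0⟩ := pow_unbounded_of_one_lt (1 / R) hg1
  set L := L0 + 8 with hL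
  have hLpos : 0 < L := by omega
  have hgL : 1 / R ≤ g ^ L := hL0.le.trans (pow_le_pow_right₀ hg1.le (by omega))
  set r0 : ℝ := min (min (R / 4) (R / 2 * (g - 1))) (min (R / 2 * (1 / g ^ (5 * L))) (1 / 2 ^ L))
    with hr0
  have hr0pos : 0 < r0 := by
    have : 0 < g - 1 := by linarith
    rw [hr0]; positivity
  have hr1 : r0 ≤ R / 4 := (min_le_left _ _).trans (min_le_left _ _)
  have hr2 : r0 / (R / 2) ≤ g - 1 := by
    rw [div_le_iff₀ (by positivity), mul_comm]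
    exact (min_le_left _ _).trans (min_le_right _ _)
  have hr3 : r0 / (R / 2) ≤ 1 / g ^ (5 * L) := by
    rw [div_le_iff₀ (by positivity), mul_comm]
    exact (min_le_right _ _).trans (min_le_left _ _)
  have hr4 : r0 ≤ 1 / 2 ^ L := (min_le_right _ _).trans (min_le_right _ _)
  have hr5 : r0 ≤ r0 / (R / 2) := by
    rw [le_div_iff₀ (by positivity)]; nlinarith
  have hJ : ∀ m, L * (m / L) ≤ m := fun m => Nat.mul_div_le m L
  have hJ8 : ∀ m, 8 * (m / L) ≤ m := fun m =>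
    (Nat.mul_le_mul_right _ (by omega : 8 ≤ L)).trans (hJ m)
  have S1 : ESm fun m => (1 / 2 : ℝ) ^ (m / L) := by
    have hy : (1 : ℝ) < 2 ^ ((L : ℝ)⁻¹) := Real.one_lt_rpow one_lt_two (by positivity)
    refine (esm_div_pow hy 0 hLpos).of_le (fun m => by positivity) fun m => le_of_eq ?_
    rw [zero_mul, pow_zero, zero_add, one_mul, pow_mul, Real.rpow_inv_natCast_pow (by norm_num)
      hLpos.ne', div_pow, one_pow]
  have S2 : ESm fun m => (1 + r0) ^ m * (s1 ^ (2 * (m / L)) / s1 ^ m) / R ^ (m / L) := by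
    refine (esm_inv_pow hg1).of_le (fun m => by positivity) fun m => ?_
    have h1 : (1 + r0) ^ m ≤ g ^ m := by gcongr; linarith
    have h2 : s1 ^ (2 * (m / L)) ≤ g ^ m := by
      rw [← hg4, ← pow_mul]; exact pow_le_pow_right₀ hg1.le (by have := hJ8 m; omega)
    have h3 : 1 / R ^ (m / L) ≤ g ^ m := by
      calc 1 / R ^ (m / L) = (1 / R) ^ (m / L) := by rw [div_pow, one_pow]
        _ ≤ (g ^ L) ^ (m / L) := by gcongr
        _ ≤ g ^ m := by rw [← pow_mul]; exact pow_le_pow_right₀ hg1.le (hJ m)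
    calc (1 + r0) ^ m * (s1 ^ (2 * (m / L)) / s1 ^ m) / R ^ (m / L)
        = (1 + r0) ^ m * (s1 ^ (2 * (m / L)) / s1 ^ m) * (1 / R ^ (m / L)) := by ring
      _ ≤ g ^ m * (g ^ m / s1 ^ m) * g ^ m := by gcongr
      _ = 1 / g ^ m := by rw [← hg4, ← pow_mul, mul_comm 4 m, pow_mul]; field_simp
  have S3 : ESm fun m => (1 + r0 / (R / 2)) ^ m * (s1 ^ (2 * (m / L) + 2 * A') / s1 ^ m) := by
    refine ((esm_inv_pow hg1).const_mul (s1 ^ (2 * A'))).of_le (fun m => by positivity)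
      fun m => ?_
    have h1 : (1 + r0 / (R / 2)) ^ m ≤ g ^ m := by gcongr; linarith
    have h2 : s1 ^ (2 * (m / L)) ≤ g ^ m * g ^ m := by
      rw [← hg4, ← pow_mul, ← pow_add]; exact pow_le_pow_right₀ hg1.le (by have := hJ8 m; omega)
    calc (1 + r0 / (R / 2)) ^ m * (s1 ^ (2 * (m / L) + 2 * A') / s1 ^ m)
        ≤ g ^ m * (g ^ m * g ^ m * s1 ^ (2 * A') / s1 ^ m) := by rw [pow_add]; gcongr
      _ = s1 ^ (2 * A') * (1 / g ^ m) := by
        have : s1 ^ m = (g ^ m) ^ 4 := by rw [← hg4, ← pow_mul, mul_comm 4 m, pow_mul]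
        rw [this]; field_simp
  have S4 : ESm fun m => s1 ^ m * (r0 / (R / 2)) ^ (m / L) := by
    refine (esm_div_pow hg1 4 hLpos).of_le (fun m => by positivity) fun m => ?_
    calc s1 ^ m * (r0 / (R / 2)) ^ (m / L) ≤ s1 ^ m * (1 / g ^ (5 * L)) ^ (m / L) := by gcongr
      _ = _ := by
        rw [← hg4, ← pow_mul, div_pow, one_pow, ← pow_mul, mul_one_div, mul_assoc]
  have S5 : ESm fun m => 2 ^ m * (r0 ^ 2) ^ (m / L) := by
    refine (esm_div_pow one_lt_two 1 hLpos).of_le (fun m => by positivity) fun m => ?_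
    calc 2 ^ m * (r0 ^ 2) ^ (m / L) ≤ 2 ^ m * ((1 / 2 ^ L) ^ 2) ^ (m / L) := by gcongr
      _ = _ := by
        rw [div_pow, div_pow, one_pow, one_pow, ← pow_mul, ← pow_mul, mul_one_div, one_mul]
        congr 2
        ring
  have S2' : ESm fun m => ((m / L : ℕ) : ℝ) *
      ((1 + r0) ^ m * (s1 ^ (2 * (m / L)) / s1 ^ m) / R ^ (m / L)) := by
    refine (S2.poly_mul 1).of_le (fun m => by positivity) fun m => ?_
    gcongr
    rw [pow_one]
    have : ((m / L : ℕ) : ℝ) ≤ m := by exact_mod_cast Nat.div_le_self m L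
    linarith
  refine ⟨L, r0, by omega, hr0pos, hr1, S5, fun E F0 C CR P hC => ⟨?_, ?_⟩⟩
  · have h := (((((S1.const_mul (2 * (F0 + 1))).add (S2'.const_mul F0)).add
      (S3.const_mul CR)).poly_mul P).const_mul (E ^ 2 * C)).add (S4.const_mul (2 * E ^ 2))
    refine h.congr fun m => ?_
    simp only [etaF, ← hs1]
    ring
  · filter_upwards [S2'.tendsto.eventually (gt_mem_nhds zero_lt_one)] with m hm
    simp only [bigM, ← hs1]
    calc _ ≤ E ^ 2 * (C * ((m : ℝ) + 1) ^ P) * (2 + 1) := by gcongr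
      _ = _ := by ring

lemma integral_exp_neg_log_dl {α β : ℂ} (h : ‖α‖ ^ 2 + ‖β‖ ^ 2 = 1) (σ : ℝ) :
    ∫ z, Real.exp (-σ * Real.log (dl α β z)) ∂sig = ∫ u in Ioo (0 : ℝ) 1, u ^ (-σ / 2) := by
  have hm : Measurable fun z => Real.exp (-σ * Real.log (dl α β z)) :=
    ((Real.measurable_log.comp (continuous_dl _ _).measurable).const_mul _).exp
  rw [← integral_comp_mp (measurePreserving_mob h) hm.aestronglyMeasurable,
    ← integral_UU fun u => u ^ (-σ / 2)]
  refine integral_congr_ae ?_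
  have h0 : ∀ᵐ z ∂sig, z ≠ (0 : ℂ) := by rw [ae_iff]; simp
  filter_upwards [ae_sig_den_ne h, h0] with ζ hζ hζ0
  rw [Real.rpow_def_of_pos (UU_pos hζ0), ← dl_mob_self_sq h hζ, Real.log_pow]
  congr 1
  push_cast
  ring

variable {ι : Type*} [Fintype ι]

/-- A bound for the integral of the dominating function that depends only on the separation. -/
noncomputable def domB (k : ℕ) (d σ : ℝ) : ℝ :=
  Real.exp (σ * (k * -Real.log (d / 2))) * (1 + k * ∫ u in Ioo (0 : ℝ) 1, u ^ (-σ / 2))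

lemma integral_Dom_le {α β : ι → ℂ} (hu : ∀ i, ‖α i‖ ^ 2 + ‖β i‖ ^ 2 = 1) {d0 : ℝ} (hd0 : 0 < d0)
    (hd1 : d0 ≤ 1) (hsep : ∀ i j, i ≠ j → d0 ≤ ‖α i * β j - β i * α j‖) {σ : ℝ} (hσ0 : 0 ≤ σ)
    (hσ : σ < 2) : ∫ z, Dom α β σ z ∂sig ≤ domB (Fintype.card ι) d0 σ := by
  classical
  set Λ : ℝ := -Real.log (d0 / 2) with hΛ
  have hΛ0 : 0 ≤ Λ := by
    rw [hΛ]; linarith [Real.log_nonpos (show 0 ≤ d0 / 2 by positivity) (by linarith)]
  have hi := integrable_finsetSum Finset.univ fun i _ => integrable_exp_neg_log_dl (hu i) hσ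
  have hint : Integrable (fun z => Real.exp (σ * (Fintype.card ι * Λ)) *
      (1 + ∑ i, Real.exp (-σ * Real.log (dl (α i) (β i) z)))) sig :=
    ((integrable_const 1).add hi).const_mul _
  refine (integral_mono (integrable_Dom hu hd0 hd1 hsep hσ0 hσ) hint fun z => ?_).trans
    (le_of_eq ?_)
  · have hfar : ∀ j, d0 / 2 ≤ dl (α j) (β j) z → -Real.log (dl (α j) (β j) z) ≤ Λ := fun j hj => by
      rw [hΛ]; linarith [Real.log_le_log (by positivity) hj]
    have hpos : 0 ≤ ∑ i, Real.exp (-σ * Real.log (dl (α i) (β i) z)) :=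
      Finset.sum_nonneg fun i _ => (Real.exp_pos _).le
    simp only [Dom]
    by_cases hall : ∀ j, d0 / 2 ≤ dl (α j) (β j) z
    · have : ∑ i, -Real.log (dl (α i) (β i) z) ≤ Fintype.card ι * Λ := by
        simpa using Finset.sum_le_card_nsmul Finset.univ _ Λ fun j _ => hfar j (hall j)
      refine le_trans ?_ (le_mul_of_one_le_right (Real.exp_pos _).le (by linarith))
      gcongr
    · push Not at hall
      obtain ⟨i, hi⟩ := hall
      have h1 : ∑ j, -Real.log (dl (α j) (β j) z) ≤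
          Fintype.card ι * Λ + -Real.log (dl (α i) (β i) z) := by
        rw [← Finset.sum_erase_add _ _ (Finset.mem_univ i)]
        gcongr
        have h2 := Finset.sum_le_card_nsmul (Finset.univ.erase i) _ Λ fun j hj => hfar j (by
          have h3 := cross_le (hu i) (hu j) z
          have h4 := hsep i j (Finset.ne_of_mem_erase hj).symm
          linarith)
        refine h2.trans ?_
        rw [nsmul_eq_mul]
        gcongr
        exact Finset.card_le_univ _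
      calc Real.exp (σ * ∑ j, -Real.log (dl (α j) (β j) z))
          ≤ Real.exp (σ * (Fintype.card ι * Λ + -Real.log (dl (α i) (β i) z))) := by gcongr
        _ = Real.exp (σ * (Fintype.card ι * Λ)) * Real.exp (-σ * Real.log (dl (α i) (β i) z)) := by
            rw [← Real.exp_add]; congr 1; ring
        _ ≤ _ := by
            gcongr
            refine le_trans ?_ (le_add_of_nonneg_left zero_le_one)
            exact Finset.single_le_sum (f := fun i => Real.exp (-σ * Real.log (dl (α i) (β i) z)))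
              (fun i _ => (Real.exp_pos _).le) (Finset.mem_univ i)
  · rw [integral_const_mul, integral_add (integrable_const 1) hi,
      integral_finsetSum _ fun i _ => integrable_exp_neg_log_dl (hu i) hσ]
    simp only [integral_exp_neg_log_dl (hu _), domB, hΛ]
    simp

lemma eventually_kap_pow {κ : Type*} {l : Filter κ} [l.IsCountablyGenerated] {mm : κ → ℕ}
    {a b : κ → ℂ} {a0 b0 : ℂ} (hm : Tendsto mm l atTop) (ha : Tendsto a l (𝓝 a0))
    (hb : Tendsto b l (𝓝 b0)) (h0 : -1 < a0.re) {P : ℕ} (hP : a0.re + 2 ≤ P) :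
    ∀ᶠ i in l, ‖kap (mm i) (a i) (b i) 0‖ ≤ ((mm i : ℝ) + 1) ^ (P + 1) := by
  have hG : Gamma (a0 + 1) ≠ 0 := Gamma_ne_zero_of_re_pos (by rw [add_re, one_re]; linarith)
  have hG' : 0 < ‖Gamma (a0 + 1)‖ := norm_pos_iff.mpr hG
  have hare : Tendsto (fun i => (a i).re) l (𝓝 a0.re) := (continuous_re.tendsto _).comp ha
  filter_upwards [(tendsto_Tint_one hm ha hb h0).norm.eventually
    (lt_mem_nhds (show ‖Gamma (a0 + 1)‖ / 2 < ‖Gamma (a0 + 1)‖ by linarith)),
    hare.eventually (gt_mem_nhds (show a0.re < a0.re + 1 by linarith)),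
    (tendsto_natCast_atTop_atTop.comp hm).eventually
      (eventually_ge_atTop (‖Gamma (a0 + 1)‖ / 2)⁻¹)] with i h1 h2 h3
  have hn : (1 : ℝ) ≤ mm i + 1 := by simp
  rw [kap_zero_eq, norm_div, Complex.norm_exp, div_eq_inv_mul, pow_succ']
  refine mul_le_mul ((inv_anti₀ (by positivity) h1.le).trans (h3.trans (by simp))) ?_
    (Real.exp_pos _).le (by positivity)
  simp only [mul_re, add_re, one_re, ofReal_re, ofReal_im, mul_zero, sub_zero]
  rw [mul_comm, ← Real.rpow_def_of_pos (by linarith), ← Real.rpow_natCast]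
  exact Real.rpow_le_rpow_of_exponent_le hn (by linarith)

end Pool.Agent.Lib.MP_8d6f76_pr
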